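import Mathlib
set_option autoImplicit false

/-! An oscillatory integral with a phase that never vanishes together with its derivative. -/

namespace Pool.Agent.R245.OD

open MeasureTheory Set Complex intervalIntegral

/-- The data: a phase `D` with derivatives `D1`, `D2` on `[a,b]`. -/
structure Ph (a b A κ : ℝ) (D D1 D2 : ℝ → ℝ) : Prop where
  hab : a ≤ b
  hA : 0 ≤ A
  hκ : 0 < κ
  d1 : ∀ s ∈ Icc a b, HasDerivAt D (D1 s) s
  d2 : ∀ s ∈ Icc a b, HasDerivAt D1 (D2 s) s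
  c2 : ContinuousOn D2 (Icc a b)
  h2 : ∀ s ∈ Icc a b, (D2 s) ^ 2 ≤ A ^ 2 * (D s ^ 2 + D1 s ^ 2)
  low : ∀ s ∈ Icc a b, κ ^ 2 ≤ D s ^ 2 + D1 s ^ 2

variable {a b A κ : ℝ} {D D1 D2 : ℝ → ℝ}

/-- the sum of squares -/
def Nn (D D1 : ℝ → ℝ) (s : ℝ) : ℝ := D s ^ 2 + D1 s ^ 2

/-- the quotient -/
noncomputable def rh (D D1 : ℝ → ℝ) (s : ℝ) : ℝ := D1 s / Nn D D1 s

/-- its derivative -/
noncomputable def rh' (D D1 D2 : ℝ → ℝ) (s : ℝ) : ℝ :=
  (D2 s * Nn D D1 s - D1 s * (2 * D s * D1 s + 2 * D1 s * D2 s)) / Nn D D1 s ^ 2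

lemma Ph.Npos (h : Ph a b A κ D D1 D2) {s : ℝ} (hs : s ∈ Icc a b) : 0 < Nn D D1 s :=
  lt_of_lt_of_le (by have := h.hκ; positivity) (h.low s hs)

lemma Ph.rh_deriv (h : Ph a b A κ D D1 D2) {s : ℝ} (hs : s ∈ Icc a b) :
    HasDerivAt (rh D D1) (rh' D D1 D2 s) s := by
  have hN : HasDerivAt (Nn D D1) (2 * D s * D1 s + 2 * D1 s * D2 s) s := by
    have h1 := ((h.d1 s hs).pow 2).add ((h.d2 s hs).pow 2)
    refine h1.congr_deriv ?_
    simp
  exact (h.d2 s hs).div hN (h.Npos hs).ne'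

/-- the bound for `|ρ|` -/
lemma Ph.rh_le (h : Ph a b A κ D D1 D2) {s : ℝ} (hs : s ∈ Icc a b) : |rh D D1 s| ≤ 1 / κ := by
  have hN := h.Npos hs
  have hl := h.low s hs
  have hκ := h.hκ
  have hNd : Nn D D1 s = D s ^ 2 + D1 s ^ 2 := rfl
  unfold rh
  rw [abs_div, abs_of_pos hN, div_le_div_iff₀ hN hκ, one_mul]
  rw [← hNd] at hl
  have h1 : |D1 s| * κ ≤ Nn D D1 s := by
    have h2 : (|D1 s| * κ) ^ 2 ≤ (Nn D D1 s) ^ 2 := by
      rw [mul_pow, sq_abs]
      have h3 : D1 s ^ 2 ≤ Nn D D1 s := by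
        rw [hNd]
        nlinarith [sq_nonneg (D s)]
      calc D1 s ^ 2 * κ ^ 2 ≤ Nn D D1 s * Nn D D1 s := by
            apply mul_le_mul h3 hl (by positivity) hN.le
        _ = _ := by ring
    exact abs_le_of_sq_le_sq' h2 hN.le |>.2
  exact h1

lemma Ph.rh'_le (h : Ph a b A κ D D1 D2) {s : ℝ} (hs : s ∈ Icc a b) :
    |rh' D D1 D2 s| ≤ (3 * A + 2) / κ := by
  have hN := h.Npos hs
  have hl := h.low s hs
  have hκ := h.hκ
  have hA := h.hA
  have h2 := h.h2 s hs
  have hNd : Nn D D1 s = D s ^ 2 + D1 s ^ 2 := rfl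
  rw [← hNd] at hl h2
  set r := Real.sqrt (Nn D D1 s) with hr
  have hr0 : 0 < r := Real.sqrt_pos.2 hN
  have hrr : r ^ 2 = Nn D D1 s := Real.sq_sqrt hN.le
  have b0 : |D s| ≤ r := by
    rw [← Real.sqrt_sq_eq_abs]
    apply Real.sqrt_le_sqrt
    rw [hNd]
    nlinarith [sq_nonneg (D1 s)]
  have b1 : |D1 s| ≤ r := by
    rw [← Real.sqrt_sq_eq_abs]
    apply Real.sqrt_le_sqrt
    rw [hNd]
    nlinarith [sq_nonneg (D s)]
  have b2 : |D2 s| ≤ A * r := by
    apply abs_le_of_sq_le_sq _ (by positivity)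
    rw [mul_pow, hrr]
    exact h2
  have bκ : κ ≤ r := by
    rw [hr]
    apply Real.le_sqrt_of_sq_le
    exact hl
  unfold rh'
  rw [← hrr, abs_div, abs_of_pos (by positivity : (0:ℝ) < (r ^ 2) ^ 2)]
  have h5 : |D2 s * r ^ 2 - D1 s * (2 * D s * D1 s + 2 * D1 s * D2 s)| ≤ (3 * A + 2) * r ^ 3 := by
    calc |D2 s * r ^ 2 - D1 s * (2 * D s * D1 s + 2 * D1 s * D2 s)|
        ≤ |D2 s * r ^ 2| + |D1 s * (2 * D s * D1 s + 2 * D1 s * D2 s)| := abs_sub _ _
      _ ≤ |D2 s| * r ^ 2 + |D1 s| * (2 * |D s| * |D1 s| + 2 * |D1 s| * |D2 s|) := by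
          rw [abs_mul, abs_mul, abs_of_nonneg (by positivity : (0:ℝ) ≤ r ^ 2)]
          gcongr
          refine (abs_add_le _ _).trans ?_
          rw [abs_mul, abs_mul, abs_mul, abs_mul, abs_of_pos (by norm_num : (0:ℝ) < 2)]
      _ ≤ (A * r) * r ^ 2 + r * (2 * r * r + 2 * r * (A * r)) := by gcongr
      _ = (3 * A + 2) * r ^ 3 := by ring
  calc |D2 s * r ^ 2 - D1 s * (2 * D s * D1 s + 2 * D1 s * D2 s)| / (r ^ 2) ^ 2
      ≤ ((3 * A + 2) * r ^ 3) / (r ^ 2) ^ 2 := by gcongr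
    _ = (3 * A + 2) / r := by field_simp
    _ ≤ (3 * A + 2) / κ := by gcongr

lemma Ph.cD (h : Ph a b A κ D D1 D2) : ContinuousOn D (Icc a b) :=
  fun s hs => (h.d1 s hs).continuousAt.continuousWithinAt

lemma Ph.cD1 (h : Ph a b A κ D D1 D2) : ContinuousOn D1 (Icc a b) :=
  fun s hs => (h.d2 s hs).continuousAt.continuousWithinAt

lemma Ph.cN (h : Ph a b A κ D D1 D2) : ContinuousOn (Nn D D1) (Icc a b) :=
  (h.cD.pow 2).add (h.cD1.pow 2)

lemma Ph.crh (h : Ph a b A κ D D1 D2) : ContinuousOn (rh D D1) (Icc a b) :=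
  h.cD1.div h.cN fun _ hs => (h.Npos hs).ne'

lemma Ph.crh' (h : Ph a b A κ D D1 D2) : ContinuousOn (rh' D D1 D2) (Icc a b) := by
  unfold rh'
  refine ContinuousOn.div ?_ (h.cN.pow 2) fun s hs => (pow_pos (h.Npos hs) 2).ne'
  exact (h.c2.mul h.cN).sub (h.cD1.mul (((continuousOn_const.mul h.cD).mul h.cD1).add
    ((continuousOn_const.mul h.cD1).mul h.c2)))

/-- the first integral -/
lemma Ph.int1 (h : Ph a b A κ D D1 D2) {T : ℝ} (hT : 0 < T) (hTκ : 1 ≤ T * κ) :
    ∫ s in a..b, 1 / (1 + (T * D s) ^ 2) ≤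
      ((b - a) + Real.pi + (b - a) * (3 * A + 2) * Real.pi) / (T * κ) := by
  have hκ := h.hκ
  have hA := h.hA
  have hab := h.hab
  have hu : uIcc a b = Icc a b := uIcc_of_le hab
  have hTκ0 : 0 < T * κ := by positivity
  -- the two parts
  set F1 : ℝ → ℝ := fun s => D s ^ 2 / (Nn D D1 s * (1 + (T * D s) ^ 2)) with hF1
  set at' : ℝ → ℝ := fun s => (1 / (1 + (T * D s) ^ 2) * (T * D1 s)) with hat'
  set F2 : ℝ → ℝ := fun s => rh D D1 s * at' s with hF2
  have hpos : ∀ s, 0 < 1 + (T * D s) ^ 2 := fun s => by positivity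
  have hdec : ∀ s ∈ Icc a b, 1 / (1 + (T * D s) ^ 2) = F1 s + F2 s / T := by
    intro s hs
    have hN := h.Npos hs
    have hNd : Nn D D1 s = D s ^ 2 + D1 s ^ 2 := rfl
    have hp := hpos s
    simp only [hF1, hF2, hat', rh]
    field_simp
    rw [hNd]
  have cden : ContinuousOn (fun s => 1 + (T * D s) ^ 2) (Icc a b) :=
    continuousOn_const.add ((continuousOn_const.mul h.cD).pow 2)
  have c1 : ContinuousOn F1 (Icc a b) :=
    (h.cD.pow 2).div (h.cN.mul cden) fun s hs => (mul_pos (h.Npos hs) (hpos s)).ne'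
  have cat' : ContinuousOn at' (Icc a b) :=
    (continuousOn_const.div cden fun s _ => (hpos s).ne').mul (continuousOn_const.mul h.cD1)
  have c2 : ContinuousOn F2 (Icc a b) := h.crh.mul cat'
  have i1 : IntervalIntegrable F1 volume a b := by
    apply ContinuousOn.intervalIntegrable
    rw [hu]
    exact c1
  have i2 : IntervalIntegrable F2 volume a b := by
    apply ContinuousOn.intervalIntegrable
    rw [hu]
    exact c2
  have hsplit : ∫ s in a..b, 1 / (1 + (T * D s) ^ 2) =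
      (∫ s in a..b, F1 s) + (∫ s in a..b, F2 s) / T := by
    rw [← intervalIntegral.integral_div, ← intervalIntegral.integral_add i1 (i2.div_const T)]
    apply intervalIntegral.integral_congr
    intro s hs
    rw [hu] at hs
    exact hdec s hs
  have p1 : ∫ s in a..b, F1 s ≤ (b - a) / (T * κ) := by
    have h1 : ∫ s in a..b, F1 s ≤ ∫ s in a..b, 1 / (T * κ) := by
      apply intervalIntegral.integral_mono_on hab i1 (by simp)
      intro s hs
      have hN := h.Npos hs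
      have hl := h.low s hs
      have hNd : Nn D D1 s = D s ^ 2 + D1 s ^ 2 := rfl
      rw [← hNd] at hl
      simp only [hF1]
      rw [div_le_div_iff₀ (mul_pos hN (hpos s)) hTκ0, one_mul]
      calc D s ^ 2 * (T * κ) ≤ D s ^ 2 * ((T * κ) * (T * κ)) := by
            apply mul_le_mul_of_nonneg_left _ (sq_nonneg _)
            nlinarith
        _ = κ ^ 2 * (T * D s) ^ 2 := by ring
        _ ≤ Nn D D1 s * (1 + (T * D s) ^ 2) := by
            apply mul_le_mul hl _ (sq_nonneg _) hN.le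
            linarith
    refine h1.trans (le_of_eq ?_)
    rw [intervalIntegral.integral_const, smul_eq_mul]
    ring
  have p2 : (∫ s in a..b, F2 s) ≤ (Real.pi + (b - a) * (3 * A + 2) * Real.pi) / κ := by
    have hv : ∀ s ∈ uIcc a b, HasDerivAt (fun s => Real.arctan (T * D s)) (at' s) s := by
      intro s hs
      rw [hu] at hs
      exact ((h.d1 s hs).const_mul T).arctan
    have hibp := intervalIntegral.integral_mul_deriv_eq_deriv_mul (a := a) (b := b)
      (u := rh D D1) (v := fun s => Real.arctan (T * D s)) (u' := rh' D D1 D2) (v' := at')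
      (fun s hs => h.rh_deriv (by rwa [hu] at hs)) hv
      (by apply ContinuousOn.intervalIntegrable; rw [hu]; exact h.crh')
      (by apply ContinuousOn.intervalIntegrable; rw [hu]; exact cat')
    have hat : ∀ x, |Real.arctan x| ≤ Real.pi / 2 := fun x => by
      rw [abs_le]
      exact ⟨(Real.neg_pi_div_two_lt_arctan x).le, (Real.arctan_lt_pi_div_two x).le⟩
    have e : ∫ s in a..b, F2 s = ∫ s in a..b, rh D D1 s * at' s := rfl
    rw [e, hibp]
    have ha : a ∈ Icc a b := ⟨le_rfl, hab⟩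
    have hb : b ∈ Icc a b := ⟨hab, le_rfl⟩
    have q1 : |rh D D1 b * Real.arctan (T * D b)| ≤ (1 / κ) * (Real.pi / 2) := by
      rw [abs_mul]
      exact mul_le_mul (h.rh_le hb) (hat _) (abs_nonneg _) (by positivity)
    have q2 : |rh D D1 a * Real.arctan (T * D a)| ≤ (1 / κ) * (Real.pi / 2) := by
      rw [abs_mul]
      exact mul_le_mul (h.rh_le ha) (hat _) (abs_nonneg _) (by positivity)
    have q3 : |∫ s in a..b, rh' D D1 D2 s * Real.arctan (T * D s)| ≤
        ((3 * A + 2) / κ * (Real.pi / 2)) * |b - a| := by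
      rw [← Real.norm_eq_abs (∫ s in a..b, _)]
      apply intervalIntegral.norm_integral_le_of_norm_le_const
      intro s hs
      rw [uIoc_of_le hab] at hs
      rw [norm_mul, Real.norm_eq_abs, Real.norm_eq_abs]
      exact mul_le_mul (h.rh'_le ⟨hs.1.le, hs.2⟩) (hat _) (abs_nonneg _) (by positivity)
    rw [abs_of_nonneg (by linarith : (0:ℝ) ≤ b - a)] at q3
    have hpi := Real.pi_pos
    have e1 := abs_le.1 q1
    have e2 := abs_le.1 q2
    have e3 := abs_le.1 q3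
    have e4 : (Real.pi + (b - a) * (3 * A + 2) * Real.pi) / κ =
        1 / κ * (Real.pi / 2) + 1 / κ * (Real.pi / 2) +
        2 * (((3 * A + 2) / κ * (Real.pi / 2)) * (b - a)) := by
      field_simp
      ring
    have e5 : 0 ≤ ((3 * A + 2) / κ * (Real.pi / 2)) * (b - a) := by
      have : 0 ≤ b - a := by linarith
      positivity
    rw [e4]
    linarith
  rw [hsplit]
  have p3 : (∫ s in a..b, F2 s) / T ≤ (Real.pi + (b - a) * (3 * A + 2) * Real.pi) / κ / T := by
    gcongr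
  calc _ ≤ (b - a) / (T * κ) + (Real.pi + (b - a) * (3 * A + 2) * Real.pi) / κ / T :=
        add_le_add p1 p3
    _ = _ := by
        field_simp
        ring

end Pool.Agent.R245.OD
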