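import Mathlib
import Pool.Agent.R245.OD.Ker
set_option autoImplicit false

/-! The oscillatory integral with the kernel `(1 - iTD)^{-3}`. -/

namespace Pool.Agent.R245.OD

open MeasureTheory Set Complex intervalIntegral

variable {a b A κ : ℝ} {D D1 D2 : ℝ → ℝ}

/-- `1 - i x` -/
noncomputable def om (x : ℝ) : ℂ := 1 - I * x

lemma om_normSq (x : ℝ) : ‖om x‖ ^ 2 = 1 + x ^ 2 := by
  rw [om, ← Complex.normSq_eq_norm_sq, Complex.normSq_apply]
  simp
  ring

lemma om_one_le (x : ℝ) : 1 ≤ ‖om x‖ := by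
  have h := om_normSq x
  nlinarith [norm_nonneg (om x), sq_nonneg x]

lemma om_ne (x : ℝ) : om x ≠ 0 := by
  intro h
  have := om_one_le x
  rw [h, norm_zero] at this
  linarith

lemma om_cont : Continuous om := by
  unfold om
  fun_prop

/-- the second integral -/
lemma Ph.int2 (h : Ph a b A κ D D1 D2) {T : ℝ} (hT : 0 < T) (hTκ : 1 ≤ T * κ) {B : ℝ}
    (hB : 0 ≤ B) (φ φ' : ℝ → ℝ) (hφ : ∀ s ∈ Icc a b, HasDerivAt φ (φ' s) s)
    (cφ' : ContinuousOn φ' (Icc a b)) (bφ : ∀ s ∈ Icc a b, |φ s| ≤ B)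
    (bφ' : ∀ s ∈ Icc a b, |φ' s| ≤ B) (ha0 : φ a = 0) (hb0 : φ b = 0) :
    ‖∫ s in a..b, (φ s : ℂ) * (om (T * D s) ^ 3)⁻¹‖ ≤
      (B * (b - a) + B * (3 * A + 3) *
        ((b - a) + Real.pi + (b - a) * (3 * A + 2) * Real.pi)) / (T * κ) ^ 2 := by
  have hκ := h.hκ
  have hA := h.hA
  have hab := h.hab
  have hba : 0 ≤ b - a := by linarith
  have hu : uIcc a b = Icc a b := uIcc_of_le hab
  have hTκ0 : 0 < T * κ := by positivity
  have cφ : ContinuousOn φ (Icc a b) := fun s hs => (hφ s hs).continuousAt.continuousWithinAt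
  -- pieces
  set w : ℝ → ℂ := fun s => om (T * D s) with hw
  have cw : ContinuousOn w (Icc a b) := om_cont.comp_continuousOn (continuousOn_const.mul h.cD)
  have hw0 : ∀ s, w s ≠ 0 := fun s => om_ne _
  have hwn : ∀ s, ‖w s‖ ^ 2 = 1 + (T * D s) ^ 2 := fun s => om_normSq _
  have hw1 : ∀ s, 1 ≤ ‖w s‖ := fun s => om_one_le _
  set F1 : ℝ → ℂ := fun s => ((φ s * (D s ^ 2 / Nn D D1 s) : ℝ) : ℂ) * (w s ^ 3)⁻¹ with hF1
  set u : ℝ → ℂ := fun s => ((φ s * rh D D1 s : ℝ) : ℂ) with hudef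
  set u' : ℝ → ℂ := fun s => ((φ' s * rh D D1 s + φ s * rh' D D1 D2 s : ℝ) : ℂ) with hu'
  set v : ℝ → ℂ := fun s => (2 * I * T)⁻¹ * (w s ^ 2)⁻¹ with hv
  set v' : ℝ → ℂ := fun s => (D1 s : ℂ) * (w s ^ 3)⁻¹ with hv'
  have cof : ∀ {f : ℝ → ℝ}, ContinuousOn f (Icc a b) →
      ContinuousOn (fun s => (f s : ℂ)) (Icc a b) := fun hf =>
    Complex.continuous_ofReal.comp_continuousOn hf
  have cw3 : ContinuousOn (fun s => (w s ^ 3)⁻¹) (Icc a b) :=
    (cw.pow 3).inv₀ fun s _ => pow_ne_zero 3 (hw0 s)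
  have c1 : ContinuousOn F1 (Icc a b) :=
    (cof (cφ.mul ((h.cD.pow 2).div h.cN fun s hs => (h.Npos hs).ne'))).mul cw3
  have cu' : ContinuousOn u' (Icc a b) := cof ((cφ'.mul h.crh).add (cφ.mul h.crh'))
  have cv' : ContinuousOn v' (Icc a b) := (cof h.cD1).mul cw3
  have cu : ContinuousOn u (Icc a b) := cof (cφ.mul h.crh)
  have hI : ∀ {f : ℝ → ℂ}, ContinuousOn f (Icc a b) → IntervalIntegrable f volume a b := by
    intro f hf
    apply ContinuousOn.intervalIntegrable
    rw [hu]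
    exact hf
  have hdu : ∀ s ∈ uIcc a b, HasDerivAt u (u' s) s := by
    intro s hs
    rw [hu] at hs
    exact ((hφ s hs).mul (h.rh_deriv hs)).ofReal_comp
  have hT0 : (T : ℂ) ≠ 0 := by exact_mod_cast hT.ne'
  have hdv : ∀ s ∈ uIcc a b, HasDerivAt v (v' s) s := by
    intro s hs
    rw [hu] at hs
    have h1 : HasDerivAt w (-(I * (T * D1 s))) s := by
      have h2 := (((h.d1 s hs).const_mul T).ofReal_comp.const_mul I).const_sub 1
      refine h2.congr_deriv ?_
      push_cast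
      ring
    have h3 := ((h1.pow 2).inv (pow_ne_zero 2 (hw0 s))).const_mul ((2 * I * T)⁻¹ : ℂ)
    refine h3.congr_deriv ?_
    simp only [hv', Pi.pow_apply]
    have := hw0 s
    field_simp
    push_cast
    ring
  have hsplit : ∫ s in a..b, (φ s : ℂ) * (om (T * D s) ^ 3)⁻¹ =
      (∫ s in a..b, F1 s) + ∫ s in a..b, u s * v' s := by
    have hi2 : IntervalIntegrable (fun s => u s * v' s) volume a b := hI (cu.mul cv')
    rw [← intervalIntegral.integral_add (hI c1) hi2]
    apply intervalIntegral.integral_congr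
    intro s hs
    rw [hu] at hs
    have hN := h.Npos hs
    have hNd : Nn D D1 s = D s ^ 2 + D1 s ^ 2 := rfl
    simp only [hF1, hudef, hv', rh]
    have e1 : (φ s : ℂ) = ((φ s * (D s ^ 2 / Nn D D1 s) + φ s * (D1 s / Nn D D1 s) * D1 s : ℝ) :
        ℂ) := by
      norm_cast
      field_simp
      rw [hNd]
    rw [e1]
    push_cast
    simp only [hw]
    ring
  rw [hsplit]
  -- first part
  have p1 : ‖∫ s in a..b, F1 s‖ ≤ B / (T * κ) ^ 2 * |b - a| := by
    apply intervalIntegral.norm_integral_le_of_norm_le_const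
    intro s hs
    rw [uIoc_of_le hab] at hs
    have hs' : s ∈ Icc a b := ⟨hs.1.le, hs.2⟩
    have hN := h.Npos hs'
    have hl := h.low s hs'
    have hNd : Nn D D1 s = D s ^ 2 + D1 s ^ 2 := rfl
    rw [← hNd] at hl
    simp only [hF1]
    rw [norm_mul, norm_inv, norm_pow, Complex.norm_real, Real.norm_eq_abs, abs_mul,
      abs_of_nonneg (by positivity : 0 ≤ D s ^ 2 / Nn D D1 s)]
    have h3 : 1 + (T * D s) ^ 2 ≤ ‖w s‖ ^ 3 := by
      rw [← hwn s]
      have := hw1 s
      nlinarith [sq_nonneg ‖w s‖]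
    have hpos : 0 < 1 + (T * D s) ^ 2 := by positivity
    calc |φ s| * (D s ^ 2 / Nn D D1 s) * (‖w s‖ ^ 3)⁻¹
        ≤ B * (D s ^ 2 / κ ^ 2) * (1 + (T * D s) ^ 2)⁻¹ := by
          have := bφ s hs'
          gcongr
      _ ≤ B / (T * κ) ^ 2 := by
          rw [← div_eq_mul_inv, div_le_div_iff₀ hpos (by positivity)]
          have : B * (D s ^ 2 / κ ^ 2) * (T * κ) ^ 2 = B * (T * D s) ^ 2 := by
            field_simp
          rw [this]
          nlinarith [sq_nonneg (T * D s)]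
  -- second part
  have hibp := intervalIntegral.integral_mul_deriv_eq_deriv_mul (a := a) (b := b) hdu hdv
    (hI cu') (hI cv')
  have eu : u a = 0 ∧ u b = 0 := by
    simp only [hudef, ha0, hb0]
    simp
  rw [eu.1, eu.2, zero_mul, zero_mul, sub_zero, zero_sub] at hibp
  have hint := h.int1 hT hTκ
  set C1 := ((b - a) + Real.pi + (b - a) * (3 * A + 2) * Real.pi) with hC1
  have hC1' : 0 ≤ C1 := by
    have := Real.pi_pos
    positivity
  have p2 : ‖∫ s in a..b, u s * v' s‖ ≤ B * (3 * A + 3) * C1 / (T * κ) ^ 2 := by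
    rw [hibp, norm_neg]
    calc ‖∫ s in a..b, u' s * v s‖
        ≤ ∫ s in a..b, (B * (3 * A + 3) / κ / (2 * T)) * (1 / (1 + (T * D s) ^ 2)) := by
          apply intervalIntegral.norm_integral_le_of_norm_le hab
          · refine ae_of_all _ fun s hs => ?_
            have hs' : s ∈ Icc a b := ⟨hs.1.le, hs.2⟩
            simp only [hu', hv]
            rw [norm_mul, norm_mul, norm_inv, norm_inv, norm_pow, hwn s, Complex.norm_real,
              Real.norm_eq_abs, norm_mul, norm_mul, Complex.norm_I, Complex.norm_real,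
              Real.norm_eq_abs, abs_of_pos hT]
            have e1 : |φ' s * rh D D1 s + φ s * rh' D D1 D2 s| ≤ B * (3 * A + 3) / κ := by
              calc |φ' s * rh D D1 s + φ s * rh' D D1 D2 s|
                  ≤ |φ' s| * |rh D D1 s| + |φ s| * |rh' D D1 D2 s| := by
                    refine (abs_add_le _ _).trans ?_
                    rw [abs_mul, abs_mul]
                _ ≤ B * (1 / κ) + B * ((3 * A + 2) / κ) := by
                    have q1 := bφ s hs'
                    have q2 := bφ' s hs'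
                    have q3 := h.rh_le hs'
                    have q4 := h.rh'_le hs'
                    gcongr
                _ = _ := by ring
            have e2 : ‖(2:ℂ)‖ = 2 := by simp
            rw [e2]
            calc |φ' s * rh D D1 s + φ s * rh' D D1 D2 s| *
                  ((2 * 1 * T)⁻¹ * (1 + (T * D s) ^ 2)⁻¹)
                ≤ (B * (3 * A + 3) / κ) * ((2 * 1 * T)⁻¹ * (1 + (T * D s) ^ 2)⁻¹) := by gcongr
              _ = _ := by
                  rw [one_div, mul_one]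
                  ring
          · apply ContinuousOn.intervalIntegrable
            rw [hu]
            exact continuousOn_const.mul (continuousOn_const.div
              (continuousOn_const.add ((continuousOn_const.mul h.cD).pow 2))
              fun s _ => by positivity)
      _ = (B * (3 * A + 3) / κ / (2 * T)) * ∫ s in a..b, (1 / (1 + (T * D s) ^ 2)) := by
          rw [intervalIntegral.integral_const_mul]
      _ ≤ (B * (3 * A + 3) / κ / (2 * T)) * (C1 / (T * κ)) := by gcongr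
      _ = (B * (3 * A + 3) * C1 / (T * κ) ^ 2) / 2 := by
          field_simp
      _ ≤ _ := by
          apply half_le_self
          positivity
  rw [abs_of_nonneg hba] at p1
  calc ‖(∫ s in a..b, F1 s) + ∫ s in a..b, u s * v' s‖
      ≤ B / (T * κ) ^ 2 * (b - a) + B * (3 * A + 3) * C1 / (T * κ) ^ 2 :=
        (norm_add_le _ _).trans (add_le_add p1 p2)
    _ = _ := by ring

/-- the constant of the estimate -/
noncomputable def Ck (a b A B : ℝ) : ℝ :=
  B * (b - a) + B * (3 * A + 3) * ((b - a) + Real.pi + (b - a) * (3 * A + 2) * Real.pi)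

/-- all powers `θ ∈ [0,1]` -/
lemma Ph.int3 (h : Ph a b A κ D D1 D2) {T : ℝ} (hT : 0 < T) {B : ℝ}
    (hB : 0 ≤ B) (φ φ' : ℝ → ℝ) (hφ : ∀ s ∈ Icc a b, HasDerivAt φ (φ' s) s)
    (cφ' : ContinuousOn φ' (Icc a b)) (bφ : ∀ s ∈ Icc a b, |φ s| ≤ B)
    (bφ' : ∀ s ∈ Icc a b, |φ' s| ≤ B) (ha0 : φ a = 0) (hb0 : φ b = 0) {θ : ℝ} (hθ0 : 0 ≤ θ)
    (hθ1 : θ ≤ 1) :
    ‖∫ s in a..b, (φ s : ℂ) * (om (T * D s) ^ 3)⁻¹‖ ≤ Ck a b A B * ((T * κ) ^ 2) ^ (-θ) := by
  have hκ := h.hκ
  have hA := h.hA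
  have hab := h.hab
  have hba : 0 ≤ b - a := by linarith
  have hTκ0 : 0 < T * κ := by positivity
  have hpi := Real.pi_pos
  have hC : 0 ≤ Ck a b A B := by unfold Ck; positivity
  rcases le_or_gt 1 (T * κ) with h1 | h1
  · refine (h.int2 hT h1 hB φ φ' hφ cφ' bφ bφ' ha0 hb0).trans ?_
    have e1 : ((T * κ) ^ 2)⁻¹ ≤ ((T * κ) ^ 2) ^ (-θ) := by
      rw [← Real.rpow_neg_one ((T * κ) ^ 2)]
      apply Real.rpow_le_rpow_of_exponent_le
      · nlinarith
      · linarith
    calc _ = Ck a b A B * ((T * κ) ^ 2)⁻¹ := by rw [Ck, div_eq_mul_inv]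
      _ ≤ _ := by gcongr
  · have e0 : ‖∫ s in a..b, (φ s : ℂ) * (om (T * D s) ^ 3)⁻¹‖ ≤ B * |b - a| := by
      apply intervalIntegral.norm_integral_le_of_norm_le_const
      intro s hs
      rw [uIoc_of_le hab] at hs
      have hs' : s ∈ Icc a b := ⟨hs.1.le, hs.2⟩
      rw [norm_mul, norm_inv, norm_pow, Complex.norm_real, Real.norm_eq_abs]
      have h2 := om_one_le (T * D s)
      have h3 : (‖om (T * D s)‖ ^ 3)⁻¹ ≤ 1 := inv_le_one_of_one_le₀ (one_le_pow₀ h2)
      calc |φ s| * (‖om (T * D s)‖ ^ 3)⁻¹ ≤ B * 1 := by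
            have := bφ s hs'
            gcongr
        _ = B := mul_one B
    rw [abs_of_nonneg hba] at e0
    have e1 : 1 ≤ ((T * κ) ^ 2) ^ (-θ) := by
      apply Real.one_le_rpow_of_pos_of_le_one_of_nonpos
      · positivity
      · apply pow_le_one₀ hTκ0.le h1.le
      · linarith
    calc _ ≤ B * (b - a) := e0
      _ ≤ Ck a b A B * 1 := by
          unfold Ck
          rw [mul_one]
          have : 0 ≤ B * (3 * A + 3) * ((b - a) + Real.pi + (b - a) * (3 * A + 2) * Real.pi) := by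
            positivity
          linarith
      _ ≤ _ := by gcongr

end Pool.Agent.R245.OD
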