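import Mathlib
import Pool.Agent.R245.OD.Ker2
set_option autoImplicit false

/-! The phase of the four points on the dilated sphere. -/

namespace Pool.Agent.R245.OD

open Set

/-- the square root -/
noncomputable def f0 (p σ : ℝ) : ℝ := Real.sqrt (1 - σ * p)
/-- its first derivative in `σ` -/
noncomputable def f1 (p σ : ℝ) : ℝ := -(p / (2 * f0 p σ))
/-- its second derivative in `σ` -/
noncomputable def f2 (p σ : ℝ) : ℝ := -(p ^ 2 / (4 * f0 p σ ^ 3))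

/-- the alternating sum over four points -/
def alt (g : ℝ → ℝ → ℝ) (p1 p2 p3 p4 σ : ℝ) : ℝ := g p1 σ + g p2 σ - g p3 σ - g p4 σ

/-- lower bound of the square root -/
noncomputable def kb (b : ℝ) : ℝ := Real.sqrt (1 - b)

lemma kb_pos {b : ℝ} (hb : b < 1) : 0 < kb b := Real.sqrt_pos.2 (by linarith)

lemma arg_pos {b σ p : ℝ} (_hb : b < 1) (h0 : 0 ≤ σ) (h1 : σ ≤ b) (_hp0 : 0 ≤ p) (hp1 : p ≤ 1) :
    1 - b ≤ 1 - σ * p := by nlinarith

lemma f0_low {b σ p : ℝ} (hb : b < 1) (h0 : 0 ≤ σ) (h1 : σ ≤ b) (hp0 : 0 ≤ p) (hp1 : p ≤ 1) :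
    kb b ≤ f0 p σ := Real.sqrt_le_sqrt (arg_pos hb h0 h1 hp0 hp1)

lemma f0_up {σ p : ℝ} (h0 : 0 ≤ σ) (hp0 : 0 ≤ p) : f0 p σ ≤ 1 := by
  unfold f0
  rw [Real.sqrt_le_one]
  have := mul_nonneg h0 hp0
  linarith

lemma f0_sq {b σ p : ℝ} (hb : b < 1) (h0 : 0 ≤ σ) (h1 : σ ≤ b) (hp0 : 0 ≤ p) (hp1 : p ≤ 1) :
    f0 p σ ^ 2 = 1 - σ * p := by
  unfold f0
  rw [Real.sq_sqrt]
  have := arg_pos hb h0 h1 hp0 hp1
  linarith

lemma f0_deriv {b σ p : ℝ} (hb : b < 1) (h0 : 0 ≤ σ) (h1 : σ ≤ b) (hp0 : 0 ≤ p) (hp1 : p ≤ 1) :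
    HasDerivAt (f0 p) (f1 p σ) σ := by
  have hpos : 0 < 1 - σ * p := by have := arg_pos hb h0 h1 hp0 hp1; linarith
  have h2 : HasDerivAt (fun σ : ℝ => 1 - σ * p) (-p) σ := by
    have := ((hasDerivAt_id σ).mul_const p).const_sub 1
    exact this.congr_deriv (by simp)
  have h3 := h2.sqrt hpos.ne'
  refine h3.congr_deriv ?_
  unfold f1 f0
  rw [neg_div]

lemma f1_deriv {b σ p : ℝ} (hb : b < 1) (h0 : 0 ≤ σ) (h1 : σ ≤ b) (hp0 : 0 ≤ p) (hp1 : p ≤ 1) :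
    HasDerivAt (f1 p) (f2 p σ) σ := by
  have hk := kb_pos hb
  have hl := f0_low hb h0 h1 hp0 hp1
  have hf : f0 p σ ≠ 0 := by linarith
  have h2 := (f0_deriv hb h0 h1 hp0 hp1).const_mul 2
  have h3 := (h2.inv (by positivity)).const_mul (-p)
  refine (h3.congr_deriv ?_).congr_of_eventuallyEq (Filter.Eventually.of_forall fun x => ?_)
  · unfold f2 f1
    field_simp
    ring
  · unfold f1
    simp only [Pi.inv_apply]
    rw [div_eq_mul_inv]
    ring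

lemma f2_cont {b p a : ℝ} (hb : b < 1) (ha : 0 ≤ a) (hp0 : 0 ≤ p) (hp1 : p ≤ 1) :
    ContinuousOn (f2 p) (Icc a b) := by
  unfold f2
  have hc : ContinuousOn (f0 p) (Icc a b) := fun s hs =>
    (f0_deriv hb (ha.trans hs.1) hs.2 hp0 hp1).continuousAt.continuousWithinAt
  refine (continuousOn_const.div (continuousOn_const.mul (hc.pow 3)) fun s hs => ?_).neg
  have hk := kb_pos hb
  have hl := f0_low hb (ha.trans hs.1) hs.2 hp0 hp1
  have : 0 < f0 p s := by linarith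
  exact mul_ne_zero (by norm_num) (pow_ne_zero 3 this.ne')

/-- the algebra -/
lemma alg {k σ h1 h2 h3 h4 m : ℝ} (hk : 0 < k) (hσ : σ ≤ 1)
    (k1 : k ≤ h1) (k2 : k ≤ h2) (k3 : k ≤ h3) (k4 : k ≤ h4) (u1 : h1 ≤ 1) (u2 : h2 ≤ 1)
    (u3 : h3 ≤ 1) (u4 : h4 ≤ 1) (hD : |h1 + h2 - h3 - h4| ≤ m)
    (hD1 : |(1 - h1 ^ 2) / h1 + (1 - h2 ^ 2) / h2 - (1 - h3 ^ 2) / h3 - (1 - h4 ^ 2) / h4| ≤
      2 * σ * m) :
    |(1 - h1 ^ 2) ^ 2 / h1 ^ 3 + (1 - h2 ^ 2) ^ 2 / h2 ^ 3 - (1 - h3 ^ 2) ^ 2 / h3 ^ 3 -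
      (1 - h4 ^ 2) ^ 2 / h4 ^ 3| ≤ (45 / k ^ 2 + 12 / k ^ 6 + 7) * m ∧
    |h3 ^ 2 + h4 ^ 2 - h1 ^ 2 - h2 ^ 2| ≤ (4 + 4 / k) * m ∧
    |(1 - h1 ^ 2) * (1 - h2 ^ 2) - (1 - h3 ^ 2) * (1 - h4 ^ 2)| ≤ (4 + 8 / k) * m := by
  have p1 : 0 < h1 := by linarith
  have p2 : 0 < h2 := by linarith
  have p3 : 0 < h3 := by linarith
  have p4 : 0 < h4 := by linarith
  have hm : 0 ≤ m := (abs_nonneg _).trans hD
  set D := h1 + h2 - h3 - h4 with hDd
  set R1 := 1 / h1 + 1 / h2 - 1 / h3 - 1 / h4 with hR1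
  have hR1b : |R1| ≤ 3 * m := by
    have e : R1 = ((1 - h1 ^ 2) / h1 + (1 - h2 ^ 2) / h2 - (1 - h3 ^ 2) / h3 -
        (1 - h4 ^ 2) / h4) + D := by
      rw [hR1, hDd]
      field_simp
      ring
    rw [e]
    refine (abs_add_le _ _).trans ?_
    have : 2 * σ * m ≤ 2 * m := by nlinarith
    linarith
  set Q := h1 * h2 with hQ
  set Q' := h3 * h4 with hQ'
  have q1 : 0 < Q := mul_pos p1 p2
  have q2 : 0 < Q' := mul_pos p3 p4
  have q1u : Q ≤ 1 := mul_le_one₀ u1 p2.le u2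
  have q2u : Q' ≤ 1 := mul_le_one₀ u3 p4.le u4
  have q1l : k ^ 2 ≤ Q := by rw [hQ]; nlinarith
  have q2l : k ^ 2 ≤ Q' := by rw [hQ']; nlinarith
  have hΔQ : |Q - Q'| ≤ 2 * m / k := by
    have e : (h3 + h4) * (Q - Q') = D * Q' - R1 * (Q * Q') := by
      rw [hR1, hDd, hQ, hQ']
      field_simp
      ring
    have h5 : |(h3 + h4) * (Q - Q')| ≤ 4 * m := by
      rw [e]
      refine (abs_sub _ _).trans ?_
      rw [abs_mul D Q', abs_mul R1 (Q * Q'), abs_of_pos q2, abs_of_pos (mul_pos q1 q2)]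
      have e1 : |D| * Q' ≤ m * 1 := mul_le_mul hD q2u q2.le hm
      have e2 : |R1| * (Q * Q') ≤ 3 * m * 1 :=
        mul_le_mul hR1b (mul_le_one₀ q1u q2.le q2u) (by positivity) (by positivity)
      linarith
    rw [abs_mul, abs_of_pos (by linarith : 0 < h3 + h4)] at h5
    rw [le_div_iff₀ hk]
    nlinarith [abs_nonneg (Q - Q')]
  set X := 1 / h1 + 1 / h2 with hX
  set X' := 1 / h3 + 1 / h4 with hX'
  set Y := 1 / Q with hY
  set Y' := 1 / Q' with hY'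
  have hXR : X - X' = R1 := by rw [hX, hX', hR1]; ring
  have hi : ∀ h : ℝ, k ≤ h → 1 / h ≤ 1 / k := fun h hh => one_div_le_one_div_of_le hk hh
  have hX0 : 0 ≤ X := by positivity
  have hX0' : 0 ≤ X' := by positivity
  have hXu : X ≤ 2 / k := by
    have := hi h1 k1
    have := hi h2 k2
    have e : 2 / k = 1 / k + 1 / k := by ring
    rw [e, hX]
    linarith
  have hXu' : X' ≤ 2 / k := by
    have := hi h3 k3
    have := hi h4 k4
    have e : 2 / k = 1 / k + 1 / k := by ring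
    rw [e, hX']
    linarith
  have hY0 : 0 ≤ Y := by positivity
  have hYu : Y ≤ 1 / k ^ 2 := one_div_le_one_div_of_le (by positivity) q1l
  have hYY : |Y - Y'| ≤ 2 * m / k ^ 5 := by
    have e : Y - Y' = (Q' - Q) / (Q * Q') := by
      rw [hY, hY']
      field_simp
    rw [e, abs_div, abs_of_pos (mul_pos q1 q2), abs_sub_comm]
    have e2 : k ^ 4 ≤ Q * Q' := by
      calc k ^ 4 = k ^ 2 * k ^ 2 := by ring
        _ ≤ _ := mul_le_mul q1l q2l (by positivity) q1.le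
    calc |Q - Q'| / (Q * Q') ≤ (2 * m / k) / k ^ 4 := by gcongr
      _ = _ := by field_simp
  refine ⟨?_, ?_, ?_⟩
  · have e : (1 - h1 ^ 2) ^ 2 / h1 ^ 3 + (1 - h2 ^ 2) ^ 2 / h2 ^ 3 - (1 - h3 ^ 2) ^ 2 / h3 ^ 3 -
        (1 - h4 ^ 2) ^ 2 / h4 ^ 3 =
        (R1 * (X ^ 2 + X * X' + X' ^ 2) - 3 * (R1 * Y + X' * (Y - Y'))) - 2 * R1 + D := by
      rw [hR1, hDd, hX, hX', hY, hY', hQ, hQ']
      field_simp
      ring
    rw [e]
    have t1 : |R1 * (X ^ 2 + X * X' + X' ^ 2)| ≤ 3 * m * (12 / k ^ 2) := by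
      rw [abs_mul, abs_of_nonneg (by positivity : 0 ≤ X ^ 2 + X * X' + X' ^ 2)]
      apply mul_le_mul hR1b _ (by positivity) (by positivity)
      have e3 : 12 / k ^ 2 = (2 / k) ^ 2 + (2 / k) * (2 / k) + (2 / k) ^ 2 := by
        field_simp
        norm_num
      rw [e3]
      gcongr
    have t2 : |R1 * Y| ≤ 3 * m * (1 / k ^ 2) := by
      rw [abs_mul, abs_of_nonneg hY0]
      exact mul_le_mul hR1b hYu hY0 (by positivity)
    have t3 : |X' * (Y - Y')| ≤ (2 / k) * (2 * m / k ^ 5) := by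
      rw [abs_mul, abs_of_nonneg hX0']
      exact mul_le_mul hXu' hYY (abs_nonneg _) (by positivity)
    calc |(R1 * (X ^ 2 + X * X' + X' ^ 2) - 3 * (R1 * Y + X' * (Y - Y'))) - 2 * R1 + D|
        ≤ |R1 * (X ^ 2 + X * X' + X' ^ 2)| + 3 * (|R1 * Y| + |X' * (Y - Y')|) + 2 * |R1| +
          |D| := by
          refine (abs_add_le _ _).trans (add_le_add ?_ le_rfl)
          refine (abs_sub _ _).trans (add_le_add ?_ ?_)
          · refine (abs_sub _ _).trans (add_le_add le_rfl ?_)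
            rw [abs_mul, abs_of_pos (by norm_num : (0:ℝ) < 3)]
            gcongr
            exact abs_add_le _ _
          · rw [abs_mul, abs_of_pos (by norm_num : (0:ℝ) < 2)]
      _ ≤ 3 * m * (12 / k ^ 2) + 3 * (3 * m * (1 / k ^ 2) + (2 / k) * (2 * m / k ^ 5)) +
          2 * (3 * m) + m := by gcongr
      _ = _ := by
          field_simp
          ring
  · have e : h3 ^ 2 + h4 ^ 2 - h1 ^ 2 - h2 ^ 2 = -(D * (h1 + h2 + h3 + h4)) + 2 * (Q - Q') := by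
      rw [hDd, hQ, hQ']
      ring
    rw [e]
    refine (abs_add_le _ _).trans ?_
    rw [abs_neg, abs_mul, abs_mul, abs_of_pos (by linarith : 0 < h1 + h2 + h3 + h4),
      abs_of_pos (by norm_num : (0:ℝ) < 2)]
    have e1 : |D| * (h1 + h2 + h3 + h4) ≤ m * 4 :=
      mul_le_mul hD (by linarith) (by linarith) hm
    have e2 : (4 + 4 / k) * m = m * 4 + 2 * (2 * m / k) := by ring
    rw [e2]
    gcongr
  · have e : (1 - h1 ^ 2) * (1 - h2 ^ 2) - (1 - h3 ^ 2) * (1 - h4 ^ 2) =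
        -(D * (h1 + h2 + h3 + h4)) + 2 * (Q - Q') + (Q - Q') * (Q + Q') := by
      rw [hDd, hQ, hQ']
      ring
    rw [e]
    have e1 : |D| * (h1 + h2 + h3 + h4) ≤ m * 4 :=
      mul_le_mul hD (by linarith) (by linarith) hm
    have e3 : |Q - Q'| * (Q + Q') ≤ (2 * m / k) * 2 :=
      mul_le_mul hΔQ (by linarith) (by linarith) (by positivity)
    calc |-(D * (h1 + h2 + h3 + h4)) + 2 * (Q - Q') + (Q - Q') * (Q + Q')|
        ≤ |D| * (h1 + h2 + h3 + h4) + 2 * |Q - Q'| + |Q - Q'| * (Q + Q') := by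
          refine (abs_add_le _ _).trans (add_le_add ((abs_add_le _ _).trans ?_) ?_)
          · rw [abs_neg, abs_mul, abs_mul, abs_of_pos (by linarith : 0 < h1 + h2 + h3 + h4),
              abs_of_pos (by norm_num : (0:ℝ) < 2)]
          · rw [abs_mul, abs_of_pos (by linarith : 0 < Q + Q')]
      _ ≤ m * 4 + 2 * (2 * m / k) + (2 * m / k) * 2 := by gcongr
      _ = _ := by ring

/-- the constant of the second derivative -/
noncomputable def AA (a b : ℝ) : ℝ := (45 / kb b ^ 2 + 12 / kb b ^ 6 + 7) / (4 * a ^ 2)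

/-- the constant of the lower bound -/
noncomputable def cc (a b : ℝ) : ℝ := a ^ 2 / (8 + 12 / kb b)

lemma AA_nonneg (a b : ℝ) : 0 ≤ AA a b := by
  unfold AA
  have : 0 ≤ kb b := Real.sqrt_nonneg _
  positivity

lemma cc_pos {a b : ℝ} (ha : 0 < a) (hb : b < 1) : 0 < cc a b := by
  unfold cc
  have := kb_pos hb
  positivity

/-- the phase function -/
lemma phase {a b p1 p2 p3 p4 : ℝ} (ha : 0 < a) (hab : a ≤ b) (hb : b < 1)
    (h1 : p1 ∈ Icc (0:ℝ) 1) (h2 : p2 ∈ Icc (0:ℝ) 1) (h3 : p3 ∈ Icc (0:ℝ) 1)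
    (h4 : p4 ∈ Icc (0:ℝ) 1)
    (hd : 0 < |p1 + p2 - p3 - p4| + |p1 * p2 - p3 * p4|) :
    Ph a b (AA a b) (cc a b * (|p1 + p2 - p3 - p4| + |p1 * p2 - p3 * p4|))
      (alt f0 p1 p2 p3 p4) (alt f1 p1 p2 p3 p4) (alt f2 p1 p2 p3 p4) := by
  have hk := kb_pos hb
  have hmain : ∀ s ∈ Icc a b, ∃ m : ℝ, 0 ≤ m ∧ m ^ 2 = alt f0 p1 p2 p3 p4 s ^ 2 +
      alt f1 p1 p2 p3 p4 s ^ 2 ∧ |alt f2 p1 p2 p3 p4 s| ≤ AA a b * m ∧
      cc a b * (|p1 + p2 - p3 - p4| + |p1 * p2 - p3 * p4|) ≤ m := by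
    intro s hs
    have hs0 : 0 < s := lt_of_lt_of_le ha hs.1
    have hs1 : s ≤ 1 := hs.2.trans hb.le
    have low : ∀ p ∈ Icc (0:ℝ) 1, kb b ≤ f0 p s := fun p hp => f0_low hb hs0.le hs.2 hp.1 hp.2
    have up : ∀ p ∈ Icc (0:ℝ) 1, f0 p s ≤ 1 := fun p hp => f0_up hs0.le hp.1
    have sq : ∀ p ∈ Icc (0:ℝ) 1, p = (1 - f0 p s ^ 2) / s := fun p hp => by
      rw [f0_sq hb hs0.le hs.2 hp.1 hp.2]
      field_simp
      ring
    set m := Real.sqrt (alt f0 p1 p2 p3 p4 s ^ 2 + alt f1 p1 p2 p3 p4 s ^ 2) with hm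
    have hmm : m ^ 2 = alt f0 p1 p2 p3 p4 s ^ 2 + alt f1 p1 p2 p3 p4 s ^ 2 :=
      Real.sq_sqrt (by positivity)
    have hm0 : 0 ≤ m := Real.sqrt_nonneg _
    have g0 : |alt f0 p1 p2 p3 p4 s| ≤ m := by
      apply abs_le_of_sq_le_sq _ hm0
      rw [hmm]
      nlinarith [sq_nonneg (alt f1 p1 p2 p3 p4 s)]
    have g1 : |alt f1 p1 p2 p3 p4 s| ≤ m := by
      apply abs_le_of_sq_le_sq _ hm0
      rw [hmm]
      nlinarith [sq_nonneg (alt f0 p1 p2 p3 p4 s)]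
    set x1 := f0 p1 s with hx1
    set x2 := f0 p2 s with hx2
    set x3 := f0 p3 s with hx3
    set x4 := f0 p4 s with hx4
    have y1 : 0 < x1 := lt_of_lt_of_le hk (low p1 h1)
    have y2 : 0 < x2 := lt_of_lt_of_le hk (low p2 h2)
    have y3 : 0 < x3 := lt_of_lt_of_le hk (low p3 h3)
    have y4 : 0 < x4 := lt_of_lt_of_le hk (low p4 h4)
    have s1 := sq p1 h1
    have s2 := sq p2 h2
    have s3 := sq p3 h3
    have s4 := sq p4 h4
    rw [← hx1] at s1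
    rw [← hx2] at s2
    rw [← hx3] at s3
    rw [← hx4] at s4
    have e0 : alt f0 p1 p2 p3 p4 s = x1 + x2 - x3 - x4 := rfl
    have e1 : (1 - x1 ^ 2) / x1 + (1 - x2 ^ 2) / x2 - (1 - x3 ^ 2) / x3 - (1 - x4 ^ 2) / x4 =
        -(2 * s * alt f1 p1 p2 p3 p4 s) := by
      unfold alt f1
      rw [← hx1, ← hx2, ← hx3, ← hx4, s1, s2, s3, s4]
      field_simp
      ring
    have ha2 := alg (k := kb b) (σ := s) (h1 := x1) (h2 := x2) (h3 := x3) (h4 := x4)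
      (m := m) hk hs1 (low p1 h1) (low p2 h2) (low p3 h3) (low p4 h4) (up p1 h1)
      (up p2 h2) (up p3 h3) (up p4 h4) (by rw [← e0]; exact g0) (by
        rw [e1, abs_neg, abs_mul, abs_of_pos (by positivity : 0 < 2 * s)]
        gcongr)
    obtain ⟨b1, b2, b3⟩ := ha2
    refine ⟨m, hm0, hmm, ?_, ?_⟩
    · have e2 : alt f2 p1 p2 p3 p4 s = -(1 / (4 * s ^ 2)) * ((1 - x1 ^ 2) ^ 2 / x1 ^ 3 +
          (1 - x2 ^ 2) ^ 2 / x2 ^ 3 - (1 - x3 ^ 2) ^ 2 / x3 ^ 3 - (1 - x4 ^ 2) ^ 2 / x4 ^ 3) := by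
        unfold alt f2
        rw [← hx1, ← hx2, ← hx3, ← hx4, s1, s2, s3, s4]
        field_simp
        ring
      rw [e2, abs_mul, abs_neg, abs_of_pos (by positivity : 0 < 1 / (4 * s ^ 2))]
      unfold AA
      have hs' := hs.1
      calc 1 / (4 * s ^ 2) * _ ≤ 1 / (4 * a ^ 2) * ((45 / kb b ^ 2 + 12 / kb b ^ 6 + 7) * m) := by
            gcongr
        _ = _ := by ring
    · have e3 : |p1 + p2 - p3 - p4| ≤ (4 + 4 / kb b) * m / a ^ 2 := by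
        have e4 : p1 + p2 - p3 - p4 = (x3 ^ 2 + x4 ^ 2 - x1 ^ 2 - x2 ^ 2) / s := by
          rw [s1, s2, s3, s4]
          ring
        rw [e4, abs_div, abs_of_pos hs0]
        have : a ^ 2 ≤ s := by
          have := hs.1
          nlinarith
        gcongr
      have e5 : |p1 * p2 - p3 * p4| ≤ (4 + 8 / kb b) * m / a ^ 2 := by
        have e4 : p1 * p2 - p3 * p4 =
            ((1 - x1 ^ 2) * (1 - x2 ^ 2) - (1 - x3 ^ 2) * (1 - x4 ^ 2)) / s ^ 2 := by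
          rw [s1, s2, s3, s4]
          field_simp
        rw [e4, abs_div, abs_of_pos (by positivity : 0 < s ^ 2)]
        have := hs.1
        gcongr
      unfold cc
      have hc : 0 < 8 + 12 / kb b := by positivity
      calc a ^ 2 / (8 + 12 / kb b) * (|p1 + p2 - p3 - p4| + |p1 * p2 - p3 * p4|)
          ≤ a ^ 2 / (8 + 12 / kb b) * ((4 + 4 / kb b) * m / a ^ 2 +
            (4 + 8 / kb b) * m / a ^ 2) := by gcongr
        _ = m := by
            field_simp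
            ring
  refine ⟨hab, AA_nonneg a b, mul_pos (cc_pos ha hb) hd, ?_, ?_, ?_, ?_, ?_⟩
  · intro s hs
    have h0 := ha.le.trans hs.1
    exact (((f0_deriv hb h0 hs.2 h1.1 h1.2).add (f0_deriv hb h0 hs.2 h2.1 h2.2)).sub
      (f0_deriv hb h0 hs.2 h3.1 h3.2)).sub (f0_deriv hb h0 hs.2 h4.1 h4.2)
  · intro s hs
    have h0 := ha.le.trans hs.1
    exact (((f1_deriv hb h0 hs.2 h1.1 h1.2).add (f1_deriv hb h0 hs.2 h2.1 h2.2)).sub
      (f1_deriv hb h0 hs.2 h3.1 h3.2)).sub (f1_deriv hb h0 hs.2 h4.1 h4.2)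
  · exact (((f2_cont hb ha.le h1.1 h1.2).add (f2_cont hb ha.le h2.1 h2.2)).sub
      (f2_cont hb ha.le h3.1 h3.2)).sub (f2_cont hb ha.le h4.1 h4.2)
  · intro s hs
    obtain ⟨m, hm0, hmm, g2, -⟩ := hmain s hs
    rw [← hmm, ← mul_pow, ← sq_abs]
    exact pow_le_pow_left₀ (abs_nonneg _) g2 2
  · intro s hs
    obtain ⟨m, hm0, hmm, -, g3⟩ := hmain s hs
    rw [← hmm]
    have := cc_pos ha hb
    exact pow_le_pow_left₀ (by positivity) g3 2

end Pool.Agent.R245.OD
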