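import Mathlib
import Pool.Agent.R245.OD.Alg
set_option autoImplicit false

/-! The amplitude and the kernel. -/

namespace Pool.Agent.R245.OD

open MeasureTheory Set Complex
open scoped ENNReal

/-- the product of the four square roots -/
noncomputable def pr (p1 p2 p3 p4 σ : ℝ) : ℝ := f0 p1 σ * f0 p2 σ * f0 p3 σ * f0 p4 σ

/-- the derivative of the product -/
noncomputable def pr' (p1 p2 p3 p4 σ : ℝ) : ℝ :=
  ((f1 p1 σ * f0 p2 σ + f0 p1 σ * f1 p2 σ) * f0 p3 σ + f0 p1 σ * f0 p2 σ * f1 p3 σ) * f0 p4 σ +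
    f0 p1 σ * f0 p2 σ * f0 p3 σ * f1 p4 σ

/-- the amplitude -/
noncomputable def am (a b : ℝ) (m : ℕ) (p1 p2 p3 p4 σ : ℝ) : ℝ :=
  (σ - a) * (b - σ) * (pr p1 p2 p3 p4 σ ^ m)⁻¹

/-- the derivative of the amplitude -/
noncomputable def am' (a b : ℝ) (m : ℕ) (p1 p2 p3 p4 σ : ℝ) : ℝ :=
  (1 * (b - σ) + (σ - a) * (-1)) * (pr p1 p2 p3 p4 σ ^ m)⁻¹ +
    (σ - a) * (b - σ) * (-(m * pr p1 p2 p3 p4 σ ^ (m - 1) * pr' p1 p2 p3 p4 σ) /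
      (pr p1 p2 p3 p4 σ ^ m) ^ 2)

/-- the bound of the amplitude -/
noncomputable def Ba (b : ℝ) (m : ℕ) : ℝ :=
  2 * (kb b ^ (4 * m))⁻¹ + m * (2 / kb b) / (kb b ^ (4 * m)) ^ 2

variable {a b p1 p2 p3 p4 σ : ℝ} {m : ℕ}

lemma pr_low (ha : 0 < a) (hb : b < 1) (h1 : p1 ∈ Icc (0:ℝ) 1) (h2 : p2 ∈ Icc (0:ℝ) 1)
    (h3 : p3 ∈ Icc (0:ℝ) 1) (h4 : p4 ∈ Icc (0:ℝ) 1) (hs : σ ∈ Icc a b) :
    kb b ^ 4 ≤ pr p1 p2 p3 p4 σ ∧ pr p1 p2 p3 p4 σ ≤ 1 ∧ |pr' p1 p2 p3 p4 σ| ≤ 2 / kb b := by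
  have hk := kb_pos hb
  have hs0 := ha.le.trans hs.1
  have low : ∀ p ∈ Icc (0:ℝ) 1, kb b ≤ f0 p σ := fun p hp => f0_low hb hs0 hs.2 hp.1 hp.2
  have up : ∀ p ∈ Icc (0:ℝ) 1, f0 p σ ≤ 1 := fun p hp => f0_up hs0 hp.1
  have ab : ∀ p ∈ Icc (0:ℝ) 1, |f0 p σ| ≤ 1 := fun p hp => by
    rw [abs_of_nonneg (hk.le.trans (low p hp))]
    exact up p hp
  have fb : ∀ p ∈ Icc (0:ℝ) 1, |f1 p σ| ≤ 1 / (2 * kb b) := fun p hp => by
    unfold f1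
    have := low p hp
    rw [abs_neg, abs_div, abs_of_nonneg hp.1, abs_of_pos (by linarith : 0 < 2 * f0 p σ)]
    have h5 := hp.2
    gcongr
  have l1 := low p1 h1
  have l2 := low p2 h2
  have l3 := low p3 h3
  have l4 := low p4 h4
  have u1 := up p1 h1
  have u2 := up p2 h2
  have u3 := up p3 h3
  have u4 := up p4 h4
  have g1 := fb p1 h1
  have g2 := fb p2 h2
  have g3 := fb p3 h3
  have g4 := fb p4 h4
  have v1 := ab p1 h1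
  have v2 := ab p2 h2
  have v3 := ab p3 h3
  have v4 := ab p4 h4
  unfold pr pr'
  refine ⟨?_, ?_, ?_⟩
  · have : kb b ^ 4 = kb b * kb b * kb b * kb b := by ring
    rw [this]
    have w1 : 0 ≤ f0 p1 σ := hk.le.trans l1
    have w2 : 0 ≤ f0 p2 σ := hk.le.trans l2
    have w3 : 0 ≤ f0 p3 σ := hk.le.trans l3
    have w12 : 0 ≤ f0 p1 σ * f0 p2 σ := mul_nonneg w1 w2
    have w123 : 0 ≤ f0 p1 σ * f0 p2 σ * f0 p3 σ := mul_nonneg w12 w3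
    exact mul_le_mul (mul_le_mul (mul_le_mul l1 l2 hk.le w1) l3 hk.le w12) l4 hk.le w123
  · calc f0 p1 σ * f0 p2 σ * f0 p3 σ * f0 p4 σ ≤ 1 * 1 * 1 * 1 := by
          have : 0 ≤ f0 p2 σ := hk.le.trans l2
          have : 0 ≤ f0 p3 σ := hk.le.trans l3
          have : 0 ≤ f0 p4 σ := hk.le.trans l4
          have : 0 ≤ f0 p1 σ := hk.le.trans l1
          gcongr
      _ = 1 := by norm_num
  · calc |((f1 p1 σ * f0 p2 σ + f0 p1 σ * f1 p2 σ) * f0 p3 σ + f0 p1 σ * f0 p2 σ * f1 p3 σ) *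
          f0 p4 σ + f0 p1 σ * f0 p2 σ * f0 p3 σ * f1 p4 σ|
        ≤ ((|f1 p1 σ| * |f0 p2 σ| + |f0 p1 σ| * |f1 p2 σ|) * |f0 p3 σ| +
          |f0 p1 σ| * |f0 p2 σ| * |f1 p3 σ|) * |f0 p4 σ| +
          |f0 p1 σ| * |f0 p2 σ| * |f0 p3 σ| * |f1 p4 σ| := by
          refine (abs_add_le _ _).trans (add_le_add ?_ ?_)
          · rw [abs_mul]
            gcongr
            refine (abs_add_le _ _).trans (add_le_add ?_ ?_)
            · rw [abs_mul]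
              gcongr
              refine (abs_add_le _ _).trans (add_le_add ?_ ?_)
              · rw [abs_mul]
              · rw [abs_mul]
            · rw [abs_mul, abs_mul]
          · rw [abs_mul, abs_mul, abs_mul]
      _ ≤ ((1 / (2 * kb b) * 1 + 1 * (1 / (2 * kb b))) * 1 + 1 * 1 * (1 / (2 * kb b))) * 1 +
          1 * 1 * 1 * (1 / (2 * kb b)) := by gcongr
      _ = _ := by
          field_simp
          norm_num

lemma am_deriv (ha : 0 < a) (hb : b < 1) (h1 : p1 ∈ Icc (0:ℝ) 1) (h2 : p2 ∈ Icc (0:ℝ) 1)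
    (h3 : p3 ∈ Icc (0:ℝ) 1) (h4 : p4 ∈ Icc (0:ℝ) 1) (hs : σ ∈ Icc a b) :
    HasDerivAt (am a b m p1 p2 p3 p4) (am' a b m p1 p2 p3 p4 σ) σ := by
  have hk := kb_pos hb
  have hs0 := ha.le.trans hs.1
  obtain ⟨q1, q2, q3⟩ := pr_low ha hb h1 h2 h3 h4 hs
  have hp : 0 < pr p1 p2 p3 p4 σ := lt_of_lt_of_le (by positivity) q1
  have d1 := f0_deriv hb hs0 hs.2 h1.1 h1.2
  have d2 := f0_deriv hb hs0 hs.2 h2.1 h2.2
  have d3 := f0_deriv hb hs0 hs.2 h3.1 h3.2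
  have d4 := f0_deriv hb hs0 hs.2 h4.1 h4.2
  have dp : HasDerivAt (pr p1 p2 p3 p4) (pr' p1 p2 p3 p4 σ) σ := ((d1.mul d2).mul d3).mul d4
  have e1 := ((hasDerivAt_id σ).sub_const a).mul ((hasDerivAt_id σ).const_sub b)
  have e2 := e1.mul ((dp.pow m).inv (pow_ne_zero m hp.ne'))
  exact e2

lemma am_bd (ha : 0 < a) (hab : a ≤ b) (hb : b < 1) (h1 : p1 ∈ Icc (0:ℝ) 1)
    (h2 : p2 ∈ Icc (0:ℝ) 1) (h3 : p3 ∈ Icc (0:ℝ) 1) (h4 : p4 ∈ Icc (0:ℝ) 1)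
    (hs : σ ∈ Icc a b) :
    |am a b m p1 p2 p3 p4 σ| ≤ Ba b m ∧ |am' a b m p1 p2 p3 p4 σ| ≤ Ba b m := by
  have hk := kb_pos hb
  have hs0 := ha.le.trans hs.1
  obtain ⟨q1, q2, q3⟩ := pr_low ha hb h1 h2 h3 h4 hs
  have hp : 0 < pr p1 p2 p3 p4 σ := lt_of_lt_of_le (by positivity) q1
  set P := pr p1 p2 p3 p4 σ with hP
  have hPm : kb b ^ (4 * m) ≤ P ^ m := by
    rw [pow_mul]
    exact pow_le_pow_left₀ (by positivity) q1 m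
  have hPi : (P ^ m)⁻¹ ≤ (kb b ^ (4 * m))⁻¹ := inv_anti₀ (by positivity) hPm
  have hPi0 : 0 ≤ (P ^ m)⁻¹ := by positivity
  have x1 : 0 ≤ σ - a := by linarith [hs.1]
  have x2 : 0 ≤ b - σ := by linarith [hs.2]
  have x3 : σ - a ≤ 1 := by linarith [hs.2]
  have x4 : b - σ ≤ 1 := by linarith [hs.1]
  have x5 : (σ - a) * (b - σ) ≤ 1 := mul_le_one₀ x3 x2 x4
  have x6 : 0 ≤ (σ - a) * (b - σ) := mul_nonneg x1 x2
  constructor
  · unfold am Ba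
    rw [← hP, abs_of_nonneg (by positivity)]
    have : 0 ≤ m * (2 / kb b) / (kb b ^ (4 * m)) ^ 2 := by positivity
    calc (σ - a) * (b - σ) * (P ^ m)⁻¹ ≤ 1 * (kb b ^ (4 * m))⁻¹ := by gcongr
      _ ≤ _ := by
          have : 0 ≤ (kb b ^ (4 * m))⁻¹ := by positivity
          linarith
  · unfold am' Ba
    rw [← hP]
    refine (abs_add_le _ _).trans (add_le_add ?_ ?_)
    · rw [abs_mul, abs_of_nonneg hPi0]
      apply mul_le_mul _ hPi hPi0 (by norm_num)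
      rw [abs_le]
      constructor <;> linarith
    · rw [abs_mul, abs_of_nonneg x6, abs_div, abs_neg, abs_mul, abs_mul, Nat.abs_cast,
        abs_of_nonneg (by positivity : 0 ≤ P ^ (m - 1)),
        abs_of_nonneg (by positivity : 0 ≤ (P ^ m) ^ 2)]
      have y1 : P ^ (m - 1) ≤ 1 := pow_le_one₀ hp.le q2
      calc (σ - a) * (b - σ) * (m * P ^ (m - 1) * |pr' p1 p2 p3 p4 σ| / (P ^ m) ^ 2)
          ≤ 1 * (m * 1 * (2 / kb b) / (kb b ^ (4 * m)) ^ 2) := by gcongr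
        _ = _ := by ring

lemma am'_cont (ha : 0 < a) (hb : b < 1) (h1 : p1 ∈ Icc (0:ℝ) 1) (h2 : p2 ∈ Icc (0:ℝ) 1)
    (h3 : p3 ∈ Icc (0:ℝ) 1) (h4 : p4 ∈ Icc (0:ℝ) 1) :
    ContinuousOn (am' a b m p1 p2 p3 p4) (Icc a b) := by
  have c0 : ∀ p ∈ Icc (0:ℝ) 1, ContinuousOn (f0 p) (Icc a b) := fun p hp s hs =>
    (f0_deriv hb (ha.le.trans hs.1) hs.2 hp.1 hp.2).continuousAt.continuousWithinAt
  have c1 : ∀ p ∈ Icc (0:ℝ) 1, ContinuousOn (f1 p) (Icc a b) := fun p hp s hs =>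
    (f1_deriv hb (ha.le.trans hs.1) hs.2 hp.1 hp.2).continuousAt.continuousWithinAt
  have cp : ContinuousOn (pr p1 p2 p3 p4) (Icc a b) :=
    (((c0 p1 h1).mul (c0 p2 h2)).mul (c0 p3 h3)).mul (c0 p4 h4)
  have cp' : ContinuousOn (pr' p1 p2 p3 p4) (Icc a b) :=
    (((((c1 p1 h1).mul (c0 p2 h2)).add ((c0 p1 h1).mul (c1 p2 h2))).mul (c0 p3 h3)).add
      (((c0 p1 h1).mul (c0 p2 h2)).mul (c1 p3 h3))).mul (c0 p4 h4) |>.add
      ((((c0 p1 h1).mul (c0 p2 h2)).mul (c0 p3 h3)).mul (c1 p4 h4))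
  have hk := kb_pos hb
  have hne : ∀ s ∈ Icc a b, pr p1 p2 p3 p4 s ^ m ≠ 0 := fun s hs => by
    obtain ⟨q1, -, -⟩ := pr_low ha hb h1 h2 h3 h4 hs
    have : 0 < pr p1 p2 p3 p4 s := lt_of_lt_of_le (by positivity) q1
    exact pow_ne_zero m this.ne'
  unfold am'
  refine ContinuousOn.add ?_ ?_
  · refine ContinuousOn.mul (by fun_prop) ?_
    exact (cp.pow m).inv₀ hne
  · refine ContinuousOn.mul (by fun_prop) ?_
    refine ContinuousOn.div ?_ ((cp.pow m).pow 2) fun s hs => pow_ne_zero 2 (hne s hs)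
    exact ((continuousOn_const.mul (cp.pow (m - 1))).mul cp').neg

/-- the kernel -/
noncomputable def ker (a b T : ℝ) (m : ℕ) (p1 p2 p3 p4 : ℝ) : ℂ :=
  ∫ s in a..b, (am a b m p1 p2 p3 p4 s : ℂ) * (om (T * alt f0 p1 p2 p3 p4 s) ^ 3)⁻¹

lemma Ba_nonneg (b : ℝ) (m : ℕ) : 0 ≤ Ba b m := by
  unfold Ba
  have : 0 ≤ kb b := Real.sqrt_nonneg _
  positivity

/-- the distance -/
def dist4 (p1 p2 p3 p4 : ℝ) : ℝ := |p1 + p2 - p3 - p4| + |p1 * p2 - p3 * p4|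

lemma dist4_nonneg (p1 p2 p3 p4 : ℝ) : 0 ≤ dist4 p1 p2 p3 p4 := by
  unfold dist4
  positivity

/-- the estimate of the kernel -/
lemma ker_bd (ha : 0 < a) (hab : a ≤ b) (hb : b < 1) (m : ℕ) {θ : ℝ} (hθ0 : 0 ≤ θ)
    (hθ1 : θ ≤ 1) : ∃ C : ℝ, 0 ≤ C ∧ ∀ T : ℝ, 0 < T → ∀ p1 ∈ Icc (0:ℝ) 1, ∀ p2 ∈ Icc (0:ℝ) 1,
      ∀ p3 ∈ Icc (0:ℝ) 1, ∀ p4 ∈ Icc (0:ℝ) 1, 0 < dist4 p1 p2 p3 p4 →
        ‖ker a b T m p1 p2 p3 p4‖ ≤
          C * (T ^ 2) ^ (-θ) * (dist4 p1 p2 p3 p4 ^ 2) ^ (-θ) := by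
  refine ⟨Ck a b (AA a b) (Ba b m) * (cc a b ^ 2) ^ (-θ), ?_, ?_⟩
  · have h1 := AA_nonneg a b
    have h2 := Ba_nonneg b m
    have h3 : 0 ≤ b - a := by linarith
    have := Real.pi_pos
    unfold Ck
    positivity
  · intro T hT p1 h1 p2 h2 p3 h3 p4 h4 hd
    have hph := phase ha hab hb h1 h2 h3 h4 hd
    have h := hph.int3 hT (Ba_nonneg b m) (am a b m p1 p2 p3 p4) (am' a b m p1 p2 p3 p4)
      (fun s hs => am_deriv ha hb h1 h2 h3 h4 hs) (am'_cont ha hb h1 h2 h3 h4)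
      (fun s hs => (am_bd ha hab hb h1 h2 h3 h4 hs).1)
      (fun s hs => (am_bd ha hab hb h1 h2 h3 h4 hs).2) (by simp [am]) (by simp [am]) hθ0 hθ1
    refine h.trans (le_of_eq ?_)
    have hc := cc_pos ha hb
    have e : (T * (cc a b * (|p1 + p2 - p3 - p4| + |p1 * p2 - p3 * p4|))) ^ 2 =
        cc a b ^ 2 * T ^ 2 * dist4 p1 p2 p3 p4 ^ 2 := by
      unfold dist4
      ring
    rw [e, Real.mul_rpow (by positivity) (by positivity),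
      Real.mul_rpow (by positivity) (by positivity)]
    ring

end Pool.Agent.R245.OD
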