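import Mathlib
set_option autoImplicit false

/-! Telescoping sums of averages, and a change of variables. -/

namespace Pool.Agent.R245.OD

open MeasureTheory Set Filter
open scoped ENNReal Topology

/-- the average over `[0, 2^(-(k+1))]` -/
noncomputable def avk (U : ℝ → ℂ) (k : ℕ) : ℂ := (2:ℂ) ^ (k + 1) * ∫ ν in (0:ℝ)..(1 / 2 ^ (k + 1)), U ν

lemma dk_pos (k : ℕ) : (0:ℝ) < 1 / 2 ^ k := by positivity

lemma avk_lim (U : ℝ → ℂ) (hI : IntervalIntegrable U volume 0 1)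
    (h0 : ContinuousWithinAt U (Ici 0) 0) :
    Tendsto (avk U) atTop (𝓝 (U 0)) := by
  rw [Metric.tendsto_atTop]
  intro ε hε
  obtain ⟨d, hd, h⟩ := Metric.continuousWithinAt_iff.1 h0 (ε / 2) (by positivity)
  obtain ⟨n, hn⟩ := exists_pow_lt_of_lt_one hd (by norm_num : (1 / 2 : ℝ) < 1)
  refine ⟨n, fun k hk => ?_⟩
  set δ : ℝ := 1 / 2 ^ (k + 1) with hδ
  have hδ0 : 0 < δ := dk_pos _
  have hδd : δ < d := by
    refine lt_of_le_of_lt ?_ hn
    rw [hδ, one_div_pow]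
    apply one_div_le_one_div_of_le (by positivity)
    exact pow_le_pow_right₀ (by norm_num) (by omega)
  have hδ1 : δ ≤ 1 := by
    rw [hδ]
    rw [div_le_one (by positivity)]
    exact one_le_pow₀ (by norm_num)
  have hIk : IntervalIntegrable U volume 0 δ :=
    hI.mono_set (by
      rw [uIcc_of_le hδ0.le, uIcc_of_le zero_le_one]
      exact Icc_subset_Icc le_rfl hδ1)
  have e1 : avk U k - U 0 = (2:ℂ) ^ (k + 1) * ∫ ν in (0:ℝ)..δ, (U ν - U 0) := by
    unfold avk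
    rw [intervalIntegral.integral_sub hIk intervalIntegrable_const, intervalIntegral.integral_const,
      mul_sub, sub_zero, ← hδ]
    congr 1
    rw [Complex.real_smul, ← mul_assoc, hδ]
    push_cast
    rw [mul_one_div_cancel (pow_ne_zero _ two_ne_zero), one_mul]
  rw [dist_eq_norm, e1, norm_mul, norm_pow]
  have h2 : ‖(2:ℂ)‖ = 2 := by simp
  have h3 : ‖∫ ν in (0:ℝ)..δ, (U ν - U 0)‖ ≤ ε / 2 * |δ - 0| := by
    apply intervalIntegral.norm_integral_le_of_norm_le_const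
    intro ν hν
    rw [uIoc_of_le hδ0.le] at hν
    have := h (x := ν) (mem_Ici.2 hν.1.le) (by
      rw [Real.dist_eq, sub_zero, abs_of_pos hν.1]
      linarith [hν.2])
    rw [dist_eq_norm] at this
    exact this.le
  rw [h2]
  calc (2:ℝ) ^ (k + 1) * ‖∫ ν in (0:ℝ)..δ, (U ν - U 0)‖ ≤ 2 ^ (k + 1) * (ε / 2 * |δ - 0|) := by
        gcongr
    _ = ε / 2 := by
        rw [sub_zero, abs_of_pos hδ0, hδ]
        field_simp
    _ < ε := by linarith

lemma avk_diff (U : ℝ → ℂ) (hI : IntervalIntegrable U volume 0 1) (k : ℕ) :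
    avk U (k + 1) - avk U k = (2:ℂ) ^ (k + 1) *
      ∫ ν in (0:ℝ)..(1 / 2 ^ (k + 2)), (U ν - U (ν + 1 / 2 ^ (k + 2))) := by
  set δ : ℝ := 1 / 2 ^ (k + 2) with hδ
  have hδ0 : 0 < δ := dk_pos _
  have e2 : (1 : ℝ) / 2 ^ (k + 1) = δ + δ := by
    rw [hδ, pow_succ (2:ℝ) (k + 1)]
    field_simp
    norm_num
  have h1 : δ + δ ≤ 1 := by
    rw [← e2, div_le_one (by positivity)]
    exact one_le_pow₀ (by norm_num)
  have i1 : IntervalIntegrable U volume 0 δ := hI.mono_set (by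
    rw [uIcc_of_le hδ0.le, uIcc_of_le zero_le_one]
    exact Icc_subset_Icc le_rfl (by linarith))
  have i2 : IntervalIntegrable U volume δ (δ + δ) := hI.mono_set (by
    rw [uIcc_of_le (by linarith), uIcc_of_le zero_le_one]
    exact Icc_subset_Icc hδ0.le h1)
  have i3 : IntervalIntegrable (fun ν => U (ν + δ)) volume 0 δ := by
    have := i2.comp_add_right δ
    simpa using this
  have e3 : ∫ ν in (0:ℝ)..δ, U (ν + δ) = ∫ ν in δ..(δ + δ), U ν := by
    rw [intervalIntegral.integral_comp_add_right]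
    simp
  unfold avk
  rw [e2, ← intervalIntegral.integral_add_adjacent_intervals i1 i2,
    intervalIntegral.integral_sub i1 i3, e3, pow_succ (2:ℂ) (k + 1)]
  ring

lemma enorm_two : ‖(2:ℂ)‖ₑ = 2 := by
  rw [← ofReal_norm]
  simp

/-- telescoping -/
lemma tele (U : ℝ → ℂ) (hI : IntervalIntegrable U volume 0 1)
    (h0 : ContinuousWithinAt U (Ici 0) 0) :
    ‖U 0‖ₑ ≤ 2 * (∫⁻ ν in Icc (0:ℝ) (1 / 2), ‖U ν‖ₑ) + ∑' k : ℕ, 2 ^ (k + 1) *
      ∫⁻ ν in Icc (0:ℝ) (1 / 2 ^ (k + 2)), ‖U ν - U (ν + 1 / 2 ^ (k + 2))‖ₑ := by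
  have hint : ∀ (V : ℝ → ℂ) (δ : ℝ), 0 < δ → ‖∫ ν in (0:ℝ)..δ, V ν‖ₑ ≤
      ∫⁻ ν in Icc (0:ℝ) δ, ‖V ν‖ₑ := by
    intro V δ hδ
    rw [intervalIntegral.integral_of_le hδ.le]
    exact (enorm_integral_le_lintegral_enorm _).trans (lintegral_mono_set Ioc_subset_Icc_self)
  have ha0 : ‖avk U 0‖ₑ ≤ 2 * (∫⁻ ν in Icc (0:ℝ) (1 / 2), ‖U ν‖ₑ) := by
    unfold avk
    rw [enorm_mul, zero_add, pow_one, pow_one, enorm_two]
    exact mul_le_mul' le_rfl (hint _ _ (by norm_num))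
  have hak : ∀ k, ‖avk U (k + 1) - avk U k‖ₑ ≤ 2 ^ (k + 1) *
      ∫⁻ ν in Icc (0:ℝ) (1 / 2 ^ (k + 2)), ‖U ν - U (ν + 1 / 2 ^ (k + 2))‖ₑ := by
    intro k
    rw [avk_diff U hI, enorm_mul, enorm_pow, enorm_two]
    exact mul_le_mul' le_rfl (hint _ _ (dk_pos _))
  have hn : ∀ n, ‖avk U n‖ₑ ≤ ‖avk U 0‖ₑ + ∑ k ∈ Finset.range n, ‖avk U (k + 1) - avk U k‖ₑ := by
    intro n
    induction n with
    | zero => simp
    | succ n ih =>
      rw [Finset.sum_range_succ, ← add_assoc]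
      calc ‖avk U (n + 1)‖ₑ = ‖avk U n + (avk U (n + 1) - avk U n)‖ₑ := by
            congr 1
            ring
        _ ≤ ‖avk U n‖ₑ + ‖avk U (n + 1) - avk U n‖ₑ := enorm_add_le _ _
        _ ≤ _ := by gcongr
  refine le_of_tendsto' ((avk_lim U hI h0).enorm) fun n => (hn n).trans (add_le_add ha0 ?_)
  exact (ENNReal.sum_le_tsum _).trans (ENNReal.tsum_le_tsum hak)

/-- change of variables -/
lemma chg (Φ : ℝ → ℝ≥0∞) {σ0 : ℝ} (hσ : 0 < σ0) :
    ∫⁻ ν in Icc (0:ℝ) 1, Φ (σ0 * Real.exp (-2 * ν)) ≤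
      ENNReal.ofReal (2 * σ0 * Real.exp (-2))⁻¹ *
        ∫⁻ σ in Icc (σ0 * Real.exp (-2)) σ0, Φ σ := by
  set g : ℝ → ℝ := fun ν => σ0 * Real.exp (-2 * ν) with hg
  set g' : ℝ → ℝ := fun ν => σ0 * (Real.exp (-2 * ν) * (-2)) with hg'
  have hd : ∀ x ∈ Icc (0:ℝ) 1, HasDerivWithinAt g (g' x) (Icc 0 1) x := by
    intro x _
    have h1 : HasDerivAt (fun ν : ℝ => -2 * ν) (-2) x := by
      simpa using (hasDerivAt_id x).const_mul (-2 : ℝ)
    exact ((h1.exp).const_mul σ0).hasDerivWithinAt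
  have hinj : InjOn g (Icc 0 1) := by
    intro x _ y _ hxy
    have h1 : Real.exp (-2 * x) = Real.exp (-2 * y) := mul_left_cancel₀ hσ.ne' hxy
    have h2 := Real.exp_injective h1
    linarith
  have h1 := lintegral_image_eq_lintegral_abs_deriv_mul measurableSet_Icc hd hinj Φ
  have hsub : g '' Icc 0 1 ⊆ Icc (σ0 * Real.exp (-2)) σ0 := by
    rintro _ ⟨ν, hν, rfl⟩
    constructor
    · apply mul_le_mul_of_nonneg_left _ hσ.le
      exact Real.exp_le_exp.2 (by linarith [hν.2])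
    · calc σ0 * Real.exp (-2 * ν) ≤ σ0 * 1 := by
            gcongr
            exact Real.exp_le_one_iff.2 (by linarith [hν.1])
        _ = σ0 := mul_one _
  have hc : 0 < 2 * σ0 * Real.exp (-2) := by positivity
  calc ∫⁻ ν in Icc (0:ℝ) 1, Φ (σ0 * Real.exp (-2 * ν))
      ≤ ∫⁻ ν in Icc (0:ℝ) 1, ENNReal.ofReal (2 * σ0 * Real.exp (-2))⁻¹ *
          (ENNReal.ofReal |g' ν| * Φ (g ν)) := by
        apply setLIntegral_mono' measurableSet_Icc
        intro ν hν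
        rw [← mul_assoc, ← ENNReal.ofReal_mul (by positivity)]
        have e1 : 1 ≤ (2 * σ0 * Real.exp (-2))⁻¹ * |g' ν| := by
          have e2 : |g' ν| = 2 * σ0 * Real.exp (-2 * ν) := by
            rw [hg']
            simp only
            rw [show σ0 * (Real.exp (-2 * ν) * (-2)) = -(2 * σ0 * Real.exp (-2 * ν)) by ring,
              abs_neg, abs_of_pos (by positivity)]
          rw [e2, inv_mul_eq_div, one_le_div hc]
          gcongr
          linarith [hν.2]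
        calc Φ (σ0 * Real.exp (-2 * ν)) = 1 * Φ (g ν) := (one_mul _).symm
          _ ≤ _ := by
              gcongr
              rw [← ENNReal.ofReal_one]
              exact ENNReal.ofReal_le_ofReal e1
    _ = ENNReal.ofReal (2 * σ0 * Real.exp (-2))⁻¹ * ∫⁻ x in g '' Icc 0 1, Φ x := by
        rw [lintegral_const_mul' _ _ ENNReal.ofReal_ne_top, ← h1]
    _ ≤ _ := by
        gcongr

end Pool.Agent.R245.OD
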