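import Mathlib
import Pool.Agent.R245.OD.Amp
import Pool.Agent.W203.SP.Defs
set_option autoImplicit false

/-! The integral over the times. -/

namespace Pool.Agent.R245.OD

open MeasureTheory Set Complex
open scoped ENNReal ComplexConjugate
open Pool.Agent.W203.SP (ee)

/-- the weight in time -/
noncomputable def wt (T t : ℝ) : ℝ := (t / T) ^ 2 * Real.exp (-(t / T))

lemma wt_nonneg (T t : ℝ) : 0 ≤ wt T t := by unfold wt; positivity

lemma wt_cont (T : ℝ) : Continuous (wt T) := by unfold wt; fun_prop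

lemma wt_int {T : ℝ} (hT : 0 < T) : IntegrableOn (wt T) (Ioi 0) := by
  have h1 := Real.GammaIntegral_convergent (s := 3) (by norm_num)
  have h2 : IntegrableOn (fun x : ℝ => Real.exp (-x) * x ^ ((3:ℝ) - 1)) (Ioi (T⁻¹ * 0)) := by
    rw [mul_zero]
    exact h1
  have h3 := (integrableOn_Ioi_comp_mul_left_iff
    (fun x : ℝ => Real.exp (-x) * x ^ ((3:ℝ) - 1)) 0 (inv_pos.2 hT)).2 h2
  refine h3.congr_fun ?_ measurableSet_Ioi
  intro t ht
  have ht0 : (0:ℝ) < t := ht
  simp only [wt]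
  have e : (T⁻¹ * t) ^ ((3:ℝ) - 1) = (t / T) ^ 2 := by
    rw [show (3:ℝ) - 1 = ((2:ℕ):ℝ) by norm_num, Real.rpow_natCast]
    congr 1
    ring
  rw [e, mul_comm]
  congr 2
  ring

lemma tend {T : ℝ} (hT : 0 < T) (n : ℕ) :
    Filter.Tendsto (fun t : ℝ => t ^ n * Real.exp (-(t / T))) Filter.atTop (nhds 0) := by
  have h1 := Real.tendsto_pow_mul_exp_neg_atTop_nhds_zero n
  have h2 : Filter.Tendsto (fun t : ℝ => t / T) Filter.atTop Filter.atTop :=
    Filter.tendsto_id.atTop_div_const hT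
  have h3 := (h1.comp h2).const_mul (T ^ n)
  rw [mul_zero] at h3
  refine h3.congr fun t => ?_
  simp only [Function.comp]
  rw [div_pow]
  field_simp

/-- the time integral -/
lemma time {T : ℝ} (hT : 0 < T) (x : ℝ) :
    ∫ t in Ioi (0:ℝ), (wt T t : ℂ) * ee (t * x) = 2 * T * (om (2 * Real.pi * T * x) ^ 3)⁻¹ := by
  set c : ℂ := om (2 * Real.pi * T * x) / T with hc
  have hT0 : (T : ℂ) ≠ 0 := by exact_mod_cast hT.ne'
  have hom := om_ne (2 * Real.pi * T * x)
  have hc0 : c ≠ 0 := div_ne_zero hom hT0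
  have ec : c = (1 / T : ℂ) - 2 * Real.pi * x * I := by
    rw [hc]
    unfold om
    push_cast
    field_simp
  have e1 : ∀ t : ℝ, (wt T t : ℂ) * ee (t * x) = (1 / T ^ 2 : ℂ) * ((t : ℂ) ^ 2 *
      cexp (-(c * t))) := by
    intro t
    simp only [wt, ee]
    push_cast
    rw [mul_assoc, ← Complex.exp_add]
    have e3 : -((t:ℂ) / T) + 2 * Real.pi * (t * x) * I = -(c * t) := by
      rw [ec]
      ring
    rw [e3]
    ring
  set F : ℝ → ℂ := fun t => -((t:ℂ) ^ 2 / c + 2 * t / c ^ 2 + 2 / c ^ 3) * cexp (-(c * t)) with hF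
  have hd : ∀ t : ℝ, HasDerivAt F ((t : ℂ) ^ 2 * cexp (-(c * t))) t := by
    intro t
    have g0 : HasDerivAt (fun t : ℝ => (t : ℂ)) 1 t := hasDerivAt_id t |>.ofReal_comp
    have g1 : HasDerivAt (fun t : ℝ => (t:ℂ) ^ 2 / c + 2 * t / c ^ 2 + 2 / c ^ 3)
        (2 * t / c + 2 / c ^ 2) t := by
      have := (((g0.pow 2).div_const c).add ((g0.const_mul 2).div_const (c ^ 2))).add_const
        (2 / c ^ 3)
      refine this.congr_deriv ?_
      simp
    have g2 : HasDerivAt (fun t : ℝ => cexp (-(c * t))) (cexp (-(c * t)) * (-(c * 1))) t :=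
      ((g0.const_mul c).neg).cexp
    refine (g1.neg.mul g2).congr_deriv ?_
    simp only [Pi.neg_apply]
    field_simp
    ring
  have hnorm : ∀ t : ℝ, ‖cexp (-(c * t))‖ = Real.exp (-(t / T)) := by
    intro t
    rw [Complex.norm_exp]
    congr 1
    rw [ec]
    simp
    ring
  have hint : IntegrableOn (fun t : ℝ => (t : ℂ) ^ 2 * cexp (-(c * t))) (Ioi 0) := by
    have h5 := (wt_int hT).const_mul (T ^ 2)
    refine Integrable.mono' h5 ?_ ?_
    · exact (by fun_prop : Continuous fun t : ℝ => (t : ℂ) ^ 2 *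
        cexp (-(c * t))).aestronglyMeasurable
    · refine ae_of_all _ fun t => ?_
      rw [norm_mul, hnorm, norm_pow, Complex.norm_real, Real.norm_eq_abs, sq_abs]
      unfold wt
      rw [div_pow]
      field_simp
      exact le_rfl
  have hlim : Filter.Tendsto F Filter.atTop (nhds 0) := by
    rw [tendsto_zero_iff_norm_tendsto_zero]
    have k2 := (tend hT 2).div_const ‖c‖
    have k1 := ((tend hT 1).const_mul 2).div_const (‖c‖ ^ 2)
    have k0 := ((tend hT 0).const_mul 2).div_const (‖c‖ ^ 3)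
    have k := (k2.add k1).add k0
    simp only [mul_zero, zero_div, add_zero] at k
    refine squeeze_zero' (Filter.Eventually.of_forall fun t => norm_nonneg _) ?_ k
    filter_upwards [Filter.eventually_ge_atTop (0:ℝ)] with t ht
    simp only [hF]
    rw [norm_mul, norm_neg, hnorm]
    have h6 : ‖(t:ℂ) ^ 2 / c + 2 * t / c ^ 2 + 2 / c ^ 3‖ ≤
        t ^ 2 / ‖c‖ + 2 * t / ‖c‖ ^ 2 + 2 / ‖c‖ ^ 3 := by
      refine (norm_add₃_le).trans (le_of_eq ?_)
      have a1 : ‖(t:ℂ) ^ 2 / c‖ = t ^ 2 / ‖c‖ := by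
        rw [norm_div (_ ^ 2) c, norm_pow, Complex.norm_real, Real.norm_of_nonneg ht]
      have a2 : ‖2 * (t:ℂ) / c ^ 2‖ = 2 * t / ‖c‖ ^ 2 := by
        rw [norm_div (2 * (t:ℂ)) (c ^ 2), norm_pow c 2, norm_mul, Complex.norm_real,
          Real.norm_of_nonneg ht]
        simp
      have a3 : ‖2 / c ^ 3‖ = 2 / ‖c‖ ^ 3 := by
        rw [norm_div 2 (c ^ 3), norm_pow c 3]
        simp
      rw [a1, a2, a3]
    calc _ ≤ (t ^ 2 / ‖c‖ + 2 * t / ‖c‖ ^ 2 + 2 / ‖c‖ ^ 3) * Real.exp (-(t / T)) := by gcongr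
      _ = _ := by ring
  have hmain := integral_Ioi_of_hasDerivAt_of_tendsto' (a := 0) (f := F) (fun t _ => hd t) hint hlim
  calc ∫ t in Ioi (0:ℝ), (wt T t : ℂ) * ee (t * x)
      = ∫ t in Ioi (0:ℝ), (1 / T ^ 2 : ℂ) * ((t : ℂ) ^ 2 * cexp (-(c * t))) := by
        simp only [e1]
    _ = (1 / T ^ 2 : ℂ) * (0 - F 0) := by rw [integral_const_mul, hmain]
    _ = _ := by
        simp only [hF]
        rw [hc]
        simp
        field_simp

lemma ee_neg (x : ℝ) : ee (-x) = conj (ee x) := by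
  unfold ee
  rw [← Complex.exp_conj]
  congr 1
  rw [map_mul, Complex.conj_ofReal, Complex.conj_I]
  push_cast
  ring

/-- the time integral with a sign -/
lemma time' {T : ℝ} (hT : 0 < T) (ε x : ℝ) :
    ∫ t in Ioi (0:ℝ), (wt T t : ℂ) * ee (ε * t * x) =
      2 * T * (om (2 * Real.pi * T * (ε * x)) ^ 3)⁻¹ := by
  rw [← time hT (ε * x)]
  apply integral_congr_ae
  refine ae_of_all _ fun t => ?_
  simp only
  congr 2
  ring

end Pool.Agent.R245.OD
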