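import Mathlib
import Pool.Agent.R245.OD.Tim
set_option autoImplicit false

/-! The averaged fourth moment as an integral over four points. -/

namespace Pool.Agent.R245.OD

open MeasureTheory Set Complex
open scoped ENNReal ComplexConjugate FourierTransform RealInnerProductSpace
open Pool.Agent.W203.SP (ee pw gs DS)
open Pool.Agent.H153R4 (E BS kk BB cube cube_meas cube_vol)

variable {k : ℕ}

lemma pw_const (σ : ℝ) (z : E k) : pw 1 (fun _ => σ) z = 1 - σ * ‖z‖ ^ 2 := by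
  unfold pw
  rw [EuclideanSpace.norm_sq_eq, ← Finset.mul_sum]
  simp

lemma gs_const (m : ℕ) (t σ : ℝ) (f : E k → ℂ) (z : E k) :
    gs m t (fun _ => σ) f z =
      ee (t * f0 (‖z‖ ^ 2) σ) * ((1 / f0 (‖z‖ ^ 2) σ ^ m : ℝ) : ℂ) * f z := by
  unfold gs f0
  rw [pw_const]

lemma ee_cont : Continuous ee := by
  unfold ee
  fun_prop

lemma ee_norm (x : ℝ) : ‖ee x‖ = 1 := by
  unfold ee
  exact Complex.norm_exp_ofReal_mul_I _

lemma ee_add (x y : ℝ) : ee (x + y) = ee x * ee y := by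
  unfold ee
  rw [← Complex.exp_add]
  congr 1
  push_cast
  ring

/-- the product of the four values -/
noncomputable def f4 (f : E k → ℂ) (h z z' : E k) : ℂ :=
  f (z + h) * conj (f z) * conj (f (z' + h)) * f z'

/-- the four squared norms -/
noncomputable def al (h z z' : E k) (σ : ℝ) : ℝ :=
  alt f0 (‖z + h‖ ^ 2) (‖z'‖ ^ 2) (‖z‖ ^ 2) (‖z' + h‖ ^ 2) σ

/-- the product of the square roots -/
noncomputable def pp (h z z' : E k) (σ : ℝ) : ℝ :=
  pr (‖z + h‖ ^ 2) (‖z'‖ ^ 2) (‖z‖ ^ 2) (‖z' + h‖ ^ 2) σ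

lemma kk_mul (m : ℕ) (t σ : ℝ) (f : E k → ℂ) (h z z' : E k) :
    kk (gs m t (fun _ => σ) f) h z * conj (kk (gs m t (fun _ => σ) f) h z') =
      f4 f h z z' * (ee (t * al h z z' σ) * (((pp h z z' σ ^ m)⁻¹ : ℝ) : ℂ)) := by
  unfold kk f4
  simp only [gs_const, map_mul, ← ee_neg, Complex.conj_ofReal, Complex.conj_conj]
  have e1 : ee (t * al h z z' σ) = ee (t * f0 (‖z + h‖ ^ 2) σ) * ee (-(t * f0 (‖z‖ ^ 2) σ)) *
      ee (-(t * f0 (‖z' + h‖ ^ 2) σ)) * ee (t * f0 (‖z'‖ ^ 2) σ) := by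
    rw [← ee_add, ← ee_add, ← ee_add]
    congr 1
    unfold al alt
    ring
  have e2 : (pp h z z' σ ^ m)⁻¹ = (1 / f0 (‖z + h‖ ^ 2) σ ^ m) * (1 / f0 (‖z‖ ^ 2) σ ^ m) *
      (1 / f0 (‖z' + h‖ ^ 2) σ ^ m) * (1 / f0 (‖z'‖ ^ 2) σ ^ m) := by
    unfold pp pr
    rw [one_div, one_div, one_div, one_div, mul_pow, mul_pow, mul_pow, mul_inv, mul_inv, mul_inv]
    ring
  rw [e1, e2]
  have e3 : conj (ee (-(t * f0 (‖z'‖ ^ 2) σ))) = ee (t * f0 (‖z'‖ ^ 2) σ) := by
    rw [← ee_neg, neg_neg]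
  push_cast
  ring_nf

/-! ### The integral over the parameters -/

/-- the measure on the parameters `(σ, t)` -/
noncomputable def mu (a b : ℝ) : Measure (ℝ × ℝ) :=
  (volume.restrict (Icc a b)).prod (volume.restrict (Ioi 0))

instance (a b : ℝ) : SFinite (mu a b) := by unfold mu; infer_instance

/-- the weight -/
noncomputable def we (a b T : ℝ) (q : ℝ × ℝ) : ℝ := (q.1 - a) * (b - q.1) * wt T q.2

/-- the integrand -/
noncomputable def Th (a b T ε : ℝ) (m : ℕ) (f : E k → ℂ) (h : E k) (q : ℝ × ℝ)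
    (p : E k × E k) : ℂ :=
  (we a b T q : ℂ) * (f4 f h p.1 p.2 *
    (ee (ε * q.2 * al h p.1 p.2 q.1) * (((pp h p.1 p.2 q.1 ^ m)⁻¹ : ℝ) : ℂ)))

lemma mu_ae (a b : ℝ) : ∀ᵐ q ∂(mu a b), q.1 ∈ Icc a b ∧ 0 < q.2 := by
  have h : mu a b = (volume.prod volume).restrict (Icc a b ×ˢ Ioi 0) := by
    unfold mu
    rw [Measure.prod_restrict]
  rw [h]
  filter_upwards [ae_restrict_mem (measurableSet_Icc.prod measurableSet_Ioi)] with q hq
  exact ⟨hq.1, hq.2⟩

lemma f0_meas {X : Type*} [MeasurableSpace X] {u v : X → ℝ} (hu : Measurable u)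
    (hv : Measurable v) : Measurable fun x => f0 (u x) (v x) := by
  unfold f0
  exact (measurable_const.sub (hv.mul hu)).sqrt

lemma we_int (a b : ℝ) {T : ℝ} (hT : 0 < T) : Integrable (we a b T) (mu a b) := by
  have h1 : IntegrableOn (fun σ : ℝ => (σ - a) * (b - σ)) (Icc a b) :=
    (by fun_prop : Continuous fun σ : ℝ => (σ - a) * (b - σ)).continuousOn.integrableOn_Icc
  exact Integrable.mul_prod h1 (wt_int hT)

lemma ball_cube' {z : E k} (hz : z ∉ cube k) : 1 < ‖z‖ := by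
  unfold cube at hz
  simp only [mem_ofPred_eq, not_forall, not_le] at hz
  obtain ⟨j, hj⟩ := hz
  refine lt_of_lt_of_le hj ?_
  have := PiLp.norm_apply_le (p := 2) z j
  rwa [Real.norm_eq_abs] at this

lemma f4_zero {M : ℝ} {f : E k → ℂ} (hf : DS M f) (h z z' : E k) :
    f4 f h z z' = 0 ∨ (‖z + h‖ ≤ 1 ∧ ‖z‖ ≤ 1 ∧ ‖z' + h‖ ≤ 1 ∧ ‖z'‖ ≤ 1) := by
  by_cases h1 : ‖z + h‖ ≤ 1
  · by_cases h2 : ‖z‖ ≤ 1
    · by_cases h3 : ‖z' + h‖ ≤ 1
      · by_cases h4 : ‖z'‖ ≤ 1
        · exact Or.inr ⟨h1, h2, h3, h4⟩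
        · left
          unfold f4
          rw [hf.supp z' (not_le.1 h4), mul_zero]
      · left
        unfold f4
        rw [hf.supp _ (not_le.1 h3)]
        simp
    · left
      unfold f4
      rw [hf.supp _ (not_le.1 h2)]
      simp
  · left
    unfold f4
    rw [hf.supp _ (not_le.1 h1)]
    simp

lemma f4_norm (f : E k → ℂ) (h z z' : E k) :
    ‖f4 f h z z'‖ = ‖f (z + h)‖ * ‖f z‖ * ‖f (z' + h)‖ * ‖f z'‖ := by
  unfold f4
  simp only [norm_mul, RCLike.norm_conj]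

lemma sq_mem {x : ℝ} (h0 : 0 ≤ x) (h1 : x ≤ 1) : x ^ 2 ∈ Icc (0:ℝ) 1 :=
  ⟨sq_nonneg _, pow_le_one₀ h0 h1⟩

lemma Th_norm {a b T ε M : ℝ} (ha : 0 < a) (hb : b < 1) (m : ℕ) {f : E k → ℂ} (hf : DS M f)
    (h : E k) (q : ℝ × ℝ) (hq : q.1 ∈ Icc a b) (p : E k × E k) :
    ‖Th a b T ε m f h q p‖ ≤ ‖we a b T q‖ *
      ((cube k ×ˢ cube k).indicator (fun _ => (kb b ^ (4 * m))⁻¹ * M ^ 4) p) := by
  have hM : 0 ≤ M := (norm_nonneg _).trans (hf.bd 0)
  have hk := kb_pos hb
  unfold Th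
  rw [norm_mul, Complex.norm_real]
  refine mul_le_mul_of_nonneg_left ?_ (norm_nonneg _)
  rcases f4_zero hf h p.1 p.2 with h0 | ⟨h1, h2, h3, h4⟩
  · rw [h0, zero_mul, norm_zero]
    exact indicator_nonneg (fun _ _ => by positivity) _
  · have hp : p ∈ cube k ×ˢ cube k := by
      constructor
      · by_contra hc
        have := ball_cube' hc
        linarith
      · by_contra hc
        have := ball_cube' hc
        linarith
    rw [indicator_of_mem hp, norm_mul, norm_mul, ee_norm, one_mul, Complex.norm_real,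
      Real.norm_eq_abs, f4_norm]
    obtain ⟨q1, q2, -⟩ := pr_low ha hb (sq_mem (norm_nonneg _) h1) (sq_mem (norm_nonneg _) h4)
      (sq_mem (norm_nonneg _) h2) (sq_mem (norm_nonneg _) h3) hq
    have e1 : |(pp h p.1 p.2 q.1 ^ m)⁻¹| ≤ (kb b ^ (4 * m))⁻¹ := by
      unfold pp
      rw [abs_of_nonneg (by have : 0 < kb b ^ 4 := by positivity
                            have := this.le.trans q1
                            positivity), pow_mul]
      exact inv_anti₀ (by positivity) (pow_le_pow_left₀ (by positivity) q1 m)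
    have e2 : ‖f (p.1 + h)‖ * ‖f p.1‖ * ‖f (p.2 + h)‖ * ‖f p.2‖ ≤ M ^ 4 := by
      calc _ ≤ M * M * M * M := by
            have b1 := hf.bd (p.1 + h)
            have b2 := hf.bd p.1
            have b3 := hf.bd (p.2 + h)
            have b4 := hf.bd p.2
            gcongr
        _ = M ^ 4 := by ring
    calc _ ≤ M ^ 4 * (kb b ^ (4 * m))⁻¹ := mul_le_mul e2 e1 (abs_nonneg _) (by positivity)
      _ = _ := mul_comm _ _

lemma f4_meas {f : E k → ℂ} (hf : Measurable f) (h : E k) :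
    Measurable fun p : E k × E k => f4 f h p.1 p.2 := by
  unfold f4
  have hc : Measurable (fun x : ℂ => conj x) := Complex.continuous_conj.measurable
  have m1 : Measurable fun p : E k × E k => f (p.1 + h) :=
    hf.comp (measurable_fst.add_const h)
  have m2 : Measurable fun p : E k × E k => f p.1 := hf.comp measurable_fst
  have m3 : Measurable fun p : E k × E k => f (p.2 + h) :=
    hf.comp (measurable_snd.add_const h)
  have m4 : Measurable fun p : E k × E k => f p.2 := hf.comp measurable_snd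
  exact ((m1.mul (hc.comp m2)).mul (hc.comp m3)).mul m4

lemma Th_meas (a b T ε : ℝ) (m : ℕ) {f : E k → ℂ} (hf : Measurable f) (h : E k) :
    Measurable fun r : (ℝ × ℝ) × (E k × E k) => Th a b T ε m f h r.1 r.2 := by
  unfold Th we
  have m0 : Measurable fun r : (ℝ × ℝ) × (E k × E k) =>
      (r.1.1 - a) * (b - r.1.1) * wt T r.1.2 :=
    (by fun_prop : Measurable fun r : (ℝ × ℝ) × (E k × E k) => (r.1.1 - a) * (b - r.1.1)).mul
      ((wt_cont T).measurable.comp (by fun_prop))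
  have n1 : Measurable fun r : (ℝ × ℝ) × (E k × E k) => f0 (‖r.2.1 + h‖ ^ 2) r.1.1 :=
    f0_meas (by fun_prop) (by fun_prop)
  have n2 : Measurable fun r : (ℝ × ℝ) × (E k × E k) => f0 (‖r.2.2‖ ^ 2) r.1.1 :=
    f0_meas (by fun_prop) (by fun_prop)
  have n3 : Measurable fun r : (ℝ × ℝ) × (E k × E k) => f0 (‖r.2.1‖ ^ 2) r.1.1 :=
    f0_meas (by fun_prop) (by fun_prop)
  have n4 : Measurable fun r : (ℝ × ℝ) × (E k × E k) => f0 (‖r.2.2 + h‖ ^ 2) r.1.1 :=
    f0_meas (by fun_prop) (by fun_prop)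
  have m1 : Measurable fun r : (ℝ × ℝ) × (E k × E k) => al h r.2.1 r.2.2 r.1.1 := by
    unfold al alt
    exact ((n1.add n2).sub n3).sub n4
  have m2 : Measurable fun r : (ℝ × ℝ) × (E k × E k) => pp h r.2.1 r.2.2 r.1.1 := by
    unfold pp pr
    exact ((n1.mul n2).mul n3).mul n4
  have m3 : Measurable fun r : (ℝ × ℝ) × (E k × E k) => ε * r.1.2 * al h r.2.1 r.2.2 r.1.1 :=
    (by fun_prop : Measurable fun r : (ℝ × ℝ) × (E k × E k) => ε * r.1.2).mul m1
  exact (Complex.measurable_ofReal.comp m0).mul (((f4_meas hf h).comp measurable_snd).mul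
    ((ee_cont.measurable.comp m3).mul (Complex.measurable_ofReal.comp (m2.pow_const m).inv)))

lemma Th_int {a b T ε M : ℝ} (ha : 0 < a) (hb : b < 1) (hT : 0 < T) (m : ℕ) {f : E k → ℂ}
    (hf : DS M f) (h : E k) :
    Integrable (fun r : (ℝ × ℝ) × (E k × E k) => Th a b T ε m f h r.1 r.2)
      ((mu a b).prod volume) := by
  have h1 : Integrable (fun p : E k × E k =>
      (cube k ×ˢ cube k).indicator (fun _ => (kb b ^ (4 * m))⁻¹ * M ^ 4) p) := by
    rw [integrable_indicator_iff ((cube_meas k).prod (cube_meas k))]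
    refine integrableOn_const ?_ enorm_ne_top
    rw [Measure.volume_eq_prod, Measure.prod_prod]
    exact (ENNReal.mul_lt_top (cube_vol k) (cube_vol k)).ne
  have h2 := (we_int a b hT).norm.mul_prod h1
  refine Integrable.mono' h2 (Th_meas a b T ε m hf.meas h).aestronglyMeasurable ?_
  have h3 : ∀ᵐ r : (ℝ × ℝ) × (E k × E k) ∂((mu a b).prod volume), r.1.1 ∈ Icc a b :=
    (Measure.quasiMeasurePreserving_fst (μ := mu a b)
      (ν := (volume : Measure (E k × E k)))).ae ((mu_ae a b).mono fun q hq => hq.1)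
  filter_upwards [h3] with r hr
  exact Th_norm ha hb m hf h r.1 hr r.2

end Pool.Agent.R245.OD
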