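import Mathlib
import Pool.Agent.R245.OD.Fp
set_option autoImplicit false

/-! The averaged fourth moment as an integral over four points: Fubini. -/

namespace Pool.Agent.R245.OD

open MeasureTheory Set Complex
open scoped ENNReal ComplexConjugate FourierTransform RealInnerProductSpace
open Pool.Agent.W203.SP (ee pw gs DS)
open Pool.Agent.H153R4 (E BS kk BB cube cube_meas cube_vol)

variable {k : ℕ}

/-- the kernel at four points -/
noncomputable def kf (a b T : ℝ) (m : ℕ) (h z z' : E k) : ℂ :=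
  ker a b (2 * Real.pi * T) m (‖z + h‖ ^ 2) (‖z'‖ ^ 2) (‖z‖ ^ 2) (‖z' + h‖ ^ 2)

lemma Th_int1 {a b T ε M : ℝ} (ha : 0 < a) (hb : b < 1) (hT : 0 < T) (m : ℕ) {f : E k → ℂ}
    (hf : DS M f) (h : E k) (p : E k × E k) :
    Integrable (fun q : ℝ × ℝ => Th a b T ε m f h q p) (mu a b) := by
  refine Integrable.mono' ((we_int a b hT).norm.mul_const
    ((cube k ×ˢ cube k).indicator (fun _ => (kb b ^ (4 * m))⁻¹ * M ^ 4) p)) ?_ ?_
  · exact ((Th_meas a b T ε m hf.meas h).comp measurable_prodMk_right).aestronglyMeasurable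
  · filter_upwards [mu_ae a b] with q hq
    exact Th_norm ha hb m hf h q hq.1 p

lemma int_mu {a b T ε M : ℝ} (ha : 0 < a) (hab : a ≤ b) (hb : b < 1) (hT : 0 < T) (m : ℕ)
    {f : E k → ℂ} (hf : DS M f) (h : E k) (p : E k × E k) :
    ∫ q, Th a b T ε m f h q p ∂(mu a b) = f4 f h p.1 p.2 * (2 * T *
      ∫ s in a..b, (am a b m (‖p.1 + h‖ ^ 2) (‖p.2‖ ^ 2) (‖p.1‖ ^ 2) (‖p.2 + h‖ ^ 2) s : ℂ) *
        (om (2 * Real.pi * T * (ε * al h p.1 p.2 s)) ^ 3)⁻¹) := by
  have hi := Th_int1 (ε := ε) ha hb hT m hf h p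
  unfold mu at hi ⊢
  rw [integral_prod _ hi, intervalIntegral.integral_of_le hab, ← integral_Icc_eq_integral_Ioc,
    ← integral_const_mul, ← integral_const_mul]
  apply setIntegral_congr_fun measurableSet_Icc
  intro σ hσ
  simp only
  have e1 : ∀ t : ℝ, Th a b T ε m f h (σ, t) p =
      (f4 f h p.1 p.2 * (((σ - a) * (b - σ) * (pp h p.1 p.2 σ ^ m)⁻¹ : ℝ) : ℂ)) *
        ((wt T t : ℂ) * ee (ε * t * al h p.1 p.2 σ)) := by
    intro t
    unfold Th we
    simp only
    push_cast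
    ring
  simp only [e1]
  rw [integral_const_mul, time' hT]
  unfold am
  have e2 : pr (‖p.1 + h‖ ^ 2) (‖p.2‖ ^ 2) (‖p.1‖ ^ 2) (‖p.2 + h‖ ^ 2) σ = pp h p.1 p.2 σ := rfl
  rw [e2]
  push_cast
  ring

lemma om_neg (x : ℝ) : om (-x) = conj (om x) := by
  unfold om
  simp

lemma int_mu_norm {a b T ε M : ℝ} (ha : 0 < a) (hab : a ≤ b) (hb : b < 1) (hT : 0 < T)
    (hε : ε = 1 ∨ ε = -1) (m : ℕ) {f : E k → ℂ} (hf : DS M f) (h : E k) (p : E k × E k) :
    ‖∫ q, Th a b T ε m f h q p ∂(mu a b)‖ =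
      ‖f4 f h p.1 p.2‖ * (2 * T * ‖kf a b T m h p.1 p.2‖) := by
  rw [int_mu ha hab hb hT m hf h p, norm_mul, norm_mul, norm_mul, Complex.norm_real,
    Real.norm_of_nonneg hT.le]
  have h2 : ‖(2:ℂ)‖ = 2 := by simp
  rw [h2]
  congr 2
  rcases hε with rfl | rfl
  · unfold kf ker al
    simp only [one_mul]
  · unfold kf ker al
    rw [intervalIntegral.integral_of_le hab, intervalIntegral.integral_of_le hab,
      ← RCLike.norm_conj (∫ s in Ioc a b, _ ∂volume), ← integral_conj]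
    congr 1
    apply integral_congr_ae
    refine ae_of_all _ fun s => ?_
    simp only [map_mul, map_inv₀, map_pow, Complex.conj_ofReal]
    rw [← om_neg]
    congr 4
    ring

/-- the fourth moment, for one difference `h` -/
lemma four_h {a b T ε M : ℝ} (ha : 0 < a) (hab : a ≤ b) (hb : b < 1) (hT : 0 < T)
    (hε : ε = 1 ∨ ε = -1) (m : ℕ) {f : E k → ℂ} (hf : DS M f) (h : E k) :
    ∫⁻ q, ENNReal.ofReal (we a b T q) * ‖BB (gs m (ε * q.2) (fun _ => q.1) f) h‖ₑ ^ 2
        ∂(mu a b) ≤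
      ∫⁻ p : E k × E k, ‖f4 f h p.1 p.2‖ₑ * (ENNReal.ofReal (2 * T) * ‖kf a b T m h p.1 p.2‖ₑ) := by
  set Φ : ℝ × ℝ → ℝ := fun q => we a b T q * ‖BB (gs m (ε * q.2) (fun _ => q.1) f) h‖ ^ 2 with hΦ
  have hint := Th_int (ε := ε) ha hb hT m hf h
  have hΦC : ∀ q, ((Φ q : ℝ) : ℂ) = ∫ p : E k × E k, Th a b T ε m f h q p := by
    intro q
    set g := gs m (ε * q.2) (fun _ => q.1) f with hg
    have e1 : ∀ p : E k × E k, Th a b T ε m f h q p =
        (we a b T q : ℂ) * (kk g h p.1 * conj (kk g h p.2)) := by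
      intro p
      rw [hg, kk_mul]
      rfl
    simp only [e1]
    rw [integral_const_mul, Measure.volume_eq_prod,
      integral_prod_mul (fun z => kk g h z) (fun z => conj (kk g h z)), integral_conj]
    have e2 : ∫ z, kk g h z = BB g h := rfl
    rw [e2, Complex.mul_conj, Complex.normSq_eq_norm_sq]
    simp only [hΦ]
    push_cast
    rfl
  have hΦi : Integrable Φ (mu a b) := by
    have h1 := hint.integral_prod_left
    have h2 : Integrable (fun q => ((Φ q : ℝ) : ℂ)) (mu a b) := by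
      simp only [hΦC]
      exact h1
    exact h2.re
  have hwe : ∀ᵐ q ∂(mu a b), 0 ≤ we a b T q := by
    filter_upwards [mu_ae a b] with q hq
    unfold we
    have := wt_nonneg T q.2
    have h1 : 0 ≤ q.1 - a := by linarith [hq.1.1]
    have h2 : 0 ≤ b - q.1 := by linarith [hq.1.2]
    positivity
  calc ∫⁻ q, ENNReal.ofReal (we a b T q) * ‖BB (gs m (ε * q.2) (fun _ => q.1) f) h‖ₑ ^ 2
        ∂(mu a b)
      = ∫⁻ q, ENNReal.ofReal (Φ q) ∂(mu a b) := by
        apply lintegral_congr_ae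
        filter_upwards [hwe] with q hq
        simp only [hΦ]
        rw [ENNReal.ofReal_mul hq, ENNReal.ofReal_pow (norm_nonneg _), ofReal_norm]
    _ = ENNReal.ofReal (∫ q, Φ q ∂(mu a b)) := by
        rw [← ofReal_integral_eq_lintegral_ofReal hΦi]
        filter_upwards [hwe] with q hq
        simp only [hΦ, Pi.zero_apply]
        positivity
    _ ≤ ‖∫ q, Φ q ∂(mu a b)‖ₑ := Real.ofReal_le_enorm _
    _ = ‖((∫ q, Φ q ∂(mu a b) : ℝ) : ℂ)‖ₑ := by
        rw [← ofReal_norm, ← ofReal_norm, Complex.norm_real]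
    _ = ‖∫ q, (∫ p : E k × E k, Th a b T ε m f h q p) ∂(mu a b)‖ₑ := by
        simp only [← hΦC]
        rw [integral_complex_ofReal]
    _ = ‖∫ p : E k × E k, (∫ q, Th a b T ε m f h q p ∂(mu a b))‖ₑ := by
        rw [integral_integral_swap hint]
    _ ≤ ∫⁻ p : E k × E k, ‖∫ q, Th a b T ε m f h q p ∂(mu a b)‖ₑ :=
        enorm_integral_le_lintegral_enorm _
    _ = _ := by
        apply lintegral_congr
        intro p
        rw [← ofReal_norm, int_mu_norm ha hab hb hT hε m hf h p, ENNReal.ofReal_mul (norm_nonneg _),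
          ENNReal.ofReal_mul (by positivity), ofReal_norm, ofReal_norm]

end Pool.Agent.R245.OD
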