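import Mathlib
import Pool.Agent.R245.OD.Fq
import Pool.Agent.W293.SP.MG
set_option autoImplicit false

/-! The averaged fourth moment. -/

namespace Pool.Agent.R245.OD

open MeasureTheory Set Complex
open scoped ENNReal ComplexConjugate FourierTransform RealInnerProductSpace
open Pool.Agent.W203.SP (ee pw gs DS)
open Pool.Agent.H153R4 (E BS kk BB cube cube_meas cube_vol four)

variable {k : ℕ}

lemma gs_BS {a b M : ℝ} (ha : 0 < a) (hb : b < 1) (m : ℕ) (t : ℝ) {σ : ℝ} (hσ : σ ∈ Icc a b)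
    {f : E k → ℂ} (hf : DS M f) : BS ((kb b ^ m)⁻¹ * M) (gs m t (fun _ => σ) f) := by
  have hk := kb_pos hb
  have hM : 0 ≤ M := (norm_nonneg _).trans (hf.bd 0)
  have h0 : ∀ z, 1 < ‖z‖ → gs m t (fun _ => σ) f z = 0 := fun z hz => by
    rw [gs_const, hf.supp z hz, mul_zero]
  refine ⟨?_, fun z => ?_, fun z hz => h0 z (ball_cube' hz)⟩
  · rw [show gs m t (fun _ => σ) f = fun z => ee (t * f0 (‖z‖ ^ 2) σ) *
      ((1 / f0 (‖z‖ ^ 2) σ ^ m : ℝ) : ℂ) * f z from funext (gs_const m t σ f)]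
    have m0 : Measurable fun z : E k => f0 (‖z‖ ^ 2) σ := f0_meas (by fun_prop) (by fun_prop)
    have m1 : Measurable fun z : E k => ee (t * f0 (‖z‖ ^ 2) σ) :=
      ee_cont.measurable.comp (m0.const_mul t)
    have m2 : Measurable fun z : E k => ((1 / f0 (‖z‖ ^ 2) σ ^ m : ℝ) : ℂ) :=
      Complex.measurable_ofReal.comp (measurable_const.div (m0.pow_const m))
    exact (m1.mul m2).mul hf.meas
  · rcases lt_or_ge 1 ‖z‖ with h1 | h1
    · rw [h0 z h1, norm_zero]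
      positivity
    · rw [gs_const, norm_mul, norm_mul, ee_norm, one_mul, Complex.norm_real, Real.norm_eq_abs]
      obtain ⟨q1, q2⟩ := sq_mem (norm_nonneg z) h1
      have hl := f0_low hb (ha.le.trans hσ.1) hσ.2 q1 q2
      have hp : 0 < f0 (‖z‖ ^ 2) σ := lt_of_lt_of_le hk hl
      rw [abs_of_pos (by positivity), one_div]
      have := hf.bd z
      gcongr

lemma BB_meas {X : Type*} [MeasurableSpace X] (G : X → E k → ℂ)
    (hG : Measurable fun r : X × E k => G r.1 r.2) :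
    Measurable fun r : X × E k => BB (G r.1) r.2 := by
  unfold BB
  have hc : Measurable (fun x : ℂ => conj x) := Complex.continuous_conj.measurable
  have h1 : Measurable fun r : (X × E k) × E k => kk (G r.1.1) r.1.2 r.2 := by
    unfold kk
    have a1 : Measurable fun r : (X × E k) × E k => G r.1.1 (r.2 + r.1.2) :=
      hG.comp (f := fun r : (X × E k) × E k => (r.1.1, r.2 + r.1.2)) (by fun_prop)
    have a2 : Measurable fun r : (X × E k) × E k => G r.1.1 r.2 :=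
      hG.comp (f := fun r : (X × E k) × E k => (r.1.1, r.2)) (by fun_prop)
    exact a1.mul (hc.comp a2)
  exact (h1.stronglyMeasurable.integral_prod_right' (ν := volume)).measurable

lemma gs_meas2 (m : ℕ) (ε : ℝ) {f : E k → ℂ} (hf : Measurable f) :
    Measurable fun r : (ℝ × ℝ) × E k => gs m (ε * r.1.2) (fun _ => r.1.1) f r.2 := by
  simp only [gs_const]
  have m0 : Measurable fun r : (ℝ × ℝ) × E k => f0 (‖r.2‖ ^ 2) r.1.1 :=
    f0_meas (by fun_prop) (by fun_prop)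
  have m1 : Measurable fun r : (ℝ × ℝ) × E k => ee (ε * r.1.2 * f0 (‖r.2‖ ^ 2) r.1.1) :=
    ee_cont.measurable.comp
      ((by fun_prop : Measurable fun r : (ℝ × ℝ) × E k => ε * r.1.2).mul m0)
  have m2 : Measurable fun r : (ℝ × ℝ) × E k => ((1 / f0 (‖r.2‖ ^ 2) r.1.1 ^ m : ℝ) : ℂ) :=
    Complex.measurable_ofReal.comp (measurable_const.div (m0.pow_const m))
  exact (m1.mul m2).mul (hf.comp measurable_snd)

/-- the averaged fourth moment and the four point integral -/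
lemma four_all {a b T ε M : ℝ} (ha : 0 < a) (hab : a ≤ b) (hb : b < 1) (hT : 0 < T)
    (hε : ε = 1 ∨ ε = -1) (m : ℕ) {f : E k → ℂ} (hf : DS M f) :
    ∫⁻ q, ENNReal.ofReal (we a b T q) * (∫⁻ x, ‖𝓕 (gs m (ε * q.2) (fun _ => q.1) f) x‖ₑ ^ 4)
        ∂(mu a b) ≤
      ∫⁻ h : E k, ∫⁻ p : E k × E k, ‖f4 f h p.1 p.2‖ₑ *
        (ENNReal.ofReal (2 * T) * ‖kf a b T m h p.1 p.2‖ₑ) := by
  have hBm : Measurable fun r : (ℝ × ℝ) × E k =>
      BB (gs m (ε * r.1.2) (fun _ => r.1.1) f) r.2 :=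
    BB_meas (fun q : ℝ × ℝ => gs m (ε * q.2) (fun _ => q.1) f) (gs_meas2 m ε hf.meas)
  have hwm : Measurable (we a b T) := by
    unfold we
    exact (by fun_prop : Measurable fun q : ℝ × ℝ => (q.1 - a) * (b - q.1)).mul
      ((wt_cont T).measurable.comp measurable_snd)
  calc _ = ∫⁻ q, (∫⁻ h : E k, ENNReal.ofReal (we a b T q) *
        ‖BB (gs m (ε * q.2) (fun _ => q.1) f) h‖ₑ ^ 2) ∂(mu a b) := by
        apply lintegral_congr_ae
        filter_upwards [mu_ae a b] with q hq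
        rw [four (gs_BS ha hb m (ε * q.2) hq.1 hf), lintegral_const_mul' _ _ ENNReal.ofReal_ne_top]
    _ = ∫⁻ h : E k, (∫⁻ q, ENNReal.ofReal (we a b T q) *
        ‖BB (gs m (ε * q.2) (fun _ => q.1) f) h‖ₑ ^ 2 ∂(mu a b)) := by
        rw [lintegral_lintegral_swap]
        exact ((hwm.ennreal_ofReal.comp measurable_fst).mul (hBm.enorm.pow_const 2)).aemeasurable
    _ ≤ _ := lintegral_mono fun h => four_h ha hab hb hT hε m hf h

lemma rp_anti {x y : ℝ≥0∞} (h : x ≤ y) {θ : ℝ} (hθ : 0 ≤ θ) : y ^ (-θ) ≤ x ^ (-θ) := by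
  rw [ENNReal.rpow_neg, ENNReal.rpow_neg]
  exact ENNReal.inv_le_inv.2 (ENNReal.rpow_le_rpow h hθ)

/-- the three inner products -/
noncomputable def ip (h z z' : E k) : ℝ≥0∞ :=
  ENNReal.ofReal (|⟪h, z - z'⟫| * |⟪h, z + z' + h⟫| * |⟪z - z', z + z' + h⟫|)

lemma dist4_low (h z z' : E k) (h1 : ‖z + h‖ ≤ 1) (h2 : ‖z‖ ≤ 1) (h3 : ‖z' + h‖ ≤ 1)
    (h4 : ‖z'‖ ≤ 1) :
    |⟪h, z - z'⟫| * |⟪h, z + z' + h⟫| * |⟪z - z', z + z' + h⟫| ≤
      dist4 (‖z + h‖ ^ 2) (‖z'‖ ^ 2) (‖z‖ ^ 2) (‖z' + h‖ ^ 2) ^ 2 := by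
  have e1 : ‖z + h‖ ^ 2 = ‖z‖ ^ 2 + 2 * ⟪z, h⟫ + ‖h‖ ^ 2 := norm_add_sq_real z h
  have e2 : ‖z' + h‖ ^ 2 = ‖z'‖ ^ 2 + 2 * ⟪z', h⟫ + ‖h‖ ^ 2 := norm_add_sq_real z' h
  set P1 := ‖z + h‖ ^ 2 with hP1
  set P2 := ‖z'‖ ^ 2 with hP2
  set P3 := ‖z‖ ^ 2 with hP3
  set P4 := ‖z' + h‖ ^ 2 with hP4
  have b1 := sq_mem (norm_nonneg _) h1
  have b2 := sq_mem (norm_nonneg _) h4
  have b3 := sq_mem (norm_nonneg _) h2
  have b4 := sq_mem (norm_nonneg _) h3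
  rw [← hP1] at b1
  rw [← hP2] at b2
  rw [← hP3] at b3
  rw [← hP4] at b4
  have i1 : ⟪h, z - z'⟫ = (P1 + P2 - P3 - P4) / 2 := by
    rw [inner_sub_right, real_inner_comm z h, real_inner_comm z' h, e1, e2]
    ring
  have hh : ⟪h, h⟫ = ‖h‖ ^ 2 := real_inner_self_eq_norm_sq h
  have hz : ⟪z, z⟫ = P3 := real_inner_self_eq_norm_sq z
  have hz' : ⟪z', z'⟫ = P2 := real_inner_self_eq_norm_sq z'
  have i2 : ⟪h, z + z' + h⟫ * ⟪z - z', z + z' + h⟫ =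
      (P1 + P2 - P3 - P4) / 2 * ((P1 + P2 + P3 + P4) / 2) - (P1 * P2 - P3 * P4) := by
    simp only [inner_add_right, inner_sub_left]
    rw [real_inner_comm z h, real_inner_comm z' h, hh, hz, hz', real_inner_comm z z', e1, e2]
    ring
  have hd : dist4 P1 P2 P3 P4 = |P1 + P2 - P3 - P4| + |P1 * P2 - P3 * P4| := rfl
  have c1 : |⟪h, z - z'⟫| ≤ dist4 P1 P2 P3 P4 := by
    rw [i1, hd, abs_div, abs_of_pos (by norm_num : (0:ℝ) < 2)]
    have := abs_nonneg (P1 + P2 - P3 - P4)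
    have := abs_nonneg (P1 * P2 - P3 * P4)
    linarith
  have c2 : |⟪h, z + z' + h⟫| * |⟪z - z', z + z' + h⟫| ≤ dist4 P1 P2 P3 P4 := by
    rw [← abs_mul, i2, hd]
    refine (abs_sub _ _).trans (add_le_add ?_ le_rfl)
    rw [abs_mul, abs_div, abs_of_pos (by norm_num : (0:ℝ) < 2)]
    have e3 : |(P1 + P2 + P3 + P4) / 2| ≤ 2 := by
      rw [abs_of_nonneg (by linarith [b1.1, b2.1, b3.1, b4.1])]
      linarith [b1.2, b2.2, b3.2, b4.2]
    calc |P1 + P2 - P3 - P4| / 2 * |(P1 + P2 + P3 + P4) / 2|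
        ≤ |P1 + P2 - P3 - P4| / 2 * 2 := by gcongr
      _ = _ := by ring
  calc _ = |⟪h, z - z'⟫| * (|⟪h, z + z' + h⟫| * |⟪z - z', z + z' + h⟫|) := by ring
    _ ≤ dist4 P1 P2 P3 P4 * dist4 P1 P2 P3 P4 := by
        have := dist4_nonneg P1 P2 P3 P4
        gcongr
    _ = _ := by ring

lemma kf_bd {a b : ℝ} (ha : 0 < a) (hab : a ≤ b) (hb : b < 1) (m : ℕ) {θ : ℝ} (hθ0 : 0 < θ)
    (hθ1 : θ ≤ 1) : ∃ C : ℝ, 0 < C ∧ ∀ T : ℝ, 0 < T → ∀ h z z' : E k, ‖z + h‖ ≤ 1 → ‖z‖ ≤ 1 →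
      ‖z' + h‖ ≤ 1 → ‖z'‖ ≤ 1 →
      ‖kf a b T m h z z'‖ₑ ≤ ENNReal.ofReal (C * (T ^ 2) ^ (-θ)) * ip h z z' ^ (-θ) := by
  obtain ⟨C, hC, hmain⟩ := ker_bd ha hab hb m hθ0.le hθ1
  refine ⟨C * ((2 * Real.pi) ^ 2) ^ (-θ) + 1, by positivity, fun T hT h z z' h1 h2 h3 h4 => ?_⟩
  have hpi := Real.pi_pos
  have hlow := dist4_low h z z' h1 h2 h3 h4
  set d := dist4 (‖z + h‖ ^ 2) (‖z'‖ ^ 2) (‖z‖ ^ 2) (‖z' + h‖ ^ 2) with hd
  have hd0 : 0 ≤ d := dist4_nonneg _ _ _ _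
  rcases hd0.eq_or_lt with h0 | h0
  · have e0 : ip h z z' = 0 := by
      unfold ip
      rw [ENNReal.ofReal_eq_zero]
      refine hlow.trans ?_
      rw [← h0]
      norm_num
    rw [e0, ENNReal.zero_rpow_of_neg (by linarith), ENNReal.mul_top]
    · exact le_top
    · rw [Ne, ENNReal.ofReal_eq_zero, not_le]
      positivity
  · have hk := hmain (2 * Real.pi * T) (by positivity) _ (sq_mem (norm_nonneg _) h1) _
      (sq_mem (norm_nonneg _) h4) _ (sq_mem (norm_nonneg _) h2) _ (sq_mem (norm_nonneg _) h3) h0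
    rw [← hd] at hk
    have e1 : ((2 * Real.pi * T) ^ 2) ^ (-θ) = ((2 * Real.pi) ^ 2) ^ (-θ) * (T ^ 2) ^ (-θ) := by
      rw [← Real.mul_rpow (by positivity) (by positivity)]
      congr 1
      ring
    rw [e1] at hk
    calc ‖kf a b T m h z z'‖ₑ = ENNReal.ofReal ‖kf a b T m h z z'‖ := (ofReal_norm _).symm
      _ ≤ ENNReal.ofReal (((C * ((2 * Real.pi) ^ 2) ^ (-θ) + 1) * (T ^ 2) ^ (-θ)) *
          (d ^ 2) ^ (-θ)) := by
          apply ENNReal.ofReal_le_ofReal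
          refine hk.trans ?_
          have q1 : 0 ≤ (T ^ 2) ^ (-θ) := by positivity
          have q2 : 0 ≤ (d ^ 2) ^ (-θ) := by positivity
          have q3 : C * (((2 * Real.pi) ^ 2) ^ (-θ) * (T ^ 2) ^ (-θ)) ≤
              (C * ((2 * Real.pi) ^ 2) ^ (-θ) + 1) * (T ^ 2) ^ (-θ) := by nlinarith
          gcongr
      _ = ENNReal.ofReal ((C * ((2 * Real.pi) ^ 2) ^ (-θ) + 1) * (T ^ 2) ^ (-θ)) *
          (ENNReal.ofReal (d ^ 2)) ^ (-θ) := by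
          rw [ENNReal.ofReal_mul (by positivity), ENNReal.ofReal_rpow_of_pos (by positivity)]
      _ ≤ _ := by
          refine mul_le_mul' le_rfl (rp_anti ?_ hθ0.le)
          unfold ip
          exact ENNReal.ofReal_le_ofReal hlow

/-- the singular integral -/
noncomputable def Sg (k : ℕ) (θ : ℝ) : ℝ≥0∞ :=
  ∫⁻ h : E k, ∫⁻ p : E k × E k,
    ({r : E k × (E k × E k) | ‖r.2.1 + r.1‖ ≤ 1 ∧ ‖r.2.1‖ ≤ 1 ∧ ‖r.2.2 + r.1‖ ≤ 1 ∧
      ‖r.2.2‖ ≤ 1}.indicator (fun _ => (1 : ℝ≥0∞)) (h, p)) * ip h p.1 p.2 ^ (-θ)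

theorem four_bd {a b : ℝ} (ha : 0 < a) (hab : a ≤ b) (hb : b < 1) (m : ℕ) {θ : ℝ} (hθ0 : 0 < θ)
    (hθ1 : θ ≤ 1) : ∃ C : ℝ, 0 < C ∧ ∀ T : ℝ, 0 < T → ∀ ε : ℝ, (ε = 1 ∨ ε = -1) →
      ∀ (M : ℝ) (f : E k → ℂ), DS M f →
      ∫⁻ q, ENNReal.ofReal (we a b T q) * (∫⁻ x, ‖𝓕 (gs m (ε * q.2) (fun _ => q.1) f) x‖ₑ ^ 4)
        ∂(mu a b) ≤
      ENNReal.ofReal (C * (T * (T ^ 2) ^ (-θ)) * M ^ 4) * Sg k θ := by
  obtain ⟨C, hC, hkf⟩ := kf_bd (k := k) ha hab hb m hθ0 hθ1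
  refine ⟨2 * C, by positivity, fun T hT ε hε M f hf => ?_⟩
  have hM : 0 ≤ M := (norm_nonneg _).trans (hf.bd 0)
  refine (four_all ha hab hb hT hε m hf).trans ?_
  unfold Sg
  rw [← lintegral_const_mul' _ _ ENNReal.ofReal_ne_top]
  apply lintegral_mono
  intro h
  simp only
  rw [← lintegral_const_mul' _ _ ENNReal.ofReal_ne_top]
  apply lintegral_mono
  intro p
  simp only
  rcases f4_zero hf h p.1 p.2 with h0 | ⟨h1, h2, h3, h4⟩
  · rw [h0, enorm_zero, zero_mul]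
    exact zero_le
  · rw [indicator_of_mem (show (h, p) ∈ {r : E k × (E k × E k) | ‖r.2.1 + r.1‖ ≤ 1 ∧
      ‖r.2.1‖ ≤ 1 ∧ ‖r.2.2 + r.1‖ ≤ 1 ∧ ‖r.2.2‖ ≤ 1} from ⟨h1, h2, h3, h4⟩), one_mul]
    have e1 : ‖f4 f h p.1 p.2‖ₑ ≤ ENNReal.ofReal (M ^ 4) := by
      rw [← ofReal_norm, f4_norm]
      apply ENNReal.ofReal_le_ofReal
      calc _ ≤ M * M * M * M := by
            have b1 := hf.bd (p.1 + h)
            have b2 := hf.bd p.1
            have b3 := hf.bd (p.2 + h)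
            have b4 := hf.bd p.2
            gcongr
        _ = M ^ 4 := by ring
    calc _ ≤ ENNReal.ofReal (M ^ 4) * (ENNReal.ofReal (2 * T) *
          (ENNReal.ofReal (C * (T ^ 2) ^ (-θ)) * ip h p.1 p.2 ^ (-θ))) := by
          gcongr
          exact hkf T hT h p.1 p.2 h1 h2 h3 h4
      _ = _ := by
          rw [← mul_assoc, ← mul_assoc, ← ENNReal.ofReal_mul (by positivity),
            ← ENNReal.ofReal_mul (by positivity)]
          congr 2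
          ring

end Pool.Agent.R245.OD
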