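import Mathlib
import Pool.Agent.R245.OD.M4
set_option autoImplicit false

/-! The averaged fourth moment over dyadic times, one isotropic dilation, two dimensions. -/

namespace Pool.Agent.R245.OD

open MeasureTheory Set Complex
open scoped ENNReal NNReal FourierTransform RealInnerProductSpace
open Pool.Agent.W203.SP (ee pw gs DS DM)
open Pool.Agent.H153R4 (E BS ST)

lemma F_meas {k : ℕ} (m : ℕ) {f : E k → ℂ} (hf : Measurable f) :
    Measurable fun r : (ℝ × ℝ) × E k => 𝓕 (gs m r.1.1 (fun _ => r.1.2) f) r.2 :=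
  (Pool.Agent.W293.SP.t_MG k m 0 f measurable_zero hf).2.comp
    (f := fun r : (ℝ × ℝ) × E k => (((r.1.1, fun _ => r.1.2) : ℝ × (Fin k → ℝ)), r.2))
    (by fun_prop)

/-- the fourth moment at one time -/
noncomputable def Fo {k : ℕ} (m : ℕ) (f : E k → ℂ) (t σ : ℝ) : ℝ≥0∞ :=
  ∫⁻ x, ‖𝓕 (gs m t (fun _ => σ) f) x‖ₑ ^ 4

lemma Fo_meas {k : ℕ} (m : ℕ) {f : E k → ℂ} (hf : Measurable f) :
    Measurable fun r : ℝ × ℝ => Fo m f r.1 r.2 :=
  ((F_meas m hf).enorm.pow_const 4).lintegral_prod_right'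

lemma meas_left {F : ℝ → ℝ → ℝ≥0∞} (hF : Measurable fun r : ℝ × ℝ => F r.1 r.2) (σ : ℝ) :
    Measurable fun t : ℝ => F t σ := by
  have h : Measurable fun t : ℝ => (t, σ) := measurable_prodMk_right
  exact hF.comp h

lemma meas_sc {F : ℝ → ℝ → ℝ≥0∞} (hF : Measurable fun r : ℝ × ℝ => F r.1 r.2) (ε : ℝ) :
    Measurable fun q : ℝ × ℝ => F (ε * q.2) q.1 :=
  hF.comp (f := fun q : ℝ × ℝ => (ε * q.2, q.1)) (by fun_prop)

lemma Fo_meas_t {k : ℕ} (m : ℕ) {f : E k → ℂ} (hf : Measurable f) (σ : ℝ) :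
    Measurable fun t : ℝ => Fo m f t σ :=
  meas_left (F := fun t σ => Fo m f t σ) (Fo_meas m hf) σ

lemma wt_low {T t : ℝ} (hT : 0 < T) (h1 : T ≤ t) (h2 : t ≤ 2 * T) : Real.exp (-2) ≤ wt T t := by
  unfold wt
  have e1 : 1 ≤ t / T := by rwa [le_div_iff₀ hT, one_mul]
  have e2 : t / T ≤ 2 := by rwa [div_le_iff₀ hT]
  calc Real.exp (-2) = 1 * Real.exp (-2) := (one_mul _).symm
    _ ≤ (t / T) ^ 2 * Real.exp (-(t / T)) := by
        gcongr
        exact one_le_pow₀ e1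

lemma split_time {T : ℝ} (hT : 0 < T) (Φ : ℝ → ℝ≥0∞) (hΦ : Measurable Φ) :
    ∫⁻ t in ST T, Φ t ≤ ENNReal.ofReal (Real.exp 2) *
      ((∫⁻ t in Ioi (0:ℝ), ENNReal.ofReal (wt T t) * Φ (1 * t)) +
        ∫⁻ t in Ioi (0:ℝ), ENNReal.ofReal (wt T t) * Φ (-1 * t)) := by
  have hsub : ST T ⊆ Icc T (2 * T) ∪ (Neg.neg ⁻¹' Icc T (2 * T)) := by
    intro t ht
    obtain ⟨h1, h2⟩ := ht
    rcases le_total 0 t with h | h
    · left
      rw [abs_of_nonneg h] at h1 h2
      exact ⟨h1, h2⟩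
    · right
      rw [abs_of_nonpos h] at h1 h2
      exact ⟨h1, h2⟩
  have hw : ∀ t ∈ Icc T (2 * T), 1 ≤ ENNReal.ofReal (Real.exp 2) * ENNReal.ofReal (wt T t) := by
    intro t ht
    rw [← ENNReal.ofReal_mul (Real.exp_pos _).le, ← ENNReal.ofReal_one]
    apply ENNReal.ofReal_le_ofReal
    have := wt_low hT ht.1 ht.2
    calc (1:ℝ) = Real.exp 2 * Real.exp (-2) := by rw [← Real.exp_add]; simp
      _ ≤ _ := by gcongr
  have hpart : ∀ Ψ : ℝ → ℝ≥0∞, Measurable Ψ → ∫⁻ t in Icc T (2 * T), Ψ t ≤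
      ENNReal.ofReal (Real.exp 2) * ∫⁻ t in Ioi (0:ℝ), ENNReal.ofReal (wt T t) * Ψ t := by
    intro Ψ hΨ
    rw [← lintegral_const_mul' _ _ ENNReal.ofReal_ne_top]
    calc ∫⁻ t in Icc T (2 * T), Ψ t
        ≤ ∫⁻ t in Icc T (2 * T), ENNReal.ofReal (Real.exp 2) *
            (ENNReal.ofReal (wt T t) * Ψ t) := by
          apply setLIntegral_mono' measurableSet_Icc
          intro t ht
          rw [← mul_assoc]
          calc Ψ t = 1 * Ψ t := (one_mul _).symm
            _ ≤ _ := mul_le_mul' (hw t ht) le_rfl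
      _ ≤ _ := lintegral_mono_set fun t ht => lt_of_lt_of_le hT ht.1
  calc ∫⁻ t in ST T, Φ t ≤ ∫⁻ t in Icc T (2 * T) ∪ (Neg.neg ⁻¹' Icc T (2 * T)), Φ t :=
        lintegral_mono_set hsub
    _ ≤ (∫⁻ t in Icc T (2 * T), Φ t) + ∫⁻ t in (Neg.neg ⁻¹' Icc T (2 * T)), Φ t :=
        lintegral_union_le _ _ _
    _ = (∫⁻ t in Icc T (2 * T), Φ t) + ∫⁻ t in Icc T (2 * T), Φ (-t) := by
        congr 1
        have h1 := (Measure.measurePreserving_neg (volume : Measure ℝ)).setLIntegral_comp_preimage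
          (s := Icc T (2 * T)) measurableSet_Icc (f := fun t => Φ (-t))
          (hΦ.comp measurable_neg)
        simp only [neg_neg] at h1
        exact h1
    _ ≤ _ := by
        rw [mul_add]
        refine add_le_add ?_ ?_
        · have := hpart Φ hΦ
          simpa only [one_mul] using this
        · have := hpart (fun t => Φ (-t)) (hΦ.comp measurable_neg)
          simpa only [neg_mul, one_mul] using this

lemma pow_aux {T : ℝ} (hT : 0 < T) (θ : ℝ) : T * (T ^ 2) ^ (-θ) = T ^ (1 - 2 * θ) := by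
  rw [← Real.rpow_natCast T 2, ← Real.rpow_mul hT.le, sub_eq_add_neg, Real.rpow_add hT,
    Real.rpow_one]
  congr 2
  push_cast
  ring

/-- from the weighted integral over the parameters to dyadic times -/
theorem red {k : ℕ} {a b : ℝ} (ha : 0 < a) (hb : b < 1) (m : ℕ) {T : ℝ} (hT0 : 0 < T)
    {f : E k → ℂ} (hfm : Measurable f) (X : ℝ≥0∞)
    (hmain : ∀ ε : ℝ, (ε = 1 ∨ ε = -1) →
      ∫⁻ q, ENNReal.ofReal (we (a / 2) ((1 + b) / 2) T q) * Fo m f (ε * q.2) q.1
        ∂(mu (a / 2) ((1 + b) / 2)) ≤ X) :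
    ∫⁻ σ in Icc a b, DM m T (fun _ => σ) f ≤
      ENNReal.ofReal (Real.exp 2) * ENNReal.ofReal ((a / 2) * ((1 - b) / 2))⁻¹ * (2 * X) := by
  obtain ⟨a0, ha0⟩ : ∃ x : ℝ, x = a / 2 := ⟨_, rfl⟩
  obtain ⟨b0, hb0⟩ : ∃ x : ℝ, x = (1 + b) / 2 := ⟨_, rfl⟩
  rw [← ha0, ← hb0] at hmain
  obtain ⟨c0, hc0⟩ : ∃ x : ℝ, x = (a / 2) * ((1 - b) / 2) := ⟨_, rfl⟩
  rw [← hc0]
  have hc0' : 0 < c0 := by rw [hc0]; have : 0 < 1 - b := by linarith
                           positivity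
  have hFm := Fo_meas m hfm
  have hpm : ∀ ε : ℝ, Measurable fun q : ℝ × ℝ => Fo m f (ε * q.2) q.1 := fun ε =>
    meas_sc (F := fun t σ => Fo m f t σ) hFm ε
  have hwm : Measurable (wt T) := (wt_cont T).measurable
  have hms : ∀ ε : ℝ, Measurable fun σ : ℝ =>
      ∫⁻ t in Ioi (0:ℝ), ENNReal.ofReal (wt T t) * Fo m f (ε * t) σ := by
    intro ε
    have h : Measurable fun q : ℝ × ℝ => ENNReal.ofReal (wt T q.2) * Fo m f (ε * q.2) q.1 :=
      (hwm.ennreal_ofReal.comp measurable_snd).mul (hpm ε)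
    exact Measurable.lintegral_prod_right' (ν := volume.restrict (Ioi (0:ℝ))) h
  -- the sum of the two signs
  have hsign : ∀ ε : ℝ, (ε = 1 ∨ ε = -1) →
      ∫⁻ σ in Icc a b, ∫⁻ t in Ioi (0:ℝ), ENNReal.ofReal (wt T t) * Fo m f (ε * t) σ ≤
        ENNReal.ofReal c0⁻¹ * X := by
    intro ε hε
    have h3 := hmain ε hε
    have h4 : ∫⁻ q, ENNReal.ofReal (we a0 b0 T q) * Fo m f (ε * q.2) q.1 ∂(mu a0 b0) =
        ∫⁻ σ in Icc a0 b0, ∫⁻ t in Ioi (0:ℝ), ENNReal.ofReal (we a0 b0 T (σ, t)) *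
          Fo m f (ε * t) σ := by
      unfold mu
      rw [lintegral_prod]
      apply Measurable.aemeasurable
      have hwe : Measurable (we a0 b0 T) := by
        unfold we
        exact (by fun_prop : Measurable fun q : ℝ × ℝ => (q.1 - a0) * (b0 - q.1)).mul
          (hwm.comp measurable_snd)
      exact hwe.ennreal_ofReal.mul (hpm ε)
    have h5 : ∫⁻ σ in Icc a b, ∫⁻ t in Ioi (0:ℝ), ENNReal.ofReal (wt T t) * Fo m f (ε * t) σ ≤
        ENNReal.ofReal c0⁻¹ * ∫⁻ σ in Icc a0 b0, ∫⁻ t in Ioi (0:ℝ),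
          ENNReal.ofReal (we a0 b0 T (σ, t)) * Fo m f (ε * t) σ := by
      rw [← lintegral_const_mul' _ _ ENNReal.ofReal_ne_top]
      calc ∫⁻ σ in Icc a b, ∫⁻ t in Ioi (0:ℝ), ENNReal.ofReal (wt T t) * Fo m f (ε * t) σ
          ≤ ∫⁻ σ in Icc a b, ENNReal.ofReal c0⁻¹ * ∫⁻ t in Ioi (0:ℝ),
              ENNReal.ofReal (we a0 b0 T (σ, t)) * Fo m f (ε * t) σ := by
            apply setLIntegral_mono' measurableSet_Icc
            intro σ hσ
            rw [← lintegral_const_mul' _ _ ENNReal.ofReal_ne_top]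
            apply lintegral_mono
            intro t
            simp only
            rw [← mul_assoc, ← ENNReal.ofReal_mul (by positivity)]
            gcongr
            unfold we
            simp only
            have g1 : c0 ≤ (σ - a0) * (b0 - σ) := by
              rw [hc0, ha0, hb0]
              have := hσ.1
              have := hσ.2
              apply mul_le_mul <;> linarith
            have g2 := wt_nonneg T t
            calc wt T t = c0⁻¹ * (c0 * wt T t) := by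
                  rw [← mul_assoc, inv_mul_cancel₀ hc0'.ne', one_mul]
              _ ≤ c0⁻¹ * ((σ - a0) * (b0 - σ) * wt T t) := by gcongr
        _ ≤ _ := lintegral_mono_set (Icc_subset_Icc (by rw [ha0]; linarith)
            (by rw [hb0]; linarith))
    refine h5.trans (mul_le_mul' le_rfl ?_)
    rw [← h4]
    exact h3
  have hDM : ∀ σ, DM m T (fun _ => σ) f = ∫⁻ t in ST T, Fo m f t σ := fun σ => rfl
  calc ∫⁻ σ in Icc a b, DM m T (fun _ => σ) f
      ≤ ∫⁻ σ in Icc a b, ENNReal.ofReal (Real.exp 2) *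
          ((∫⁻ t in Ioi (0:ℝ), ENNReal.ofReal (wt T t) * Fo m f (1 * t) σ) +
            ∫⁻ t in Ioi (0:ℝ), ENNReal.ofReal (wt T t) * Fo m f (-1 * t) σ) := by
        apply lintegral_mono
        intro σ
        simp only [hDM]
        exact split_time hT0 (fun t => Fo m f t σ) (Fo_meas_t m hfm σ)
    _ = ENNReal.ofReal (Real.exp 2) *
          ((∫⁻ σ in Icc a b, ∫⁻ t in Ioi (0:ℝ), ENNReal.ofReal (wt T t) * Fo m f (1 * t) σ) +
            ∫⁻ σ in Icc a b, ∫⁻ t in Ioi (0:ℝ), ENNReal.ofReal (wt T t) *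
              Fo m f (-1 * t) σ) := by
        rw [lintegral_const_mul' _ _ ENNReal.ofReal_ne_top]
        congr 1
        exact lintegral_add_left (hms 1) _
    _ ≤ ENNReal.ofReal (Real.exp 2) *
          (ENNReal.ofReal c0⁻¹ * X + ENNReal.ofReal c0⁻¹ * X) := by
        refine mul_le_mul' le_rfl (add_le_add ?_ ?_)
        · exact hsign 1 (Or.inl rfl)
        · exact hsign (-1) (Or.inr rfl)
    _ = _ := by ring

end Pool.Agent.R245.OD
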