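import Mathlib
set_option autoImplicit false

/-! One dimensional integrals of negative powers. -/

namespace Pool.Agent.R245.OD

open MeasureTheory Set
open scoped ENNReal

/-- the negative power -/
noncomputable def P (θ x : ℝ) : ℝ≥0∞ := ENNReal.ofReal |x| ^ (-θ)

lemma P_meas (θ : ℝ) : Measurable (P θ) := by
  unfold P
  exact (continuous_abs.measurable.ennreal_ofReal).pow_const _

lemma P_mul (θ x y : ℝ) : P θ (x * y) = P θ x * P θ y := by
  unfold P
  rw [abs_mul, ENNReal.ofReal_mul (abs_nonneg _),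
    ENNReal.mul_rpow_of_ne_top ENNReal.ofReal_ne_top ENNReal.ofReal_ne_top]

lemma P_zero {θ : ℝ} (hθ : 0 < θ) : P θ 0 = ⊤ := by
  unfold P
  rw [abs_zero, ENNReal.ofReal_zero, ENNReal.zero_rpow_of_neg (by linarith)]

lemma P_pos (θ x : ℝ) (hx : x ≠ 0) : P θ x = ENNReal.ofReal (|x| ^ (-θ)) := by
  unfold P
  rw [ENNReal.ofReal_rpow_of_pos (abs_pos.2 hx)]

lemma P_anti {θ : ℝ} (hθ : 0 ≤ θ) {x y : ℝ} (h : |x| ≤ |y|) : P θ y ≤ P θ x := by
  unfold P
  rw [ENNReal.rpow_neg, ENNReal.rpow_neg]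
  exact ENNReal.inv_le_inv.2 (ENNReal.rpow_le_rpow (ENNReal.ofReal_le_ofReal h) hθ)

/-- affine substitution -/
lemma subst_aff (Φ : ℝ → ℝ≥0∞) (hΦ : Measurable Φ) {a : ℝ} (ha : a ≠ 0) (c : ℝ) :
    ∫⁻ x, Φ (a * x + c) = ENNReal.ofReal |a⁻¹| * ∫⁻ x, Φ x := by
  have hm : Measurable fun y => Φ (y + c) := hΦ.comp (measurable_id.add_const c)
  have h1 := lintegral_map (μ := (volume : Measure ℝ)) hm (measurable_const_mul a)
  rw [Real.map_volume_mul_left ha, lintegral_smul_measure, smul_eq_mul,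
    lintegral_add_right_eq_self Φ c] at h1
  exact h1.symm

/-- the integral over the unit interval -/
lemma P_unit {θ : ℝ} (hθ1 : θ < 1) : ∫⁻ x in Icc (-1:ℝ) 1, P θ x < ⊤ := by
  have h1 : IntegrableOn (fun x : ℝ => |x| ^ (-θ)) (Icc (-1) 1) := by
    have h2 := intervalIntegral.intervalIntegrable_rpow' (a := 0) (b := 1) (r := -θ) (by linarith)
    have h3 : IntegrableOn (fun x : ℝ => x ^ (-θ)) (Ioc 0 1) := by
      rwa [intervalIntegrable_iff_integrableOn_Ioc_of_le zero_le_one] at h2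
    have h4 : IntegrableOn (fun x : ℝ => |x| ^ (-θ)) (Ioc 0 1) := by
      refine h3.congr_fun (fun x hx => ?_) measurableSet_Ioc
      simp only
      rw [abs_of_pos hx.1]
    have h5 : IntegrableOn (fun x : ℝ => |x| ^ (-θ)) (Ico (-1) 0) := by
      have h6 := (Measure.measurePreserving_neg (volume : Measure ℝ)).integrableOn_comp_preimage
        (MeasurableEquiv.neg ℝ).measurableEmbedding (f := fun x : ℝ => |x| ^ (-θ)) (s := Ioc 0 1)
      have h7 := h6.2 h4
      have e : (Neg.neg : ℝ → ℝ) ⁻¹' Ioc 0 1 = Ico (-1) 0 := by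
        ext x
        simp only [mem_preimage, mem_Ioc, mem_Ico]
        constructor
        · rintro ⟨h, h'⟩
          constructor <;> linarith
        · rintro ⟨h, h'⟩
          constructor <;> linarith
      rw [e] at h7
      refine h7.congr_fun (fun x _ => ?_) measurableSet_Ico
      simp
    have h8 : Icc (-1:ℝ) 1 ⊆ (Ico (-1) 0 ∪ Ioc 0 1) ∪ {0} := by
      intro x hx
      rcases lt_trichotomy x 0 with h | h | h
      · exact Or.inl (Or.inl ⟨hx.1, h⟩)
      · exact Or.inr h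
      · exact Or.inl (Or.inr ⟨h, hx.2⟩)
    have h9 : IntegrableOn (fun x : ℝ => |x| ^ (-θ)) {0} :=
      integrableOn_singleton enorm_ne_top (by rw [Real.volume_singleton]; exact ENNReal.zero_lt_top)
    exact ((h5.union h4).union h9).mono_set h8
  have h2 : ∫⁻ x in Icc (-1:ℝ) 1, P θ x = ∫⁻ x in Icc (-1:ℝ) 1, ENNReal.ofReal (|x| ^ (-θ)) := by
    apply lintegral_congr_ae
    have h3 : ∀ᵐ x ∂(volume.restrict (Icc (-1:ℝ) 1)), x ≠ 0 :=
      ae_restrict_of_ae (by simp [ae_iff])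
    filter_upwards [h3] with x hx
    exact P_pos θ x hx
  rw [h2]
  exact h1.lintegral_lt_top

/-- the uniform bound over translates -/
noncomputable def C1 (θ : ℝ) : ℝ≥0∞ := (∫⁻ x in Icc (-1:ℝ) 1, P θ x) + 4

lemma C1_lt {θ : ℝ} (hθ1 : θ < 1) : C1 θ < ⊤ := ENNReal.add_lt_top.2 ⟨P_unit hθ1, by norm_num⟩

lemma C1_pos (θ : ℝ) : 0 < C1 θ := lt_of_lt_of_le (by norm_num) (le_add_self : (4:ℝ≥0∞) ≤ C1 θ)

lemma P_shift {θ : ℝ} (hθ0 : 0 ≤ θ) (c : ℝ) : ∫⁻ x in Icc (-2:ℝ) 2, P θ (x + c) ≤ C1 θ := by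
  have h0 : ∀ y : ℝ, P θ y ≤ (Icc (-1:ℝ) 1).indicator (P θ) y + 1 := by
    intro y
    by_cases hy : y ∈ Icc (-1:ℝ) 1
    · rw [indicator_of_mem hy]
      exact le_self_add
    · rw [indicator_of_notMem hy, zero_add]
      have h1 : |(1:ℝ)| ≤ |y| := by
        rw [abs_one]
        by_contra hc
        apply hy
        rw [not_le] at hc
        exact abs_le.1 hc.le
      refine (P_anti hθ0 h1).trans (le_of_eq ?_)
      unfold P
      simp
  calc ∫⁻ x in Icc (-2:ℝ) 2, P θ (x + c)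
      ≤ ∫⁻ x in Icc (-2:ℝ) 2, ((Icc (-1:ℝ) 1).indicator (P θ) (x + c) + 1) :=
        lintegral_mono fun x => h0 _
    _ = (∫⁻ x in Icc (-2:ℝ) 2, (Icc (-1:ℝ) 1).indicator (P θ) (x + c)) +
        ∫⁻ x in Icc (-2:ℝ) 2, 1 := by
        rw [lintegral_add_right _ measurable_const]
    _ ≤ (∫⁻ x, (Icc (-1:ℝ) 1).indicator (P θ) (x + c)) + 4 := by
        gcongr
        · exact Measure.restrict_le_self
        · rw [lintegral_const, Measure.restrict_apply_univ, one_mul, Real.volume_Icc]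
          norm_num
    _ = C1 θ := by
        rw [lintegral_add_right_eq_self (fun y => (Icc (-1:ℝ) 1).indicator (P θ) y) c,
          lintegral_indicator measurableSet_Icc]
        rfl

lemma P_affine {θ : ℝ} (hθ0 : 0 < θ) (A B : ℝ) :
    ∫⁻ x in Icc (-2:ℝ) 2, P θ (B * x + A) ≤ C1 θ * P θ B := by
  by_cases hB : B = 0
  · rw [hB, P_zero hθ0, ENNReal.mul_top (C1_pos θ).ne']
    exact le_top
  · have e : ∀ x, P θ (B * x + A) = P θ B * P θ (x + A / B) := by
      intro x
      rw [← P_mul]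
      congr 1
      field_simp
    simp only [e]
    have hm : Measurable fun x => P θ (x + A / B) := (P_meas θ).comp (measurable_id.add_const _)
    rw [lintegral_const_mul _ hm, mul_comm]
    exact mul_le_mul' (P_shift hθ0.le _) le_rfl

/-- scaling -/
lemma P_scale {θ : ℝ} (hθ1 : θ < 1) : ∃ C : ℝ≥0∞, C < ⊤ ∧ ∀ a : ℝ, a ≠ 0 →
    ∫⁻ x in Icc (-(4 * |a|)) (4 * |a|), P θ x ≤ C * ENNReal.ofReal |a| * P θ a := by
  refine ⟨4 * P θ 4 * ∫⁻ x in Icc (-1:ℝ) 1, P θ x, ?_, fun a ha => ?_⟩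
  · refine ENNReal.mul_lt_top (ENNReal.mul_lt_top (by norm_num) ?_) (P_unit hθ1)
    rw [P_pos θ 4 (by norm_num)]
    exact ENNReal.ofReal_lt_top
  · have ha' : 0 < |a| := abs_pos.2 ha
    have hc : (0:ℝ) < 4 * |a| := by positivity
    have h1 := subst_aff ((Icc (-(4 * |a|)) (4 * |a|)).indicator (P θ))
      ((P_meas θ).indicator measurableSet_Icc) hc.ne' 0
    rw [lintegral_indicator measurableSet_Icc] at h1
    have e1 : ∀ x, (Icc (-(4 * |a|)) (4 * |a|)).indicator (P θ) (4 * |a| * x + 0) =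
        (Icc (-1:ℝ) 1).indicator (fun x => P θ (4 * |a|) * P θ x) x := by
      intro x
      rw [add_zero]
      by_cases hx : x ∈ Icc (-1:ℝ) 1
      · rw [indicator_of_mem hx, indicator_of_mem, P_mul]
        constructor
        · nlinarith [hx.1]
        · nlinarith [hx.2]
      · rw [indicator_of_notMem hx, indicator_of_notMem]
        intro h
        apply hx
        constructor
        · nlinarith [h.1]
        · nlinarith [h.2]
    simp only [e1] at h1
    rw [lintegral_indicator measurableSet_Icc, lintegral_const_mul _ (P_meas θ)] at h1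
    have e2 : ∫⁻ x in Icc (-(4 * |a|)) (4 * |a|), P θ x =
        ENNReal.ofReal (4 * |a|) * (P θ (4 * |a|) * ∫⁻ x in Icc (-1:ℝ) 1, P θ x) := by
      rw [h1, ← mul_assoc, ← ENNReal.ofReal_mul hc.le, abs_of_pos (inv_pos.2 hc),
        mul_inv_cancel₀ hc.ne', ENNReal.ofReal_one, one_mul]
    rw [e2, P_mul, ENNReal.ofReal_mul (by norm_num)]
    have e3 : P θ |a| = P θ a := by
      unfold P
      rw [abs_abs]
    rw [e3]
    have e4 : ENNReal.ofReal 4 = 4 := by norm_num
    rw [e4]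
    apply le_of_eq
    ring

end Pool.Agent.R245.OD
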