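import Mathlib
import Pool.Agent.R245.OD.Sing
set_option autoImplicit false

/-! The singular integral in coordinates. -/

namespace Pool.Agent.R245.OD

open MeasureTheory Set
open scoped ENNReal

/-- the interval -/
abbrev I2 : Set ℝ := Icc (-2) 2

lemma J_aux {θ : ℝ} (hθ0 : 0 < θ) {C : ℝ≥0∞}
    (hC : ∀ a : ℝ, a ≠ 0 →
      ∫⁻ x in Icc (-(4 * |a|)) (4 * |a|), P θ x ≤ C * ENNReal.ofReal |a| * P θ a)
    {a b : ℝ} (ha : a ≠ 0) (hab : |b| ≤ |a|) (q0 q1 : ℝ) :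
    ∫⁻ y1 in I2, ∫⁻ y0 in I2, P θ (a * y0 + b * y1) * P θ (q0 * y0 + q1 * y1) ≤
      C * C1 θ * P θ (a * q1 - b * q0) := by
  have ha' : 0 < |a| := abs_pos.2 ha
  set S : Set ℝ := Icc (-(4 * |a|)) (4 * |a|) with hS
  have hPm := P_meas θ
  have h1 : ∀ y1 ∈ I2, ∫⁻ y0 in I2, P θ (a * y0 + b * y1) * P θ (q0 * y0 + q1 * y1) ≤
      ENNReal.ofReal |a⁻¹| * ∫⁻ m in S, P θ m * P θ ((q1 - q0 * b / a) * y1 + q0 * m / a) := by
    intro y1 hy1
    set Ψ : ℝ → ℝ≥0∞ := S.indicator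
      (fun m => P θ m * P θ ((q1 - q0 * b / a) * y1 + q0 * m / a)) with hΨ
    have hΨm : Measurable Ψ := by
      apply Measurable.indicator _ measurableSet_Icc
      exact hPm.mul (hPm.comp (by fun_prop))
    have h2 := subst_aff Ψ hΨm ha (b * y1)
    have h3 : ∫⁻ m, Ψ m = ∫⁻ m in S, P θ m * P θ ((q1 - q0 * b / a) * y1 + q0 * m / a) := by
      rw [hΨ, lintegral_indicator measurableSet_Icc]
    rw [← h3, ← h2, ← lintegral_indicator measurableSet_Icc]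
    apply lintegral_mono
    intro y0
    simp only
    by_cases hy0 : y0 ∈ I2
    · rw [indicator_of_mem hy0, hΨ, indicator_of_mem]
      · apply le_of_eq
        congr 2
        field_simp
        ring
      · rw [hS, mem_Icc, ← abs_le]
        calc |a * y0 + b * y1| ≤ |a| * |y0| + |b| * |y1| := by
              rw [← abs_mul, ← abs_mul]
              exact abs_add_le _ _
          _ ≤ |a| * 2 + |a| * 2 := by
              have e1 : |y0| ≤ 2 := abs_le.2 hy0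
              have e2 : |y1| ≤ 2 := abs_le.2 hy1
              gcongr
          _ = 4 * |a| := by ring
    · rw [indicator_of_notMem hy0]
      exact zero_le
  calc ∫⁻ y1 in I2, ∫⁻ y0 in I2, P θ (a * y0 + b * y1) * P θ (q0 * y0 + q1 * y1)
      ≤ ∫⁻ y1 in I2, ENNReal.ofReal |a⁻¹| *
          ∫⁻ m in S, P θ m * P θ ((q1 - q0 * b / a) * y1 + q0 * m / a) :=
        setLIntegral_mono' measurableSet_Icc h1
    _ = ENNReal.ofReal |a⁻¹| * ∫⁻ y1 in I2,
          ∫⁻ m in S, P θ m * P θ ((q1 - q0 * b / a) * y1 + q0 * m / a) := by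
        rw [lintegral_const_mul' _ _ ENNReal.ofReal_ne_top]
    _ = ENNReal.ofReal |a⁻¹| * ∫⁻ m in S, ∫⁻ y1 in I2,
          P θ m * P θ ((q1 - q0 * b / a) * y1 + q0 * m / a) := by
        rw [lintegral_lintegral_swap]
        apply Measurable.aemeasurable
        exact (hPm.comp measurable_snd).mul (hPm.comp (by fun_prop))
    _ ≤ ENNReal.ofReal |a⁻¹| * ∫⁻ m in S, P θ m * (C1 θ * P θ (q1 - q0 * b / a)) := by
        gcongr with m
        have hm : Measurable fun y1 : ℝ => P θ ((q1 - q0 * b / a) * y1 + q0 * m / a) :=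
          hPm.comp (by fun_prop)
        rw [lintegral_const_mul _ hm]
        exact mul_le_mul' le_rfl (P_affine hθ0 _ _)
    _ = ENNReal.ofReal |a⁻¹| * ((∫⁻ m in S, P θ m) * (C1 θ * P θ (q1 - q0 * b / a))) := by
        rw [lintegral_mul_const _ hPm]
    _ ≤ ENNReal.ofReal |a⁻¹| * ((C * ENNReal.ofReal |a| * P θ a) *
          (C1 θ * P θ (q1 - q0 * b / a))) := by
        gcongr
        exact hC a ha
    _ = (ENNReal.ofReal |a⁻¹| * ENNReal.ofReal |a|) * (C * C1 θ *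
          (P θ a * P θ (q1 - q0 * b / a))) := by ring
    _ = _ := by
        rw [← ENNReal.ofReal_mul (abs_nonneg _), abs_inv, inv_mul_cancel₀ ha'.ne',
          ENNReal.ofReal_one, one_mul, ← P_mul]
        congr 2
        field_simp

lemma J_meas (θ a b q0 q1 : ℝ) : Measurable fun y : ℝ × ℝ =>
    P θ (a * y.1 + b * y.2) * P θ (q0 * y.1 + q1 * y.2) :=
  ((P_meas θ).comp (by fun_prop)).mul ((P_meas θ).comp (by fun_prop))

lemma P_neg (θ x : ℝ) : P θ (-x) = P θ x := by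
  unfold P
  rw [abs_neg]

lemma J_bd {θ : ℝ} (hθ0 : 0 < θ) {C : ℝ≥0∞}
    (hC : ∀ a : ℝ, a ≠ 0 →
      ∫⁻ x in Icc (-(4 * |a|)) (4 * |a|), P θ x ≤ C * ENNReal.ofReal |a| * P θ a)
    {a b : ℝ} (ha : a ≠ 0) (hb : b ≠ 0) (q0 q1 : ℝ) :
    ∫⁻ y0 in I2, ∫⁻ y1 in I2, P θ (a * y0 + b * y1) * P θ (q0 * y0 + q1 * y1) ≤
      C * C1 θ * P θ (a * q1 - b * q0) := by
  rcases le_total |b| |a| with h | h
  · rw [lintegral_lintegral_swap (J_meas θ a b q0 q1).aemeasurable]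
    exact J_aux hθ0 hC ha h q0 q1
  · have h1 := J_aux hθ0 hC hb h q1 q0
    rw [show b * q0 - a * q1 = -(a * q1 - b * q0) by ring, P_neg] at h1
    refine le_trans (le_of_eq ?_) h1
    apply lintegral_congr
    intro y0
    apply lintegral_congr
    intro y1
    rw [add_comm (a * y0), add_comm (q0 * y0)]

/-- the integrand in coordinates -/
noncomputable def G6 (θ p0 p1 q0 q1 y0 y1 : ℝ) : ℝ≥0∞ :=
  P θ (p0 * q0 + p1 * q1) * (P θ (p0 * y0 + p1 * y1) * P θ (q0 * y0 + q1 * y1))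

lemma In_bd {θ : ℝ} (hθ0 : 0 < θ) {C : ℝ≥0∞} (hC0 : C * C1 θ ≠ 0)
    (hC : ∀ a : ℝ, a ≠ 0 →
      ∫⁻ x in Icc (-(4 * |a|)) (4 * |a|), P θ x ≤ C * ENNReal.ofReal |a| * P θ a)
    (p0 p1 : ℝ) :
    ∫⁻ q0 in I2, ∫⁻ q1 in I2, ∫⁻ y0 in I2, ∫⁻ y1 in I2, G6 θ p0 p1 q0 q1 y0 y1 ≤
      (C * C1 θ) * (C * C1 θ) * (P θ p0 * P θ p1) := by
  have hpos : ∀ x, P θ x ≠ 0 := fun x => by
    unfold P
    rw [Ne, ENNReal.rpow_eq_zero_iff]
    rintro (⟨-, h⟩ | ⟨h, -⟩)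
    · linarith
    · exact ENNReal.ofReal_ne_top h
  by_cases h0 : p0 = 0
  · rw [h0, P_zero hθ0, ENNReal.top_mul (hpos _), ENNReal.mul_top (mul_ne_zero hC0 hC0)]
    exact le_top
  by_cases h1 : p1 = 0
  · rw [h1, P_zero hθ0, ENNReal.mul_top (hpos _), ENNReal.mul_top (mul_ne_zero hC0 hC0)]
    exact le_top
  have hin : ∀ q0 q1 : ℝ, ∫⁻ y0 in I2, ∫⁻ y1 in I2, G6 θ p0 p1 q0 q1 y0 y1 ≤
      P θ (p0 * q0 + p1 * q1) * (C * C1 θ * P θ (p0 * q1 - p1 * q0)) := by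
    intro q0 q1
    have e : ∫⁻ y0 in I2, ∫⁻ y1 in I2, G6 θ p0 p1 q0 q1 y0 y1 =
        P θ (p0 * q0 + p1 * q1) * ∫⁻ y0 in I2, ∫⁻ y1 in I2,
          P θ (p0 * y0 + p1 * y1) * P θ (q0 * y0 + q1 * y1) := by
      rw [← lintegral_const_mul _ (J_meas θ p0 p1 q0 q1).lintegral_prod_right']
      apply lintegral_congr
      intro y0
      unfold G6
      rw [lintegral_const_mul]
      exact (J_meas θ p0 p1 q0 q1).comp measurable_prodMk_left
    rw [e]
    exact mul_le_mul' le_rfl (J_bd hθ0 hC h0 h1 q0 q1)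
  calc ∫⁻ q0 in I2, ∫⁻ q1 in I2, ∫⁻ y0 in I2, ∫⁻ y1 in I2, G6 θ p0 p1 q0 q1 y0 y1
      ≤ ∫⁻ q0 in I2, ∫⁻ q1 in I2, (C * C1 θ) *
          (P θ (p0 * q0 + p1 * q1) * P θ (-p1 * q0 + p0 * q1)) := by
        gcongr with q0 q1
        refine (hin q0 q1).trans (le_of_eq ?_)
        rw [show p0 * q1 - p1 * q0 = -p1 * q0 + p0 * q1 by ring]
        ring
    _ = (C * C1 θ) * ∫⁻ q0 in I2, ∫⁻ q1 in I2,
          (P θ (p0 * q0 + p1 * q1) * P θ (-p1 * q0 + p0 * q1)) := by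
        rw [← lintegral_const_mul _ (J_meas θ p0 p1 (-p1) p0).lintegral_prod_right']
        apply lintegral_congr
        intro q0
        rw [lintegral_const_mul]
        exact (J_meas θ p0 p1 (-p1) p0).comp measurable_prodMk_left
    _ ≤ (C * C1 θ) * (C * C1 θ * P θ (p0 * p0 - p1 * (-p1))) :=
        mul_le_mul' le_rfl (J_bd hθ0 hC h0 h1 (-p1) p0)
    _ ≤ (C * C1 θ) * (C * C1 θ * P θ (p0 * p1)) := by
        gcongr
        apply P_anti hθ0.le
        rw [abs_mul, abs_of_nonneg (by nlinarith [sq_nonneg p0, sq_nonneg p1] :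
          0 ≤ p0 * p0 - p1 * (-p1))]
        nlinarith [sq_nonneg (|p0| - |p1|), sq_abs p0, sq_abs p1, abs_nonneg p0, abs_nonneg p1,
          mul_nonneg (abs_nonneg p0) (abs_nonneg p1)]
    _ = _ := by
        rw [P_mul]
        ring

/-- finiteness -/
theorem T6_lt {θ : ℝ} (hθ0 : 0 < θ) (hθ1 : θ < 1) :
    ∫⁻ p0 in I2, ∫⁻ p1 in I2, ∫⁻ q0 in I2, ∫⁻ q1 in I2, ∫⁻ y0 in I2, ∫⁻ y1 in I2,
      G6 θ p0 p1 q0 q1 y0 y1 < ⊤ := by
  obtain ⟨C', hC', hC0⟩ := P_scale hθ1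
  set C : ℝ≥0∞ := C' + 1 with hCd
  have hClt : C < ⊤ := ENNReal.add_lt_top.2 ⟨hC', ENNReal.one_lt_top⟩
  have hC : ∀ a : ℝ, a ≠ 0 →
      ∫⁻ x in Icc (-(4 * |a|)) (4 * |a|), P θ x ≤ C * ENNReal.ofReal |a| * P θ a := by
    intro a ha
    refine (hC0 a ha).trans ?_
    gcongr
    exact le_self_add
  have hCC : C * C1 θ ≠ 0 := mul_ne_zero (by rw [hCd]; simp) (C1_pos θ).ne'
  have hP : ∫⁻ x in I2, P θ x ≤ C1 θ := by
    have := P_shift hθ0.le 0
    simpa only [add_zero] using this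
  refine lt_of_le_of_lt (b := (C * C1 θ) * (C * C1 θ) * (C1 θ * C1 θ)) ?_ ?_
  · calc _ ≤ ∫⁻ p0 in I2, ∫⁻ p1 in I2, (C * C1 θ) * (C * C1 θ) * (P θ p0 * P θ p1) := by
          gcongr with p0 p1
          exact In_bd hθ0 hCC hC p0 p1
      _ = (C * C1 θ) * (C * C1 θ) * ((∫⁻ p0 in I2, P θ p0) * ∫⁻ p1 in I2, P θ p1) := by
          rw [← lintegral_mul_const _ (P_meas θ), ← lintegral_const_mul _
            ((P_meas θ).mul_const _)]
          apply lintegral_congr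
          intro p0
          rw [← lintegral_const_mul _ (P_meas θ), ← lintegral_const_mul _
            ((P_meas θ).const_mul _)]
      _ ≤ _ := by gcongr
  · have h1 := C1_lt hθ1
    have h2 := ENNReal.mul_lt_top hClt h1
    exact ENNReal.mul_lt_top (ENNReal.mul_lt_top h2 h2) (ENNReal.mul_lt_top h1 h1)

end Pool.Agent.R245.OD
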