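import Mathlib
import Pool.Agent.R245.OD.Sing2
import Pool.Agent.R245.OD.M4
set_option autoImplicit false

/-! The singular integral over the plane. -/

namespace Pool.Agent.R245.OD

open MeasureTheory Set
open scoped ENNReal RealInnerProductSpace
open Pool.Agent.H153R4 (E)

/-- coordinates in the plane -/
lemma lint2 (F : E 2 → ℝ≥0∞) (hF : Measurable F) :
    ∫⁻ x, F x = ∫⁻ a : ℝ, ∫⁻ b : ℝ, F (WithLp.toLp 2 ![a, b]) := by
  have h1 := (PiLp.volume_preserving_toLp (Fin 2)).lintegral_comp hF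
  have hm : Measurable fun v : Fin 2 → ℝ => F (WithLp.toLp 2 v) :=
    hF.comp (PiLp.volume_preserving_toLp (Fin 2)).measurable
  have h2 := ((volume_preserving_finTwoArrow ℝ).symm).lintegral_comp hm
  rw [← h1, ← h2]
  have h3 : Measurable fun r : ℝ × ℝ => F (WithLp.toLp 2 ((MeasurableEquiv.finTwoArrow).symm r)) :=
    hm.comp (MeasurableEquiv.finTwoArrow).symm.measurable
  rw [Measure.volume_eq_prod, lintegral_prod _ h3.aemeasurable]
  rfl

lemma inner2 (p q : E 2) : ⟪p, q⟫ = p 0 * q 0 + p 1 * q 1 := by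
  rw [PiLp.inner_apply, Fin.sum_univ_two]
  simp only [RCLike.inner_apply, conj_trivial]
  ring

/-- the square -/
def Sq : Set (E 2) := {x | x 0 ∈ I2 ∧ x 1 ∈ I2}

lemma Sq_meas : MeasurableSet Sq := by
  have h0 : Measurable fun x : E 2 => x 0 := by fun_prop
  have h1 : Measurable fun x : E 2 => x 1 := by fun_prop
  exact (h0 measurableSet_Icc).inter (h1 measurableSet_Icc)

lemma Sq_of_norm {x : E 2} (hx : ‖x‖ ≤ 2) : x ∈ Sq := by
  have h0 := PiLp.norm_apply_le (p := 2) x 0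
  have h1 := PiLp.norm_apply_le (p := 2) x 1
  rw [Real.norm_eq_abs] at h0 h1
  exact ⟨abs_le.1 (h0.trans hx), abs_le.1 (h1.trans hx)⟩

/-- the integrand -/
noncomputable def Q3 (θ : ℝ) (p q y : E 2) : ℝ≥0∞ :=
  (Sq.indicator (fun _ => (1 : ℝ≥0∞)) p * Sq.indicator (fun _ => (1 : ℝ≥0∞)) q *
    Sq.indicator (fun _ => (1 : ℝ≥0∞)) y) * (P θ ⟪p, q⟫ * (P θ ⟪p, y⟫ * P θ ⟪q, y⟫))

lemma Q3_meas (θ : ℝ) {X : Type*} [MeasurableSpace X] {u v w : X → E 2} (hu : Measurable u)
    (hv : Measurable v) (hw : Measurable w) : Measurable fun x => Q3 θ (u x) (v x) (w x) := by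
  unfold Q3
  have hi : Measurable (Sq.indicator (fun _ => (1 : ℝ≥0∞))) :=
    measurable_const.indicator Sq_meas
  exact (((hi.comp hu).mul (hi.comp hv)).mul (hi.comp hw)).mul
    (((P_meas θ).comp (hu.inner hv)).mul (((P_meas θ).comp (hu.inner hw)).mul
      ((P_meas θ).comp (hv.inner hw))))

lemma Q3_lt {θ : ℝ} (hθ0 : 0 < θ) (hθ1 : θ < 1) :
    ∫⁻ p : E 2, ∫⁻ q : E 2, ∫⁻ y : E 2, Q3 θ p q y < ⊤ := by
  have m3 : ∀ p q : E 2, Measurable fun y => Q3 θ p q y := fun p q =>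
    Q3_meas θ measurable_const measurable_const measurable_id
  have m2 : ∀ p : E 2, Measurable fun q => ∫⁻ y : E 2, Q3 θ p q y := fun p =>
    (Q3_meas θ (u := fun _ : E 2 × E 2 => p) (v := fun r => r.1) (w := fun r => r.2)
      measurable_const measurable_fst measurable_snd).lintegral_prod_right'
  have m1 : Measurable fun p => ∫⁻ q : E 2, ∫⁻ y : E 2, Q3 θ p q y := by
    have h1 : Measurable fun r : E 2 × E 2 => ∫⁻ y : E 2, Q3 θ r.1 r.2 y :=
      (Q3_meas θ (u := fun r : (E 2 × E 2) × E 2 => r.1.1) (v := fun r => r.1.2)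
        (w := fun r => r.2) (by fun_prop) (by fun_prop) (by fun_prop)).lintegral_prod_right'
    exact h1.lintegral_prod_right'
  rw [lint2 _ m1]
  have e2 : ∀ p : E 2, ∫⁻ q : E 2, ∫⁻ y : E 2, Q3 θ p q y =
      ∫⁻ a : ℝ, ∫⁻ b : ℝ, ∫⁻ y : E 2, Q3 θ p (WithLp.toLp 2 ![a, b]) y := fun p => lint2 _ (m2 p)
  have e3 : ∀ p q : E 2, ∫⁻ y : E 2, Q3 θ p q y =
      ∫⁻ a : ℝ, ∫⁻ b : ℝ, Q3 θ p q (WithLp.toLp 2 ![a, b]) := fun p q => lint2 _ (m3 p q)
  simp_rw [e2]
  simp_rw [e3]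
  have hSq : ∀ a b : ℝ, (WithLp.toLp 2 ![a, b] : E 2) ∈ Sq ↔ a ∈ I2 ∧ b ∈ I2 := fun a b => Iff.rfl
  have hQ : ∀ p0 p1 q0 q1 y0 y1 : ℝ, Q3 θ (WithLp.toLp 2 ![p0, p1]) (WithLp.toLp 2 ![q0, q1])
      (WithLp.toLp 2 ![y0, y1]) = I2.indicator (fun _ => (1 : ℝ≥0∞)) p0 *
        (I2.indicator (fun _ => (1 : ℝ≥0∞)) p1 * (I2.indicator (fun _ => (1 : ℝ≥0∞)) q0 *
        (I2.indicator (fun _ => (1 : ℝ≥0∞)) q1 * (I2.indicator (fun _ => (1 : ℝ≥0∞)) y0 *
        (I2.indicator (fun _ => (1 : ℝ≥0∞)) y1 * G6 θ p0 p1 q0 q1 y0 y1))))) := by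
    intro p0 p1 q0 q1 y0 y1
    have hi : ∀ a b : ℝ, Sq.indicator (fun _ => (1 : ℝ≥0∞)) (WithLp.toLp 2 ![a, b] : E 2) =
        I2.indicator (fun _ => (1 : ℝ≥0∞)) a * I2.indicator (fun _ => (1 : ℝ≥0∞)) b := by
      intro a b
      by_cases ha : a ∈ I2
      · by_cases hb : b ∈ I2
        · rw [indicator_of_mem ha, indicator_of_mem hb, indicator_of_mem ((hSq a b).2 ⟨ha, hb⟩),
            one_mul]
        · rw [indicator_of_notMem hb, mul_zero, indicator_of_notMem]
          exact fun h => hb ((hSq a b).1 h).2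
      · rw [indicator_of_notMem ha, zero_mul, indicator_of_notMem]
        exact fun h => ha ((hSq a b).1 h).1
    unfold Q3 G6
    rw [hi, hi, hi, inner2, inner2, inner2]
    simp only [Matrix.cons_val_zero, Matrix.cons_val_one]
    ring
  simp only [hQ]
  have hT := T6_lt hθ0 hθ1
  have hpull : ∀ (c : ℝ≥0∞) (hc : c ≠ ⊤) (F : ℝ → ℝ≥0∞), ∫⁻ x, c * F x = c * ∫⁻ x, F x :=
    fun c hc F => lintegral_const_mul' c F hc
  have hind : ∀ x : ℝ, I2.indicator (fun _ => (1 : ℝ≥0∞)) x ≠ ⊤ := by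
    intro x
    by_cases hx : x ∈ I2
    · rw [indicator_of_mem hx]
      exact ENNReal.one_ne_top
    · rw [indicator_of_notMem hx]
      exact ENNReal.zero_ne_top
  have hres : ∀ F : ℝ → ℝ≥0∞, ∫⁻ x, I2.indicator (fun _ => (1 : ℝ≥0∞)) x * F x =
      ∫⁻ x in I2, F x := by
    intro F
    rw [← lintegral_indicator measurableSet_Icc]
    apply lintegral_congr
    intro x
    by_cases hx : x ∈ I2
    · rw [indicator_of_mem hx, indicator_of_mem hx, one_mul]
    · rw [indicator_of_notMem hx, indicator_of_notMem hx, zero_mul]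
  simp only [hpull _ (hind _), hres]
  exact hT

lemma scale2 (R : E 2 → ℝ≥0∞) (hR : Measurable R) (c : E 2) :
    ∫⁻ z : E 2, R ((2:ℝ) • z + c) ≤ ∫⁻ y, R y := by
  have hm : Measurable fun y => R (y + c) := hR.comp (measurable_id.add_const c)
  have h1 := lintegral_map (μ := (volume : Measure (E 2))) hm (measurable_const_smul (2:ℝ))
  rw [Measure.map_addHaar_smul volume (by norm_num : (2:ℝ) ≠ 0), lintegral_smul_measure,
    smul_eq_mul, lintegral_add_right_eq_self R c] at h1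
  rw [← h1]
  calc _ ≤ 1 * ∫⁻ y, R y := by
        gcongr
        rw [← ENNReal.ofReal_one]
        apply ENNReal.ofReal_le_ofReal
        rw [finrank_euclideanSpace_fin]
        norm_num
    _ = _ := one_mul _

theorem Sg_lt {θ : ℝ} (hθ0 : 0 < θ) (hθ1 : θ < 1) : Sg 2 θ < ⊤ := by
  refine lt_of_le_of_lt ?_ (Q3_lt hθ0 hθ1)
  unfold Sg
  apply lintegral_mono
  intro h
  simp only
  have hQm : Measurable fun r : E 2 × E 2 => Q3 θ h (r.1 - r.2) (r.1 + r.2 + h) :=
    Q3_meas θ measurable_const (by fun_prop) (by fun_prop)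
  calc ∫⁻ p : E 2 × E 2, ({r : E 2 × (E 2 × E 2) | ‖r.2.1 + r.1‖ ≤ 1 ∧ ‖r.2.1‖ ≤ 1 ∧
        ‖r.2.2 + r.1‖ ≤ 1 ∧ ‖r.2.2‖ ≤ 1}.indicator (fun _ => (1 : ℝ≥0∞)) (h, p)) *
          ip h p.1 p.2 ^ (-θ)
      ≤ ∫⁻ p : E 2 × E 2, Q3 θ h (p.1 - p.2) (p.1 + p.2 + h) := by
        apply lintegral_mono
        intro p
        simp only
        by_cases hp : (h, p) ∈ {r : E 2 × (E 2 × E 2) | ‖r.2.1 + r.1‖ ≤ 1 ∧ ‖r.2.1‖ ≤ 1 ∧
          ‖r.2.2 + r.1‖ ≤ 1 ∧ ‖r.2.2‖ ≤ 1}
        · rw [indicator_of_mem hp, one_mul]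
          obtain ⟨h1, h2, h3, h4⟩ := hp
          simp only at h1 h2 h3 h4
          have s1 : h ∈ Sq := Sq_of_norm (by
            have : h = (p.1 + h) - p.1 := by abel
            rw [this]
            refine (norm_sub_le _ _).trans ?_
            linarith)
          have s2 : p.1 - p.2 ∈ Sq := Sq_of_norm (by
            refine (norm_sub_le _ _).trans ?_
            linarith)
          have s3 : p.1 + p.2 + h ∈ Sq := Sq_of_norm (by
            have : p.1 + p.2 + h = (p.1 + h) + p.2 := by abel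
            rw [this]
            refine (norm_add_le _ _).trans ?_
            linarith)
          unfold Q3 ip
          rw [indicator_of_mem s1, indicator_of_mem s2, indicator_of_mem s3]
          simp only [one_mul]
          apply le_of_eq
          rw [← P_mul, ← P_mul]
          unfold P
          rw [abs_mul, abs_mul, mul_assoc]
        · rw [indicator_of_notMem hp, zero_mul]
          exact zero_le
    _ = ∫⁻ z' : E 2, ∫⁻ z : E 2, Q3 θ h (z - z') (z + z' + h) := by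
        rw [Measure.volume_eq_prod, lintegral_prod_symm _ hQm.aemeasurable]
    _ = ∫⁻ z' : E 2, ∫⁻ q : E 2, Q3 θ h q ((2:ℝ) • z' + (q + h)) := by
        apply lintegral_congr
        intro z'
        rw [← lintegral_sub_right_eq_self (fun q => Q3 θ h q ((2:ℝ) • z' + (q + h))) z']
        apply lintegral_congr
        intro z
        congr 1
        rw [two_smul]
        abel
    _ = ∫⁻ q : E 2, ∫⁻ z' : E 2, Q3 θ h q ((2:ℝ) • z' + (q + h)) := by
        rw [lintegral_lintegral_swap]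
        apply Measurable.aemeasurable
        exact Q3_meas θ measurable_const (by fun_prop) (by fun_prop)
    _ ≤ ∫⁻ q : E 2, ∫⁻ y : E 2, Q3 θ h q y := by
        apply lintegral_mono
        intro q
        exact scale2 (Q3 θ h q) (Q3_meas θ measurable_const measurable_const measurable_id) (q + h)

end Pool.Agent.R245.OD
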