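import Mathlib
import Pool.Agent.R245.OD.Sing3
set_option autoImplicit false

/-! The singular integral with one fixed vertex: the weight `‖z‖^(-2)`. -/

namespace Pool.Agent.R245.OD

open MeasureTheory Set
open scoped ENNReal RealInnerProductSpace
open Pool.Agent.H153R4 (E)

/-- the product of two vectors as complex numbers -/
noncomputable def cm (c z : E 2) : E 2 :=
  WithLp.toLp 2 ![c 0 * z 0 - c 1 * z 1, c 0 * z 1 + c 1 * z 0]

@[simp] lemma cm_0 (c z : E 2) : cm c z 0 = c 0 * z 0 - c 1 * z 1 := rfl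
@[simp] lemma cm_1 (c z : E 2) : cm c z 1 = c 0 * z 1 + c 1 * z 0 := rfl

lemma ext2 {x y : E 2} (h0 : x 0 = y 0) (h1 : x 1 = y 1) : x = y := by
  ext i
  fin_cases i
  · exact h0
  · exact h1

lemma cm_comm (c z : E 2) : cm c z = cm z c := by
  apply ext2
  · simp only [cm_0]; ring
  · simp only [cm_1]; ring

lemma cm_add (c x y : E 2) : cm c (x + y) = cm c x + cm c y := by
  apply ext2
  · simp only [cm_0, PiLp.add_apply]; ring
  · simp only [cm_1, PiLp.add_apply]; ring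

lemma cm_smul (c : E 2) (a : ℝ) (x : E 2) : cm c (a • x) = a • cm c x := by
  apply ext2
  · simp only [cm_0, PiLp.smul_apply, smul_eq_mul]; ring
  · simp only [cm_1, PiLp.smul_apply, smul_eq_mul]; ring

lemma cm_sub (c x y : E 2) : cm c (x - y) = cm c x - cm c y := by
  apply ext2
  · simp only [cm_0, PiLp.sub_apply]; ring
  · simp only [cm_1, PiLp.sub_apply]; ring

lemma nsq2 (c : E 2) : ‖c‖ ^ 2 = c 0 ^ 2 + c 1 ^ 2 := by
  rw [EuclideanSpace.norm_sq_eq, Fin.sum_univ_two, Real.norm_eq_abs, Real.norm_eq_abs, sq_abs,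
    sq_abs]

lemma inner_cm (c x y : E 2) : ⟪cm c x, cm c y⟫ = ‖c‖ ^ 2 * ⟪x, y⟫ := by
  rw [inner2, inner2, nsq2]
  simp only [cm_0, cm_1]
  ring

lemma norm_cm (c x : E 2) : ‖cm c x‖ = ‖c‖ * ‖x‖ := by
  have h : ‖cm c x‖ ^ 2 = (‖c‖ * ‖x‖) ^ 2 := by
    rw [nsq2, mul_pow, nsq2, nsq2]
    simp only [cm_0, cm_1]
    ring
  exact (sq_eq_sq₀ (norm_nonneg _) (by positivity)).1 h

/-- multiplication by a unit vector -/
noncomputable def rot (c : E 2) (hc : ‖c‖ = 1) : E 2 ≃ₗᵢ[ℝ] E 2 :=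
  LinearIsometry.toLinearIsometryEquiv
    { toFun := cm c
      map_add' := cm_add c
      map_smul' := cm_smul c
      norm_map' := fun x => by
        change ‖cm c x‖ = ‖x‖
        rw [norm_cm, hc, one_mul] } rfl

lemma rot_apply (c : E 2) (hc : ‖c‖ = 1) (x : E 2) : rot c hc x = cm c x := rfl

lemma cm_cont (c : E 2) : Continuous (cm c) := by
  unfold cm
  fun_prop

lemma cm_meas2 : Measurable fun r : E 2 × E 2 => cm r.1 r.2 := by
  unfold cm
  apply Continuous.measurable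
  fun_prop

/-- change of variables -/
lemma lint_cm (Φ : E 2 → ℝ≥0∞) (hΦ : Measurable Φ) {c : E 2} (hc : c ≠ 0) :
    ∫⁻ x, Φ (cm c x) = (ENNReal.ofReal (‖c‖ ^ 2))⁻¹ * ∫⁻ x, Φ x := by
  have hn : 0 < ‖c‖ := norm_pos_iff.2 hc
  set u : E 2 := ‖c‖⁻¹ • c with hu
  have hu1 : ‖u‖ = 1 := by
    rw [hu, norm_smul, norm_inv, norm_norm, inv_mul_cancel₀ hn.ne']
  have e1 : ∀ x, cm c x = ‖c‖ • rot u hu1 x := by
    intro x
    rw [rot_apply, cm_comm u x, hu, cm_smul, smul_smul, mul_inv_cancel₀ hn.ne', one_smul, cm_comm]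
  have hm : Measurable fun x => Φ (‖c‖ • x) := hΦ.comp (measurable_const_smul _)
  have h1 := lintegral_map (μ := (volume : Measure (E 2))) hΦ (measurable_const_smul ‖c‖)
  rw [Measure.map_addHaar_smul volume hn.ne', lintegral_smul_measure, smul_eq_mul,
    finrank_euclideanSpace_fin] at h1
  calc ∫⁻ x, Φ (cm c x) = ∫⁻ x, Φ (‖c‖ • rot u hu1 x) := by simp only [e1]
    _ = ∫⁻ x, Φ (‖c‖ • x) := (rot u hu1).measurePreserving.lintegral_comp hm
    _ = _ := by
        rw [← h1]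
        congr 1
        rw [abs_of_nonneg (by positivity), ENNReal.ofReal_inv_of_pos (by positivity)]

lemma lint_cm' (Φ : E 2 → ℝ≥0∞) (hΦ : Measurable Φ) {c : E 2} (hc : c ≠ 0) :
    ∫⁻ x, Φ x = ENNReal.ofReal (‖c‖ ^ 2) * ∫⁻ x, Φ (cm c x) := by
  have hn : 0 < ‖c‖ := norm_pos_iff.2 hc
  rw [lint_cm Φ hΦ hc, ← mul_assoc, ENNReal.mul_inv_cancel _ ENNReal.ofReal_ne_top, one_mul]
  exact (ENNReal.ofReal_pos.2 (by positivity)).ne'

/-- the indicator of the ball of radius two -/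
noncomputable def b2 (x : E 2) : ℝ≥0∞ := (Metric.closedBall (0 : E 2) 2).indicator (fun _ => 1) x

lemma b2_meas : Measurable b2 := measurable_const.indicator Metric.isClosed_closedBall.measurableSet

lemma b2_le (x : E 2) : b2 x ≤ Sq.indicator (fun _ => (1 : ℝ≥0∞)) x := by
  unfold b2
  by_cases h : x ∈ Metric.closedBall (0 : E 2) 2
  · rw [indicator_of_mem h, indicator_of_mem]
    exact Sq_of_norm (by simpa using h)
  · rw [indicator_of_notMem h]
    exact zero_le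

lemma b2_cm {c : E 2} (hc : ‖c‖ ≤ 1) (x : E 2) : b2 x ≤ b2 (cm c x) := by
  unfold b2
  by_cases h : x ∈ Metric.closedBall (0 : E 2) 2
  · rw [indicator_of_mem h, indicator_of_mem]
    rw [mem_closedBall_zero_iff] at h ⊢
    rw [norm_cm]
    calc ‖c‖ * ‖x‖ ≤ 1 * 2 := by gcongr
      _ = 2 := by norm_num
  · rw [indicator_of_notMem h]
    exact zero_le

/-- the kernel -/
noncomputable def KB (θ : ℝ) (p q y : E 2) : ℝ≥0∞ :=
  (b2 p * b2 q * b2 y) * (P θ ⟪p, q⟫ * (P θ ⟪p, y⟫ * P θ ⟪q, y⟫))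

lemma KB_le (θ : ℝ) (p q y : E 2) : KB θ p q y ≤ Q3 θ p q y := by
  unfold KB Q3
  exact mul_le_mul' (mul_le_mul' (mul_le_mul' (b2_le p) (b2_le q)) (b2_le y)) le_rfl

lemma KB_meas (θ : ℝ) {X : Type*} [MeasurableSpace X] {u v w : X → E 2} (hu : Measurable u)
    (hv : Measurable v) (hw : Measurable w) : Measurable fun x => KB θ (u x) (v x) (w x) := by
  unfold KB
  exact (((b2_meas.comp hu).mul (b2_meas.comp hv)).mul (b2_meas.comp hw)).mul
    (((P_meas θ).comp (hu.inner hv)).mul (((P_meas θ).comp (hu.inner hw)).mul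
      ((P_meas θ).comp (hv.inner hw))))

lemma KB_cm {θ : ℝ} {c : E 2} (hc : ‖c‖ ≤ 1) (p q y : E 2) :
    P θ (‖c‖ ^ 2) ^ 3 * KB θ p q y ≤ KB θ (cm c p) (cm c q) (cm c y) := by
  unfold KB
  rw [inner_cm, inner_cm, inner_cm, P_mul, P_mul, P_mul]
  calc _ = (b2 p * b2 q * b2 y) * (P θ (‖c‖ ^ 2) * P θ ⟪p, q⟫ *
        (P θ (‖c‖ ^ 2) * P θ ⟪p, y⟫ * (P θ (‖c‖ ^ 2) * P θ ⟪q, y⟫))) := by ring
    _ ≤ _ := mul_le_mul' (mul_le_mul' (mul_le_mul' (b2_cm hc p) (b2_cm hc q)) (b2_cm hc y)) le_rfl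

/-- the vertex integral -/
noncomputable def IV (θ : ℝ) (z : E 2) : ℝ≥0∞ :=
  ∫⁻ h : E 2, ∫⁻ q : E 2, KB θ h q ((2:ℝ) • z + h - q)

lemma IV_meas (θ : ℝ) : Measurable (IV θ) := by
  unfold IV
  have h1 : Measurable fun r : (E 2 × E 2) × E 2 => KB θ r.1.2 r.2 ((2:ℝ) • r.1.1 + r.1.2 - r.2) :=
    KB_meas θ (by fun_prop) (by fun_prop) (by fun_prop)
  exact h1.lintegral_prod_right'.lintegral_prod_right'

lemma IV_mono {θ : ℝ} (hθ : 2 / 3 ≤ θ) {c : E 2} (hc0 : c ≠ 0) (hc : ‖c‖ ≤ 1) (z : E 2) :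
    IV θ z ≤ IV θ (cm c z) := by
  have hn : 0 < ‖c‖ := norm_pos_iff.2 hc0
  have m1 : Measurable fun h : E 2 => ∫⁻ q : E 2, KB θ h q ((2:ℝ) • cm c z + h - q) := by
    have h1 : Measurable fun r : E 2 × E 2 => KB θ r.1 r.2 ((2:ℝ) • cm c z + r.1 - r.2) :=
      KB_meas θ (by fun_prop) (by fun_prop) (by fun_prop)
    exact h1.lintegral_prod_right'
  have m2 : ∀ h : E 2, Measurable fun q : E 2 => KB θ h q ((2:ℝ) • cm c z + h - q) := fun h =>
    KB_meas θ (by fun_prop) (by fun_prop) (by fun_prop)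
  have e1 : IV θ (cm c z) = ENNReal.ofReal (‖c‖ ^ 2) * ∫⁻ h : E 2,
      ENNReal.ofReal (‖c‖ ^ 2) * ∫⁻ q : E 2,
        KB θ (cm c h) (cm c q) (cm c ((2:ℝ) • z + h - q)) := by
    unfold IV
    rw [lint_cm' _ m1 hc0]
    congr 1
    apply lintegral_congr
    intro h
    rw [lint_cm' _ (m2 (cm c h)) hc0]
    congr 1
    apply lintegral_congr
    intro q
    congr 1
    rw [cm_sub, cm_add, cm_smul]
  have hone : 1 ≤ ENNReal.ofReal (‖c‖ ^ 2) * (ENNReal.ofReal (‖c‖ ^ 2) * P θ (‖c‖ ^ 2) ^ 3) := by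
    rw [P_pos θ _ (by positivity), ← ENNReal.ofReal_pow (by positivity),
      ← ENNReal.ofReal_mul (by positivity), ← ENNReal.ofReal_mul (by positivity),
      ← ENNReal.ofReal_one]
    apply ENNReal.ofReal_le_ofReal
    rw [abs_of_nonneg (by positivity), ← Real.rpow_natCast (x := (‖c‖ ^ 2) ^ (-θ)),
      ← Real.rpow_mul (by positivity)]
    have e2 : ‖c‖ ^ 2 * (‖c‖ ^ 2 * (‖c‖ ^ 2) ^ (-θ * (3:ℕ))) = (‖c‖ ^ 2) ^ (2 - 3 * θ) := by
      rw [show (2 - 3 * θ : ℝ) = 1 + (1 + -θ * (3:ℕ)) by push_cast; ring,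
        Real.rpow_add (by positivity), Real.rpow_add (by positivity), Real.rpow_one]
    rw [e2]
    exact Real.one_le_rpow_of_pos_of_le_one_of_nonpos (by positivity)
      (pow_le_one₀ (norm_nonneg _) hc) (by linarith)
  calc IV θ z = 1 * IV θ z := (one_mul _).symm
    _ ≤ ENNReal.ofReal (‖c‖ ^ 2) * (ENNReal.ofReal (‖c‖ ^ 2) * P θ (‖c‖ ^ 2) ^ 3) * IV θ z := by
        gcongr
    _ = ENNReal.ofReal (‖c‖ ^ 2) * ∫⁻ h : E 2, ENNReal.ofReal (‖c‖ ^ 2) * ∫⁻ q : E 2,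
          P θ (‖c‖ ^ 2) ^ 3 * KB θ h q ((2:ℝ) • z + h - q) := by
        have hP : P θ (‖c‖ ^ 2) ^ 3 ≠ ⊤ := by
          rw [P_pos θ _ (by positivity)]
          exact ENNReal.pow_ne_top ENNReal.ofReal_ne_top
        unfold IV
        rw [lintegral_const_mul' _ _ ENNReal.ofReal_ne_top]
        simp only [lintegral_const_mul' _ _ hP]
        ring
    _ ≤ _ := by
        rw [e1]
        gcongr with h q
        exact KB_cm hc h q _

/-- the weight -/
noncomputable def wz (z : E 2) : ℝ≥0∞ := (ENNReal.ofReal (‖z‖ ^ 2))⁻¹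

lemma wz_meas : Measurable wz := by
  unfold wz
  exact ((measurable_norm.pow_const 2).ennreal_ofReal).inv

lemma IV_total {θ : ℝ} (hθ0 : 0 < θ) (hθ1 : θ < 1) : ∫⁻ w : E 2, IV θ w < ⊤ := by
  refine lt_of_le_of_lt ?_ (Q3_lt hθ0 hθ1)
  unfold IV
  have m3 : Measurable fun r : E 2 × (E 2 × E 2) => KB θ r.2.1 r.2.2 ((2:ℝ) • r.1 + r.2.1 - r.2.2) :=
    KB_meas θ (by fun_prop) (by fun_prop) (by fun_prop)
  calc ∫⁻ w : E 2, ∫⁻ h : E 2, ∫⁻ q : E 2, KB θ h q ((2:ℝ) • w + h - q)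
      = ∫⁻ h : E 2, ∫⁻ w : E 2, ∫⁻ q : E 2, KB θ h q ((2:ℝ) • w + h - q) := by
        rw [lintegral_lintegral_swap]
        have m4 : Measurable fun r : (E 2 × E 2) × E 2 =>
            KB θ r.1.2 r.2 ((2:ℝ) • r.1.1 + r.1.2 - r.2) :=
          KB_meas θ (by fun_prop) (by fun_prop) (by fun_prop)
        exact m4.lintegral_prod_right'.aemeasurable
    _ = ∫⁻ h : E 2, ∫⁻ q : E 2, ∫⁻ w : E 2, KB θ h q ((2:ℝ) • w + h - q) := by
        apply lintegral_congr
        intro h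
        rw [lintegral_lintegral_swap]
        apply Measurable.aemeasurable
        exact KB_meas θ (by fun_prop) (by fun_prop) (by fun_prop)
    _ ≤ ∫⁻ p : E 2, ∫⁻ q : E 2, ∫⁻ y : E 2, Q3 θ p q y := by
        refine lintegral_mono fun h => lintegral_mono fun q => ?_
        have h1 := scale2 (KB θ h q) (KB_meas θ measurable_const measurable_const measurable_id)
          (h - q)
        refine le_trans (le_of_eq ?_) (h1.trans (lintegral_mono fun y => KB_le θ h q y))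
        apply lintegral_congr
        intro w
        rw [add_sub_assoc]

theorem IV_bd {θ : ℝ} (hθ : 2 / 3 ≤ θ) (hθ1 : θ < 1) : ∃ C : ℝ≥0∞, C ≠ 0 ∧ C < ⊤ ∧
    ∀ z : E 2, IV θ z ≤ C * wz z := by
  have hθ0 : 0 < θ := by linarith
  set V := volume (Metric.closedBall (0 : E 2) 1) with hV
  have hV0 : V ≠ 0 := (Metric.measure_closedBall_pos volume 0 one_pos).ne'
  have hVt : V ≠ ⊤ := measure_closedBall_lt_top.ne
  have hI := IV_total hθ0 hθ1
  refine ⟨V⁻¹ * (∫⁻ w : E 2, IV θ w) + 1, by simp, ENNReal.add_lt_top.2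
    ⟨ENNReal.mul_lt_top (ENNReal.inv_lt_top.2 (pos_iff_ne_zero.2 hV0)) hI, ENNReal.one_lt_top⟩,
    fun z => ?_⟩
  rcases eq_or_ne z 0 with h0 | h0
  · rw [h0]
    unfold wz
    rw [norm_zero]
    simp
  · have h1 : V * IV θ z ≤ wz z * ∫⁻ w : E 2, IV θ w := by
      unfold wz
      rw [← lint_cm _ (IV_meas θ) h0]
      calc V * IV θ z = ∫⁻ _ in Metric.closedBall (0 : E 2) 1, IV θ z := by
            rw [lintegral_const, Measure.restrict_apply_univ, mul_comm]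
        _ ≤ ∫⁻ c in Metric.closedBall (0 : E 2) 1, IV θ (cm z c) := by
            apply lintegral_mono_ae
            have h2 : ∀ᵐ c ∂(volume.restrict (Metric.closedBall (0 : E 2) 1)), c ≠ 0 :=
              ae_restrict_of_ae (Measure.ae_ne volume 0)
            filter_upwards [h2, ae_restrict_mem Metric.isClosed_closedBall.measurableSet]
              with c hc hcb
            rw [cm_comm]
            exact IV_mono hθ hc (by simpa using hcb) z
        _ ≤ _ := setLIntegral_le_lintegral _ _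
    calc IV θ z = V⁻¹ * (V * IV θ z) := by
          rw [← mul_assoc, ENNReal.inv_mul_cancel hV0 hVt, one_mul]
      _ ≤ V⁻¹ * (wz z * ∫⁻ w : E 2, IV θ w) := by gcongr
      _ = (V⁻¹ * ∫⁻ w : E 2, IV θ w) * wz z := by ring
      _ ≤ _ := by
          gcongr
          exact le_self_add

end Pool.Agent.R245.OD
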