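import Mathlib
import Pool.Agent.R245.OD.Wt1
import Pool.Agent.R245.OD.Av4
set_option autoImplicit false

/-! The averaged fourth moment with the weighted `L^4` norm of the density. -/

namespace Pool.Agent.R245.OD

open MeasureTheory Set Complex
open scoped ENNReal ComplexConjugate FourierTransform RealInnerProductSpace
open Pool.Agent.W203.SP (ee pw gs DS DM)
open Pool.Agent.H153R4 (E BS ST)

/-- the kernel at four points -/
noncomputable def kq (θ : ℝ) (h z z' : E 2) : ℝ≥0∞ := KB θ h (z - z') (z + z' + h)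

lemma kq_meas (θ : ℝ) {X : Type*} [MeasurableSpace X] {u v w : X → E 2} (hu : Measurable u)
    (hv : Measurable v) (hw : Measurable w) : Measurable fun x => kq θ (u x) (v x) (w x) := by
  unfold kq
  exact KB_meas θ hu (hv.sub hw) ((hv.add hw).add hu)

lemma b2_neg (x : E 2) : b2 (-x) = b2 x := by
  unfold b2
  by_cases h : x ∈ Metric.closedBall (0 : E 2) 2
  · rw [indicator_of_mem h, indicator_of_mem]
    rw [mem_closedBall_zero_iff] at h ⊢
    rwa [norm_neg]
  · rw [indicator_of_notMem h, indicator_of_notMem]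
    intro h'
    apply h
    rw [mem_closedBall_zero_iff] at h' ⊢
    rwa [norm_neg] at h'

lemma kq_swap (θ : ℝ) (h z z' : E 2) : kq θ h z' z = kq θ h z z' := by
  unfold kq KB
  rw [show z' - z = -(z - z') by abel, show z' + z + h = z + z' + h by abel, b2_neg,
    inner_neg_right, inner_neg_left, P_neg, P_neg]

lemma kq_neg (θ : ℝ) (h z z' : E 2) : kq θ (-h) (z + h) (z' + h) = kq θ h z z' := by
  unfold kq KB
  rw [show z + h - (z' + h) = z - z' by abel, show z + h + (z' + h) + -h = z + z' + h by abel,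
    b2_neg, inner_neg_left, inner_neg_left, P_neg, P_neg]

section
variable (θ : ℝ) (F : E 2 → ℝ≥0∞) (hF : Measurable F)
include hF

lemma tz1 : ∫⁻ h : E 2, ∫⁻ p : E 2 × E 2, kq θ h p.1 p.2 * F p.1 = ∫⁻ z, F z * IV θ z := by
  have m0 : Measurable fun r : E 2 × (E 2 × E 2) => kq θ r.1 r.2.1 r.2.2 * F r.2.1 :=
    (kq_meas θ (by fun_prop) (by fun_prop) (by fun_prop)).mul (hF.comp (by fun_prop))
  have e1 : ∀ h : E 2, ∫⁻ p : E 2 × E 2, kq θ h p.1 p.2 * F p.1 =
      ∫⁻ z : E 2, ∫⁻ z' : E 2, kq θ h z z' * F z := by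
    intro h
    rw [Measure.volume_eq_prod, lintegral_prod]
    exact (m0.comp measurable_prodMk_left).aemeasurable
  simp only [e1]
  rw [lintegral_lintegral_swap]
  · apply lintegral_congr
    intro z
    have e2 : ∀ h : E 2, ∫⁻ z' : E 2, kq θ h z z' * F z =
        (∫⁻ q : E 2, KB θ h q ((2:ℝ) • z + h - q)) * F z := by
      intro h
      have hk : Measurable fun z' : E 2 => kq θ h z z' :=
        kq_meas θ measurable_const measurable_const measurable_id
      rw [lintegral_mul_const _ hk, ← lintegral_sub_left_eq_self _ z]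
      congr 1
      apply lintegral_congr
      intro q
      unfold kq
      congr 1
      · abel
      · rw [two_smul]
        abel
    simp only [e2]
    rw [lintegral_mul_const, mul_comm]
    · rfl
    · have h1 : Measurable fun r : E 2 × E 2 => KB θ r.1 r.2 ((2:ℝ) • z + r.1 - r.2) :=
        KB_meas θ (by fun_prop) (by fun_prop) (by fun_prop)
      exact h1.lintegral_prod_right'
  · have h1 : Measurable fun r : (E 2 × E 2) × E 2 => kq θ r.1.1 r.1.2 r.2 * F r.1.2 :=
      (kq_meas θ (by fun_prop) (by fun_prop) (by fun_prop)).mul (hF.comp (by fun_prop))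
    exact h1.lintegral_prod_right'.aemeasurable

lemma tz2 : ∫⁻ h : E 2, ∫⁻ p : E 2 × E 2, kq θ h p.1 p.2 * F p.2 = ∫⁻ z, F z * IV θ z := by
  rw [← tz1 θ F hF]
  apply lintegral_congr
  intro h
  have h1 : Measurable fun p : E 2 × E 2 => kq θ h p.1 p.2 * F p.1 :=
    (kq_meas θ (by fun_prop) (by fun_prop) (by fun_prop)).mul (hF.comp (by fun_prop))
  have h2 := (Measure.measurePreserving_swap (μ := (volume : Measure (E 2)))
    (ν := (volume : Measure (E 2)))).lintegral_comp h1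
  rw [Measure.volume_eq_prod, ← h2]
  apply lintegral_congr
  intro p
  simp only [Prod.fst_swap, Prod.snd_swap]
  rw [kq_swap]

lemma tzh (π' : E 2 × E 2 → E 2) (hπ : Measurable π')
    (hadd : ∀ p (h : E 2), π' (p + (h, h)) = π' p + h) :
    ∫⁻ h : E 2, ∫⁻ p : E 2 × E 2, kq θ h p.1 p.2 * F (π' p + h) =
      ∫⁻ h : E 2, ∫⁻ p : E 2 × E 2, kq θ h p.1 p.2 * F (π' p) := by
  have e1 : ∀ h : E 2, ∫⁻ p : E 2 × E 2, kq θ h p.1 p.2 * F (π' p + h) =
      ∫⁻ p : E 2 × E 2, kq θ (-h) p.1 p.2 * F (π' p) := by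
    intro h
    have hm1 : Measurable fun p : E 2 × E 2 => kq θ h p.1 p.2 * F (π' p + h) :=
      (kq_meas θ (by fun_prop) (by fun_prop) (by fun_prop)).mul (hF.comp (hπ.add_const h))
    have hm2 : Measurable fun p : E 2 × E 2 => kq θ (-h) p.1 p.2 * F (π' p) :=
      (kq_meas θ (by fun_prop) (by fun_prop) (by fun_prop)).mul (hF.comp hπ)
    rw [Measure.volume_eq_prod, lintegral_prod _ hm1.aemeasurable,
      lintegral_prod _ hm2.aemeasurable]
    rw [← lintegral_add_right_eq_self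
      (fun z : E 2 => ∫⁻ z' : E 2, kq θ (-h) z z' * F (π' (z, z'))) h]
    apply lintegral_congr
    intro z
    rw [← lintegral_add_right_eq_self
      (fun z' : E 2 => kq θ (-h) (z + h) z' * F (π' (z + h, z'))) h]
    apply lintegral_congr
    intro z'
    simp only
    rw [kq_neg, ← hadd, Prod.mk_add_mk]
  simp only [e1]
  have h2 := (Measure.measurePreserving_neg (volume : Measure (E 2))).lintegral_comp
    (f := fun h => ∫⁻ p : E 2 × E 2, kq θ h p.1 p.2 * F (π' p)) ?_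
  · exact h2
  · have h1 : Measurable fun r : E 2 × (E 2 × E 2) => kq θ r.1 r.2.1 r.2.2 * F (π' r.2) :=
      (kq_meas θ (by fun_prop) (by fun_prop) (by fun_prop)).mul
        (hF.comp (hπ.comp measurable_snd))
    exact h1.lintegral_prod_right'

end

lemma lint4 {X : Type*} [MeasurableSpace X] (μ : Measure X) (f1 f2 f3 f4 : X → ℝ≥0∞)
    (h1 : Measurable f1) (h2 : Measurable f2) (h3 : Measurable f3) :
    ∫⁻ x, ((f1 x + f2 x) + (f3 x + f4 x)) ∂μ =
      ((∫⁻ x, f1 x ∂μ) + ∫⁻ x, f2 x ∂μ) + ((∫⁻ x, f3 x ∂μ) + ∫⁻ x, f4 x ∂μ) := by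
  have h12 : Measurable fun x => f1 x + f2 x := h1.add h2
  rw [lintegral_add_left h12, lintegral_add_left h1, lintegral_add_left h3]

lemma prod4_le (a b c d : ℝ≥0∞) : a * b * c * d ≤ a ^ 4 + b ^ 4 + c ^ 4 + d ^ 4 := by
  set m := max (max a b) (max c d) with hm
  have ha : a ≤ m := (le_max_left _ _).trans (le_max_left _ _)
  have hb : b ≤ m := (le_max_right _ _).trans (le_max_left _ _)
  have hc : c ≤ m := (le_max_left _ _).trans (le_max_right _ _)
  have hd : d ≤ m := (le_max_right _ _).trans (le_max_right _ _)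
  have h1 : a * b * c * d ≤ m ^ 4 := by
    calc a * b * c * d ≤ m * m * m * m := by gcongr
      _ = m ^ 4 := by ring
  refine h1.trans ?_
  have h2 : m = a ∨ m = b ∨ m = c ∨ m = d := by
    rcases le_total a b with h | h <;> rcases le_total c d with h' | h' <;>
      rcases le_total (max a b) (max c d) with h'' | h'' <;>
      simp [hm, h, h'] <;>
      simp only [max_eq_left h, max_eq_right h, max_eq_left h', max_eq_right h'] at h'' <;>
      simp [h'']
  rcases h2 with h | h | h | h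
  · rw [h]; exact le_self_add.trans (le_self_add.trans le_self_add)
  · rw [h]; exact le_add_self.trans (le_self_add.trans le_self_add)
  · rw [h]; exact le_add_self.trans le_self_add
  · rw [h]; exact le_add_self

theorem four_bdw {a b : ℝ} (ha : 0 < a) (hab : a ≤ b) (hb : b < 1) (m : ℕ) {θ : ℝ}
    (hθ0 : 2 / 3 ≤ θ) (hθ1 : θ < 1) : ∃ C : ℝ≥0∞, C < ⊤ ∧ ∀ T : ℝ, 0 < T → ∀ ε : ℝ,
      (ε = 1 ∨ ε = -1) → ∀ (M : ℝ) (f : E 2 → ℂ), DS M f →
      ∫⁻ q, ENNReal.ofReal (we a b T q) * (∫⁻ x, ‖𝓕 (gs m (ε * q.2) (fun _ => q.1) f) x‖ₑ ^ 4)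
        ∂(mu a b) ≤
      C * ENNReal.ofReal (T * (T ^ 2) ^ (-θ)) * ∫⁻ z, ‖f z‖ₑ ^ 4 * wz z := by
  obtain ⟨C, hC, hkf⟩ := kf_bd (k := 2) ha hab hb m (by linarith : 0 < θ) hθ1.le
  obtain ⟨C', hC'0, hC', hIV⟩ := IV_bd hθ0 hθ1
  refine ⟨ENNReal.ofReal (2 * C) * (4 * C'), ENNReal.mul_lt_top ENNReal.ofReal_lt_top
    (ENNReal.mul_lt_top (by norm_num) hC'), fun T hT ε hε M f hf => ?_⟩
  refine (four_all ha hab hb hT hε m hf).trans ?_
  set F : E 2 → ℝ≥0∞ := fun z => ‖f z‖ₑ ^ 4 with hF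
  have hFm : Measurable F := hf.meas.enorm.pow_const 4
  have hpt : ∀ (h : E 2) (p : E 2 × E 2), ‖f4 f h p.1 p.2‖ₑ *
      (ENNReal.ofReal (2 * T) * ‖kf a b T m h p.1 p.2‖ₑ) ≤
      ENNReal.ofReal (2 * C) * ENNReal.ofReal (T * (T ^ 2) ^ (-θ)) *
        (((kq θ h p.1 p.2 * F (p.1 + h)) + (kq θ h p.1 p.2 * F p.1)) +
          ((kq θ h p.1 p.2 * F (p.2 + h)) + (kq θ h p.1 p.2 * F p.2))) := by
    intro h p
    rcases f4_zero hf h p.1 p.2 with h0 | ⟨h1, h2, h3, h4⟩
    · rw [h0, enorm_zero, zero_mul]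
      exact zero_le
    · have hk := hkf T hT h p.1 p.2 h1 h2 h3 h4
      have hip : ip h p.1 p.2 ^ (-θ) ≤ kq θ h p.1 p.2 := by
        have s1 : b2 h = 1 := by
          unfold b2
          rw [indicator_of_mem]
          rw [mem_closedBall_zero_iff]
          have : h = (p.1 + h) - p.1 := by abel
          rw [this]
          refine (norm_sub_le _ _).trans ?_
          linarith
        have s2 : b2 (p.1 - p.2) = 1 := by
          unfold b2
          rw [indicator_of_mem]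
          rw [mem_closedBall_zero_iff]
          refine (norm_sub_le _ _).trans ?_
          linarith
        have s3 : b2 (p.1 + p.2 + h) = 1 := by
          unfold b2
          rw [indicator_of_mem]
          rw [mem_closedBall_zero_iff]
          have : p.1 + p.2 + h = (p.1 + h) + p.2 := by abel
          rw [this]
          refine (norm_add_le _ _).trans ?_
          linarith
        unfold kq KB ip
        rw [s1, s2, s3, one_mul, one_mul, one_mul, ← P_mul, ← P_mul]
        apply le_of_eq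
        unfold P
        rw [abs_mul, abs_mul, mul_assoc]
      have hf4 : ‖f4 f h p.1 p.2‖ₑ ≤ (F (p.1 + h) + F p.1) + (F (p.2 + h) + F p.2) := by
        unfold f4
        rw [enorm_mul, enorm_mul, enorm_mul, RCLike.enorm_conj, RCLike.enorm_conj]
        refine (prod4_le _ _ _ _).trans (le_of_eq ?_)
        rw [hF]
        ring
      calc _ ≤ ((F (p.1 + h) + F p.1) + (F (p.2 + h) + F p.2)) * (ENNReal.ofReal (2 * T) *
            (ENNReal.ofReal (C * (T ^ 2) ^ (-θ)) * kq θ h p.1 p.2)) := by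
            refine mul_le_mul' hf4 (mul_le_mul' le_rfl (hk.trans (mul_le_mul' le_rfl hip)))
        _ = (ENNReal.ofReal (2 * T) * ENNReal.ofReal (C * (T ^ 2) ^ (-θ))) *
            (((kq θ h p.1 p.2 * F (p.1 + h)) + (kq θ h p.1 p.2 * F p.1)) +
          ((kq θ h p.1 p.2 * F (p.2 + h)) + (kq θ h p.1 p.2 * F p.2))) := by ring
        _ = _ := by
          congr 1
          rw [← ENNReal.ofReal_mul (by positivity), ← ENNReal.ofReal_mul (by positivity)]
          congr 1
          ring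
  have mk1 : ∀ h : E 2, Measurable fun p : E 2 × E 2 => kq θ h p.1 p.2 * F (p.1 + h) := fun h =>
    (kq_meas θ (by fun_prop) (by fun_prop) (by fun_prop)).mul (hFm.comp (by fun_prop))
  have mk2 : ∀ h : E 2, Measurable fun p : E 2 × E 2 => kq θ h p.1 p.2 * F p.1 := fun h =>
    (kq_meas θ (by fun_prop) (by fun_prop) (by fun_prop)).mul (hFm.comp (by fun_prop))
  have mk3 : ∀ h : E 2, Measurable fun p : E 2 × E 2 => kq θ h p.1 p.2 * F (p.2 + h) := fun h =>
    (kq_meas θ (by fun_prop) (by fun_prop) (by fun_prop)).mul (hFm.comp (by fun_prop))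
  have mj1 : Measurable fun r : E 2 × (E 2 × E 2) => kq θ r.1 r.2.1 r.2.2 * F (r.2.1 + r.1) :=
    (kq_meas θ (by fun_prop) (by fun_prop) (by fun_prop)).mul (hFm.comp (by fun_prop))
  have mj2 : Measurable fun r : E 2 × (E 2 × E 2) => kq θ r.1 r.2.1 r.2.2 * F r.2.1 :=
    (kq_meas θ (by fun_prop) (by fun_prop) (by fun_prop)).mul (hFm.comp (by fun_prop))
  have mj3 : Measurable fun r : E 2 × (E 2 × E 2) => kq θ r.1 r.2.1 r.2.2 * F (r.2.2 + r.1) :=
    (kq_meas θ (by fun_prop) (by fun_prop) (by fun_prop)).mul (hFm.comp (by fun_prop))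
  have hA : ENNReal.ofReal (2 * C) * ENNReal.ofReal (T * (T ^ 2) ^ (-θ)) ≠ ⊤ :=
    ENNReal.mul_ne_top ENNReal.ofReal_ne_top ENNReal.ofReal_ne_top
  calc _ ≤ ∫⁻ h : E 2, ∫⁻ p : E 2 × E 2,
        ENNReal.ofReal (2 * C) * ENNReal.ofReal (T * (T ^ 2) ^ (-θ)) *
        (((kq θ h p.1 p.2 * F (p.1 + h)) + (kq θ h p.1 p.2 * F p.1)) +
          ((kq θ h p.1 p.2 * F (p.2 + h)) + (kq θ h p.1 p.2 * F p.2))) :=
        lintegral_mono fun h => lintegral_mono fun p => hpt h p
    _ = ENNReal.ofReal (2 * C) * ENNReal.ofReal (T * (T ^ 2) ^ (-θ)) * ∫⁻ h : E 2,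
        (((∫⁻ p : E 2 × E 2, kq θ h p.1 p.2 * F (p.1 + h)) +
          (∫⁻ p : E 2 × E 2, kq θ h p.1 p.2 * F p.1)) +
          ((∫⁻ p : E 2 × E 2, kq θ h p.1 p.2 * F (p.2 + h)) +
          (∫⁻ p : E 2 × E 2, kq θ h p.1 p.2 * F p.2))) := by
        rw [← lintegral_const_mul' _ _ hA]
        apply lintegral_congr
        intro h
        rw [lintegral_const_mul' _ _ hA, lint4 _ _ _ _ _ (mk1 h) (mk2 h) (mk3 h)]
    _ = ENNReal.ofReal (2 * C) * ENNReal.ofReal (T * (T ^ 2) ^ (-θ)) *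
        (((∫⁻ z, F z * IV θ z) + ∫⁻ z, F z * IV θ z) +
          ((∫⁻ z, F z * IV θ z) + ∫⁻ z, F z * IV θ z)) := by
        congr 1
        have n1 := mj1.lintegral_prod_right' (ν := (volume : Measure (E 2 × E 2)))
        have n2 := mj2.lintegral_prod_right' (ν := (volume : Measure (E 2 × E 2)))
        have n3 := mj3.lintegral_prod_right' (ν := (volume : Measure (E 2 × E 2)))
        rw [lint4 _ _ _ _ _ n1 n2 n3]
        rw [tzh θ F hFm (fun p => p.1) measurable_fst (fun p h => rfl),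
          tzh θ F hFm (fun p => p.2) measurable_snd (fun p h => rfl), tz1 θ F hFm, tz2 θ F hFm]
    _ ≤ ENNReal.ofReal (2 * C) * ENNReal.ofReal (T * (T ^ 2) ^ (-θ)) *
        (4 * (C' * ∫⁻ z, F z * wz z)) := by
        have h5 : ∫⁻ z, F z * IV θ z ≤ C' * ∫⁻ z, F z * wz z := by
          rw [← lintegral_const_mul' _ _ hC'.ne]
          apply lintegral_mono
          intro z
          simp only
          calc F z * IV θ z ≤ F z * (C' * wz z) := mul_le_mul' le_rfl (hIV z)
            _ = _ := by ring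
        refine mul_le_mul' le_rfl ?_
        calc _ = 4 * ∫⁻ z, F z * IV θ z := by ring
          _ ≤ _ := mul_le_mul' le_rfl h5
    _ = _ := by ring

/-- **The averaged fourth moment.** -/
theorem m4w {a b : ℝ} (ha : 0 < a) (hab : a ≤ b) (hb : b < 1) (m : ℕ) {e : ℝ} (he : 0 < e) :
    ∃ C : ℝ≥0∞, C < ⊤ ∧ ∀ T : ℝ, 1 ≤ T → ∀ (M : ℝ) (f : E 2 → ℂ), DS M f →
      ∫⁻ σ in Icc a b, DM m T (fun _ => σ) f ≤
        C * ENNReal.ofReal (T ^ (-1 + e)) * ∫⁻ z, ‖f z‖ₑ ^ 4 * wz z := by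
  obtain ⟨e', he'⟩ : ∃ x : ℝ, x = min e (2 / 3) := ⟨_, rfl⟩
  have he0 : 0 < e' := by rw [he']; exact lt_min he (by norm_num)
  have he1 : e' ≤ 2 / 3 := by rw [he']; exact min_le_right _ _
  have hee : e' ≤ e := by rw [he']; exact min_le_left _ _
  obtain ⟨θ, hθ⟩ : ∃ x : ℝ, x = 1 - e' / 2 := ⟨_, rfl⟩
  have hθ0 : 2 / 3 ≤ θ := by rw [hθ]; linarith
  have hθ1 : θ < 1 := by rw [hθ]; linarith
  obtain ⟨C, hC, hmain⟩ := four_bdw (a := a / 2) (b := (1 + b) / 2) (by linarith) (by linarith)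
    (by linarith) m hθ0 hθ1
  refine ⟨ENNReal.ofReal (Real.exp 2) * ENNReal.ofReal ((a / 2) * ((1 - b) / 2))⁻¹ * (2 * C),
    ENNReal.mul_lt_top (ENNReal.mul_lt_top ENNReal.ofReal_lt_top ENNReal.ofReal_lt_top)
      (ENNReal.mul_lt_top (by norm_num) hC), fun T hT M f hf => ?_⟩
  have hT0 : 0 < T := by linarith
  refine (red ha hb m hT0 hf.meas _ (fun ε hε => hmain T hT0 ε hε M f hf)).trans ?_
  have e1 : ENNReal.ofReal (T * (T ^ 2) ^ (-θ)) ≤ ENNReal.ofReal (T ^ (-1 + e)) := by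
    apply ENNReal.ofReal_le_ofReal
    rw [pow_aux hT0 θ]
    apply Real.rpow_le_rpow_of_exponent_le hT
    rw [hθ]
    linarith
  calc _ ≤ ENNReal.ofReal (Real.exp 2) * ENNReal.ofReal ((a / 2) * ((1 - b) / 2))⁻¹ *
        (2 * (C * ENNReal.ofReal (T ^ (-1 + e)) * ∫⁻ z, ‖f z‖ₑ ^ 4 * wz z)) :=
        mul_le_mul' le_rfl (mul_le_mul' le_rfl (mul_le_mul' (mul_le_mul' le_rfl e1) le_rfl))
    _ = _ := by ring

end Pool.Agent.R245.OD
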