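import Mathlib
import Pool.Agent.R245.OD.Wt2
import Pool.Agent.R245.OD.Tele
set_option autoImplicit false

/-! Dilations of the density. -/

namespace Pool.Agent.R245.OD

open MeasureTheory Set Complex Filter
open scoped ENNReal ComplexConjugate FourierTransform RealInnerProductSpace Topology
open Pool.Agent.W203.SP (ee pw gs DS DM)
open Pool.Agent.H153R4 (E BS ST cube cube_meas cube_vol plancherel)

/-- dilation of a function -/
noncomputable def dl (ν : ℝ) (f : E 2 → ℂ) (z : E 2) : ℂ := f (Real.exp ν • z)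

lemma dl_zero (f : E 2 → ℂ) : dl 0 f = f := by
  ext z
  simp [dl]

lemma dl_add (ν δ : ℝ) (f : E 2 → ℂ) : dl (ν + δ) f = dl ν (dl δ f) := by
  ext z
  unfold dl
  rw [smul_smul, Real.exp_add, mul_comm (Real.exp ν)]

lemma norm_exp_smul (ν : ℝ) (z : E 2) : ‖Real.exp ν • z‖ = Real.exp ν * ‖z‖ := by
  rw [norm_smul, Real.norm_of_nonneg (Real.exp_pos ν).le]

lemma norm_le_exp {ν : ℝ} (hν : 0 ≤ ν) (z : E 2) : ‖z‖ ≤ ‖Real.exp ν • z‖ := by
  rw [norm_exp_smul]
  have := Real.one_le_exp hν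
  have := norm_nonneg z
  nlinarith

lemma dl_meas (ν : ℝ) {f : E 2 → ℂ} (hf : Measurable f) : Measurable (dl ν f) :=
  hf.comp (measurable_const_smul _)

lemma dl_DS {ν M : ℝ} (hν : 0 ≤ ν) {f : E 2 → ℂ} (hf : DS M f) : DS M (dl ν f) :=
  ⟨dl_meas ν hf.meas, fun z => hf.bd _, fun z hz => hf.supp _ (lt_of_lt_of_le hz
    (norm_le_exp hν z))⟩

/-- the difference -/
noncomputable def gd (δ : ℝ) (f : E 2 → ℂ) (z : E 2) : ℂ := f z - dl δ f z

lemma gd_DS {δ M : ℝ} (hδ : 0 ≤ δ) {f : E 2 → ℂ} (hf : DS M f) : DS (2 * M) (gd δ f) := by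
  have h := dl_DS hδ hf
  refine ⟨hf.meas.sub h.meas, fun z => ?_, fun z hz => ?_⟩
  · unfold gd
    refine (norm_sub_le _ _).trans ?_
    have := hf.bd z
    have := h.bd z
    linarith
  · unfold gd
    rw [hf.supp z hz, h.supp z hz, sub_zero]

/-- scaling of integrals -/
lemma lint_smul (Φ : E 2 → ℝ≥0∞) (hΦ : Measurable Φ) {c : ℝ} (hc : 0 < c) :
    ∫⁻ x, Φ (c • x) = ENNReal.ofReal (c ^ 2)⁻¹ * ∫⁻ x, Φ x := by
  have h1 := lintegral_map (μ := (volume : Measure (E 2))) hΦ (measurable_const_smul c)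
  rw [Measure.map_addHaar_smul volume hc.ne', lintegral_smul_measure, smul_eq_mul,
    finrank_euclideanSpace_fin] at h1
  rw [← h1]
  congr 1
  rw [abs_of_nonneg (by positivity)]

lemma gs_dl (m : ℕ) (t σ ν : ℝ) (f : E 2 → ℂ) (z : E 2) :
    gs m t (fun _ => σ) (dl ν f) z =
      gs m t (fun _ => σ * Real.exp (-2 * ν)) f (Real.exp ν • z) := by
  rw [gs_const, gs_const]
  have e : f0 (‖Real.exp ν • z‖ ^ 2) (σ * Real.exp (-2 * ν)) = f0 (‖z‖ ^ 2) σ := by
    unfold f0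
    congr 2
    rw [norm_exp_smul, mul_pow, ← Real.exp_nat_mul]
    have : Real.exp (-2 * ν) * Real.exp ((2:ℕ) * ν) = 1 := by
      rw [← Real.exp_add]
      simp
    calc σ * Real.exp (-2 * ν) * (Real.exp ((2:ℕ) * ν) * ‖z‖ ^ 2)
        = σ * (Real.exp (-2 * ν) * Real.exp ((2:ℕ) * ν)) * ‖z‖ ^ 2 := by ring
      _ = _ := by rw [this, mul_one]
  rw [e]
  rfl

lemma F_dl (m : ℕ) (t σ ν : ℝ) (f : E 2 → ℂ) (x : E 2) :
    𝓕 (gs m t (fun _ => σ) (dl ν f)) x = ((Real.exp (-2 * ν) : ℝ) : ℂ) *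
      𝓕 (gs m t (fun _ => σ * Real.exp (-2 * ν)) f) (Real.exp (-ν) • x) := by
  rw [Real.fourier_eq, Real.fourier_eq]
  have h1 := Measure.integral_comp_smul (volume : Measure (E 2))
    (fun y => Real.fourierChar (-⟪y, Real.exp (-ν) • x⟫) •
      gs m t (fun _ => σ * Real.exp (-2 * ν)) f y) (Real.exp ν)
  have e1 : ∀ z : E 2, Real.fourierChar (-⟪z, x⟫) • gs m t (fun _ => σ) (dl ν f) z =
      Real.fourierChar (-⟪Real.exp ν • z, Real.exp (-ν) • x⟫) •
      gs m t (fun _ => σ * Real.exp (-2 * ν)) f (Real.exp ν • z) := by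
    intro z
    rw [gs_dl, real_inner_smul_left, real_inner_smul_right, ← mul_assoc, ← Real.exp_add,
      add_neg_cancel, Real.exp_zero, one_mul]
  simp only [e1]
  rw [h1, finrank_euclideanSpace_fin, Complex.real_smul]
  congr 2
  rw [abs_of_nonneg (by positivity), ← Real.exp_nat_mul, ← Real.exp_neg]
  congr 1
  push_cast
  ring

/-- the family of transforms -/
noncomputable def Pf (m : ℕ) (σ : ℝ) (g : E 2 → ℂ) (t : ℝ) (x : E 2) (ν : ℝ) : ℂ :=
  𝓕 (gs m t (fun _ => σ) (dl ν g)) x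

lemma comp_aux {H : ℝ → ℝ → E 2 → ℂ} (hH : Measurable fun r : (ℝ × ℝ) × E 2 => H r.1.1 r.1.2 r.2)
    (σ : ℝ) : Measurable fun r : ℝ × (ℝ × E 2) => ((Real.exp (-2 * r.1) : ℝ) : ℂ) *
      H r.2.1 (σ * Real.exp (-2 * r.1)) (Real.exp (-r.1) • r.2.2) := by
  have h1 : Measurable fun r : ℝ × (ℝ × E 2) => ((Real.exp (-2 * r.1) : ℝ) : ℂ) :=
    Complex.measurable_ofReal.comp (by fun_prop)
  have hmap : Measurable fun r : ℝ × (ℝ × E 2) =>
      (((r.2.1, σ * Real.exp (-2 * r.1)), Real.exp (-r.1) • r.2.2) : (ℝ × ℝ) × E 2) := by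
    refine Measurable.prodMk (Measurable.prodMk (by fun_prop) (by fun_prop)) ?_
    have a1 : Measurable fun r : ℝ × (ℝ × E 2) => Real.exp (-r.1) := by fun_prop
    have a2 : Measurable fun r : ℝ × (ℝ × E 2) => r.2.2 := by fun_prop
    exact a1.smul a2
  exact h1.mul (hH.comp hmap)

lemma meas_congr {α β : Type*} [MeasurableSpace α] [MeasurableSpace β] {f g : α → β}
    (hf : Measurable f) (h : ∀ x, f x = g x) : Measurable g := by
  have : f = g := funext h
  rwa [this] at hf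

lemma Pf_meas (m : ℕ) (σ : ℝ) {g : E 2 → ℂ} (hg : Measurable g) :
    Measurable fun r : ℝ × (ℝ × E 2) => Pf m σ g r.2.1 r.2.2 r.1 := by
  have h := comp_aux (H := fun t s x => 𝓕 (gs m t (fun _ => s) g) x) (F_meas m hg) σ
  exact meas_congr h fun r => (F_dl m r.2.1 σ r.1 g r.2.2).symm

lemma Fo_dl {m : ℕ} {σ ν t : ℝ} (hν : 0 ≤ ν) {f : E 2 → ℂ} (hf : Measurable f) :
    ∫⁻ x, ‖Pf m σ f t x ν‖ₑ ^ 4 ≤ Fo m f t (σ * Real.exp (-2 * ν)) := by
  unfold Pf Fo
  simp only [F_dl]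
  set H : E 2 → ℂ := 𝓕 (gs m t (fun _ => σ * Real.exp (-2 * ν)) f) with hH
  have hHm : Measurable H := (F_meas m hf).comp
    (f := fun x : E 2 => (((t, σ * Real.exp (-2 * ν)), x) : (ℝ × ℝ) × E 2)) (by fun_prop)
  have e1 : ∀ x : E 2, ‖((Real.exp (-2 * ν) : ℝ) : ℂ) * H (Real.exp (-ν) • x)‖ₑ ^ 4 =
      ENNReal.ofReal (Real.exp (-2 * ν) ^ 4) * ‖H (Real.exp (-ν) • x)‖ₑ ^ 4 := by
    intro x
    rw [enorm_mul, mul_pow, ENNReal.ofReal_pow (Real.exp_pos _).le, ← ofReal_norm,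
      Complex.norm_real, Real.norm_of_nonneg (Real.exp_pos _).le]
  simp only [e1]
  rw [lintegral_const_mul' _ _ ENNReal.ofReal_ne_top,
    lint_smul (fun x => ‖H x‖ₑ ^ 4) (hHm.enorm.pow_const 4) (Real.exp_pos _), ← mul_assoc,
    ← ENNReal.ofReal_mul (by positivity)]
  calc _ ≤ 1 * ∫⁻ x, ‖H x‖ₑ ^ 4 := by
        gcongr
        rw [← ENNReal.ofReal_one]
        apply ENNReal.ofReal_le_ofReal
        rw [← Real.exp_nat_mul, ← Real.exp_nat_mul, ← Real.exp_neg, ← Real.exp_add,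
          Real.exp_le_one_iff]
        push_cast
        linarith
    _ = _ := one_mul _

lemma gs_two {m : ℕ} {σ M t : ℝ} (h0 : 0 < σ) (h1 : σ < 1) {f : E 2 → ℂ} (hf : DS M f) :
    ∫⁻ x, ‖𝓕 (gs m t (fun _ => σ) f) x‖ₑ ^ 2 ≤
      ENNReal.ofReal ((kb σ ^ m)⁻¹ ^ 2) * ∫⁻ z, ‖f z‖ₑ ^ 2 := by
  have hk := kb_pos h1
  have h := gs_BS h0 h1 m t (σ := σ) ⟨le_rfl, le_rfl⟩ hf
  rw [plancherel _ h.int (h.memLp 2), ← lintegral_const_mul' _ _ ENNReal.ofReal_ne_top]
  apply lintegral_mono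
  intro z
  simp only
  rw [ENNReal.ofReal_pow (by positivity), ← mul_pow]
  apply pow_le_pow_left'
  rw [← ofReal_norm, ← ofReal_norm, ← ENNReal.ofReal_mul (by positivity)]
  apply ENNReal.ofReal_le_ofReal
  rcases lt_or_ge 1 ‖z‖ with h2 | h2
  · rw [gs_const, hf.supp z h2]
    simp
  · rw [gs_const, norm_mul, norm_mul, ee_norm, one_mul, Complex.norm_real, Real.norm_eq_abs]
    obtain ⟨q1, q2⟩ := sq_mem (norm_nonneg z) h2
    have hl := f0_low h1 h0.le le_rfl q1 q2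
    have hp : 0 < f0 (‖z‖ ^ 2) σ := lt_of_lt_of_le hk hl
    rw [abs_of_pos (by positivity), one_div]
    gcongr

lemma dl_two {ν : ℝ} (hν : 0 ≤ ν) {f : E 2 → ℂ} (hf : Measurable f) :
    ∫⁻ z, ‖dl ν f z‖ₑ ^ 2 ≤ ∫⁻ z, ‖f z‖ₑ ^ 2 := by
  unfold dl
  rw [lint_smul (fun z => ‖f z‖ₑ ^ 2) (hf.enorm.pow_const 2) (Real.exp_pos _)]
  calc _ ≤ 1 * ∫⁻ x, ‖f x‖ₑ ^ 2 := by
        gcongr
        rw [← ENNReal.ofReal_one]
        apply ENNReal.ofReal_le_ofReal
        rw [← Real.exp_nat_mul, ← Real.exp_neg, Real.exp_le_one_iff]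
        push_cast
        linarith
    _ = _ := one_mul _

lemma Pf_sub {m : ℕ} {σ M : ℝ} (h0 : 0 < σ) (h1 : σ < 1) {f : E 2 → ℂ} (hf : DS M f) {ν δ : ℝ}
    (hν : 0 ≤ ν) (hδ : 0 ≤ δ) (t : ℝ) (x : E 2) :
    Pf m σ f t x ν - Pf m σ f t x (ν + δ) = Pf m σ (gd δ f) t x ν := by
  unfold Pf
  have a1 := gs_BS h0 h1 m t (σ := σ) ⟨le_rfl, le_rfl⟩ (dl_DS hν hf)
  have a2 := gs_BS h0 h1 m t (σ := σ) ⟨le_rfl, le_rfl⟩ (dl_DS (add_nonneg hν hδ) hf)
  have i1 := (Real.fourierIntegral_convergent_iff (μ := volume) x).2 a1.int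
  have i2 := (Real.fourierIntegral_convergent_iff (μ := volume) x).2 a2.int
  rw [Real.fourier_eq, Real.fourier_eq, Real.fourier_eq, ← integral_sub i1 i2]
  apply integral_congr_ae
  refine ae_of_all _ fun z => ?_
  simp only
  rw [← smul_sub]
  congr 1
  rw [gs_const, gs_const, gs_const, ← mul_sub]
  congr 1
  unfold gd
  rw [dl_add]
  rfl

/-- the integrand of the family is continuous in the dilation at zero -/
lemma Pf_cont {m : ℕ} {σ M : ℝ} (h0 : 0 < σ) (h1 : σ < 1) {f : E 2 → ℂ} (hf : DS M f)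
    (t : ℝ) (x : E 2) : ContinuousWithinAt (Pf m σ f t x) (Ici 0) 0 := by
  have e0 : Pf m σ f t x = fun ν => ((Real.exp (-2 * ν) : ℝ) : ℂ) *
      𝓕 (gs m t (fun _ => σ * Real.exp (-2 * ν)) f) (Real.exp (-ν) • x) := by
    ext ν
    exact F_dl m t σ ν f x
  rw [e0]
  apply ContinuousWithinAt.mul
  · exact (Complex.continuous_ofReal.comp (by fun_prop)).continuousWithinAt
  simp only [Real.fourier_eq]
  have hlow : ∀ ν ∈ Icc (0:ℝ) 1, σ * Real.exp (-2 * ν) ∈ Icc (σ * Real.exp (-2)) σ := by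
    intro ν hν
    constructor
    · apply mul_le_mul_of_nonneg_left _ h0.le
      exact Real.exp_le_exp.2 (by linarith [hν.2])
    · calc σ * Real.exp (-2 * ν) ≤ σ * 1 := by
            gcongr
            exact Real.exp_le_one_iff.2 (by linarith [hν.1])
        _ = σ := mul_one _
  have ha : 0 < σ * Real.exp (-2) := by positivity
  have hmem : ∀ᶠ ν in 𝓝[Ici 0] (0:ℝ), ν ∈ Icc (0:ℝ) 1 := by
    filter_upwards [self_mem_nhdsWithin, nhdsWithin_le_nhds (Iio_mem_nhds one_pos)] with ν g1 g2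
    exact ⟨g1, le_of_lt g2⟩
  apply tendsto_integral_filter_of_dominated_convergence
    ((cube 2).indicator fun _ => (kb σ ^ m)⁻¹ * M)
  · filter_upwards [hmem] with ν hν
    exact ((Real.fourierIntegral_convergent_iff (μ := volume) _).2
      (gs_BS ha h1 m t (hlow ν hν) hf).int).aestronglyMeasurable
  · filter_upwards [hmem] with ν hν
    refine ae_of_all _ fun z => ?_
    have hBS := gs_BS ha h1 m t (hlow ν hν) hf
    rw [Circle.norm_smul]
    by_cases hz : z ∈ cube 2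
    · rw [indicator_of_mem hz]
      exact hBS.bd z
    · rw [indicator_of_notMem hz, hBS.supp z hz, norm_zero]
  · rw [integrable_indicator_iff (cube_meas 2)]
    exact integrableOn_const (cube_vol 2).ne
  · refine ae_of_all _ fun z => ?_
    have hc : ContinuousAt (fun ν : ℝ => Real.fourierChar (-⟪z, Real.exp (-ν) • x⟫) •
        gs m t (fun _ => σ * Real.exp (-2 * ν)) f z) 0 := by
      simp only [gs_const]
      rcases lt_or_ge 1 ‖z‖ with h2 | h2
      · rw [hf.supp z h2]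
        simp only [mul_zero, smul_zero]
        exact continuousAt_const
      · obtain ⟨q1, q2⟩ := sq_mem (norm_nonneg z) h2
        have hf0 : Continuous fun ν : ℝ => f0 (‖z‖ ^ 2) (σ * Real.exp (-2 * ν)) := by
          unfold f0
          fun_prop
        have hne : f0 (‖z‖ ^ 2) (σ * Real.exp (-2 * 0)) ^ m ≠ 0 := by
          rw [mul_zero, Real.exp_zero, mul_one]
          have hl := f0_low h1 h0.le le_rfl q1 q2
          have := lt_of_lt_of_le (kb_pos h1) hl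
          positivity
        have c1 : ContinuousAt (fun ν : ℝ =>
            Real.fourierChar (-⟪z, Real.exp (-ν) • x⟫)) 0 := by
          have : Continuous fun ν : ℝ => Real.fourierChar (-⟪z, Real.exp (-ν) • x⟫) := by
            fun_prop
          exact this.continuousAt
        have c2 : ContinuousAt (fun ν : ℝ =>
            ee (t * f0 (‖z‖ ^ 2) (σ * Real.exp (-2 * ν)))) 0 :=
          (ee_cont.comp (hf0.const_mul t)).continuousAt
        have c3 : ContinuousAt (fun ν : ℝ =>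
            ((1 / f0 (‖z‖ ^ 2) (σ * Real.exp (-2 * ν)) ^ m : ℝ) : ℂ)) 0 :=
          (Complex.continuous_ofReal.continuousAt).comp
            (continuousAt_const.div ((hf0.pow m).continuousAt) hne)
        exact c1.smul ((c2.mul c3).mul continuousAt_const)
    exact hc.continuousWithinAt

lemma Pf_int {m : ℕ} {σ M : ℝ} (h0 : 0 < σ) (h1 : σ < 1) {f : E 2 → ℂ} (hf : DS M f)
    (t : ℝ) (x : E 2) : IntervalIntegrable (Pf m σ f t x) volume 0 1 := by
  rw [intervalIntegrable_iff_integrableOn_Icc_of_le zero_le_one]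
  have hm : Measurable (Pf m σ f t x) := (Pf_meas m σ hf.meas).comp
    (f := fun ν : ℝ => ((ν, (t, x)) : ℝ × (ℝ × E 2))) (by fun_prop)
  refine Measure.integrableOn_of_bounded (M := (volume (cube 2)).toReal * ((kb σ ^ m)⁻¹ * M))
    (by rw [Real.volume_Icc]; exact ENNReal.ofReal_ne_top) hm.aestronglyMeasurable ?_
  filter_upwards [ae_restrict_mem measurableSet_Icc] with ν hν
  exact (gs_BS h0 h1 m t (σ := σ) ⟨le_rfl, le_rfl⟩ (dl_DS hν.1 hf)).fbd x

end Pool.Agent.R245.OD
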