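import Mathlib
import Pool.Agent.R245.OD.Dl
set_option autoImplicit false

/-! The moments at one dilation, from the averaged fourth moment and the regularity along the
dilations. -/

namespace Pool.Agent.R245.OD

open MeasureTheory Set Complex Filter
open scoped ENNReal ComplexConjugate FourierTransform RealInnerProductSpace Topology
open Pool.Agent.W203.SP (ee pw gs DS DM NQ)
open Pool.Agent.H153R4 (E BS ST ST_meas ST_vol cube cube_meas cube_vol plancherel interp)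

lemma sum_pow (q c : ℝ) (hq : 1 < q) (hc : 0 < c) : ∃ C : ℝ≥0∞, C < ⊤ ∧ ∀ x : ℕ → ℝ≥0∞,
    (∑' k, x k) ^ q ≤ C * ∑' k, ENNReal.ofReal (((2:ℝ) ^ k) ^ c) * x k ^ q := by
  set p := q / (q - 1) with hp
  have hq0 : 0 < q := by linarith
  have hp0 : 0 < p := div_pos hq0 (by linarith)
  have hpq : p.HolderConjugate q := (Real.HolderConjugate.conjExponent hq).symm
  set r : ℝ := (2:ℝ) ^ (-(c / q)) with hr
  have hr0 : 0 < r := by positivity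
  set ρ : ℝ := r ^ p with hρ
  have hρ1 : ρ < 1 := by
    rw [hρ, hr, ← Real.rpow_mul (by norm_num)]
    apply Real.rpow_lt_one_of_one_lt_of_neg (by norm_num)
    have : 0 < c / q := by positivity
    nlinarith
  refine ⟨((1 - ENNReal.ofReal ρ)⁻¹ ^ (1 / p)) ^ q, ?_, fun x => ?_⟩
  · refine (ENNReal.rpow_ne_top_of_nonneg hq0.le (ENNReal.rpow_ne_top_of_nonneg
      (by positivity) ?_)).lt_top
    rw [ENNReal.inv_ne_top]
    have : ENNReal.ofReal ρ < 1 := by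
      rw [← ENNReal.ofReal_one, ENNReal.ofReal_lt_ofReal_iff one_pos]
      exact hρ1
    exact (tsub_pos_of_lt this).ne'
  have hH := ENNReal.lintegral_mul_le_Lp_mul_Lq (Measure.count : Measure ℕ) hpq
    (f := fun k => ENNReal.ofReal (r ^ k)) (g := fun k => (ENNReal.ofReal (r ^ k))⁻¹ * x k)
    (Measurable.of_discrete).aemeasurable (Measurable.of_discrete).aemeasurable
  rw [lintegral_count, lintegral_count, lintegral_count] at hH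
  have e1 : ∀ k : ℕ, ((fun k : ℕ => ENNReal.ofReal (r ^ k)) *
      (fun k : ℕ => (ENNReal.ofReal (r ^ k))⁻¹ * x k)) k = x k := by
    intro k
    simp only [Pi.mul_apply]
    rw [← mul_assoc, ENNReal.mul_inv_cancel, one_mul]
    · exact (ENNReal.ofReal_pos.2 (by positivity)).ne'
    · exact ENNReal.ofReal_ne_top
  simp only [e1] at hH
  have e2 : ∀ k : ℕ, ENNReal.ofReal (r ^ k) ^ p = ENNReal.ofReal ρ ^ k := by
    intro k
    rw [ENNReal.ofReal_rpow_of_pos (by positivity), ← ENNReal.ofReal_pow (by positivity), hρ,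
      ← Real.rpow_natCast, ← Real.rpow_natCast, ← Real.rpow_mul hr0.le, ← Real.rpow_mul hr0.le]
    congr 2
    ring
  have e3 : ∀ k : ℕ, ((ENNReal.ofReal (r ^ k))⁻¹ * x k) ^ q =
      ENNReal.ofReal (((2:ℝ) ^ k) ^ c) * x k ^ q := by
    intro k
    rw [ENNReal.mul_rpow_of_nonneg _ _ hq0.le, ← ENNReal.ofReal_inv_of_pos (by positivity),
      ENNReal.ofReal_rpow_of_pos (by positivity)]
    congr 2
    rw [hr, ← Real.rpow_natCast, ← Real.rpow_natCast, ← Real.rpow_mul (by norm_num),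
      ← Real.rpow_neg (by norm_num), ← Real.rpow_mul (by norm_num), ← Real.rpow_mul (by norm_num)]
    congr 1
    field_simp
  simp only [e2, e3, ENNReal.tsum_geometric] at hH
  calc (∑' k, x k) ^ q ≤ ((1 - ENNReal.ofReal ρ)⁻¹ ^ (1 / p) *
        (∑' k, ENNReal.ofReal (((2:ℝ) ^ k) ^ c) * x k ^ q) ^ (1 / q)) ^ q :=
        ENNReal.rpow_le_rpow hH hq0.le
    _ = _ := by
        rw [ENNReal.mul_rpow_of_nonneg _ _ hq0.le, ← ENNReal.rpow_mul _ (1 / q) q,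
          one_div_mul_cancel hq0.ne', ENNReal.rpow_one]

/-- Jensen's inequality -/
lemma jen {X : Type*} [MeasurableSpace X] (μ : Measure X) (u : X → ℝ≥0∞) (hu : Measurable u)
    {q : ℝ} (hq : 1 < q) : (∫⁻ x, u x ∂μ) ^ q ≤ (μ univ) ^ (q - 1) * ∫⁻ x, u x ^ q ∂μ := by
  have hq0 : 0 < q := by linarith
  have hpq : (q / (q - 1)).HolderConjugate q := (Real.HolderConjugate.conjExponent hq).symm
  have hH := ENNReal.lintegral_mul_le_Lp_mul_Lq μ hpq (f := fun _ => 1) (g := u)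
    aemeasurable_const hu.aemeasurable
  simp only [Pi.mul_apply, one_mul, ENNReal.one_rpow, lintegral_const] at hH
  have h2 := ENNReal.rpow_le_rpow hH hq0.le
  rw [ENNReal.mul_rpow_of_nonneg _ _ hq0.le, ← ENNReal.rpow_mul, ← ENNReal.rpow_mul,
    one_div_mul_cancel hq0.ne', ENNReal.rpow_one] at h2
  have e1 : 1 / (q / (q - 1)) * q = q - 1 := by
    have : q - 1 ≠ 0 := by linarith
    field_simp
  rw [e1] at h2
  exact h2

lemma two_pow_pos' (k : ℕ) : ((2:ℝ≥0∞) ^ (k + 1)) ≠ 0 := pow_ne_zero _ two_ne_zero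
lemma two_pow_top (k : ℕ) : ((2:ℝ≥0∞) ^ (k + 1)) ≠ ⊤ := ENNReal.pow_ne_top (by norm_num)

lemma vol_k (k : ℕ) : volume (Icc (0:ℝ) (1 / 2 ^ (k + 1))) = (2 ^ (k + 1))⁻¹ := by
  rw [Real.volume_Icc, sub_zero, one_div, ENNReal.ofReal_inv_of_pos (by positivity),
    ENNReal.ofReal_pow (by norm_num)]
  norm_num

lemma jen_k (k : ℕ) (u : ℝ → ℝ≥0∞) (hu : Measurable u) {q : ℝ} (hq : 1 < q) :
    (2 ^ (k + 1) * ∫⁻ ν in Icc (0:ℝ) (1 / 2 ^ (k + 1)), u ν) ^ q ≤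
      2 ^ (k + 1) * ∫⁻ ν in Icc (0:ℝ) (1 / 2 ^ (k + 1)), u ν ^ q := by
  have hq0 : 0 < q := by linarith
  have h := jen (volume.restrict (Icc (0:ℝ) (1 / 2 ^ (k + 1)))) u hu hq
  rw [Measure.restrict_apply_univ, vol_k] at h
  rw [ENNReal.mul_rpow_of_nonneg _ _ hq0.le]
  refine (mul_le_mul' le_rfl h).trans (le_of_eq ?_)
  rw [← mul_assoc]
  congr 1
  set A : ℝ≥0∞ := 2 ^ (k + 1) with hA
  have hA0 : A ≠ 0 := two_pow_pos' k
  have hAt : A ≠ ⊤ := two_pow_top k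
  rw [ENNReal.inv_rpow, ← ENNReal.rpow_neg, ← ENNReal.rpow_add _ _ hA0 hAt]
  have : q + -(q - 1) = 1 := by ring
  rw [this, ENNReal.rpow_one]

/-- the sequence of differences -/
noncomputable def gk (f : E 2 → ℂ) : ℕ → E 2 → ℂ
  | 0 => f
  | (k + 1) => gd (1 / 2 ^ (k + 2)) f

lemma gk_DS {M : ℝ} {f : E 2 → ℂ} (hf : DS M f) (k : ℕ) : DS (2 * M) (gk f k) := by
  cases k with
  | zero =>
    refine ⟨hf.meas, fun z => ?_, hf.supp⟩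
    have h1 := hf.bd z
    have h2 : 0 ≤ M := (norm_nonneg _).trans h1
    change ‖f z‖ ≤ 2 * M
    linarith
  | succ k => exact gd_DS (dk_pos _).le hf

lemma pt_bd {m : ℕ} {σ M : ℝ} (h0 : 0 < σ) (h1 : σ < 1) {f : E 2 → ℂ} (hf : DS M f)
    (t : ℝ) (x : E 2) : ‖𝓕 (gs m t (fun _ => σ) f) x‖ₑ ≤
      ∑' k : ℕ, 2 ^ (k + 1) * ∫⁻ ν in Icc (0:ℝ) (1 / 2 ^ (k + 1)), ‖Pf m σ (gk f k) t x ν‖ₑ := by
  have h := tele (Pf m σ f t x) (Pf_int h0 h1 hf t x) (Pf_cont h0 h1 hf t x)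
  have e0 : Pf m σ f t x 0 = 𝓕 (gs m t (fun _ => σ) f) x := by
    unfold Pf
    rw [dl_zero]
  rw [e0] at h
  refine h.trans ?_
  rw [tsum_eq_zero_add' (f := fun k : ℕ => 2 ^ (k + 1) *
    ∫⁻ ν in Icc (0:ℝ) (1 / 2 ^ (k + 1)), ‖Pf m σ (gk f k) t x ν‖ₑ) ENNReal.summable]
  refine add_le_add ?_ (ENNReal.tsum_le_tsum fun k => ?_)
  · rw [zero_add, pow_one, pow_one]
    rfl
  · have e2 : ∫⁻ ν in Icc (0:ℝ) (1 / 2 ^ (k + 2)), ‖Pf m σ f t x ν -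
        Pf m σ f t x (ν + 1 / 2 ^ (k + 2))‖ₑ =
        ∫⁻ ν in Icc (0:ℝ) (1 / 2 ^ (k + 1 + 1)), ‖Pf m σ (gk f (k + 1)) t x ν‖ₑ := by
      apply setLIntegral_congr_fun measurableSet_Icc
      intro ν hν
      simp only
      rw [Pf_sub h0 h1 hf hν.1 (dk_pos _).le]
      rfl
    rw [e2, pow_succ (2:ℝ≥0∞) (k + 1)]
    refine mul_le_mul' ?_ le_rfl
    calc (2:ℝ≥0∞) ^ (k + 1) = 2 ^ (k + 1) * 1 := (mul_one _).symm
      _ ≤ 2 ^ (k + 1) * 2 := mul_le_mul' le_rfl (by norm_num)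

/-- the averaged moments of one difference -/
noncomputable def Y (m : ℕ) (σ : ℝ) (g : E 2 → ℂ) (k : ℕ) (q : ℝ) (S : Set ℝ) : ℝ≥0∞ :=
  ∫⁻ ν in Icc (0:ℝ) (1 / 2 ^ (k + 1)), ∫⁻ t in S, ∫⁻ x, ‖Pf m σ g t x ν‖ₑ ^ q

lemma Y_prod (m : ℕ) (σ : ℝ) {g : E 2 → ℂ} (hg : Measurable g) (k : ℕ) (q : ℝ) (S : Set ℝ) :
    Y m σ g k q S = ∫⁻ r : ℝ × (ℝ × E 2), ‖Pf m σ g r.2.1 r.2.2 r.1‖ₑ ^ q
      ∂((volume.restrict (Icc (0:ℝ) (1 / 2 ^ (k + 1)))).prod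
        ((volume.restrict S).prod volume)) := by
  have h1 := (Pf_meas m σ hg).enorm.pow_const q
  rw [lintegral_prod _ h1.aemeasurable]
  unfold Y
  apply lintegral_congr
  intro ν
  rw [lintegral_prod]
  exact (h1.comp measurable_prodMk_left).aemeasurable

/-- the moments are controlled by the averaged moments of the differences -/
lemma NQ_sum {q c : ℝ} (hq : 1 < q) (hc : 0 < c) : ∃ C : ℝ≥0∞, C < ⊤ ∧
    ∀ (m : ℕ) (σ : ℝ), 0 < σ → σ < 1 → ∀ (M : ℝ) (f : E 2 → ℂ), DS M f → ∀ S : Set ℝ,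
      NQ m q S (fun _ => σ) f ≤ C * ∑' k : ℕ, ENNReal.ofReal (((2:ℝ) ^ k) ^ c) *
        (2 ^ (k + 1) * Y m σ (gk f k) k q S) := by
  obtain ⟨C, hC, hsum⟩ := sum_pow q c hq hc
  refine ⟨C, hC, fun m σ h0 h1 M f hf S => ?_⟩
  have hq0 : 0 < q := by linarith
  have hgm : ∀ k, Measurable (gk f k) := fun k => (gk_DS hf k).meas
  have hm3 : ∀ k, Measurable fun r : (ℝ × E 2) × ℝ => ‖Pf m σ (gk f k) r.1.1 r.1.2 r.2‖ₑ ^ q :=
    fun k => ((Pf_meas m σ (hgm k)).comp (f := fun r : (ℝ × E 2) × ℝ =>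
      ((r.2, r.1) : ℝ × (ℝ × E 2))) (by fun_prop)).enorm.pow_const q
  have hm2 : ∀ k, Measurable fun r : ℝ × E 2 => ∫⁻ ν in Icc (0:ℝ) (1 / 2 ^ (k + 1)),
      ‖Pf m σ (gk f k) r.1 r.2 ν‖ₑ ^ q := fun k => (hm3 k).lintegral_prod_right'
  have hpt : ∀ (t : ℝ) (x : E 2), ‖𝓕 (gs m t (fun _ => σ) f) x‖ₑ ^ q ≤
      C * ∑' k : ℕ, ENNReal.ofReal (((2:ℝ) ^ k) ^ c) * (2 ^ (k + 1) *
        ∫⁻ ν in Icc (0:ℝ) (1 / 2 ^ (k + 1)), ‖Pf m σ (gk f k) t x ν‖ₑ ^ q) := by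
    intro t x
    refine (ENNReal.rpow_le_rpow (pt_bd h0 h1 hf t x) hq0.le).trans ((hsum _).trans ?_)
    refine mul_le_mul' le_rfl (ENNReal.tsum_le_tsum fun k => mul_le_mul' le_rfl ?_)
    refine jen_k k _ ?_ hq
    exact ((Pf_meas m σ (hgm k)).comp (f := fun ν : ℝ => ((ν, (t, x)) : ℝ × (ℝ × E 2)))
      (by fun_prop)).enorm
  have hSm : ∀ k (t : ℝ), Measurable fun x : E 2 => ∫⁻ ν in Icc (0:ℝ) (1 / 2 ^ (k + 1)),
      ‖Pf m σ (gk f k) t x ν‖ₑ ^ q := fun k t =>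
    (hm2 k).comp (f := fun x : E 2 => (t, x)) (by fun_prop)
  have hk2 : ∀ k : ℕ, ENNReal.ofReal (((2:ℝ) ^ k) ^ c) * 2 ^ (k + 1) ≠ ⊤ := fun k =>
    ENNReal.mul_ne_top ENNReal.ofReal_ne_top (two_pow_top k)
  unfold NQ
  calc ∫⁻ t in S, ∫⁻ x, ‖𝓕 (gs m t (fun _ => σ) f) x‖ₑ ^ q
      ≤ ∫⁻ t in S, ∫⁻ x, C * ∑' k : ℕ, (ENNReal.ofReal (((2:ℝ) ^ k) ^ c) * 2 ^ (k + 1)) *
        ∫⁻ ν in Icc (0:ℝ) (1 / 2 ^ (k + 1)), ‖Pf m σ (gk f k) t x ν‖ₑ ^ q := by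
        refine lintegral_mono fun t => lintegral_mono fun x => ?_
        simp only [mul_assoc]
        exact hpt t x
    _ = C * ∑' k : ℕ, (ENNReal.ofReal (((2:ℝ) ^ k) ^ c) * 2 ^ (k + 1)) *
        ∫⁻ t in S, ∫⁻ x, ∫⁻ ν in Icc (0:ℝ) (1 / 2 ^ (k + 1)), ‖Pf m σ (gk f k) t x ν‖ₑ ^ q := by
        simp only [lintegral_const_mul' _ _ hC.ne]
        congr 1
        have e1 : ∀ t : ℝ, ∫⁻ x, ∑' k : ℕ, (ENNReal.ofReal (((2:ℝ) ^ k) ^ c) * 2 ^ (k + 1)) *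
            (∫⁻ ν in Icc (0:ℝ) (1 / 2 ^ (k + 1)), ‖Pf m σ (gk f k) t x ν‖ₑ ^ q) =
            ∑' k : ℕ, (ENNReal.ofReal (((2:ℝ) ^ k) ^ c) * 2 ^ (k + 1)) *
            ∫⁻ x, (∫⁻ ν in Icc (0:ℝ) (1 / 2 ^ (k + 1)), ‖Pf m σ (gk f k) t x ν‖ₑ ^ q) := by
          intro t
          rw [lintegral_tsum fun k => ((hSm k t).const_mul _).aemeasurable]
          exact tsum_congr fun k => lintegral_const_mul' _ _ (hk2 k)
        simp only [e1]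
        rw [lintegral_tsum fun k => ((hm2 k).lintegral_prod_right'.const_mul _).aemeasurable]
        exact tsum_congr fun k => lintegral_const_mul' _ _ (hk2 k)
    _ = _ := by
        congr 1
        refine tsum_congr fun k => ?_
        rw [mul_assoc]
        congr 2
        rw [Y_prod m σ (hgm k), ← lintegral_prod _ (hm2 k).aemeasurable]
        have h5 := (Pf_meas m σ (hgm k)).enorm.pow_const q
        rw [lintegral_prod_symm _ h5.aemeasurable]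

lemma Y_interp (m : ℕ) (σ : ℝ) {g : E 2 → ℂ} (hg : Measurable g) (k : ℕ) {q : ℝ} (hq2 : 2 ≤ q)
    (hq4 : q ≤ 4) (S : Set ℝ) : 2 ^ (k + 1) * Y m σ g k q S ≤
      (2 ^ (k + 1) * Y m σ g k 2 S) ^ ((4 - q) / 2) *
        (2 ^ (k + 1) * Y m σ g k 4 S) ^ ((q - 2) / 2) := by
  have h := interp ((volume.restrict (Icc (0:ℝ) (1 / 2 ^ (k + 1)))).prod
        ((volume.restrict S).prod volume)) (fun r : ℝ × (ℝ × E 2) => ‖Pf m σ g r.2.1 r.2.2 r.1‖ₑ)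
        (Pf_meas m σ hg).enorm q hq2 hq4
  rw [← Y_prod m σ hg k q S] at h
  have e2 := Y_prod m σ hg k 2 S
  have e4 := Y_prod m σ hg k 4 S
  simp only [ENNReal.rpow_ofNat] at e2 e4
  rw [← e2, ← e4] at h
  set A : ℝ≥0∞ := 2 ^ (k + 1) with hA
  have hA0 : A ≠ 0 := two_pow_pos' k
  have hAt : A ≠ ⊤ := two_pow_top k
  rw [ENNReal.mul_rpow_of_nonneg _ _ (by linarith), ENNReal.mul_rpow_of_nonneg _ _ (by linarith)]
  calc A * Y m σ g k q S ≤ A * (Y m σ g k 2 S ^ ((4 - q) / 2) * Y m σ g k 4 S ^ ((q - 2) / 2)) :=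
        mul_le_mul' le_rfl h
    _ = (A ^ ((4 - q) / 2) * A ^ ((q - 2) / 2)) *
        (Y m σ g k 2 S ^ ((4 - q) / 2) * Y m σ g k 4 S ^ ((q - 2) / 2)) := by
        rw [← ENNReal.rpow_add _ _ hA0 hAt]
        have : (4 - q) / 2 + (q - 2) / 2 = 1 := by ring
        rw [this, ENNReal.rpow_one]
    _ = _ := by ring

lemma Y_two {m : ℕ} {σ M : ℝ} (h0 : 0 < σ) (h1 : σ < 1) {g : E 2 → ℂ} (hg : DS M g) (k : ℕ)
    {T : ℝ} (hT : 0 ≤ T) : 2 ^ (k + 1) * Y m σ g k 2 (ST T) ≤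
      ENNReal.ofReal (2 * (kb σ ^ m)⁻¹ ^ 2) * (ENNReal.ofReal T * ∫⁻ z, ‖g z‖ₑ ^ 2) := by
  have h2 : Y m σ g k 2 (ST T) ≤ ∫⁻ _ in Icc (0:ℝ) (1 / 2 ^ (k + 1)),
      (ENNReal.ofReal (2 * T) * (ENNReal.ofReal ((kb σ ^ m)⁻¹ ^ 2) * ∫⁻ z, ‖g z‖ₑ ^ 2)) := by
    unfold Y
    apply setLIntegral_mono' measurableSet_Icc
    intro ν hν
    simp only [ENNReal.rpow_ofNat]
    calc ∫⁻ t in ST T, ∫⁻ x, ‖Pf m σ g t x ν‖ₑ ^ 2
        ≤ ∫⁻ _ in ST T, ENNReal.ofReal ((kb σ ^ m)⁻¹ ^ 2) * ∫⁻ z, ‖g z‖ₑ ^ 2 := by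
          refine lintegral_mono fun t => ?_
          exact (gs_two h0 h1 (dl_DS hν.1 hg)).trans (mul_le_mul' le_rfl (dl_two hν.1 hg.meas))
      _ ≤ _ := by
          rw [lintegral_const, Measure.restrict_apply_univ, mul_comm]
          exact mul_le_mul' (ST_vol T hT) le_rfl
  refine (mul_le_mul' le_rfl h2).trans (le_of_eq ?_)
  rw [lintegral_const, Measure.restrict_apply_univ, vol_k]
  have hk := kb_pos h1
  rw [ENNReal.ofReal_mul (by norm_num : (0:ℝ) ≤ 2), ENNReal.ofReal_mul (by norm_num : (0:ℝ) ≤ 2)]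
  set A : ℝ≥0∞ := 2 ^ (k + 1) with hA
  have hA0 : A ≠ 0 := two_pow_pos' k
  have hAt : A ≠ ⊤ := two_pow_top k
  calc _ = (A * A⁻¹) * (ENNReal.ofReal 2 * ENNReal.ofReal T *
        (ENNReal.ofReal ((kb σ ^ m)⁻¹ ^ 2) * ∫⁻ z, ‖g z‖ₑ ^ 2)) := by ring
    _ = _ := by
        rw [ENNReal.mul_inv_cancel hA0 hAt, one_mul]
        ring

lemma Y_four {m : ℕ} {σ : ℝ} (h0 : 0 < σ) {g : E 2 → ℂ} (hg : Measurable g) (k : ℕ)
    (T : ℝ) : 2 ^ (k + 1) * Y m σ g k 4 (ST T) ≤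
      2 ^ (k + 1) * (ENNReal.ofReal (2 * σ * Real.exp (-2))⁻¹ *
        ∫⁻ s in Icc (σ * Real.exp (-2)) σ, DM m T (fun _ => s) g) := by
  refine mul_le_mul' le_rfl ((?_ : _ ≤ _).trans (chg (fun s => DM m T (fun _ => s) g) h0))
  unfold Y
  have hsub : Icc (0:ℝ) (1 / 2 ^ (k + 1)) ⊆ Icc 0 1 := by
    apply Icc_subset_Icc le_rfl
    rw [div_le_one (by positivity)]
    exact one_le_pow₀ (by norm_num)
  refine (lintegral_mono_set hsub).trans ?_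
  apply setLIntegral_mono' measurableSet_Icc
  intro ν hν
  simp only [ENNReal.rpow_ofNat]
  unfold DM
  refine lintegral_mono fun t => ?_
  exact Fo_dl hν.1 hg

/-- **The moments at one dilation.** -/
theorem reg (m : ℕ) {σ q c e : ℝ} (h0 : 0 < σ) (h1 : σ < 1) (hq2 : 2 ≤ q) (hq4 : q ≤ 4)
    (hc : 0 < c) (he : 0 < e) : ∃ C : ℝ≥0∞, C < ⊤ ∧ ∀ T : ℝ, 1 ≤ T → ∀ (M : ℝ) (f : E 2 → ℂ),
      DS M f → NQ m q (ST T) (fun _ => σ) f ≤ C * ∑' k : ℕ, ENNReal.ofReal (((2:ℝ) ^ k) ^ c) *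
        ((ENNReal.ofReal T * ∫⁻ z, ‖gk f k z‖ₑ ^ 2) ^ ((4 - q) / 2) *
          (2 ^ (k + 1) * (ENNReal.ofReal (T ^ (-1 + e)) * ∫⁻ z, ‖gk f k z‖ₑ ^ 4 * wz z)) ^
            ((q - 2) / 2)) := by
  have hexp : Real.exp (-2) < 1 := Real.exp_lt_one_iff.2 (by norm_num)
  have hexp0 := Real.exp_pos (-2)
  obtain ⟨C4, hC4, h4⟩ := m4w (a := σ * Real.exp (-2)) (b := σ) (by positivity)
    (by nlinarith) h1 m he
  obtain ⟨C1, hC1, hs⟩ := NQ_sum (q := q) (c := c) (by linarith) hc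
  set K2 : ℝ≥0∞ := ENNReal.ofReal (2 * (kb σ ^ m)⁻¹ ^ 2) with hK2
  set K4 : ℝ≥0∞ := ENNReal.ofReal (2 * σ * Real.exp (-2))⁻¹ * C4 with hK4
  have hK2t : K2 ≠ ⊤ := ENNReal.ofReal_ne_top
  have hK4t : K4 ≠ ⊤ := ENNReal.mul_ne_top ENNReal.ofReal_ne_top hC4.ne
  refine ⟨C1 * (K2 ^ ((4 - q) / 2) * K4 ^ ((q - 2) / 2)), ?_, fun T hT M f hf => ?_⟩
  · exact ENNReal.mul_lt_top hC1 (ENNReal.mul_lt_top
      (ENNReal.rpow_lt_top_of_nonneg (by linarith) hK2t)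
      (ENNReal.rpow_lt_top_of_nonneg (by linarith) hK4t))
  refine (hs m σ h0 h1 M f hf (ST T)).trans ?_
  rw [mul_assoc]
  refine mul_le_mul' le_rfl ?_
  rw [← ENNReal.tsum_mul_left]
  refine ENNReal.tsum_le_tsum fun k => ?_
  have hg := gk_DS hf k
  have b2 := Y_two (m := m) h0 h1 hg k (by linarith : 0 ≤ T)
  have b4 : 2 ^ (k + 1) * Y m σ (gk f k) k 4 (ST T) ≤
      K4 * (2 ^ (k + 1) * (ENNReal.ofReal (T ^ (-1 + e)) * ∫⁻ z, ‖gk f k z‖ₑ ^ 4 * wz z)) := by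
    refine (Y_four (m := m) h0 hg.meas k T).trans ?_
    calc _ ≤ 2 ^ (k + 1) * (ENNReal.ofReal (2 * σ * Real.exp (-2))⁻¹ *
          (C4 * ENNReal.ofReal (T ^ (-1 + e)) * ∫⁻ z, ‖gk f k z‖ₑ ^ 4 * wz z)) :=
          mul_le_mul' le_rfl (mul_le_mul' le_rfl (h4 T hT _ _ hg))
      _ = _ := by rw [hK4]; ring
  calc ENNReal.ofReal (((2:ℝ) ^ k) ^ c) * (2 ^ (k + 1) * Y m σ (gk f k) k q (ST T))
      ≤ ENNReal.ofReal (((2:ℝ) ^ k) ^ c) *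
        ((K2 * (ENNReal.ofReal T * ∫⁻ z, ‖gk f k z‖ₑ ^ 2)) ^ ((4 - q) / 2) *
          (K4 * (2 ^ (k + 1) * (ENNReal.ofReal (T ^ (-1 + e)) *
            ∫⁻ z, ‖gk f k z‖ₑ ^ 4 * wz z))) ^ ((q - 2) / 2)) := by
        refine mul_le_mul' le_rfl ((Y_interp m σ hg.meas k hq2 hq4 (ST T)).trans ?_)
        exact mul_le_mul' (ENNReal.rpow_le_rpow b2 (by linarith))
          (ENNReal.rpow_le_rpow b4 (by linarith))
    _ = _ := by
        rw [ENNReal.mul_rpow_of_nonneg K2 _ (by linarith),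
          ENNReal.mul_rpow_of_nonneg K4 _ (by linarith)]
        ring

end Pool.Agent.R245.OD
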