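import Mathlib
import Pool.Agent.R245.OD.Reg
set_option autoImplicit false

/-! Decomposition into annuli. -/

namespace Pool.Agent.R245.OD

open MeasureTheory Set Complex Filter
open scoped ENNReal ComplexConjugate FourierTransform RealInnerProductSpace Topology
open Pool.Agent.W203.SP (ee pw gs DS DM NQ)
open Pool.Agent.H153R4 (E BS ST ST_meas ST_vol cube cube_meas cube_vol plancherel interp)

/-- the annuli -/
def An (j : ℕ) : Set (E 2) := {z | (1 / 2 : ℝ) ^ (j + 1) < ‖z‖ ∧ ‖z‖ ≤ (1 / 2 : ℝ) ^ j}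

lemma An_meas (j : ℕ) : MeasurableSet (An j) :=
  (measurableSet_lt measurable_const measurable_norm).inter
    (measurableSet_le measurable_norm measurable_const)

lemma An_lt {i j : ℕ} (h : i < j) {z : E 2} (hi : z ∈ An i) (hj : z ∈ An j) : False := by
  have h1 := hi.1
  have h2 := hj.2
  have h3 : (1 / 2 : ℝ) ^ j ≤ (1 / 2) ^ (i + 1) :=
    pow_le_pow_of_le_one (by norm_num) (by norm_num) (by omega)
  linarith

lemma An_disj : Pairwise (Function.onFun Disjoint An) := by
  intro i j hij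
  rw [Function.onFun, Set.disjoint_left]
  intro z hi hj
  rcases lt_or_gt_of_ne hij with h | h
  · exact An_lt h hi hj
  · exact An_lt h hj hi

lemma An_cover {z : E 2} (h0 : z ≠ 0) (h1 : ‖z‖ ≤ 1) : ∃ j, z ∈ An j := by
  have hn : 0 < ‖z‖ := norm_pos_iff.2 h0
  obtain ⟨n, hn1, hn2⟩ := exists_nat_pow_near_of_lt_one hn h1 (by norm_num : (0:ℝ) < 1 / 2)
    (by norm_num)
  exact ⟨n, hn1, hn2⟩

lemma ind_DS {M : ℝ} {f : E 2 → ℂ} (hf : DS M f) {S : Set (E 2)} (hS : MeasurableSet S) :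
    DS M (S.indicator f) := by
  have hM : 0 ≤ M := (norm_nonneg _).trans (hf.bd 0)
  refine ⟨hf.meas.indicator hS, fun z => ?_, fun z hz => ?_⟩
  · by_cases h : z ∈ S
    · rw [indicator_of_mem h]
      exact hf.bd z
    · rw [indicator_of_notMem h, norm_zero]
      exact hM
  · by_cases h : z ∈ S
    · rw [indicator_of_mem h]
      exact hf.supp z hz
    · rw [indicator_of_notMem h]

lemma F_ann {m : ℕ} {σ M : ℝ} (h0 : 0 < σ) (h1 : σ < 1) {f : E 2 → ℂ} (hf : DS M f) (t : ℝ)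
    (x : E 2) : ‖𝓕 (gs m t (fun _ => σ) f) x‖ₑ ≤
      ∑' j : ℕ, ‖𝓕 (gs m t (fun _ => σ) ((An j).indicator f)) x‖ₑ := by
  have hBS := gs_BS h0 h1 m t (σ := σ) ⟨le_rfl, le_rfl⟩ hf
  set φ : E 2 → ℂ := fun z => Real.fourierChar (-⟪z, x⟫) • gs m t (fun _ => σ) f z with hφ
  have hi : Integrable φ := (Real.fourierIntegral_convergent_iff (μ := volume) x).2 hBS.int
  have hsum := hasSum_integral_iUnion (fun j => An_meas j) An_disj
    (hi.integrableOn (s := ⋃ j, An j))
  have hall : ∫ z in ⋃ j, An j, φ z = ∫ z, φ z := by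
    apply setIntegral_eq_integral_of_ae_compl_eq_zero
    have h2 : ∀ᵐ z ∂(volume : Measure (E 2)), z ≠ 0 := Measure.ae_ne volume 0
    filter_upwards [h2] with z hz hn
    have hz1 : 1 < ‖z‖ := by
      by_contra hc
      rw [not_lt] at hc
      obtain ⟨j, hj⟩ := An_cover hz hc
      exact hn (mem_iUnion.2 ⟨j, hj⟩)
    simp only [hφ]
    rw [gs_const, hf.supp z hz1, mul_zero, smul_zero]
  have hj : ∀ j, ∫ z in An j, φ z = 𝓕 (gs m t (fun _ => σ) ((An j).indicator f)) x := by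
    intro j
    rw [Real.fourier_eq, ← integral_indicator (An_meas j)]
    congr 1
    ext z
    by_cases hz : z ∈ An j
    · rw [indicator_of_mem hz, gs_const, indicator_of_mem hz]
      simp only [hφ]
      rw [gs_const]
    · rw [indicator_of_notMem hz, gs_const, indicator_of_notMem hz, mul_zero, smul_zero]
  have e : 𝓕 (gs m t (fun _ => σ) f) x =
      ∑' j : ℕ, 𝓕 (gs m t (fun _ => σ) ((An j).indicator f)) x := by
    rw [Real.fourier_eq]
    change ∫ z, φ z = _
    rw [← hall, ← hsum.tsum_eq]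
    exact tsum_congr hj
  rw [e]
  exact enorm_tsum_le_tsum_enorm

lemma NQ_ann {q c : ℝ} (hq : 1 < q) (hc : 0 < c) : ∃ C : ℝ≥0∞, C < ⊤ ∧
    ∀ (m : ℕ) (σ : ℝ), 0 < σ → σ < 1 → ∀ (M : ℝ) (f : E 2 → ℂ), DS M f → ∀ S : Set ℝ,
      NQ m q S (fun _ => σ) f ≤ C * ∑' j : ℕ, ENNReal.ofReal (((2:ℝ) ^ j) ^ c) *
        NQ m q S (fun _ => σ) ((An j).indicator f) := by
  obtain ⟨C, hC, hsum⟩ := sum_pow q c hq hc
  refine ⟨C, hC, fun m σ h0 h1 M f hf S => ?_⟩
  have hq0 : 0 < q := by linarith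
  have hm1 : ∀ j, Measurable fun r : ℝ × E 2 =>
      ‖𝓕 (gs m r.1 (fun _ => σ) ((An j).indicator f)) r.2‖ₑ ^ q := fun j => by
    have h := (F_meas m (ind_DS hf (An_meas j)).meas)
    have h2 : Measurable fun r : ℝ × E 2 => (((r.1, σ), r.2) : (ℝ × ℝ) × E 2) := by fun_prop
    exact (h.comp h2).enorm.pow_const q
  have hm2 : ∀ j, Measurable fun t : ℝ => ∫⁻ x,
      ‖𝓕 (gs m t (fun _ => σ) ((An j).indicator f)) x‖ₑ ^ q := fun j =>
    (hm1 j).lintegral_prod_right'
  have hm3 : ∀ j (t : ℝ), Measurable fun x : E 2 =>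
      ‖𝓕 (gs m t (fun _ => σ) ((An j).indicator f)) x‖ₑ ^ q := fun j t =>
    (hm1 j).comp (f := fun x : E 2 => (t, x)) (by fun_prop)
  unfold NQ
  calc ∫⁻ t in S, ∫⁻ x, ‖𝓕 (gs m t (fun _ => σ) f) x‖ₑ ^ q
      ≤ ∫⁻ t in S, ∫⁻ x, C * ∑' j : ℕ, ENNReal.ofReal (((2:ℝ) ^ j) ^ c) *
        ‖𝓕 (gs m t (fun _ => σ) ((An j).indicator f)) x‖ₑ ^ q := by
        refine lintegral_mono fun t => lintegral_mono fun x => ?_
        exact (ENNReal.rpow_le_rpow (F_ann h0 h1 hf t x) hq0.le).trans (hsum _)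
    _ = _ := by
        simp only [lintegral_const_mul' _ _ hC.ne]
        congr 1
        have e1 : ∀ t : ℝ, ∫⁻ x, ∑' j : ℕ, ENNReal.ofReal (((2:ℝ) ^ j) ^ c) *
            ‖𝓕 (gs m t (fun _ => σ) ((An j).indicator f)) x‖ₑ ^ q =
            ∑' j : ℕ, ENNReal.ofReal (((2:ℝ) ^ j) ^ c) *
              ∫⁻ x, ‖𝓕 (gs m t (fun _ => σ) ((An j).indicator f)) x‖ₑ ^ q := by
          intro t
          rw [lintegral_tsum fun j => ((hm3 j t).const_mul _).aemeasurable]
          exact tsum_congr fun j => lintegral_const_mul' _ _ ENNReal.ofReal_ne_top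
        simp only [e1]
        rw [lintegral_tsum fun j => ((hm2 j).const_mul _).aemeasurable]
        exact tsum_congr fun j => lintegral_const_mul' _ _ ENNReal.ofReal_ne_top

/-! ### Regularity of the pieces -/

/-- `s` derivatives along the dilations, in discs about the origin -/
def HR (A s : ℝ) (f : E 2 → ℂ) : Prop := ∀ δ : ℝ, 0 < δ → δ ≤ 1 / 4 → ∀ r : ℝ, 0 < r → r ≤ 1 →
  ∫⁻ z in Metric.closedBall (0 : E 2) r, ‖gd δ f z‖ₑ ^ 2 ≤ ENNReal.ofReal (A * δ ^ (2 * s) * r ^ 2)

/-- the area of the unit disc -/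
noncomputable def V0 : ℝ := (volume (Metric.ball (0 : E 2) 1)).toReal

lemma V0_nonneg : 0 ≤ V0 := ENNReal.toReal_nonneg

lemma vol_cb {r : ℝ} (hr : 0 ≤ r) :
    volume (Metric.closedBall (0 : E 2) r) = ENNReal.ofReal (V0 * r ^ 2) := by
  rw [Measure.addHaar_closedBall _ _ hr, finrank_euclideanSpace_fin, V0,
    ENNReal.ofReal_mul ENNReal.toReal_nonneg, ENNReal.ofReal_toReal measure_ball_lt_top.ne,
    mul_comm]

/-- thin annuli -/
def Bn (r δ : ℝ) : Set (E 2) := {z | r * Real.exp (-δ) < ‖z‖ ∧ ‖z‖ ≤ r}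

lemma Bn_meas (r δ : ℝ) : MeasurableSet (Bn r δ) :=
  (measurableSet_lt measurable_const measurable_norm).inter
    (measurableSet_le measurable_norm measurable_const)

lemma Bn_vol {r δ : ℝ} (hr : 0 ≤ r) (hδ : 0 ≤ δ) :
    volume (Bn r δ) ≤ ENNReal.ofReal (2 * V0 * δ * r ^ 2) := by
  have he := Real.exp_pos (-δ)
  have he1 : Real.exp (-δ) ≤ 1 := Real.exp_le_one_iff.2 (by linarith)
  have h1 : Bn r δ = Metric.closedBall (0 : E 2) r \ Metric.closedBall 0 (r * Real.exp (-δ)) := by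
    ext z
    simp only [Bn, mem_ofPred_eq, Set.mem_sdiff, mem_closedBall_zero_iff, not_le]
    exact and_comm
  rw [h1, measure_sdiff (Metric.closedBall_subset_closedBall (by nlinarith))
    Metric.isClosed_closedBall.measurableSet.nullMeasurableSet measure_closedBall_lt_top.ne,
    vol_cb hr, vol_cb (by positivity), ← ENNReal.ofReal_sub _ (by have := V0_nonneg; positivity)]
  apply ENNReal.ofReal_le_ofReal
  have h2 : 1 - 2 * δ ≤ Real.exp (-δ) ^ 2 := by
    rw [← Real.exp_nat_mul]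
    have := Real.add_one_le_exp (((2:ℕ) : ℝ) * -δ)
    push_cast at this ⊢
    linarith
  have hV := V0_nonneg
  have h3 : V0 * r ^ 2 * (1 - 2 * δ) ≤ V0 * r ^ 2 * Real.exp (-δ) ^ 2 := by gcongr
  calc V0 * r ^ 2 - V0 * (r * Real.exp (-δ)) ^ 2 = V0 * r ^ 2 - V0 * r ^ 2 * Real.exp (-δ) ^ 2 := by
        ring
    _ ≤ V0 * r ^ 2 - V0 * r ^ 2 * (1 - 2 * δ) := by linarith
    _ = _ := by ring

lemma gd_ind {M δ : ℝ} (hδ : 0 ≤ δ) {f : E 2 → ℂ} (hf : DS M f) (j : ℕ) (z : E 2) :
    ‖gd δ ((An j).indicator f) z‖ₑ ^ 2 ≤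
      (Metric.closedBall (0 : E 2) ((1 / 2) ^ j)).indicator (fun z => ‖gd δ f z‖ₑ ^ 2) z +
      ((Bn ((1 / 2) ^ j) δ).indicator (fun _ => ENNReal.ofReal (M ^ 2)) z +
        (Bn ((1 / 2) ^ (j + 1)) δ).indicator (fun _ => ENNReal.ofReal (M ^ 2)) z) := by
  have hM : 0 ≤ M := (norm_nonneg _).trans (hf.bd 0)
  have hfe : ∀ z, ‖f z‖ₑ ^ 2 ≤ ENNReal.ofReal (M ^ 2) := by
    intro z
    rw [ENNReal.ofReal_pow hM]
    apply pow_le_pow_left'
    rw [← ofReal_norm]
    exact ENNReal.ofReal_le_ofReal (hf.bd z)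
  have hexp : ∀ ρ : ℝ, (ρ * Real.exp (-δ)) * Real.exp δ = ρ := by
    intro ρ
    rw [mul_assoc, ← Real.exp_add, neg_add_cancel, Real.exp_zero, mul_one]
  have hzz := norm_le_exp hδ z
  by_cases h1 : z ∈ An j
  · by_cases h2 : Real.exp δ • z ∈ An j
    · have e : gd δ ((An j).indicator f) z = gd δ f z := by
        unfold gd dl
        rw [indicator_of_mem h1, indicator_of_mem h2]
      rw [e, indicator_of_mem (by simpa using h1.2)]
      exact le_self_add
    · have e : gd δ ((An j).indicator f) z = f z := by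
        unfold gd dl
        rw [indicator_of_mem h1, indicator_of_notMem h2, sub_zero]
      have hB : z ∈ Bn ((1 / 2) ^ j) δ := by
        refine ⟨?_, h1.2⟩
        by_contra hc
        rw [not_lt] at hc
        apply h2
        refine ⟨lt_of_lt_of_le h1.1 hzz, ?_⟩
        rw [norm_exp_smul]
        calc Real.exp δ * ‖z‖ ≤ Real.exp δ * ((1 / 2) ^ j * Real.exp (-δ)) := by gcongr
          _ = ((1 / 2) ^ j * Real.exp (-δ)) * Real.exp δ := by ring
          _ = _ := hexp _
      rw [e, indicator_of_mem hB]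
      exact (hfe z).trans (le_self_add.trans le_add_self)
  · by_cases h2 : Real.exp δ • z ∈ An j
    · have e : gd δ ((An j).indicator f) z = -(f (Real.exp δ • z)) := by
        unfold gd dl
        rw [indicator_of_notMem h1, indicator_of_mem h2, zero_sub]
      have hB : z ∈ Bn ((1 / 2) ^ (j + 1)) δ := by
        constructor
        · by_contra hc
          rw [not_lt] at hc
          have h3 := h2.1
          rw [norm_exp_smul] at h3
          have h4 : Real.exp δ * ‖z‖ ≤ (1 / 2) ^ (j + 1) := by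
            calc Real.exp δ * ‖z‖ ≤ Real.exp δ * ((1 / 2) ^ (j + 1) * Real.exp (-δ)) := by gcongr
              _ = ((1 / 2) ^ (j + 1) * Real.exp (-δ)) * Real.exp δ := by ring
              _ = _ := hexp _
          linarith
        · by_contra hc
          rw [not_le] at hc
          exact h1 ⟨hc, hzz.trans h2.2⟩
      rw [e, enorm_neg, indicator_of_mem hB]
      exact (hfe _).trans (le_add_self.trans le_add_self)
    · have e : gd δ ((An j).indicator f) z = 0 := by
        unfold gd dl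
        rw [indicator_of_notMem h1, indicator_of_notMem h2, sub_zero]
      rw [e]
      simp

lemma gd_two {A M s δ : ℝ} (hs0 : 0 ≤ s) (hs : s ≤ 1 / 2) (hδ : 0 < δ) (hδ1 : δ ≤ 1 / 4) {f : E 2 → ℂ}
    (hf : DS M f) (hAM : M ^ 2 ≤ A) (hR : HR A s f) (j : ℕ) :
    ∫⁻ z, ‖gd δ ((An j).indicator f) z‖ₑ ^ 2 ≤
      ENNReal.ofReal ((1 + 4 * V0) * A * δ ^ (2 * s) * ((1 / 2) ^ j) ^ 2) := by
  set r : ℝ := (1 / 2) ^ j with hr
  have hr0 : 0 < r := by positivity
  have hr1 : r ≤ 1 := pow_le_one₀ (by norm_num) (by norm_num)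
  have hV := V0_nonneg
  have hA : 0 ≤ A := (sq_nonneg M).trans hAM
  have hgm : Measurable fun z => ‖gd δ f z‖ₑ ^ 2 := (gd_DS hδ.le hf).meas.enorm.pow_const 2
  calc ∫⁻ z, ‖gd δ ((An j).indicator f) z‖ₑ ^ 2
      ≤ ∫⁻ z, ((Metric.closedBall (0 : E 2) r).indicator (fun z => ‖gd δ f z‖ₑ ^ 2) z +
        ((Bn r δ).indicator (fun _ => ENNReal.ofReal (M ^ 2)) z +
          (Bn ((1 / 2) ^ (j + 1)) δ).indicator (fun _ => ENNReal.ofReal (M ^ 2)) z)) :=
        lintegral_mono fun z => gd_ind hδ.le hf j z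
    _ = (∫⁻ z in Metric.closedBall (0 : E 2) r, ‖gd δ f z‖ₑ ^ 2) +
        (ENNReal.ofReal (M ^ 2) * volume (Bn r δ) +
          ENNReal.ofReal (M ^ 2) * volume (Bn ((1 / 2) ^ (j + 1)) δ)) := by
        rw [lintegral_add_left (hgm.indicator Metric.isClosed_closedBall.measurableSet),
          lintegral_add_left (measurable_const.indicator (Bn_meas _ _)),
          lintegral_indicator Metric.isClosed_closedBall.measurableSet,
          lintegral_indicator (Bn_meas _ _), lintegral_indicator (Bn_meas _ _),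
          lintegral_const, lintegral_const, Measure.restrict_apply_univ,
          Measure.restrict_apply_univ]
    _ ≤ ENNReal.ofReal (A * δ ^ (2 * s) * r ^ 2) +
        (ENNReal.ofReal A * ENNReal.ofReal (2 * V0 * δ * r ^ 2) +
          ENNReal.ofReal A * ENNReal.ofReal (2 * V0 * δ * r ^ 2)) := by
        refine add_le_add (hR δ hδ hδ1 r hr0 hr1) (add_le_add ?_ ?_)
        · exact mul_le_mul' (ENNReal.ofReal_le_ofReal hAM) (Bn_vol hr0.le hδ.le)
        · refine mul_le_mul' (ENNReal.ofReal_le_ofReal hAM) ((Bn_vol (by positivity) hδ.le).trans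
            (ENNReal.ofReal_le_ofReal ?_))
          have : (1 / 2 : ℝ) ^ (j + 1) ≤ r :=
            pow_le_pow_of_le_one (by norm_num) (by norm_num) (by omega)
          gcongr
    _ ≤ _ := by
        have hδs : δ ≤ δ ^ (2 * s) := by
          calc δ = δ ^ (1:ℝ) := (Real.rpow_one δ).symm
            _ ≤ δ ^ (2 * s) := Real.rpow_le_rpow_of_exponent_ge hδ (by linarith) (by linarith)
        have hd0 : 0 ≤ δ ^ (2 * s) := by positivity
        rw [← ENNReal.ofReal_mul hA, ← ENNReal.ofReal_add (by positivity) (by positivity),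
          ← ENNReal.ofReal_add (by positivity) (by positivity)]
        apply ENNReal.ofReal_le_ofReal
        have h5 : A * (2 * V0 * δ * r ^ 2) ≤ A * (2 * V0 * δ ^ (2 * s) * r ^ 2) := by gcongr
        calc _ ≤ A * δ ^ (2 * s) * r ^ 2 + (A * (2 * V0 * δ ^ (2 * s) * r ^ 2) +
              A * (2 * V0 * δ ^ (2 * s) * r ^ 2)) := by linarith
          _ = _ := by ring

/-- the square integrals of the differences of the pieces -/
lemma gk_two {A M s : ℝ} (hs0 : 0 ≤ s) (hs : s ≤ 1 / 2) {f : E 2 → ℂ} (hf : DS M f)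
    (hAM : M ^ 2 ≤ A) (hR : HR A s f) (j k : ℕ) :
    ∫⁻ z, ‖gk ((An j).indicator f) k z‖ₑ ^ 2 ≤
      ENNReal.ofReal ((1 + 4 * V0) * A * ((2:ℝ) ^ k) ^ (-(2 * s)) * ((1 / 2) ^ j) ^ 2) := by
  have hV := V0_nonneg
  have hA : 0 ≤ A := (sq_nonneg M).trans hAM
  have hM : 0 ≤ M := (norm_nonneg _).trans (hf.bd 0)
  cases k with
  | zero =>
    rw [pow_zero, Real.one_rpow, mul_one]
    change ∫⁻ z, ‖(An j).indicator f z‖ₑ ^ 2 ≤ _
    have h1 : ∀ z, ‖(An j).indicator f z‖ₑ ^ 2 ≤
        (Metric.closedBall (0 : E 2) ((1 / 2) ^ j)).indicator (fun _ => ENNReal.ofReal (M ^ 2)) z := by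
      intro z
      by_cases hz : z ∈ An j
      · rw [indicator_of_mem hz, indicator_of_mem (by simpa using hz.2), ENNReal.ofReal_pow hM]
        apply pow_le_pow_left'
        rw [← ofReal_norm]
        exact ENNReal.ofReal_le_ofReal (hf.bd z)
      · rw [indicator_of_notMem hz]
        simp
    refine (lintegral_mono h1).trans ?_
    rw [lintegral_indicator Metric.isClosed_closedBall.measurableSet, lintegral_const,
      Measure.restrict_apply_univ, vol_cb (by positivity), ← ENNReal.ofReal_mul (by positivity)]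
    apply ENNReal.ofReal_le_ofReal
    have h2 : M ^ 2 * (V0 * ((1 / 2) ^ j) ^ 2) ≤ A * (V0 * ((1 / 2) ^ j) ^ 2) := by gcongr
    refine h2.trans ?_
    have h3 : 0 ≤ A * ((1 / 2 : ℝ) ^ j) ^ 2 := by positivity
    nlinarith [mul_nonneg h3 hV]
  | succ k =>
    have hδ : (0:ℝ) < 1 / 2 ^ (k + 2) := dk_pos _
    have hδ1 : (1:ℝ) / 2 ^ (k + 2) ≤ 1 / 4 := by
      apply one_div_le_one_div_of_le (by norm_num)
      calc (4:ℝ) = 2 ^ 2 := by norm_num
        _ ≤ 2 ^ (k + 2) := pow_le_pow_right₀ (by norm_num) (by omega)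
    refine (gd_two hs0 hs hδ hδ1 hf hAM hR j).trans (ENNReal.ofReal_le_ofReal ?_)
    have h4 : ((1:ℝ) / 2 ^ (k + 2)) ^ (2 * s) ≤ ((2:ℝ) ^ (k + 1)) ^ (-(2 * s)) := by
      rw [Real.rpow_neg (by positivity), ← Real.inv_rpow (by positivity), one_div]
      apply Real.rpow_le_rpow (by positivity) _ (by linarith)
      apply inv_anti₀ (by positivity)
      exact pow_le_pow_right₀ (by norm_num) (by omega)
    gcongr

/-- the weighted fourth moments of the differences of the pieces -/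
lemma gk_four {M : ℝ} {f : E 2 → ℂ} (hf : DS M f) (j k : ℕ) :
    ∫⁻ z, ‖gk ((An j).indicator f) k z‖ₑ ^ 4 * wz z ≤
      ENNReal.ofReal (64 * M ^ 2 / ((1 / 2) ^ j) ^ 2) *
        ∫⁻ z, ‖gk ((An j).indicator f) k z‖ₑ ^ 2 := by
  have hM : 0 ≤ M := (norm_nonneg _).trans (hf.bd 0)
  have hDS := gk_DS (ind_DS hf (An_meas j)) k
  set r : ℝ := (1 / 2) ^ j with hr
  have hr0 : 0 < r := by positivity
  rw [← lintegral_const_mul' _ _ ENNReal.ofReal_ne_top]
  apply lintegral_mono
  intro z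
  simp only
  by_cases hz : gk ((An j).indicator f) k z = 0
  · rw [hz]
    simp
  · have hn : r / 4 ≤ ‖z‖ := by
      by_contra hc
      rw [not_le] at hc
      apply hz
      have e1 : (1 / 2 : ℝ) ^ (j + 1) = r / 2 := by rw [pow_succ, ← hr]; ring
      have h1 : z ∉ An j := fun h => by
        have h1 : (1 / 2 : ℝ) ^ (j + 1) < ‖z‖ := h.1
        rw [e1] at h1
        linarith
      cases k with
      | zero =>
        change (An j).indicator f z = 0
        rw [indicator_of_notMem h1]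
      | succ k =>
        have h2 : Real.exp (1 / 2 ^ (k + 2)) • z ∉ An j := fun h => by
          have h2 : (1 / 2 : ℝ) ^ (j + 1) < ‖Real.exp (1 / 2 ^ (k + 2)) • z‖ := h.1
          rw [norm_exp_smul, e1] at h2
          have h3 : Real.exp (1 / 2 ^ (k + 2)) ≤ 2 := by
            have h4 : (1:ℝ) / 2 ^ (k + 2) ≤ 1 / 4 := by
              apply one_div_le_one_div_of_le (by norm_num)
              calc (4:ℝ) = 2 ^ 2 := by norm_num
                _ ≤ 2 ^ (k + 2) := pow_le_pow_right₀ (by norm_num) (by omega)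
            have h5 : Real.exp (1 / 2 ^ (k + 2)) ≤ Real.exp (Real.log 2) := by
              apply Real.exp_le_exp.2
              have := Real.log_two_gt_d9
              linarith
            rwa [Real.exp_log (by norm_num)] at h5
          have := norm_nonneg z
          nlinarith
        change gd (1 / 2 ^ (k + 2)) ((An j).indicator f) z = 0
        unfold gd dl
        rw [indicator_of_notMem h1, indicator_of_notMem h2, sub_zero]
    have hw : wz z ≤ ENNReal.ofReal (16 / r ^ 2) := by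
      unfold wz
      have hz0 : 0 < ‖z‖ := by linarith
      rw [← ENNReal.ofReal_inv_of_pos (by positivity)]
      apply ENNReal.ofReal_le_ofReal
      rw [inv_le_comm₀ (by positivity) (by positivity)]
      calc (16 / r ^ 2)⁻¹ = (r / 4) ^ 2 := by
            field_simp
            norm_num
        _ ≤ ‖z‖ ^ 2 := by gcongr
    have hb : ‖gk ((An j).indicator f) k z‖ₑ ^ 2 ≤ ENNReal.ofReal (4 * M ^ 2) := by
      have : (4:ℝ) * M ^ 2 = (2 * M) ^ 2 := by ring
      rw [this, ENNReal.ofReal_pow (by positivity)]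
      apply pow_le_pow_left'
      rw [← ofReal_norm]
      exact ENNReal.ofReal_le_ofReal (hDS.bd z)
    calc ‖gk ((An j).indicator f) k z‖ₑ ^ 4 * wz z
        = (‖gk ((An j).indicator f) k z‖ₑ ^ 2 * wz z) * ‖gk ((An j).indicator f) k z‖ₑ ^ 2 := by ring
      _ ≤ (ENNReal.ofReal (4 * M ^ 2) * ENNReal.ofReal (16 / r ^ 2)) *
          ‖gk ((An j).indicator f) k z‖ₑ ^ 2 := by gcongr
      _ = _ := by
          rw [← ENNReal.ofReal_mul (by positivity)]
          congr 2
          ring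

end Pool.Agent.R245.OD
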