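import Mathlib
import Pool.Agent.R245.OD.Ann
set_option autoImplicit false

/-! The moments of a density with regularity along the dilations. -/

namespace Pool.Agent.R245.OD

open MeasureTheory Set Complex Filter
open scoped ENNReal ComplexConjugate FourierTransform RealInnerProductSpace Topology
open Pool.Agent.W203.SP (ee pw gs DS DM NQ)
open Pool.Agent.H153R4 (E BS ST ST_meas ST_vol cube cube_meas cube_vol plancherel interp)

lemma two_ofReal (k : ℕ) : (2:ℝ≥0∞) ^ k = ENNReal.ofReal ((2:ℝ) ^ k) := by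
  rw [ENNReal.ofReal_pow (by norm_num)]
  norm_num

/-- the real identity -/
lemma real_id {T A K X r a b c s e : ℝ} (hT : 0 < T) (hA : 0 < A) (hK : 0 < K) (hX : 0 < X)
    (hr : 0 < r) (hab : a + b = 1) :
    X ^ c * ((T * (K * A * X ^ (-(2 * s)) * r ^ 2)) ^ a *
      (2 * X * (T ^ (-1 + e) * (64 * A / r ^ 2 * (K * A * X ^ (-(2 * s)) * r ^ 2)))) ^ b) =
    K * 128 ^ b * A ^ (1 + b) * r ^ (2 * a) * T ^ (a + (-1 + e) * b) *
      X ^ (c + b - 2 * s) := by
  have e1 : 2 * X * (T ^ (-1 + e) * (64 * A / r ^ 2 * (K * A * X ^ (-(2 * s)) * r ^ 2))) =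
      128 * (K * (A * A) * (T ^ (-1 + e) * (X * X ^ (-(2 * s))))) := by
    field_simp
    ring
  have e2 : T * (K * A * X ^ (-(2 * s)) * r ^ 2) = K * A * (r ^ 2) * (T * X ^ (-(2 * s))) := by ring
  rw [e1, e2]
  have p1 : 0 < X ^ (-(2 * s)) := by positivity
  have p2 : 0 < T ^ (-1 + e) := by positivity
  rw [Real.mul_rpow (by positivity) (by positivity), Real.mul_rpow (by positivity) (by positivity),
    Real.mul_rpow (by positivity) (by positivity), Real.mul_rpow (by positivity) (by positivity),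
    Real.mul_rpow (by positivity) (by positivity), Real.mul_rpow (by positivity) (by positivity),
    Real.mul_rpow (by positivity) (by positivity), Real.mul_rpow (by positivity) (by positivity),
    Real.mul_rpow (by positivity) (by positivity), Real.mul_rpow (by positivity) (by positivity)]
  rw [← Real.rpow_mul hX.le, ← Real.rpow_mul hX.le, ← Real.rpow_mul hT.le]
  have f1 : K ^ a * K ^ b = K := by rw [← Real.rpow_add hK, hab, Real.rpow_one]
  have f2 : A ^ a * (A ^ b * A ^ b) = A ^ (1 + b) := by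
    rw [← Real.rpow_add hA, ← Real.rpow_add hA]
    congr 1
    linarith
  have f3 : (r ^ 2) ^ a = r ^ (2 * a) := by
    rw [← Real.rpow_natCast, ← Real.rpow_mul hr.le]
    norm_num
  have f4 : T ^ a * T ^ ((-1 + e) * b) = T ^ (a + (-1 + e) * b) := by rw [← Real.rpow_add hT]
  have f5 : X ^ c * (X ^ (-(2 * s) * a) * (X ^ b * X ^ (-(2 * s) * b))) = X ^ (c + b - 2 * s) := by
    rw [← Real.rpow_add hX, ← Real.rpow_add hX, ← Real.rpow_add hX]
    congr 1
    have : a = 1 - b := by linarith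
    rw [this]
    ring
  calc _ = (K ^ a * K ^ b) * 128 ^ b * (A ^ a * (A ^ b * A ^ b)) * (r ^ 2) ^ a *
        (T ^ a * T ^ ((-1 + e) * b)) *
        (X ^ c * (X ^ (-(2 * s) * a) * (X ^ b * X ^ (-(2 * s) * b)))) := by ring
    _ = _ := by rw [f1, f2, f3, f4, f5]

lemma geo_lt {κ : ℝ} (hκ : 0 < κ) : ∑' k : ℕ, ENNReal.ofReal (((2:ℝ) ^ k) ^ (-κ)) < ⊤ := by
  have h1 : ∀ k : ℕ, ENNReal.ofReal (((2:ℝ) ^ k) ^ (-κ)) = ENNReal.ofReal ((2:ℝ) ^ (-κ)) ^ k := by
    intro k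
    rw [← ENNReal.ofReal_pow (by positivity)]
    congr 1
    rw [← Real.rpow_natCast, ← Real.rpow_natCast, ← Real.rpow_mul (by norm_num),
      ← Real.rpow_mul (by norm_num), mul_comm]
  simp only [h1]
  rw [ENNReal.tsum_geometric, ENNReal.inv_lt_top, tsub_pos_iff_lt, ← ENNReal.ofReal_one,
    ENNReal.ofReal_lt_ofReal_iff one_pos]
  exact Real.rpow_lt_one_of_one_lt_of_neg (by norm_num) (by linarith)

/-- one annulus, one dyadic range of times -/
theorem ann_T (m : ℕ) {σ q s : ℝ} (h0 : 0 < σ) (h1 : σ < 1) (hq3 : 3 < q) (hq4 : q ≤ 4)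
    (hqs : q < 2 + 4 * s) (hs : s ≤ 1 / 2) : ∃ C : ℝ≥0∞, C < ⊤ ∧
    ∀ (A M : ℝ) (f : E 2 → ℂ), DS M f → M ^ 2 ≤ A → 0 < A → HR A s f → ∀ T : ℝ, 1 ≤ T → ∀ j : ℕ,
      NQ m q (ST T) (fun _ => σ) ((An j).indicator f) ≤
        C * ENNReal.ofReal (A ^ (q / 2) * ((2:ℝ) ^ j) ^ (-(4 - q)) * T ^ (-((q - 3) / 2))) := by
  have hs0 : 0 ≤ s := by linarith
  set a : ℝ := (4 - q) / 2 with ha
  set b : ℝ := (q - 2) / 2 with hb
  have hab : a + b = 1 := by rw [ha, hb]; ring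
  have ha0 : 0 ≤ a := by rw [ha]; linarith
  have hb0 : 0 < b := by rw [hb]; linarith
  set κ : ℝ := (2 * s - b) / 2 with hκ
  have hκ0 : 0 < κ := by rw [hκ, hb]; linarith
  set e : ℝ := (q - 3) / (q - 2) with he
  have he0 : 0 < e := div_pos (by linarith) (by linarith)
  obtain ⟨C, hC, hreg⟩ := reg m h0 h1 (by linarith : (2:ℝ) ≤ q) hq4 hκ0 he0
  set K : ℝ := 1 + 4 * V0 with hK
  have hV := V0_nonneg
  have hK0 : 0 < K := by rw [hK]; linarith
  refine ⟨C * (ENNReal.ofReal (K * 128 ^ b) * ∑' k : ℕ, ENNReal.ofReal (((2:ℝ) ^ k) ^ (-κ))),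
    ENNReal.mul_lt_top hC (ENNReal.mul_lt_top ENNReal.ofReal_lt_top (geo_lt hκ0)), ?_⟩
  intro A M f hf hAM hA hR T hT j
  have hT0 : 0 < T := by linarith
  refine (hreg T hT M _ (ind_DS hf (An_meas j))).trans ?_
  rw [mul_assoc C, mul_assoc (ENNReal.ofReal (K * 128 ^ b)), ← ENNReal.tsum_mul_right]
  refine mul_le_mul' le_rfl ?_
  rw [← ENNReal.tsum_mul_left]
  refine ENNReal.tsum_le_tsum fun k => ?_
  set r : ℝ := (1 / 2) ^ j with hr
  have hr0 : 0 < r := by positivity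
  set X : ℝ := (2:ℝ) ^ k with hX
  have hX0 : 0 < X := by positivity
  have i2 := gk_two hs0 hs hf hAM hR j k
  rw [← hK, ← hX, ← hr] at i2
  have i4 := gk_four hf j k
  rw [← hr] at i4
  have hα : 0 ≤ K * A * X ^ (-(2 * s)) * r ^ 2 := by positivity
  have hT4 : 0 ≤ T ^ (-1 + e) := by positivity
  have j4 : ∫⁻ z, ‖gk ((An j).indicator f) k z‖ₑ ^ 4 * wz z ≤
      ENNReal.ofReal (64 * A / r ^ 2 * (K * A * X ^ (-(2 * s)) * r ^ 2)) := by
    refine i4.trans ?_
    rw [ENNReal.ofReal_mul (by positivity)]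
    refine mul_le_mul' (ENNReal.ofReal_le_ofReal ?_) i2
    gcongr
  have hβ : 0 ≤ 64 * A / r ^ 2 * (K * A * X ^ (-(2 * s)) * r ^ 2) := by positivity
  calc _ ≤ ENNReal.ofReal (X ^ κ) *
        ((ENNReal.ofReal T * ENNReal.ofReal (K * A * X ^ (-(2 * s)) * r ^ 2)) ^ a *
          (2 ^ (k + 1) * (ENNReal.ofReal (T ^ (-1 + e)) *
            ENNReal.ofReal (64 * A / r ^ 2 * (K * A * X ^ (-(2 * s)) * r ^ 2)))) ^ b) := by
        refine mul_le_mul' le_rfl (mul_le_mul' (ENNReal.rpow_le_rpow (mul_le_mul' le_rfl i2) ha0)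
          (ENNReal.rpow_le_rpow (mul_le_mul' le_rfl (mul_le_mul' le_rfl j4)) hb0.le))
    _ = ENNReal.ofReal (X ^ κ * ((T * (K * A * X ^ (-(2 * s)) * r ^ 2)) ^ a *
        (2 * X * (T ^ (-1 + e) * (64 * A / r ^ 2 * (K * A * X ^ (-(2 * s)) * r ^ 2)))) ^ b)) := by
        rw [two_ofReal, ← ENNReal.ofReal_mul hT0.le, ← ENNReal.ofReal_mul hT4,
          ← ENNReal.ofReal_mul (by positivity), ENNReal.ofReal_rpow_of_nonneg (by positivity) ha0,
          ENNReal.ofReal_rpow_of_nonneg (by positivity) hb0.le,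
          ← ENNReal.ofReal_mul (by positivity), ← ENNReal.ofReal_mul (by positivity)]
        congr 4
        rw [pow_succ, ← hX]
        ring
    _ = ENNReal.ofReal (K * 128 ^ b * (X ^ (-κ) *
          (A ^ (q / 2) * ((2:ℝ) ^ j) ^ (-(4 - q)) * T ^ (-((q - 3) / 2))))) := by
        rw [real_id hT0 hA hK0 hX0 hr0 hab]
        congr 1
        have g1 : 1 + b = q / 2 := by rw [hb]; ring
        have g2 : κ + b - 2 * s = -κ := by rw [hκ]; ring
        have g3 : r ^ (2 * a) = ((2:ℝ) ^ j) ^ (-(4 - q)) := by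
          rw [hr, one_div, inv_pow, Real.inv_rpow (by positivity), ← Real.rpow_neg (by positivity),
            ha]
          congr 1
          ring
        have g4 : a + (-1 + e) * b = -((q - 3) / 2) := by
          rw [ha, hb, he]
          have : q - 2 ≠ 0 := by linarith
          field_simp
          ring
        rw [g1, g2, g3, g4]
        ring
    _ = _ := by
        rw [ENNReal.ofReal_mul (by positivity), ENNReal.ofReal_mul (p := X ^ (-κ)) (by positivity)]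

lemma cover_ST : (univ : Set ℝ) ⊆ Icc (-1) 1 ∪ ⋃ j : ℕ, ST ((2:ℝ) ^ j) := by
  intro t _
  rcases le_or_gt |t| 1 with h | h
  · left
    exact abs_le.1 h
  · right
    obtain ⟨n, hn1, hn2⟩ := exists_nat_pow_near (x := |t|) (y := (2:ℝ)) h.le (by norm_num)
    refine mem_iUnion.2 ⟨n, hn1, ?_⟩
    rw [pow_succ] at hn2
    linarith

/-- bounded times -/
lemma small_t (m : ℕ) {σ q : ℝ} (h0 : 0 < σ) (h1 : σ < 1) (hq2 : 2 ≤ q) : ∃ C : ℝ≥0∞, C < ⊤ ∧
    ∀ (A M : ℝ) (f : E 2 → ℂ), DS M f → M ^ 2 ≤ A → 0 < A →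
      NQ m q (Icc (-1) 1) (fun _ => σ) f ≤ C * ENNReal.ofReal (A ^ (q / 2)) := by
  have hk := kb_pos h1
  set c1 : ℝ := (volume (cube 2)).toReal * (kb σ ^ m)⁻¹ + 1 with hc1
  have hc10 : 0 < c1 := by
    have : 0 ≤ (volume (cube 2)).toReal := ENNReal.toReal_nonneg
    positivity
  set c2 : ℝ := (kb σ ^ m)⁻¹ ^ 2 * (volume (cube 2)).toReal with hc2
  have hc20 : 0 ≤ c2 := by
    have : 0 ≤ (volume (cube 2)).toReal := ENNReal.toReal_nonneg
    positivity
  refine ⟨ENNReal.ofReal (c1 ^ (q - 2) * c2 * 2), ENNReal.ofReal_lt_top, ?_⟩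
  intro A M f hf hAM hA
  have hM : 0 ≤ M := (norm_nonneg _).trans (hf.bd 0)
  set R : ℝ := A ^ (1 / 2 : ℝ) with hR
  have hR0 : 0 < R := by positivity
  have hRM : M ≤ R := by
    rw [hR, ← Real.sqrt_eq_rpow]
    exact Real.le_sqrt_of_sq_le hAM
  have hBS : BS M f := ⟨hf.meas, hf.bd, fun z hz => hf.supp z (ball_cube' hz)⟩
  have hpt : ∀ t : ℝ, ∫⁻ x, ‖𝓕 (gs m t (fun _ => σ) f) x‖ₑ ^ q ≤
      ENNReal.ofReal (c1 ^ (q - 2) * c2 * A ^ (q / 2)) := by
    intro t
    have hg := gs_BS h0 h1 m t (σ := σ) ⟨le_rfl, le_rfl⟩ hf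
    have hsup : ∀ x, ‖𝓕 (gs m t (fun _ => σ) f) x‖ₑ ≤ ENNReal.ofReal (c1 * R) := by
      intro x
      rw [← ofReal_norm]
      apply ENNReal.ofReal_le_ofReal
      refine (hg.fbd x).trans ?_
      have hv : 0 ≤ (volume (cube 2)).toReal := ENNReal.toReal_nonneg
      calc (volume (cube 2)).toReal * ((kb σ ^ m)⁻¹ * M) =
            ((volume (cube 2)).toReal * (kb σ ^ m)⁻¹) * M := by ring
        _ ≤ c1 * R := by
            apply mul_le_mul _ hRM hM hc10.le
            rw [hc1]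
            linarith
    have h2 : ∫⁻ x, ‖𝓕 (gs m t (fun _ => σ) f) x‖ₑ ^ 2 ≤ ENNReal.ofReal (c2 * A) := by
      refine (gs_two h0 h1 hf).trans ?_
      calc _ ≤ ENNReal.ofReal ((kb σ ^ m)⁻¹ ^ 2) * (volume (cube 2) * ENNReal.ofReal (M ^ 2)) :=
            mul_le_mul' le_rfl hBS.l2
        _ ≤ ENNReal.ofReal ((kb σ ^ m)⁻¹ ^ 2) *
            (ENNReal.ofReal (volume (cube 2)).toReal * ENNReal.ofReal A) := by
            rw [ENNReal.ofReal_toReal (cube_vol 2).ne]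
            gcongr
        _ = _ := by
            rw [← ENNReal.ofReal_mul ENNReal.toReal_nonneg, ← ENNReal.ofReal_mul (by positivity),
              hc2]
            congr 1
            ring
    calc ∫⁻ x, ‖𝓕 (gs m t (fun _ => σ) f) x‖ₑ ^ q
        ≤ ∫⁻ x, ENNReal.ofReal (c1 * R) ^ (q - 2) * ‖𝓕 (gs m t (fun _ => σ) f) x‖ₑ ^ 2 := by
          apply lintegral_mono
          intro x
          simp only
          have e1 : ‖𝓕 (gs m t (fun _ => σ) f) x‖ₑ ^ q =
              ‖𝓕 (gs m t (fun _ => σ) f) x‖ₑ ^ (q - 2) *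
                ‖𝓕 (gs m t (fun _ => σ) f) x‖ₑ ^ 2 := by
            rw [← ENNReal.rpow_natCast, ← ENNReal.rpow_add_of_nonneg _ _ (by linarith)
              (by norm_num)]
            congr 1
            push_cast
            ring
          rw [e1]
          exact mul_le_mul' (ENNReal.rpow_le_rpow (hsup x) (by linarith)) le_rfl
      _ ≤ ENNReal.ofReal (c1 * R) ^ (q - 2) * ENNReal.ofReal (c2 * A) := by
          rw [lintegral_const_mul' _ _ (ENNReal.rpow_ne_top_of_nonneg (by linarith)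
            ENNReal.ofReal_ne_top)]
          exact mul_le_mul' le_rfl h2
      _ = _ := by
          rw [ENNReal.ofReal_rpow_of_pos (by positivity), ← ENNReal.ofReal_mul (by positivity)]
          congr 1
          rw [Real.mul_rpow hc10.le hR0.le, hR, ← Real.rpow_mul hA.le]
          have e3 : A ^ (q / 2) = A ^ (1 / 2 * (q - 2)) * A := by
            nth_rw 3 [← Real.rpow_one A]
            rw [← Real.rpow_add hA]
            congr 1
            ring
          rw [e3]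
          ring
  unfold NQ
  calc ∫⁻ t in Icc (-1:ℝ) 1, ∫⁻ x, ‖𝓕 (gs m t (fun _ => σ) f) x‖ₑ ^ q
      ≤ ∫⁻ _ in Icc (-1:ℝ) 1, ENNReal.ofReal (c1 ^ (q - 2) * c2 * A ^ (q / 2)) :=
        lintegral_mono fun t => hpt t
    _ = _ := by
        rw [lintegral_const, Measure.restrict_apply_univ, Real.volume_Icc,
          ← ENNReal.ofReal_mul (by positivity), ← ENNReal.ofReal_mul (by positivity)]
        congr 1
        ring

/-- **The deterministic bound.** -/
theorem main_reg (m : ℕ) {σ q s : ℝ} (h0 : 0 < σ) (h1 : σ < 1) (hq3 : 3 < q) (hq4 : q < 4)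
    (hqs : q < 2 + 4 * s) (hs : s ≤ 1 / 2) : ∃ C : ℝ≥0∞, C < ⊤ ∧
    ∀ (A M : ℝ) (f : E 2 → ℂ), DS M f → M ^ 2 ≤ A → 0 < A → HR A s f →
      NQ m q univ (fun _ => σ) f ≤ C * ENNReal.ofReal (A ^ (q / 2)) := by
  obtain ⟨C1, hC1, hann⟩ := ann_T m h0 h1 hq3 hq4.le hqs hs
  obtain ⟨C2, hC2, hsm⟩ := small_t m h0 h1 (by linarith : (2:ℝ) ≤ q)
  set c : ℝ := (4 - q) / 2 with hc
  have hc0 : 0 < c := by rw [hc]; linarith
  obtain ⟨C3, hC3, hsum⟩ := NQ_ann (q := q) (by linarith) hc0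
  set G1 : ℝ≥0∞ := ∑' j : ℕ, ENNReal.ofReal (((2:ℝ) ^ j) ^ (-c)) with hG1
  set G2 : ℝ≥0∞ := ∑' i : ℕ, ENNReal.ofReal (((2:ℝ) ^ i) ^ (-((q - 3) / 2))) with hG2
  have hG1t : G1 < ⊤ := geo_lt hc0
  have hG2t : G2 < ⊤ := geo_lt (by linarith)
  refine ⟨C2 + C3 * (C1 * G1) * G2, ENNReal.add_lt_top.2 ⟨hC2, ENNReal.mul_lt_top
    (ENNReal.mul_lt_top hC3 (ENNReal.mul_lt_top hC1 hG1t)) hG2t⟩, ?_⟩
  intro A M f hf hAM hA hR
  have hT : ∀ i : ℕ, NQ m q (ST ((2:ℝ) ^ i)) (fun _ => σ) f ≤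
      (C3 * (C1 * G1) * ENNReal.ofReal (A ^ (q / 2))) *
        ENNReal.ofReal (((2:ℝ) ^ i) ^ (-((q - 3) / 2))) := by
    intro i
    refine (hsum m σ h0 h1 M f hf _).trans ?_
    have hj : ∀ j : ℕ, ENNReal.ofReal (((2:ℝ) ^ j) ^ c) *
        NQ m q (ST ((2:ℝ) ^ i)) (fun _ => σ) ((An j).indicator f) ≤
        ENNReal.ofReal (((2:ℝ) ^ j) ^ (-c)) * (C1 * ENNReal.ofReal (A ^ (q / 2)) *
          ENNReal.ofReal (((2:ℝ) ^ i) ^ (-((q - 3) / 2)))) := by
      intro j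
      refine (mul_le_mul' le_rfl (hann A M f hf hAM hA hR _ (one_le_pow₀ (by norm_num)) j)).trans
        (le_of_eq ?_)
      have e1 : ((2:ℝ) ^ j) ^ c * ((2:ℝ) ^ j) ^ (-(4 - q)) = ((2:ℝ) ^ j) ^ (-c) := by
        rw [← Real.rpow_add (by positivity)]
        congr 1
        rw [hc]
        ring
      rw [ENNReal.ofReal_mul (by positivity), ENNReal.ofReal_mul (by positivity), ← e1,
        ENNReal.ofReal_mul (p := ((2:ℝ) ^ j) ^ c) (by positivity)]
      ring
    refine (mul_le_mul' le_rfl (ENNReal.tsum_le_tsum hj)).trans (le_of_eq ?_)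
    rw [ENNReal.tsum_mul_right]
    ring
  have h2 : NQ m q univ (fun _ => σ) f ≤ NQ m q (Icc (-1) 1) (fun _ => σ) f +
      ∑' i : ℕ, NQ m q (ST ((2:ℝ) ^ i)) (fun _ => σ) f := by
    unfold NQ
    refine (lintegral_mono_set cover_ST).trans ?_
    refine (lintegral_union_le _ _ _).trans ?_
    gcongr
    exact lintegral_iUnion_le _ _
  refine h2.trans ?_
  rw [add_mul]
  refine add_le_add (hsm A M f hf hAM hA) ((ENNReal.tsum_le_tsum hT).trans (le_of_eq ?_))
  rw [ENNReal.tsum_mul_left]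
  ring

end Pool.Agent.R245.OD
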