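import Mathlib
import Pool.Agent.R245.OD.Fin
import Pool.Agent.W203.SP.Final
import Pool.Agent.W414.SP.FDL
import Pool.Agent.W612.SP.SPH
import Pool.Agent.W933.SP.FD
import Pool.Agent.W293.SP.MG
set_option autoImplicit false

/-! From the graph to the sphere: densities with some regularity along the meridians. -/

namespace Pool.Agent.R245.OD

open MeasureTheory Set Complex Filter Metric
open scoped ENNReal NNReal FourierTransform RealInnerProductSpace Topology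
open Pool.Agent.W203.SP (ee pw gs DS DM NQ FD dens sg fb)
open Pool.Agent.H153R4 (E)

/-- the regularity condition along the rays, with the factor `1 + h` -/
def HM (A s : ℝ) (G : E 2 → ℂ) : Prop := ∀ h r : ℝ, 0 < h → h ≤ 1 → 0 < r → r ≤ 1 →
  ∫⁻ z in closedBall (0 : E 2) r, ‖G ((1 + h) • z) - G z‖ₑ ^ 2 ≤
    ENNReal.ofReal (A ^ 2 * h ^ (2 * s) * r ^ 2)

/-- the rescaled function -/
noncomputable def rsc (b : ℝ) (G : E 2 → ℂ) (w : E 2) : ℂ := G (b • w)

lemma rsc_DS {b A : ℝ} (hb : 0 < b) {G : E 2 → ℂ} (hG : Measurable G) (hA : ∀ z, ‖G z‖ ≤ A)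
    (hs : ∀ z, b ≤ ‖z‖ → G z = 0) : DS A (rsc b G) where
  meas := hG.comp (measurable_const_smul b)
  bd := fun z => hA _
  supp := fun z hz => by
    unfold rsc
    apply hs
    rw [norm_smul, Real.norm_of_nonneg hb.le]
    nlinarith

lemma rsc_HR {b A s : ℝ} (hb : 0 < b) (hb1 : b < 1) {G : E 2 → ℂ} (hG : Measurable G)
    (hs0 : 0 ≤ s) (h : HM A s G) : HR (2 * A ^ 2) (min s (1 / 2)) (rsc b G) := by
  intro δ hδ hδ1 r hr hr1
  have hb2 : (0 : ℝ) < b ^ 2 := by positivity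
  set η : ℝ := Real.exp δ - 1 with hη
  have he : Real.exp δ = 1 + η := by rw [hη]; ring
  have hη0 : 0 < η := by
    have := Real.add_one_lt_exp hδ.ne'
    rw [hη]; linarith
  have hη2 : η ≤ 2 * δ := by
    have h1 : |Real.exp δ - 1| ≤ 2 * |δ| := Real.abs_exp_sub_one_le (by rw [abs_of_pos hδ]; linarith)
    rw [abs_of_pos hδ, ← hη, abs_of_pos hη0] at h1
    exact h1
  have hη1 : η ≤ 1 := by linarith
  have hbr : 0 < b * r := by positivity
  have hbr1 : b * r ≤ 1 := by nlinarith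
  have h1 := h η (b * r) hη0 hη1 hbr hbr1
  have hm : Measurable fun z : E 2 => (closedBall (0 : E 2) (b * r)).indicator
      (fun z => ‖G ((1 + η) • z) - G z‖ₑ ^ 2) z := by
    apply Measurable.indicator _ measurableSet_closedBall
    exact (((hG.comp (measurable_const_smul _)).sub hG).enorm.pow_const 2)
  have h2 := lint_smul _ hm hb
  have h3 : ∫⁻ z in closedBall (0 : E 2) r, ‖gd δ (rsc b G) z‖ₑ ^ 2 =
      ∫⁻ z : E 2, (closedBall (0 : E 2) (b * r)).indicator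
        (fun z => ‖G ((1 + η) • z) - G z‖ₑ ^ 2) (b • z) := by
    rw [← lintegral_indicator measurableSet_closedBall]
    apply lintegral_congr
    intro z
    have hiff : z ∈ closedBall (0 : E 2) r ↔ b • z ∈ closedBall (0 : E 2) (b * r) := by
      rw [mem_closedBall_zero_iff, mem_closedBall_zero_iff, norm_smul, Real.norm_of_nonneg hb.le]
      exact (mul_le_mul_iff_right₀ hb).symm
    by_cases hz : z ∈ closedBall (0 : E 2) r
    · rw [indicator_of_mem hz, indicator_of_mem (hiff.1 hz)]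
      unfold gd dl rsc
      rw [he, smul_comm b (1 + η) z, ← enorm_neg, neg_sub]
    · rw [indicator_of_notMem hz, indicator_of_notMem (fun h => hz (hiff.2 h))]
  rw [h3, h2, lintegral_indicator measurableSet_closedBall]
  refine (mul_le_mul' le_rfl h1).trans ?_
  rw [← ENNReal.ofReal_mul (by positivity)]
  apply ENNReal.ofReal_le_ofReal
  set s' := min s (1 / 2) with hs'
  have hs'0 : 0 ≤ s' := le_min hs0 (by norm_num)
  have hs'1 : s' ≤ 1 / 2 := min_le_right _ _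
  have e1 : η ^ (2 * s) ≤ 2 * δ ^ (2 * s') := by
    calc η ^ (2 * s) ≤ η ^ (2 * s') :=
          Real.rpow_le_rpow_of_exponent_ge hη0 hη1 (by have := min_le_left s (1 / 2); linarith)
      _ ≤ (2 * δ) ^ (2 * s') := Real.rpow_le_rpow hη0.le hη2 (by positivity)
      _ = 2 ^ (2 * s') * δ ^ (2 * s') := Real.mul_rpow (by norm_num) hδ.le
      _ ≤ 2 * δ ^ (2 * s') := by
          apply mul_le_mul_of_nonneg_right _ (by positivity)
          calc (2 : ℝ) ^ (2 * s') ≤ 2 ^ (1 : ℝ) :=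
                Real.rpow_le_rpow_of_exponent_le (by norm_num) (by linarith)
            _ = 2 := Real.rpow_one 2
  calc (b ^ 2)⁻¹ * (A ^ 2 * η ^ (2 * s) * (b * r) ^ 2) = A ^ 2 * η ^ (2 * s) * r ^ 2 := by
        field_simp
    _ ≤ A ^ 2 * (2 * δ ^ (2 * s')) * r ^ 2 := by gcongr
    _ = 2 * A ^ 2 * δ ^ (2 * s') * r ^ 2 := by ring

lemma fb_rsc {b : ℝ} (hb : 0 < b) {G : E 2 → ℂ} (hs : ∀ z, b ≤ ‖z‖ → G z = 0) :
    fb (rsc b G) = rsc b G := by
  funext z
  unfold fb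
  by_cases hz : z ∈ ball (0 : E 2) 1
  · rw [indicator_of_mem hz]
  · rw [indicator_of_notMem hz]
    rw [mem_ball_zero_iff, not_lt] at hz
    unfold rsc
    rw [hs]
    rw [norm_smul, Real.norm_of_nonneg hb.le]
    nlinarith

theorem a_FDL : Pool.Agent.W203.SP.S_FDL :=
  Pool.Agent.W203.SP.t_FDL (Pool.Agent.W933.SP.t_FD Pool.Agent.W612.SP.t_SPH)
    Pool.Agent.W293.SP.t_MG

theorem FD_bound {s b : ℝ} (hs : 1 / 4 < s) (hb : 0 < b) (hb1 : b < 1) {p : ℝ} (hp : 3 < p) :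
    ∃ C : ℝ≥0∞, C < ⊤ ∧ ∀ (A : ℝ) (G : E 2 → ℂ), 0 < A → Measurable G → (∀ z, ‖G z‖ ≤ A) →
      (∀ z, b ≤ ‖z‖ → G z = 0) → HM A s G →
      ∫⁻ ξ, ‖FD (fun _ : Fin 2 => b) (rsc b G) ξ‖ₑ ^ p ≤ C * ENNReal.ofReal (A ^ p) := by
  set s' := min s (1 / 2) with hs'
  have hs'4 : 1 / 4 < s' := lt_min hs (by norm_num)
  obtain ⟨q, hq3, hq⟩ : ∃ q : ℝ, 3 < q ∧ q < min p (min 4 (2 + 4 * s')) := by
    apply exists_between
    refine lt_min hp (lt_min (by norm_num) (by linarith))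
  have hqp : q < p := hq.trans_le (min_le_left _ _)
  have hq4 : q < 4 := hq.trans_le ((min_le_right _ _).trans (min_le_left _ _))
  have hqs : q < 2 + 4 * s' := hq.trans_le ((min_le_right _ _).trans (min_le_right _ _))
  have hb2 : b ^ 2 < 1 := by nlinarith
  obtain ⟨C, hC, hmain⟩ := main_reg 1 (σ := b ^ 2) (q := q) (s := s') (by positivity) hb2 hq3 hq4
    hqs (min_le_right _ _)
  set S : ℝ := (sg 3).real univ with hS
  have hS0 : 0 ≤ S := measureReal_nonneg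
  set K : ℝ≥0∞ := ENNReal.ofReal ((∏ _j : Fin 2, b) ^ q) * ENNReal.ofReal ((∏ _j : Fin 2, b)⁻¹)
    with hK
  refine ⟨ENNReal.ofReal (S ^ (p - q)) * (K * (C * ENNReal.ofReal (2 ^ (q / 2)))), ?_, ?_⟩
  · refine ENNReal.mul_lt_top ENNReal.ofReal_lt_top (ENNReal.mul_lt_top ?_
      (ENNReal.mul_lt_top hC ENNReal.ofReal_lt_top))
    exact ENNReal.mul_lt_top ENNReal.ofReal_lt_top ENNReal.ofReal_lt_top
  intro A G hA hG hGA hGs hr
  have hD := rsc_DS hb hG hGA hGs
  have h1 : ∫⁻ ξ, ‖FD (fun _ : Fin 2 => b) (rsc b G) ξ‖ₑ ^ q ≤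
      K * (C * ENNReal.ofReal ((2 * A ^ 2) ^ (q / 2))) := by
    rw [a_FDL 2 (fun _ => b) (fun _ => ⟨hb, hb1⟩) (rsc b G) hD.meas q (by linarith), fb_rsc hb hGs,
      hK]
    apply mul_le_mul' le_rfl
    exact hmain (2 * A ^ 2) A (rsc b G) hD (by nlinarith [sq_nonneg A]) (by positivity)
      (rsc_HR hb hb1 hG (by linarith) hr)
  have h2 : ∀ ξ, ‖FD (fun _ : Fin 2 => b) (rsc b G) ξ‖ₑ ^ p ≤
      ENNReal.ofReal ((A * S) ^ (p - q)) * ‖FD (fun _ : Fin 2 => b) (rsc b G) ξ‖ₑ ^ q := by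
    intro ξ
    have h2 : ‖FD (fun _ : Fin 2 => b) (rsc b G) ξ‖ₑ ≤ ENNReal.ofReal (A * S) := by
      rw [← ofReal_norm]
      exact ENNReal.ofReal_le_ofReal (Pool.Agent.W203.SP.FD_bd _ hD.bd ξ)
    have h3 : ‖FD (fun _ : Fin 2 => b) (rsc b G) ξ‖ₑ ^ p =
        ‖FD (fun _ : Fin 2 => b) (rsc b G) ξ‖ₑ ^ (p - q) *
          ‖FD (fun _ : Fin 2 => b) (rsc b G) ξ‖ₑ ^ q := by
      rw [← ENNReal.rpow_add_of_nonneg _ _ (by linarith) (by linarith)]
      congr 1
      ring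
    rw [h3, ← ENNReal.ofReal_rpow_of_nonneg (by positivity) (by linarith)]
    exact mul_le_mul' (ENNReal.rpow_le_rpow h2 (by linarith)) le_rfl
  refine (lintegral_mono h2).trans ?_
  rw [lintegral_const_mul' _ _ ENNReal.ofReal_ne_top]
  refine (mul_le_mul' le_rfl h1).trans (le_of_eq ?_)
  have e1 : ENNReal.ofReal ((A * S) ^ (p - q)) =
      ENNReal.ofReal (S ^ (p - q)) * ENNReal.ofReal (A ^ (p - q)) := by
    rw [← ENNReal.ofReal_mul (by positivity), Real.mul_rpow hA.le hS0, mul_comm]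
  have e2 : ENNReal.ofReal ((2 * A ^ 2) ^ (q / 2)) =
      ENNReal.ofReal (2 ^ (q / 2)) * ENNReal.ofReal (A ^ q) := by
    rw [← ENNReal.ofReal_mul (by positivity), Real.mul_rpow (by norm_num) (by positivity)]
    congr 2
    rw [← Real.rpow_natCast A 2, ← Real.rpow_mul hA.le]
    congr 1
    push_cast
    ring
  have e3 : ENNReal.ofReal (A ^ p) = ENNReal.ofReal (A ^ (p - q)) * ENNReal.ofReal (A ^ q) := by
    rw [← ENNReal.ofReal_mul (by positivity), ← Real.rpow_add hA]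
    congr 2
    ring
  rw [e1, e2, e3]
  ring

end Pool.Agent.R245.OD
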