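import Mathlib
import Pool.Agent.R245.OD.Sph
set_option autoImplicit false

/-! Bounded variation along the rays implies the regularity condition with `s = 1/2`. -/

namespace Pool.Agent.R245.OD

open MeasureTheory Set Complex Filter Metric
open scoped ENNReal NNReal Topology
open Pool.Agent.H153R4 (E)

lemma var_sum {A : ℝ≥0∞} {l : ℝ} (hl : 1 < l) {G : E 2 → ℂ} (z : E 2)
    (hv : eVariationOn (fun t : ℝ => G (t • z)) (Ioi 0) ≤ A) :
    ∑' k : ℕ, ‖G (l • ((l ^ k)⁻¹ • z)) - G ((l ^ k)⁻¹ • z)‖ₑ ≤ A := by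
  have hl0 : 0 < l := by linarith
  rw [ENNReal.tsum_eq_iSup_nat]
  refine iSup_le fun N => ?_
  refine le_trans ?_ hv
  set u : ℕ → ℝ := fun i => l ^ ((i : ℤ) - ((N : ℤ) - 1)) with hu
  have humono : Monotone u := by
    intro i j hij
    exact zpow_le_zpow_right₀ hl.le (by omega)
  have hupos : ∀ i, u i ∈ Ioi (0 : ℝ) := fun i => zpow_pos hl0 _
  have h := eVariationOn.sum_le (f := fun t : ℝ => G (t • z)) (n := N) humono hupos
  refine le_trans (le_of_eq ?_) h
  rw [← Finset.sum_range_reflect]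
  apply Finset.sum_congr rfl
  intro i hi
  have hi' : i < N := Finset.mem_range.1 hi
  have e1 : u (i + 1) = l * (l ^ (N - 1 - i))⁻¹ := by
    rw [hu]
    simp only
    rw [← zpow_natCast l (N - 1 - i), ← zpow_neg, ← zpow_one_add₀ hl0.ne']
    congr 1
    push_cast [Nat.cast_sub (show i ≤ N - 1 by omega), Nat.cast_sub (show 1 ≤ N by omega)]
    ring
  have e2 : u i = (l ^ (N - 1 - i))⁻¹ := by
    rw [hu]
    simp only
    rw [← zpow_natCast l (N - 1 - i), ← zpow_neg]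
    congr 1
    push_cast [Nat.cast_sub (show i ≤ N - 1 by omega), Nat.cast_sub (show 1 ≤ N by omega)]
    ring
  rw [e1, e2, edist_eq_enorm_sub, smul_smul]

/-- the annulus -/
def An0 (l r : ℝ) (k : ℕ) : Set (E 2) := {z | r < l ^ (k + 1) * ‖z‖ ∧ l ^ k * ‖z‖ ≤ r}

lemma An0_meas (l r : ℝ) (k : ℕ) : MeasurableSet (An0 l r k) :=
  (measurableSet_lt measurable_const (measurable_norm.const_mul _)).inter
    (measurableSet_le (measurable_norm.const_mul _) measurable_const)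

lemma bv_one {A : ℝ≥0∞} {l r : ℝ} (hl : 1 < l) (hr : 0 < r) {G : E 2 → ℂ} (hG : Measurable G)
    (hv : ∀ z, eVariationOn (fun t : ℝ => G (t • z)) (Ioi 0) ≤ A) :
    ∫⁻ z in closedBall (0 : E 2) r, ‖G (l • z) - G z‖ₑ ≤
      A * ENNReal.ofReal (Real.pi * r ^ 2 * (1 - (l ^ 2)⁻¹)) := by
  have hl0 : 0 < l := by linarith
  set Φ : E 2 → ℝ≥0∞ := fun z => ‖G (l • z) - G z‖ₑ with hΦ
  have hΦm : Measurable Φ := ((hG.comp (measurable_const_smul _)).sub hG).enorm
  have h0 : closedBall (0 : E 2) r ⊆ {0} ∪ ⋃ k : ℕ, An0 l r k := by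
    intro z hz
    rw [mem_closedBall_zero_iff] at hz
    by_cases hz0 : z = 0
    · left
      exact hz0
    right
    have hzp : 0 < ‖z‖ := norm_pos_iff.2 hz0
    obtain ⟨n, hn1, hn2⟩ := exists_nat_pow_near (x := r / ‖z‖) (y := l)
      ((one_le_div hzp).2 hz) hl
    rw [mem_iUnion]
    refine ⟨n, ?_, ?_⟩
    · exact (div_lt_iff₀ hzp).1 hn2
    · exact (le_div_iff₀ hzp).1 hn1
  have h1 : ∫⁻ z in closedBall (0 : E 2) r, Φ z ≤ ∑' k : ℕ, ∫⁻ z in An0 l r k, Φ z := by
    calc ∫⁻ z in closedBall (0 : E 2) r, Φ z ≤ ∫⁻ z in {0} ∪ ⋃ k : ℕ, An0 l r k, Φ z :=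
          lintegral_mono_set h0
      _ ≤ (∫⁻ z in ({0} : Set (E 2)), Φ z) + ∫⁻ z in ⋃ k : ℕ, An0 l r k, Φ z :=
          lintegral_union_le _ _ _
      _ = ∫⁻ z in ⋃ k : ℕ, An0 l r k, Φ z := by
          have : (volume : Measure (E 2)).restrict {0} = 0 := by
            rw [Measure.restrict_eq_zero]
            exact measure_singleton _
          rw [this, lintegral_zero_measure, zero_add]
      _ ≤ _ := lintegral_iUnion_le _ _
  have h2 : ∀ k : ℕ, ∫⁻ z in An0 l r k, Φ z ≤ ∫⁻ z in An0 l r 0, Φ ((l ^ k)⁻¹ • z) := by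
    intro k
    have hc : 0 < (l ^ k)⁻¹ := by positivity
    have hc1 : (l ^ k)⁻¹ ≤ 1 := inv_le_one_of_one_le₀ (one_le_pow₀ hl.le)
    have h3 := lint_smul ((An0 l r k).indicator Φ) (hΦm.indicator (An0_meas l r k)) hc
    have h4 : ∫⁻ z in An0 l r k, Φ z = ENNReal.ofReal (((l ^ k)⁻¹) ^ 2) *
        ∫⁻ x, (An0 l r k).indicator Φ ((l ^ k)⁻¹ • x) := by
      rw [h3, ← mul_assoc, ← ENNReal.ofReal_mul (by positivity), mul_inv_cancel₀ (by positivity),
        ENNReal.ofReal_one, one_mul, lintegral_indicator (An0_meas l r k)]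
    rw [h4]
    calc ENNReal.ofReal (((l ^ k)⁻¹) ^ 2) * ∫⁻ x, (An0 l r k).indicator Φ ((l ^ k)⁻¹ • x) ≤
          1 * ∫⁻ x, (An0 l r k).indicator Φ ((l ^ k)⁻¹ • x) := by
          refine mul_le_mul' ?_ le_rfl
          rw [← ENNReal.ofReal_one]
          exact ENNReal.ofReal_le_ofReal (pow_le_one₀ hc.le hc1)
      _ = ∫⁻ z in An0 l r 0, Φ ((l ^ k)⁻¹ • z) := by
          rw [one_mul, ← lintegral_indicator (An0_meas l r 0)]
          apply lintegral_congr
          intro x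
          have hiff : (l ^ k)⁻¹ • x ∈ An0 l r k ↔ x ∈ An0 l r 0 := by
            unfold An0
            simp only [mem_ofPred_eq, norm_smul, Real.norm_of_nonneg hc.le]
            have hlk : l ^ k ≠ 0 := by positivity
            rw [show l ^ (k + 1) * ((l ^ k)⁻¹ * ‖x‖) = l ^ (0 + 1) * ‖x‖ by
              rw [pow_succ]; field_simp; try ring, show l ^ k * ((l ^ k)⁻¹ * ‖x‖) = l ^ 0 * ‖x‖ by
              field_simp]
          by_cases hx : x ∈ An0 l r 0
          · rw [indicator_of_mem (hiff.2 hx), indicator_of_mem hx]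
          · rw [indicator_of_notMem (fun h => hx (hiff.1 h)), indicator_of_notMem hx]
  have h5 : ∑' k : ℕ, ∫⁻ z in An0 l r 0, Φ ((l ^ k)⁻¹ • z) ≤ A * volume (An0 l r 0) := by
    have hm : ∀ k : ℕ, Measurable fun z : E 2 => Φ ((l ^ k)⁻¹ • z) :=
      fun k => hΦm.comp (measurable_const_smul _)
    rw [← lintegral_tsum fun k => (hm k).aemeasurable]
    rw [← setLIntegral_const]
    apply lintegral_mono
    intro z
    exact var_sum hl z (hv z)
  refine h1.trans ((ENNReal.tsum_le_tsum h2).trans (h5.trans (mul_le_mul' le_rfl ?_)))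
  -- the volume of the annulus
  have h6 : An0 l r 0 = closedBall (0 : E 2) r \ closedBall (0 : E 2) (r / l) := by
    ext z
    simp only [An0, mem_ofPred_eq, Set.mem_sdiff, mem_closedBall_zero_iff, zero_add, pow_one, pow_zero,
      one_mul, not_le, div_lt_iff₀ hl0]
    rw [mul_comm ‖z‖ l]
    tauto
  have hsub : closedBall (0 : E 2) (r / l) ⊆ closedBall (0 : E 2) r :=
    closedBall_subset_closedBall (div_le_self hr.le hl.le)
  rw [h6, measure_sdiff hsub measurableSet_closedBall.nullMeasurableSet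
    (measure_closedBall_lt_top).ne, EuclideanSpace.volume_closedBall_fin_two,
    EuclideanSpace.volume_closedBall_fin_two]
  rw [← ENNReal.ofReal_pow hr.le, ← ENNReal.ofReal_pow (by positivity),
    ← ENNReal.ofReal_mul (by positivity), ← ENNReal.ofReal_mul (by positivity),
    ← ENNReal.ofReal_sub _ (by positivity)]
  apply ENNReal.ofReal_le_ofReal
  rw [div_pow]
  apply le_of_eq
  field_simp

theorem bv_HM {A : ℝ} {G : E 2 → ℂ} (hG : Measurable G) (hA : ∀ z, ‖G z‖ ≤ A)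
    (hv : ∀ z, eVariationOn (fun t : ℝ => G (t • z)) (Ioi 0) ≤ ENNReal.ofReal A) :
    HM (4 * A) (1 / 2) G := by
  intro h r hh hh1 hr hr1
  have hA0 : 0 ≤ A := (norm_nonneg _).trans (hA 0)
  have h1 := bv_one (l := 1 + h) (by linarith) hr hG hv
  have h2 : ∀ z : E 2, ‖G ((1 + h) • z) - G z‖ₑ ^ 2 ≤
      ENNReal.ofReal (2 * A) * ‖G ((1 + h) • z) - G z‖ₑ := by
    intro z
    rw [pow_two]
    refine mul_le_mul' ?_ le_rfl
    rw [← ofReal_norm]
    apply ENNReal.ofReal_le_ofReal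
    have := norm_sub_le (G ((1 + h) • z)) (G z)
    have := hA ((1 + h) • z)
    have := hA z
    linarith
  refine (lintegral_mono h2).trans ?_
  rw [lintegral_const_mul' _ _ ENNReal.ofReal_ne_top]
  refine (mul_le_mul' le_rfl h1).trans ?_
  rw [← ENNReal.ofReal_mul hA0, ← ENNReal.ofReal_mul (by positivity)]
  apply ENNReal.ofReal_le_ofReal
  have e1 : 1 - ((1 + h) ^ 2)⁻¹ ≤ 2 * h := by
    have h3 : (0 : ℝ) < (1 + h) ^ 2 := by positivity
    have : 1 - ((1 + h) ^ 2)⁻¹ = (2 * h + h ^ 2) / (1 + h) ^ 2 := by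
      field_simp; ring
    rw [this, div_le_iff₀ h3]
    nlinarith [mul_pos hh hh, mul_pos (mul_pos hh hh) hh]
  have e2 : h ^ (2 * (1 / 2 : ℝ)) = h := by
    norm_num
  rw [e2]
  have hpi := Real.pi_lt_four
  have hpi0 := Real.pi_pos
  calc 2 * A * (A * (Real.pi * r ^ 2 * (1 - ((1 + h) ^ 2)⁻¹))) ≤
        2 * A * (A * (Real.pi * r ^ 2 * (2 * h))) := by gcongr
    _ ≤ 2 * A * (A * (4 * r ^ 2 * (2 * h))) := by gcongr
    _ = (4 * A) ^ 2 * h * r ^ 2 := by ring

end Pool.Agent.R245.OD
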