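import Mathlib
import Pool.Agent.R245.OD.Av4
import Pool.Agent.R245.OD.Sing3
set_option autoImplicit false

/-! Local constancy in the dilation parameter (a Sobolev inequality). -/

namespace Pool.Agent.R245.OD

open MeasureTheory Set Metric Complex FourierTransform
open scoped ENNReal RealInnerProductSpace ComplexConjugate Topology
open Pool.Agent.W203.SP (ee pw gs DS DM NQ)
open Pool.Agent.H153R4 (E BS ST ST_meas ST_vol cube cube_vol cube_meas)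

lemma cs_sq {X : Type*} [MeasurableSpace X] (μ : Measure X) (g : X → ℝ≥0∞)
    (hg : AEMeasurable g μ) : (∫⁻ x, g x ∂μ) ^ 2 ≤ μ univ * ∫⁻ x, g x ^ 2 ∂μ := by
  have h := ENNReal.lintegral_mul_le_Lp_mul_Lq μ Real.HolderConjugate.two_two
    (f := fun _ => 1) (g := g) aemeasurable_const hg
  simp only [Pi.mul_apply, one_mul, ENNReal.one_rpow, lintegral_const] at h
  have e : ∀ z : ℝ≥0∞, (z ^ (1 / 2 : ℝ)) ^ 2 = z := fun z => by
    rw [← ENNReal.rpow_natCast, ← ENNReal.rpow_mul]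
    norm_num
  have e2 : ∀ z : ℝ≥0∞, z ^ (2 : ℝ) = z ^ 2 := fun z => by
    rw [← ENNReal.rpow_natCast]
    norm_num
  simp only [e2] at h
  have h2 := pow_le_pow_left' h 2
  rw [mul_pow, e, e] at h2
  exact h2

lemma cs_four {X : Type*} [MeasurableSpace X] (μ : Measure X) (g : X → ℝ≥0∞)
    (hg : AEMeasurable g μ) : (∫⁻ x, g x ∂μ) ^ 4 ≤ μ univ ^ 3 * ∫⁻ x, g x ^ 4 ∂μ := by
  have h1 := cs_sq μ g hg
  have h2 := cs_sq μ (fun x => g x ^ 2) (hg.pow_const 2)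
  calc (∫⁻ x, g x ∂μ) ^ 4 = ((∫⁻ x, g x ∂μ) ^ 2) ^ 2 := by ring
    _ ≤ (μ univ * ∫⁻ x, g x ^ 2 ∂μ) ^ 2 := pow_le_pow_left' h1 2
    _ = μ univ ^ 2 * (∫⁻ x, g x ^ 2 ∂μ) ^ 2 := by ring
    _ ≤ μ univ ^ 2 * (μ univ * ∫⁻ x, (g x ^ 2) ^ 2 ∂μ) := by gcongr
    _ = μ univ ^ 3 * ∫⁻ x, g x ^ 4 ∂μ := by
        simp only [← pow_mul]
        ring

lemma add_pow4 (x y : ℝ≥0∞) : (x + y) ^ 4 ≤ 8 * (x ^ 4 + y ^ 4) := by
  have h := ENNReal.rpow_add_le_mul_rpow_add_rpow x y (p := (4:ℝ)) (by norm_num)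
  norm_num at h
  exact h

/-- a one dimensional Sobolev inequality -/
lemma sob {c d : ℝ} (Q Q' : ℝ → ℂ) (hQ : ∀ s ∈ Icc c d, HasDerivAt Q (Q' s) s)
    (hc : ContinuousOn Q' (Icc c d)) (L1 : ℝ) (hL : L1 ∈ Icc c d) :
    ENNReal.ofReal (d - c) * ‖Q L1‖ₑ ^ 4 ≤
      8 * (∫⁻ s in Icc c d, ‖Q s‖ₑ ^ 4) +
        8 * (ENNReal.ofReal (d - c) ^ 4 * ∫⁻ s in Icc c d, ‖Q' s‖ₑ ^ 4) := by
  set μ : Measure ℝ := volume.restrict (Icc c d) with hμ
  have hμu : μ univ = ENNReal.ofReal (d - c) := by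
    rw [hμ, Measure.restrict_apply_univ, Real.volume_Icc]
  have hm' : AEMeasurable (fun s => ‖Q' s‖ₑ) μ :=
    (hc.aestronglyMeasurable measurableSet_Icc).enorm
  have hcQ : ContinuousOn Q (Icc c d) := fun s hs => (hQ s hs).continuousAt.continuousWithinAt
  have hm : AEMeasurable (fun s => ‖Q s‖ₑ) μ :=
    (hcQ.aestronglyMeasurable measurableSet_Icc).enorm
  set J := ∫⁻ s, ‖Q' s‖ₑ ∂μ with hJ
  have hpt : ∀ s ∈ Icc c d, ‖Q L1‖ₑ ≤ ‖Q s‖ₑ + J := by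
    intro s hs
    have hsub : uIcc s L1 ⊆ Icc c d := uIcc_subset_Icc hs hL
    have e : ∫ y in s..L1, Q' y = Q L1 - Q s :=
      intervalIntegral.integral_eq_sub_of_hasDerivAt (fun y hy => hQ y (hsub hy))
        (hc.mono hsub).intervalIntegrable
    have e2 : Q L1 = Q s + ∫ y in s..L1, Q' y := by rw [e]; ring
    rw [e2]
    refine (enorm_add_le _ _).trans ?_
    gcongr
    have h1 : ‖∫ y in s..L1, Q' y‖ₑ = ‖∫ y in uIoc s L1, Q' y‖ₑ := by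
      rw [← ofReal_norm, ← ofReal_norm,
        intervalIntegral.norm_intervalIntegral_eq]
    rw [h1]
    refine (enorm_integral_le_lintegral_enorm _).trans ?_
    exact lintegral_mono_set (uIoc_subset_uIcc.trans hsub)
  calc ENNReal.ofReal (d - c) * ‖Q L1‖ₑ ^ 4 = ∫⁻ _ in Icc c d, ‖Q L1‖ₑ ^ 4 := by
        rw [lintegral_const, ← hμ, hμu, mul_comm]
    _ ≤ ∫⁻ s in Icc c d, (8 * ‖Q s‖ₑ ^ 4 + 8 * J ^ 4) := by
        apply setLIntegral_mono' measurableSet_Icc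
        intro s hs
        calc ‖Q L1‖ₑ ^ 4 ≤ (‖Q s‖ₑ + J) ^ 4 := pow_le_pow_left' (hpt s hs) 4
          _ ≤ 8 * (‖Q s‖ₑ ^ 4 + J ^ 4) := add_pow4 _ _
          _ = _ := by ring
    _ = 8 * (∫⁻ s in Icc c d, ‖Q s‖ₑ ^ 4) + 8 * J ^ 4 * ENNReal.ofReal (d - c) := by
        rw [lintegral_add_right _ measurable_const, lintegral_const_mul'' _ (hm.pow_const 4),
          lintegral_const, ← hμ, hμu]
    _ ≤ _ := by
        have h4 := cs_four μ _ hm'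
        rw [hμu] at h4
        refine add_le_add le_rfl ?_
        calc 8 * J ^ 4 * ENNReal.ofReal (d - c) ≤
              8 * (ENNReal.ofReal (d - c) ^ 3 * ∫⁻ s, ‖Q' s‖ₑ ^ 4 ∂μ) * ENNReal.ofReal (d - c) := by
              gcongr
          _ = _ := by ring

/-- multiplication by the square of the norm -/
noncomputable def rf (f : E 2 → ℂ) (z : E 2) : ℂ := ((‖z‖ ^ 2 : ℝ) : ℂ) * f z

lemma rf_DS {M : ℝ} {f : E 2 → ℂ} (hf : DS M f) : DS M (rf f) := by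
  have hM : 0 ≤ M := (norm_nonneg _).trans (hf.bd 0)
  refine ⟨?_, fun z => ?_, fun z hz => ?_⟩
  · exact (Complex.measurable_ofReal.comp (measurable_norm.pow_const 2)).mul hf.meas
  · unfold rf
    rw [norm_mul, Complex.norm_real, Real.norm_eq_abs, abs_of_nonneg (by positivity)]
    rcases lt_or_ge 1 ‖z‖ with h | h
    · rw [hf.supp z h, norm_zero, mul_zero]
      exact hM
    · calc ‖z‖ ^ 2 * ‖f z‖ ≤ 1 * M := by
            apply mul_le_mul (pow_le_one₀ (norm_nonneg z) h) (hf.bd z) (norm_nonneg _) zero_le_one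
        _ = M := one_mul M
  · unfold rf
    rw [hf.supp z hz, mul_zero]

/-- derivative of the modulated function -/
noncomputable def gdr (m : ℕ) (t L : ℝ) (f : E 2 → ℂ) (z : E 2) : ℂ :=
  (((-(Real.pi * t) : ℝ) : ℂ) * I) * gs (m + 1) t (fun _ => L) (rf f) z +
    ((m / 2 : ℝ) : ℂ) * gs (m + 2) t (fun _ => L) (rf f) z

lemma inv_pow_deriv (m : ℕ) {r L : ℝ} (h : 0 < 1 - L * r) :
    HasDerivAt (fun L => 1 / f0 r L ^ m) ((m / 2) * r / f0 r L ^ (m + 2)) L := by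
  have hs : 0 < f0 r L := Real.sqrt_pos.2 h
  have h2 : HasDerivAt (fun σ : ℝ => 1 - σ * r) (-r) L := by
    have := ((hasDerivAt_id L).mul_const r).const_sub 1
    exact this.congr_deriv (by simp)
  have h3 : HasDerivAt (f0 r) (-r / (2 * f0 r L)) L := h2.sqrt h.ne'
  have h4 := (h3.pow m).inv (show (f0 r ^ m) L ≠ 0 from (pow_pos hs m).ne')
  have e : (fun L => 1 / f0 r L ^ m) = (f0 r ^ m)⁻¹ := by
    ext L
    simp
  rw [e]
  refine h4.congr_deriv ?_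
  rcases Nat.eq_zero_or_pos m with rfl | hm
  · simp
  · obtain ⟨j, rfl⟩ : ∃ j, m = j + 1 := ⟨m - 1, by omega⟩
    simp only [Pi.pow_apply, Nat.add_sub_cancel]
    field_simp
    push_cast
    ring

lemma gs_deriv (m : ℕ) (t : ℝ) {L M : ℝ} (hL0 : 0 ≤ L) (hL1 : L < 1) {f : E 2 → ℂ}
    (hf : DS M f) (z : E 2) :
    HasDerivAt (fun L => gs m t (fun _ => L) f z) (gdr m t L f z) L := by
  rcases lt_or_ge 1 ‖z‖ with h | h
  · have e1 : (fun L : ℝ => gs m t (fun _ => L) f z) = fun _ => 0 := by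
      ext L
      rw [gs_const, hf.supp z h, mul_zero]
    have e2 : gdr m t L f z = 0 := by
      unfold gdr
      rw [gs_const, gs_const]
      unfold rf
      rw [hf.supp z h]
      simp
    rw [e1, e2]
    exact hasDerivAt_const L 0
  · have hz : ‖z‖ ^ 2 ≤ 1 := pow_le_one₀ (norm_nonneg z) h
    have hr0 : 0 ≤ ‖z‖ ^ 2 := by positivity
    have hpos : 0 < 1 - L * ‖z‖ ^ 2 := by nlinarith
    have hs : 0 < f0 (‖z‖ ^ 2) L := Real.sqrt_pos.2 hpos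
    have h1 : HasDerivAt (f0 (‖z‖ ^ 2)) (-‖z‖ ^ 2 / (2 * f0 (‖z‖ ^ 2) L)) L := by
      have h2 : HasDerivAt (fun σ : ℝ => 1 - σ * ‖z‖ ^ 2) (-‖z‖ ^ 2) L := by
        have := ((hasDerivAt_id L).mul_const (‖z‖ ^ 2)).const_sub 1
        exact this.congr_deriv (by simp)
      exact h2.sqrt hpos.ne'
    have h2 := inv_pow_deriv m hpos
    have h3 : HasDerivAt (fun L => ((2 * Real.pi * (t * f0 (‖z‖ ^ 2) L) : ℝ) : ℂ) * I)
        (((2 * Real.pi * (t * (-‖z‖ ^ 2 / (2 * f0 (‖z‖ ^ 2) L))) : ℝ) : ℂ) * I) L := by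
      have := ((h1.const_mul t).const_mul (2 * Real.pi)).ofReal_comp.mul_const I
      exact this
    have h4 := (h3.cexp.mul h2.ofReal_comp).mul_const (f z)
    refine (h4.congr_of_eventuallyEq (Filter.Eventually.of_forall fun x => ?_)).congr_deriv ?_
    · rw [gs_const]
      simp only [Pi.mul_apply, ee]
    · unfold gdr
      rw [gs_const, gs_const]
      unfold rf ee
      have hsc : ((f0 (‖z‖ ^ 2) L : ℝ) : ℂ) ≠ 0 := by exact_mod_cast hs.ne'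
      set X := cexp (((2 * Real.pi * (t * f0 (‖z‖ ^ 2) L) : ℝ) : ℂ) * I) with hX
      push_cast
      field_simp
      ring

lemma gs_m {m : ℕ} {t L M : ℝ} {f : E 2 → ℂ} (hL0 : 0 < L) (hL1 : L < 1) (hf : DS M f) :
    Measurable (gs m t (fun _ => L) f) :=
  (gs_BS hL0 hL1 m t (σ := L) ⟨le_rfl, le_rfl⟩ hf).meas

lemma gdr_BS (m : ℕ) (t : ℝ) {L M a b : ℝ} (ha : 0 < a) (hb : b < 1) (hL : L ∈ Icc a b)
    {f : E 2 → ℂ} (hf : DS M f) :
    BS (Real.pi * |t| * ((kb b ^ (m + 1))⁻¹ * M) + m / 2 * ((kb b ^ (m + 2))⁻¹ * M))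
      (gdr m t L f) := by
  have h1 := gs_BS ha hb (m + 1) t hL (rf_DS hf)
  have h2 := gs_BS ha hb (m + 2) t hL (rf_DS hf)
  refine ⟨?_, fun z => ?_, fun z hz => ?_⟩
  · exact (h1.meas.const_mul _).add (h2.meas.const_mul _)
  · unfold gdr
    refine (norm_add_le _ _).trans ?_
    rw [norm_mul, norm_mul, norm_mul, Complex.norm_real, Complex.norm_real, Complex.norm_I,
      mul_one, Real.norm_eq_abs, Real.norm_eq_abs, abs_neg, abs_mul, abs_of_pos Real.pi_pos,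
      abs_of_nonneg (by positivity : (0:ℝ) ≤ m / 2)]
    have := Real.pi_pos
    have k1 := h1.bd z
    have k2 := h2.bd z
    gcongr
  · unfold gdr
    rw [h1.supp z hz, h2.supp z hz]
    simp

lemma fc_int {g : E 2 → ℂ} (hg : Integrable g) (x : E 2) :
    Integrable fun z => Real.fourierChar (-⟪z, x⟫) • g z := by
  have h := (Real.fourierIntegral_convergent_iff (μ := volume) (f := g) x).2 hg
  exact h

lemma F_gdr (m : ℕ) (t : ℝ) {L M : ℝ} (hL0 : 0 < L) (hL1 : L < 1) {f : E 2 → ℂ}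
    (hf : DS M f) (x : E 2) : 𝓕 (gdr m t L f) x =
      (((-(Real.pi * t) : ℝ) : ℂ) * I) * 𝓕 (gs (m + 1) t (fun _ => L) (rf f)) x +
        ((m / 2 : ℝ) : ℂ) * 𝓕 (gs (m + 2) t (fun _ => L) (rf f)) x := by
  have i1 := fc_int (gs_BS hL0 hL1 (m + 1) t (σ := L) ⟨le_rfl, le_rfl⟩ (rf_DS hf)).int x
  have i2 := fc_int (gs_BS hL0 hL1 (m + 2) t (σ := L) ⟨le_rfl, le_rfl⟩ (rf_DS hf)).int x
  simp only [Real.fourier_eq]
  rw [← integral_const_mul, ← integral_const_mul, ← integral_add (i1.const_mul _) (i2.const_mul _)]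
  apply integral_congr_ae
  refine ae_of_all _ fun z => ?_
  simp only [gdr, Circle.smul_def, smul_eq_mul]
  ring

lemma F_deriv (m : ℕ) (t : ℝ) {L M : ℝ} (hL0 : 0 < L) (hL1 : L < 1) {f : E 2 → ℂ}
    (hf : DS M f) (x : E 2) :
    HasDerivAt (fun L => 𝓕 (gs m t (fun _ => L) f) x) (𝓕 (gdr m t L f) x) L := by
  obtain ⟨a, ha0, haL⟩ := exists_between hL0
  obtain ⟨b, hLb, hb1⟩ := exists_between hL1
  set C := Real.pi * |t| * ((kb b ^ (m + 1))⁻¹ * M) + m / 2 * ((kb b ^ (m + 2))⁻¹ * M) with hC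
  simp only [Real.fourier_eq]
  refine (hasDerivAt_integral_of_dominated_loc_of_deriv_le
    (F := fun L z => Real.fourierChar (-⟪z, x⟫) • gs m t (fun _ => L) f z)
    (F' := fun L z => Real.fourierChar (-⟪z, x⟫) • gdr m t L f z)
    (s := Ioo a b) (bound := (cube 2).indicator fun _ => C) (Ioo_mem_nhds haL hLb)
    ?_ ?_ ?_ ?_ ?_ ?_).2
  · filter_upwards [Ioo_mem_nhds haL hLb] with y hy
    exact (fc_int (gs_BS ha0 hb1 m t ⟨hy.1.le, hy.2.le⟩ hf).int x).aestronglyMeasurable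
  · exact fc_int (gs_BS ha0 hb1 m t ⟨haL.le, hLb.le⟩ hf).int x
  · exact (fc_int (gdr_BS m t ha0 hb1 ⟨haL.le, hLb.le⟩ hf).int x).aestronglyMeasurable
  · refine ae_of_all _ fun z y hy => ?_
    have hBS := gdr_BS m t ha0 hb1 ⟨hy.1.le, hy.2.le⟩ hf
    rw [Circle.norm_smul]
    by_cases hz : z ∈ cube 2
    · rw [indicator_of_mem hz]
      exact hBS.bd z
    · rw [indicator_of_notMem hz, hBS.supp z hz, norm_zero]
  · rw [integrable_indicator_iff (cube_meas 2)]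
    exact integrableOn_const (cube_vol 2).ne
  · refine ae_of_all _ fun z y hy => ?_
    have h1 := gs_deriv m t (ha0.trans hy.1).le (hy.2.trans hb1) hf z
    simp only [Circle.smul_def, smul_eq_mul]
    exact h1.const_mul _

lemma F_cont (m : ℕ) (t : ℝ) {M c d : ℝ} (hc : 0 < c) (hd : d < 1) {f : E 2 → ℂ}
    (hf : DS M f) (x : E 2) : ContinuousOn (fun L => 𝓕 (gs m t (fun _ => L) f) x) (Icc c d) :=
  fun L hL => (F_deriv m t (lt_of_lt_of_le hc hL.1) (lt_of_le_of_lt hL.2 hd)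
    hf x).continuousAt.continuousWithinAt

/-- the constant -/
noncomputable def cS (m : ℕ) : ℝ≥0∞ :=
  8 + 64 * ENNReal.ofReal (2 * Real.pi) ^ 4 + 64 * ENNReal.ofReal (m / 2) ^ 4

lemma cS_lt (m : ℕ) : cS m < ⊤ := by
  unfold cS
  refine ENNReal.add_lt_top.2 ⟨ENNReal.add_lt_top.2 ⟨by norm_num, ?_⟩, ?_⟩
  · exact ENNReal.mul_lt_top (by norm_num) (ENNReal.pow_lt_top ENNReal.ofReal_lt_top)
  · exact ENNReal.mul_lt_top (by norm_num) (ENNReal.pow_lt_top ENNReal.ofReal_lt_top)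

lemma sob_F (m : ℕ) {t T M c d : ℝ} (hc : 0 < c) (hcd : c ≤ d) (hd : d < 1) (hT : 1 ≤ T)
    (hdT : (d - c) * T ≤ 1) (ht : |t| ≤ 2 * T) {f : E 2 → ℂ} (hf : DS M f) (x : E 2) (L1 : ℝ)
    (hL : L1 ∈ Icc c d) :
    ENNReal.ofReal (d - c) * ‖𝓕 (gs m t (fun _ => L1) f) x‖ₑ ^ 4 ≤
      cS m * ∫⁻ s in Icc c d, (‖𝓕 (gs m t (fun _ => s) f) x‖ₑ ^ 4 +
        ‖𝓕 (gs (m + 1) t (fun _ => s) (rf f)) x‖ₑ ^ 4 +
        ‖𝓕 (gs (m + 2) t (fun _ => s) (rf f)) x‖ₑ ^ 4) := by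
  have c0 := F_cont m t hc hd hf x
  have c1 := F_cont (m + 1) t hc hd (rf_DS hf) x
  have c2 := F_cont (m + 2) t hc hd (rf_DS hf) x
  have hF : ∀ s ∈ Icc c d, 𝓕 (gdr m t s f) x = (((-(Real.pi * t) : ℝ) : ℂ) * I) *
      𝓕 (gs (m + 1) t (fun _ => s) (rf f)) x +
        ((m / 2 : ℝ) : ℂ) * 𝓕 (gs (m + 2) t (fun _ => s) (rf f)) x := by
    intro s hs
    exact F_gdr m t (lt_of_lt_of_le hc hs.1) (lt_of_le_of_lt hs.2 hd) hf x
  have cQ : ContinuousOn (fun s => 𝓕 (gdr m t s f) x) (Icc c d) :=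
    ((continuousOn_const.mul c1).add (continuousOn_const.mul c2)).congr hF
  have h1 := sob (fun s => 𝓕 (gs m t (fun _ => s) f) x) (fun s => 𝓕 (gdr m t s f) x)
    (fun s hs => F_deriv m t (lt_of_lt_of_le hc hs.1) (lt_of_le_of_lt hs.2 hd) hf x) cQ L1 hL
  refine h1.trans ?_
  have m0 : AEMeasurable (fun s : ℝ => ‖𝓕 (gs m t (fun _ => s) f) x‖ₑ ^ 4)
      (volume.restrict (Icc c d)) :=
    (c0.aestronglyMeasurable measurableSet_Icc).enorm.pow_const 4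
  have m1 : AEMeasurable (fun s : ℝ => ‖𝓕 (gs (m + 1) t (fun _ => s) (rf f)) x‖ₑ ^ 4)
      (volume.restrict (Icc c d)) :=
    (c1.aestronglyMeasurable measurableSet_Icc).enorm.pow_const 4
  have m2 : AEMeasurable (fun s : ℝ => ‖𝓕 (gs (m + 2) t (fun _ => s) (rf f)) x‖ₑ ^ 4)
      (volume.restrict (Icc c d)) :=
    (c2.aestronglyMeasurable measurableSet_Icc).enorm.pow_const 4
  rw [lintegral_add_right' _ m2, lintegral_add_right' _ m1]
  set I0 := ∫⁻ s in Icc c d, ‖𝓕 (gs m t (fun _ => s) f) x‖ₑ ^ 4 with hI0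
  set I1 := ∫⁻ s in Icc c d, ‖𝓕 (gs (m + 1) t (fun _ => s) (rf f)) x‖ₑ ^ 4 with hI1
  set I2 := ∫⁻ s in Icc c d, ‖𝓕 (gs (m + 2) t (fun _ => s) (rf f)) x‖ₑ ^ 4 with hI2
  have hd0 : 0 ≤ d - c := by linarith
  have hb : ∫⁻ s in Icc c d, ‖𝓕 (gdr m t s f) x‖ₑ ^ 4 ≤
      8 * (ENNReal.ofReal (2 * Real.pi * T) ^ 4 * I1 + ENNReal.ofReal (m / 2) ^ 4 * I2) := by
    rw [hI1, hI2, ← lintegral_const_mul'' _ m1, ← lintegral_const_mul'' _ m2,
      ← lintegral_add_left' (m1.const_mul _), ← lintegral_const_mul' _ _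
        (by norm_num : (8 : ℝ≥0∞) ≠ ⊤)]
    apply setLIntegral_mono' measurableSet_Icc
    intro s hs
    rw [hF s hs]
    have e1 : ‖(((-(Real.pi * t) : ℝ) : ℂ) * I) * 𝓕 (gs (m + 1) t (fun _ => s) (rf f)) x‖ₑ ≤
        ENNReal.ofReal (2 * Real.pi * T) * ‖𝓕 (gs (m + 1) t (fun _ => s) (rf f)) x‖ₑ := by
      rw [enorm_mul]
      gcongr
      rw [← ofReal_norm, norm_mul, Complex.norm_real, Complex.norm_I, mul_one, Real.norm_eq_abs,
        abs_neg, abs_mul, abs_of_pos Real.pi_pos]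
      apply ENNReal.ofReal_le_ofReal
      nlinarith [Real.pi_pos]
    have e2 : ‖((m / 2 : ℝ) : ℂ) * 𝓕 (gs (m + 2) t (fun _ => s) (rf f)) x‖ₑ =
        ENNReal.ofReal (m / 2) * ‖𝓕 (gs (m + 2) t (fun _ => s) (rf f)) x‖ₑ := by
      rw [enorm_mul, ← ofReal_norm, Complex.norm_real, Real.norm_eq_abs,
        abs_of_nonneg (by positivity)]
    calc ‖(((-(Real.pi * t) : ℝ) : ℂ) * I) * 𝓕 (gs (m + 1) t (fun _ => s) (rf f)) x +
          ((m / 2 : ℝ) : ℂ) * 𝓕 (gs (m + 2) t (fun _ => s) (rf f)) x‖ₑ ^ 4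
        ≤ (ENNReal.ofReal (2 * Real.pi * T) * ‖𝓕 (gs (m + 1) t (fun _ => s) (rf f)) x‖ₑ +
          ENNReal.ofReal (m / 2) * ‖𝓕 (gs (m + 2) t (fun _ => s) (rf f)) x‖ₑ) ^ 4 := by
          apply pow_le_pow_left'
          refine (enorm_add_le _ _).trans ?_
          rw [e2]
          gcongr
      _ ≤ _ := by
          refine (add_pow4 _ _).trans (le_of_eq ?_)
          simp only [mul_pow]
  have k1 : ENNReal.ofReal (d - c) ^ 4 * ENNReal.ofReal (2 * Real.pi * T) ^ 4 ≤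
      ENNReal.ofReal (2 * Real.pi) ^ 4 := by
    rw [← mul_pow, ← ENNReal.ofReal_mul hd0]
    apply pow_le_pow_left'
    apply ENNReal.ofReal_le_ofReal
    nlinarith [Real.pi_pos]
  have k2 : ENNReal.ofReal (d - c) ^ 4 ≤ 1 := by
    apply pow_le_one'
    rw [← ENNReal.ofReal_one]
    apply ENNReal.ofReal_le_ofReal
    nlinarith
  calc 8 * I0 + 8 * (ENNReal.ofReal (d - c) ^ 4 * ∫⁻ s in Icc c d, ‖𝓕 (gdr m t s f) x‖ₑ ^ 4)
      ≤ 8 * I0 + 8 * (ENNReal.ofReal (d - c) ^ 4 * (8 * (ENNReal.ofReal (2 * Real.pi * T) ^ 4 * I1 +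
        ENNReal.ofReal (m / 2) ^ 4 * I2))) := by gcongr
    _ = 8 * I0 + 64 * ((ENNReal.ofReal (d - c) ^ 4 * ENNReal.ofReal (2 * Real.pi * T) ^ 4) * I1) +
        64 * (ENNReal.ofReal (d - c) ^ 4 * (ENNReal.ofReal (m / 2) ^ 4 * I2)) := by ring
    _ ≤ 8 * I0 + 64 * (ENNReal.ofReal (2 * Real.pi) ^ 4 * I1) +
        64 * (1 * (ENNReal.ofReal (m / 2) ^ 4 * I2)) := by gcongr
    _ = 8 * I0 + (64 * ENNReal.ofReal (2 * Real.pi) ^ 4) * I1 +
        (64 * ENNReal.ofReal (m / 2) ^ 4) * I2 := by ring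
    _ ≤ cS m * I0 + cS m * I1 + cS m * I2 := by
        have n0 : 8 ≤ cS m := by
          unfold cS
          rw [add_assoc]
          exact le_self_add
        have n1 : 64 * ENNReal.ofReal (2 * Real.pi) ^ 4 ≤ cS m := by
          unfold cS
          exact le_add_self.trans le_self_add
        have n2 : 64 * ENNReal.ofReal (m / 2) ^ 4 ≤ cS m := by
          unfold cS
          exact le_add_self
        gcongr
    _ = cS m * (I0 + I1 + I2) := by ring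

/-- the majorant -/
noncomputable def Zm (m : ℕ) (T L : ℝ) (f : E 2 → ℂ) : ℝ≥0∞ :=
  DM m T (fun _ => L) f + DM (m + 1) T (fun _ => L) (rf f) + DM (m + 2) T (fun _ => L) (rf f)

lemma swap3 {X Y : Type*} [MeasurableSpace X] [MeasurableSpace Y] (μ : Measure X) (ν : Measure Y)
    [SFinite μ] [SFinite ν] (g0 g1 g2 : X → Y → ℝ≥0∞)
    (h0 : Measurable (Function.uncurry g0)) (h1 : Measurable (Function.uncurry g1))
    (h2 : Measurable (Function.uncurry g2)) :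
    ∫⁻ x, ∫⁻ y, (g0 x y + g1 x y + g2 x y) ∂ν ∂μ =
      ∫⁻ y, ((∫⁻ x, g0 x y ∂μ) + (∫⁻ x, g1 x y ∂μ) + ∫⁻ x, g2 x y ∂μ) ∂ν := by
  rw [lintegral_lintegral_swap (f := fun x y => g0 x y + g1 x y + g2 x y)
    ((h0.add h1).add h2).aemeasurable]
  apply lintegral_congr
  intro y
  have q1 : Measurable fun x => g1 x y := h1.comp (f := fun x => (x, y)) (by fun_prop)
  have q2 : Measurable fun x => g2 x y := h2.comp (f := fun x => (x, y)) (by fun_prop)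
  rw [lintegral_add_right _ q2, lintegral_add_right _ q1]

lemma FA (k : ℕ) {g : E 2 → ℂ} (hg : Measurable g) (t : ℝ) :
    Measurable (Function.uncurry fun (x : E 2) (s : ℝ) => ‖𝓕 (gs k t (fun _ => s) g) x‖ₑ ^ 4) := by
  have h := (F_meas k hg).comp
    (f := fun r : E 2 × ℝ => (((t, r.2) : ℝ × ℝ), r.1)) (by fun_prop)
  exact h.enorm.pow_const 4

lemma QA (k : ℕ) {g : E 2 → ℂ} (hg : Measurable g) :
    Measurable (Function.uncurry fun (t s : ℝ) => Fo k g t s) := Fo_meas k hg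

lemma Fo_loc (m : ℕ) {T M c d : ℝ} (hc : 0 < c) (hcd : c ≤ d) (hd : d < 1) (hT : 1 ≤ T)
    (hdT : (d - c) * T ≤ 1) {f : E 2 → ℂ} (hf : DS M f) (L1 : ℝ) (hL : L1 ∈ Icc c d)
    (t : ℝ) (ht : t ∈ ST T) : ENNReal.ofReal (d - c) * Fo m f t L1 ≤
      cS m * ∫⁻ s in Icc c d, (Fo m f t s + Fo (m + 1) (rf f) t s + Fo (m + 2) (rf f) t s) := by
  have hB : ∀ x, ENNReal.ofReal (d - c) * ‖𝓕 (gs m t (fun _ => L1) f) x‖ₑ ^ 4 ≤
      cS m * ∫⁻ s in Icc c d, (‖𝓕 (gs m t (fun _ => s) f) x‖ₑ ^ 4 +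
        ‖𝓕 (gs (m + 1) t (fun _ => s) (rf f)) x‖ₑ ^ 4 +
        ‖𝓕 (gs (m + 2) t (fun _ => s) (rf f)) x‖ₑ ^ 4) := fun x =>
      sob_F m hc hcd hd hT hdT ht.2 hf x L1 hL
  have h1 : ENNReal.ofReal (d - c) * Fo m f t L1 =
      ∫⁻ x, ENNReal.ofReal (d - c) * ‖𝓕 (gs m t (fun _ => L1) f) x‖ₑ ^ 4 := by
    unfold Fo
    rw [lintegral_const_mul' _ _ ENNReal.ofReal_ne_top]
  rw [h1]
  refine (lintegral_mono hB).trans ?_
  rw [lintegral_const_mul' _ _ (cS_lt m).ne]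
  refine mul_le_mul' le_rfl ?_
  exact (swap3 volume (volume.restrict (Icc c d)) _ _ _ (FA m hf.meas t)
    (FA (m + 1) (rf_DS hf).meas t) (FA (m + 2) (rf_DS hf).meas t)).le

theorem D_loc (m : ℕ) {T M c d : ℝ} (hc : 0 < c) (hcd : c ≤ d) (hd : d < 1) (hT : 1 ≤ T)
    (hdT : (d - c) * T ≤ 1) {f : E 2 → ℂ} (hf : DS M f) (L1 : ℝ) (hL : L1 ∈ Icc c d) :
    ENNReal.ofReal (d - c) * DM m T (fun _ => L1) f ≤
      cS m * ∫⁻ s in Icc c d, Zm m T s f := by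
  have h1 : ENNReal.ofReal (d - c) * DM m T (fun _ => L1) f =
      ∫⁻ t in ST T, ENNReal.ofReal (d - c) * Fo m f t L1 := by
    unfold DM Fo
    rw [lintegral_const_mul' _ _ ENNReal.ofReal_ne_top]
  rw [h1]
  refine (setLIntegral_mono' (ST_meas T)
    (fun t ht => Fo_loc m hc hcd hd hT hdT hf L1 hL t ht)).trans ?_
  rw [lintegral_const_mul' _ _ (cS_lt m).ne]
  refine mul_le_mul' le_rfl ?_
  exact (swap3 (volume.restrict (ST T)) (volume.restrict (Icc c d)) _ _ _ (QA m hf.meas)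
    (QA (m + 1) (rf_DS hf).meas) (QA (m + 2) (rf_DS hf).meas)).le

/-- the averaged fourth moment, bounded densities -/
theorem m4b {a b : ℝ} (ha : 0 < a) (hab : a ≤ b) (hb : b < 1) (m : ℕ) {e : ℝ} (he : 0 < e) :
    ∃ C : ℝ≥0∞, C < ⊤ ∧ ∀ T : ℝ, 1 ≤ T → ∀ (M : ℝ) (f : E 2 → ℂ), DS M f →
      ∫⁻ σ in Icc a b, DM m T (fun _ => σ) f ≤
        C * ENNReal.ofReal (T ^ (-1 + e)) * ENNReal.ofReal (M ^ 4) := by
  obtain ⟨e', he'⟩ : ∃ x : ℝ, x = min e (2 / 3) := ⟨_, rfl⟩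
  have he0 : 0 < e' := by rw [he']; exact lt_min he (by norm_num)
  have he1 : e' ≤ 2 / 3 := by rw [he']; exact min_le_right _ _
  have hee : e' ≤ e := by rw [he']; exact min_le_left _ _
  obtain ⟨θ, hθ⟩ : ∃ x : ℝ, x = 1 - e' / 2 := ⟨_, rfl⟩
  have hθ0 : 0 < θ := by rw [hθ]; linarith
  have hθ1 : θ < 1 := by rw [hθ]; linarith
  obtain ⟨C, hC, hmain⟩ := four_bd (k := 2) (a := a / 2) (b := (1 + b) / 2) (by linarith)
    (by linarith) (by linarith) m hθ0 hθ1.le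
  refine ⟨ENNReal.ofReal (Real.exp 2) * ENNReal.ofReal ((a / 2) * ((1 - b) / 2))⁻¹ *
    (2 * (ENNReal.ofReal C * Sg 2 θ)),
    ENNReal.mul_lt_top (ENNReal.mul_lt_top ENNReal.ofReal_lt_top ENNReal.ofReal_lt_top)
      (ENNReal.mul_lt_top (by norm_num) (ENNReal.mul_lt_top ENNReal.ofReal_lt_top
        (Sg_lt hθ0 hθ1))), fun T hT M f hf => ?_⟩
  have hT0 : 0 < T := by linarith
  have hM : 0 ≤ M := (norm_nonneg _).trans (hf.bd 0)
  refine (red ha hb m hT0 hf.meas _ (fun ε hε => hmain T hT0 ε hε M f hf)).trans ?_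
  have e1 : ENNReal.ofReal (C * (T * (T ^ 2) ^ (-θ)) * M ^ 4) ≤
      ENNReal.ofReal C * ENNReal.ofReal (T ^ (-1 + e)) * ENNReal.ofReal (M ^ 4) := by
    rw [← ENNReal.ofReal_mul hC.le, ← ENNReal.ofReal_mul (by positivity)]
    apply ENNReal.ofReal_le_ofReal
    rw [pow_aux hT0 θ]
    have : T ^ (1 - 2 * θ) ≤ T ^ (-1 + e) := by
      apply Real.rpow_le_rpow_of_exponent_le hT
      rw [hθ]
      linarith
    gcongr
  calc _ ≤ ENNReal.ofReal (Real.exp 2) * ENNReal.ofReal ((a / 2) * ((1 - b) / 2))⁻¹ *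
        (2 * (ENNReal.ofReal C * ENNReal.ofReal (T ^ (-1 + e)) * ENNReal.ofReal (M ^ 4) *
          Sg 2 θ)) :=
        mul_le_mul' le_rfl (mul_le_mul' le_rfl (mul_le_mul' e1 le_rfl))
    _ = _ := by ring

end Pool.Agent.R245.OD
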