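import Mathlib
import Pool.Agent.R245.OD.Loc
import Pool.Agent.R245.OD.Fin
import Pool.Agent.W777.DL.Dim
set_option autoImplicit false

/-! The exceptional isotropic dilations of a bounded density. -/

namespace Pool.Agent.R245.OD

open MeasureTheory Set Metric Complex FourierTransform Filter
open scoped ENNReal RealInnerProductSpace ComplexConjugate Topology
open Pool.Agent.W203.SP (ee pw gs DS DM NQ)
open Pool.Agent.H153R4 (E BS ST ST_meas ST_vol cube cube_vol cube_meas plancherel interp)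
open Pool.Agent.W777.DL (dim_bound)

lemma two_gs {m : ℕ} {σ M t : ℝ} (h0 : 0 < σ) (h1 : σ < 1) {f : E 2 → ℂ} (hf : DS M f) :
    ∫⁻ x, ‖𝓕 (gs m t (fun _ => σ) f) x‖ₑ ^ 2 ≤
      volume (cube 2) * ENNReal.ofReal (((kb σ ^ m)⁻¹ * M) ^ 2) := by
  have h := gs_BS h0 h1 m t (σ := σ) ⟨le_rfl, le_rfl⟩ hf
  rw [plancherel _ h.int (h.memLp 2)]
  exact h.l2

lemma NQ_fin {m : ℕ} {σ M q : ℝ} (h0 : 0 < σ) (h1 : σ < 1) (hq : 2 ≤ q) {f : E 2 → ℂ}
    (hf : DS M f) (S : Set ℝ) (hS : volume S ≠ ⊤) : NQ m q S (fun _ => σ) f < ⊤ := by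
  set B := (volume (cube 2)).toReal * ((kb σ ^ m)⁻¹ * M) with hB
  have hpt : ∀ t, ∫⁻ x, ‖𝓕 (gs m t (fun _ => σ) f) x‖ₑ ^ q ≤ ENNReal.ofReal B ^ (q - 2) *
      (volume (cube 2) * ENNReal.ofReal (((kb σ ^ m)⁻¹ * M) ^ 2)) := by
    intro t
    have hg := gs_BS h0 h1 m t (σ := σ) ⟨le_rfl, le_rfl⟩ hf
    have hsup : ∀ x, ‖𝓕 (gs m t (fun _ => σ) f) x‖ₑ ≤ ENNReal.ofReal B := by
      intro x
      rw [← ofReal_norm]
      exact ENNReal.ofReal_le_ofReal (hg.fbd x)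
    calc ∫⁻ x, ‖𝓕 (gs m t (fun _ => σ) f) x‖ₑ ^ q
        ≤ ∫⁻ x, ENNReal.ofReal B ^ (q - 2) * ‖𝓕 (gs m t (fun _ => σ) f) x‖ₑ ^ 2 := by
          apply lintegral_mono
          intro x
          simp only
          have e1 : ‖𝓕 (gs m t (fun _ => σ) f) x‖ₑ ^ q =
              ‖𝓕 (gs m t (fun _ => σ) f) x‖ₑ ^ (q - 2) *
                ‖𝓕 (gs m t (fun _ => σ) f) x‖ₑ ^ 2 := by
            rw [← ENNReal.rpow_natCast, ← ENNReal.rpow_add_of_nonneg _ _ (by linarith)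
              (by norm_num)]
            congr 1
            push_cast
            ring
          rw [e1]
          exact mul_le_mul' (ENNReal.rpow_le_rpow (hsup x) (by linarith)) le_rfl
      _ ≤ _ := by
          rw [lintegral_const_mul' _ _ (ENNReal.rpow_ne_top_of_nonneg (by linarith)
            ENNReal.ofReal_ne_top)]
          exact mul_le_mul' le_rfl (two_gs h0 h1 hf)
  unfold NQ
  refine lt_of_le_of_lt (lintegral_mono hpt) ?_
  rw [lintegral_const, Measure.restrict_apply_univ]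
  refine ENNReal.mul_lt_top (ENNReal.mul_lt_top ?_ ?_) hS.lt_top
  · exact (ENNReal.rpow_ne_top_of_nonneg (by linarith) ENNReal.ofReal_ne_top).lt_top
  · exact ENNReal.mul_lt_top (cube_vol 2) ENNReal.ofReal_lt_top

lemma F_meas1 (m : ℕ) (σ : ℝ) {f : E 2 → ℂ} (hf : Measurable f) :
    Measurable fun p : ℝ × E 2 => ‖𝓕 (gs m p.1 (fun _ => σ) f) p.2‖ₑ := by
  have h := (F_meas m hf).comp
    (f := fun r : ℝ × E 2 => (((r.1, σ) : ℝ × ℝ), r.2)) (by fun_prop)
  exact h.enorm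

lemma NQ_interp1 {m : ℕ} {σ M q T : ℝ} (h0 : 0 < σ) (h1 : σ < 1) (hq2 : 2 ≤ q) (hq4 : q ≤ 4)
    (hT : 0 ≤ T) {f : E 2 → ℂ} (hf : DS M f) : NQ m q (ST T) (fun _ => σ) f ≤
      (ENNReal.ofReal (2 * T) * (volume (cube 2) *
        ENNReal.ofReal (((kb σ ^ m)⁻¹ * M) ^ 2))) ^
        ((4 - q) / 2) * DM m T (fun _ => σ) f ^ ((q - 2) / 2) := by
  have hm := F_meas1 m σ hf.meas
  have h := interp ((volume.restrict (ST T)).prod (volume : Measure (E 2)))
    _ hm q hq2 hq4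
  rw [lintegral_prod _ (hm.pow_const q).aemeasurable,
    lintegral_prod _ (hm.pow_const 2).aemeasurable,
    lintegral_prod _ (hm.pow_const 4).aemeasurable] at h
  refine h.trans ?_
  have e4 : ∫⁻ t in ST T, ∫⁻ x, ‖𝓕 (gs m t (fun _ => σ) f) x‖ₑ ^ 4 = DM m T (fun _ => σ) f := rfl
  simp only
  rw [e4]
  gcongr
  refine (lintegral_mono fun t => two_gs h0 h1 hf).trans ?_
  rw [lintegral_const, Measure.restrict_apply_univ, mul_comm]
  gcongr
  exact ST_vol T hT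

theorem NQ_univ {m : ℕ} {σ M q γ : ℝ} (h0 : 0 < σ) (h1 : σ < 1) (hq2 : 2 < q) (hq4 : q ≤ 4)
    (hγ : (4 - q) / (q - 2) < γ) {f : E 2 → ℂ} (hf : DS M f)
    (hD : ∀ᶠ j : ℕ in atTop, DM m ((2 ^ j : ℕ) : ℝ) (fun _ => σ) f ≤
      ENNReal.ofReal (((2 ^ j : ℕ) : ℝ) ^ (-γ))) :
    NQ m q univ (fun _ => σ) f < ⊤ := by
  obtain ⟨J, hJ⟩ := eventually_atTop.1 hD
  set K : ℝ≥0∞ := volume (cube 2) * ENNReal.ofReal (((kb σ ^ m)⁻¹ * M) ^ 2) with hK
  have hKf : K ≠ ⊤ := ENNReal.mul_ne_top (cube_vol 2).ne ENNReal.ofReal_ne_top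
  set A : ℝ≥0∞ := (2 * K) ^ ((4 - q) / 2) with hA
  have hAf : A < ⊤ := (ENNReal.rpow_ne_top_of_nonneg (by linarith)
    (ENNReal.mul_ne_top (by norm_num) hKf)).lt_top
  set ρ : ℝ := (2:ℝ) ^ ((4 - q) / 2 - γ * ((q - 2) / 2)) with hρ
  have hgeo : ∀ j, J ≤ j → NQ m q (ST ((2 ^ j : ℕ) : ℝ)) (fun _ => σ) f ≤
      A * ENNReal.ofReal ρ ^ j := by
    intro j hj
    have hNpos : (0:ℝ) < ((2 ^ j : ℕ) : ℝ) := by positivity
    refine (NQ_interp1 h0 h1 hq2.le hq4 hNpos.le hf).trans ?_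
    set N : ℝ := ((2 ^ j : ℕ) : ℝ) with hN
    have h1 := hJ j hj
    calc (ENNReal.ofReal (2 * N) * K) ^ ((4 - q) / 2) * DM m N (fun _ => σ) f ^ ((q - 2) / 2)
        ≤ (ENNReal.ofReal (2 * N) * K) ^ ((4 - q) / 2) *
          ENNReal.ofReal (N ^ (-γ)) ^ ((q - 2) / 2) := by
          gcongr
      _ = A * (ENNReal.ofReal N ^ ((4 - q) / 2) * ENNReal.ofReal (N ^ (-γ)) ^ ((q - 2) / 2)) := by
          have e1 : ENNReal.ofReal (2 * N) * K = (2 * K) * ENNReal.ofReal N := by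
            rw [ENNReal.ofReal_mul (by norm_num)]
            have : ENNReal.ofReal 2 = 2 := by norm_num
            rw [this]
            ring
          rw [e1, ENNReal.mul_rpow_of_nonneg _ _ (by linarith), hA]
          ring
      _ = A * ENNReal.ofReal ρ ^ j := by
          congr 1
          rw [ENNReal.ofReal_rpow_of_pos hNpos, ENNReal.ofReal_rpow_of_pos (by positivity),
            ← ENNReal.ofReal_mul (by positivity), ← ENNReal.ofReal_pow (by positivity)]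
          congr 1
          have hNj : N = (2:ℝ) ^ (j : ℝ) := by
            rw [hN]
            push_cast
            rw [Real.rpow_natCast]
          rw [hρ, hNj, ← Real.rpow_natCast, ← Real.rpow_mul (by norm_num),
            ← Real.rpow_mul (by norm_num), ← Real.rpow_mul (by norm_num),
            ← Real.rpow_mul (by norm_num), ← Real.rpow_add (by norm_num)]
          congr 1
          ring
  have hρ1 : ENNReal.ofReal ρ < 1 := by
    rw [← ENNReal.ofReal_one, ENNReal.ofReal_lt_ofReal_iff zero_lt_one, hρ]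
    apply Real.rpow_lt_one_of_one_lt_of_neg (by norm_num)
    rw [div_lt_iff₀ (by linarith)] at hγ
    linarith
  have hsum : ∑' j : ℕ, NQ m q (ST ((2 ^ j : ℕ) : ℝ)) (fun _ => σ) f < ⊤ := by
    have h3 : ∀ j : ℕ, NQ m q (ST ((2 ^ j : ℕ) : ℝ)) (fun _ => σ) f ≤
        (if j ∈ Finset.range J then NQ m q (ST ((2 ^ j : ℕ) : ℝ)) (fun _ => σ) f else 0) +
          A * ENNReal.ofReal ρ ^ j := by
      intro j
      by_cases hj : j ∈ Finset.range J
      · rw [if_pos hj]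
        exact le_self_add
      · rw [if_neg hj, zero_add]
        exact hgeo j (by simpa using hj)
    refine lt_of_le_of_lt (ENNReal.tsum_le_tsum h3) ?_
    rw [ENNReal.tsum_add]
    refine ENNReal.add_lt_top.2 ⟨?_, ?_⟩
    · rw [tsum_eq_sum (s := Finset.range J) (fun j hj => if_neg hj)]
      refine ENNReal.sum_lt_top.2 fun j hj => ?_
      rw [if_pos hj]
      apply NQ_fin h0 h1 hq2.le hf
      exact ne_top_of_le_ne_top ENNReal.ofReal_ne_top (ST_vol _ (by positivity))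
    · rw [ENNReal.tsum_mul_left, ENNReal.tsum_geometric]
      refine ENNReal.mul_lt_top hAf ?_
      rw [ENNReal.inv_lt_top, tsub_pos_iff_lt]
      exact hρ1
  have h2 : NQ m q univ (fun _ => σ) f ≤ NQ m q (Icc (-1) 1) (fun _ => σ) f +
      ∑' j : ℕ, NQ m q (ST ((2 ^ j : ℕ) : ℝ)) (fun _ => σ) f := by
    have hc : (univ : Set ℝ) ⊆ Icc (-1) 1 ∪ ⋃ j : ℕ, ST ((2 ^ j : ℕ) : ℝ) := by
      have := cover_ST
      push_cast
      exact this
    unfold NQ
    refine (lintegral_mono_set hc).trans ?_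
    refine (lintegral_union_le _ _ _).trans ?_
    gcongr
    exact lintegral_iUnion_le _ _
  refine lt_of_le_of_lt h2 (ENNReal.add_lt_top.2 ⟨?_, hsum⟩)
  apply NQ_fin h0 h1 hq2.le hf
  rw [Real.volume_Icc]
  exact ENNReal.ofReal_ne_top

/-- the set of dilations with a large fourth moment for infinitely many scales -/
def Bad (m : ℕ) (f : E 2 → ℂ) (γ c w : ℝ) : Set ℝ :=
  {L ∈ Icc c (c + w) | ∃ᶠ j : ℕ in atTop,
    ENNReal.ofReal (((2 ^ j : ℕ) : ℝ) ^ (-γ)) < DM m ((2 ^ j : ℕ) : ℝ) (fun _ => L) f}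

lemma DM_meas1 (m : ℕ) (T : ℝ) {f : E 2 → ℂ} (hf : Measurable f) :
    Measurable fun L : ℝ => DM m T (fun _ => L) f := by
  have h : Measurable fun r : ℝ × ℝ => Fo m f r.2 r.1 :=
    (Fo_meas m hf).comp (f := fun r : ℝ × ℝ => (r.2, r.1)) (by fun_prop)
  exact h.lintegral_prod_right'

lemma bad_dim (m : ℕ) {M : ℝ} {f : E 2 → ℂ} (hf : DS M f) {γ c w : ℝ} (hγ : 0 ≤ γ) (hc : 0 < c)
    (hw : 0 < w) (hw1 : w ≤ 1) (hcw : c + w < 1) : dimH (Bad m f γ c w) ≤ ENNReal.ofReal γ := by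
  have key : ∀ e : ℝ, 0 < e → dimH (Bad m f γ c w) ≤ ENNReal.ofReal (γ + e) := by
    intro e he
    obtain ⟨A0, hA0, g0⟩ := m4b hc (by linarith : c ≤ c + w) hcw m he
    obtain ⟨A1, hA1, g1⟩ := m4b hc (by linarith : c ≤ c + w) hcw (m + 1) he
    obtain ⟨A2, hA2, g2⟩ := m4b hc (by linarith : c ≤ c + w) hcw (m + 2) he
    refine dim_bound hw (fun j L => DM m ((2 ^ j : ℕ) : ℝ) (fun _ => L) f)
      (fun j L => Zm m ((2 ^ j : ℕ) : ℝ) L f) (cS m)
      ((A0 + A1 + A2) * ENNReal.ofReal (M ^ 4)) (cS_lt m).ne ?_ γ e (by linarith) ?_ ?_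
    · exact (ENNReal.mul_lt_top (ENNReal.add_lt_top.2 ⟨ENNReal.add_lt_top.2 ⟨hA0, hA1⟩, hA2⟩)
        ENNReal.ofReal_lt_top).ne
    · intro j k hk L hL
      have hN : (0:ℝ) < ((2 ^ j : ℕ) : ℝ) := by positivity
      have hN1 : (1:ℝ) ≤ ((2 ^ j : ℕ) : ℝ) := by exact_mod_cast Nat.one_le_two_pow
      have hh : 0 < w / ((2 ^ j : ℕ) : ℝ) := by positivity
      have hkN : ((k : ℝ) + 1) ≤ ((2 ^ j : ℕ) : ℝ) := by exact_mod_cast hk
      have hdc : (c + (k + 1) * (w / ((2 ^ j : ℕ) : ℝ))) - (c + k * (w / ((2 ^ j : ℕ) : ℝ))) =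
          w / ((2 ^ j : ℕ) : ℝ) := by ring
      have hle : (k + 1) * (w / ((2 ^ j : ℕ) : ℝ)) ≤ w := by
        calc (k + 1) * (w / ((2 ^ j : ℕ) : ℝ)) ≤ ((2 ^ j : ℕ) : ℝ) * (w / ((2 ^ j : ℕ) : ℝ)) := by
              gcongr
          _ = w := by field_simp
      have h := D_loc m (T := ((2 ^ j : ℕ) : ℝ)) (c := c + k * (w / ((2 ^ j : ℕ) : ℝ)))
        (d := c + (k + 1) * (w / ((2 ^ j : ℕ) : ℝ))) (by positivity)
        (by linarith) (by linarith) hN1
        (by rw [hdc, div_mul_cancel₀ _ hN.ne']; exact hw1) hf L hL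
      rw [hdc] at h
      exact h
    · intro j
      have hN1 : (1:ℝ) ≤ ((2 ^ j : ℕ) : ℝ) := by exact_mod_cast Nat.one_le_two_pow
      set N : ℝ := ((2 ^ j : ℕ) : ℝ) with hN
      have hr := rf_DS hf
      unfold Zm
      rw [lintegral_add_right _ (DM_meas1 (m + 2) N hr.meas),
        lintegral_add_right _ (DM_meas1 (m + 1) N hr.meas)]
      have e : N ^ (-1 + e) = N ^ (e - 1) := by congr 1; ring
      have b0 := g0 N hN1 M f hf
      have b1 := g1 N hN1 M (rf f) hr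
      have b2 := g2 N hN1 M (rf f) hr
      rw [e] at b0 b1 b2
      refine (add_le_add (add_le_add b0 b1) b2).trans (le_of_eq ?_)
      ring
  rw [← ENNReal.ofReal_toReal (a := dimH (Bad m f γ c w))
    (ne_top_of_le_ne_top ENNReal.ofReal_ne_top (key 1 one_pos))]
  apply ENNReal.ofReal_le_ofReal
  apply le_of_forall_pos_le_add
  intro e he
  have h := ENNReal.toReal_mono ENNReal.ofReal_ne_top (key e he)
  rwa [ENNReal.toReal_ofReal (by linarith)] at h

theorem exc_dim (m : ℕ) {M : ℝ} {f : E 2 → ℂ} (hf : DS M f) {q : ℝ} (hq2 : 2 < q) (hq4 : q ≤ 4) :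
    dimH {σ : ℝ | 0 < σ ∧ σ < 1 ∧ NQ m q univ (fun _ => σ) f = ⊤} ≤
      ENNReal.ofReal ((4 - q) / (q - 2)) := by
  have hg0 : 0 ≤ (4 - q) / (q - 2) := div_nonneg (by linarith) (by linarith)
  have key : ∀ γ : ℝ, (4 - q) / (q - 2) < γ →
      dimH {σ : ℝ | 0 < σ ∧ σ < 1 ∧ NQ m q univ (fun _ => σ) f = ⊤} ≤ ENNReal.ofReal γ := by
    intro γ hγ
    have hsub : {σ : ℝ | 0 < σ ∧ σ < 1 ∧ NQ m q univ (fun _ => σ) f = ⊤} ⊆
        ⋃ n : ℕ, Bad m f γ (1 / ((n : ℝ) + 3)) (1 - 2 / ((n : ℝ) + 3)) := by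
      rintro σ ⟨s0, s1, hs⟩
      obtain ⟨n, hn⟩ := exists_nat_gt (max (1 / σ) (1 / (1 - σ)))
      have hn3 : (0:ℝ) < (n:ℝ) + 3 := by positivity
      have a1 : 1 / σ < n + 3 := by
        have := le_max_left (1 / σ) (1 / (1 - σ))
        linarith
      have a2 : 1 / (1 - σ) < n + 3 := by
        have := le_max_right (1 / σ) (1 / (1 - σ))
        linarith
      have s1' : 0 < 1 - σ := by linarith
      rw [div_lt_iff₀ s0] at a1
      rw [div_lt_iff₀ s1'] at a2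
      have c1 : 1 / ((n : ℝ) + 3) ≤ σ := by
        rw [div_le_iff₀ hn3]
        linarith
      have c2 : 1 / ((n : ℝ) + 3) ≤ 1 - σ := by
        rw [div_le_iff₀ hn3]
        linarith
      refine mem_iUnion.2 ⟨n, ⟨c1, ?_⟩, ?_⟩
      · have : 2 / ((n:ℝ) + 3) = 1 / ((n:ℝ) + 3) + 1 / ((n:ℝ) + 3) := by ring
        rw [this]
        linarith
      · by_contra hcon
        rw [not_frequently] at hcon
        have := NQ_univ s0 s1 hq2 hq4 hγ hf (m := m) (by
          filter_upwards [hcon] with j hj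
          exact not_lt.1 hj)
        rw [hs] at this
        exact lt_irrefl _ this
    refine (dimH_mono hsub).trans ?_
    rw [dimH_iUnion]
    refine iSup_le fun n => ?_
    have hn3 : (0:ℝ) < (n:ℝ) + 3 := by positivity
    have c3 : 1 / ((n : ℝ) + 3) ≤ 1 / 3 := by
      apply one_div_le_one_div_of_le (by norm_num)
      have := Nat.cast_nonneg (α := ℝ) n
      linarith
    have c4 : 0 < 1 / ((n : ℝ) + 3) := by positivity
    have c5 : 2 / ((n:ℝ) + 3) = 1 / ((n:ℝ) + 3) + 1 / ((n:ℝ) + 3) := by ring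
    apply bad_dim m hf (by linarith) c4
    · rw [c5]; linarith
    · rw [c5]; linarith
    · rw [c5]; linarith
  rw [← ENNReal.ofReal_toReal
    (a := dimH {σ : ℝ | 0 < σ ∧ σ < 1 ∧ NQ m q univ (fun _ => σ) f = ⊤})
    (ne_top_of_le_ne_top ENNReal.ofReal_ne_top (key ((4 - q) / (q - 2) + 1) (by linarith)))]
  apply ENNReal.ofReal_le_ofReal
  apply le_of_forall_pos_le_add
  intro e he
  have h := ENNReal.toReal_mono ENNReal.ofReal_ne_top (key ((4 - q) / (q - 2) + e) (by linarith))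
  rwa [ENNReal.toReal_ofReal (by linarith)] at h

end Pool.Agent.R245.OD
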