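import Mathlib
import Pool.Agent.TH335.RF.P4
set_option autoImplicit false

/-! Rotations, modulations and absolutely convergent superpositions of densities on the sphere. -/

namespace Pool.Agent.R245.OD

open MeasureTheory Measure Set Complex Filter Metric
open scoped ENNReal NNReal RealInnerProductSpace Topology Pointwise
open Pool.Agent.TH335.RF (mink)

/-- surface measure on the unit sphere -/
noncomputable def sS (n : ℕ) : Measure (sphere (0 : EuclideanSpace ℝ (Fin n)) 1) :=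
  (volume : Measure (EuclideanSpace ℝ (Fin n))).toSphere

instance {n : ℕ} : IsFiniteMeasure (sS n) := by
  unfold sS
  infer_instance

/-- the Fourier transform of the measure `g dσ` -/
noncomputable def fS {n : ℕ} (g : sphere (0 : EuclideanSpace ℝ (Fin n)) 1 → ℂ)
    (ξ : EuclideanSpace ℝ (Fin n)) : ℂ :=
  ∫ x, Complex.exp (-(2 * Real.pi * ⟪(x : EuclideanSpace ℝ (Fin n)), ξ⟫ : ℝ) * I) * g x ∂(sS n)

/-- restriction of a linear isometry to the unit sphere -/
noncomputable def sphMap {n : ℕ} (U : EuclideanSpace ℝ (Fin n) ≃ₗᵢ[ℝ] EuclideanSpace ℝ (Fin n))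
    (x : sphere (0 : EuclideanSpace ℝ (Fin n)) 1) : sphere (0 : EuclideanSpace ℝ (Fin n)) 1 :=
  ⟨U x, by simp⟩

lemma continuous_sphMap {n : ℕ} (U : EuclideanSpace ℝ (Fin n) ≃ₗᵢ[ℝ] EuclideanSpace ℝ (Fin n)) :
    Continuous (sphMap U) :=
  (U.continuous.comp continuous_subtype_val).subtype_mk _

lemma toSphere_preimage {n : ℕ} (U : EuclideanSpace ℝ (Fin n) ≃ₗᵢ[ℝ] EuclideanSpace ℝ (Fin n))
    {s : Set (sphere (0 : EuclideanSpace ℝ (Fin n)) 1)} (hs : MeasurableSet s) :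
    (sS n) (sphMap U ⁻¹' s) = (sS n) s := by
  unfold sS
  rw [Measure.toSphere_apply' _ hs,
    Measure.toSphere_apply' _ ((continuous_sphMap U).measurable hs)]
  congr 1
  have h : (Ioo (0 : ℝ) 1 • ((↑) '' (sphMap U ⁻¹' s)) : Set (EuclideanSpace ℝ (Fin n))) =
      U ⁻¹' (Ioo (0 : ℝ) 1 • ((↑) '' s)) := by
    ext x
    simp only [Set.mem_smul, mem_image, mem_preimage, Subtype.exists, exists_and_right,
      exists_eq_right]
    constructor
    · rintro ⟨r, hr, y, ⟨hy, hys⟩, rfl⟩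
      exact ⟨r, hr, U y, ⟨by simpa using hy, hys⟩, by simp⟩
    · rintro ⟨r, hr, y, ⟨hy, hys⟩, hxy⟩
      refine ⟨r, hr, U.symm y, ⟨by simpa using hy, ?_⟩, ?_⟩
      · have : sphMap U ⟨U.symm y, by simpa using hy⟩ = ⟨y, hy⟩ := by
          simp [sphMap]
        rw [this]; exact hys
      · apply U.injective
        rw [← hxy]; simp
  rw [h]
  exact (U.measurePreserving).measure_preimage_emb U.toHomeomorph.measurableEmbedding _

lemma mp_sphMap {n : ℕ} (U : EuclideanSpace ℝ (Fin n) ≃ₗᵢ[ℝ] EuclideanSpace ℝ (Fin n)) :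
    MeasurePreserving (sphMap U) (sS n) (sS n) := by
  refine ⟨(continuous_sphMap U).measurable, ?_⟩
  ext s hs
  rw [Measure.map_apply (continuous_sphMap U).measurable hs, toSphere_preimage U hs]

theorem fS_mod {n : ℕ} (g : sphere (0 : EuclideanSpace ℝ (Fin n)) 1 → ℂ)
    (η ξ : EuclideanSpace ℝ (Fin n)) :
    fS (fun x => Complex.exp ((⟪η, (x : EuclideanSpace ℝ (Fin n))⟫ : ℝ) * I) * g x) ξ =
      fS g (ξ - (2 * Real.pi)⁻¹ • η) := by
  unfold fS
  refine integral_congr_ae (Filter.Eventually.of_forall fun x => ?_)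
  simp only
  rw [← mul_assoc, ← Complex.exp_add, inner_sub_right, real_inner_smul_right,
    real_inner_comm (x : EuclideanSpace ℝ (Fin n)) η]
  have hpi := Real.pi_ne_zero
  congr 2
  push_cast
  field_simp
  ring

theorem fS_rot {n : ℕ} (g : sphere (0 : EuclideanSpace ℝ (Fin n)) 1 → ℂ)
    (hg : AEStronglyMeasurable g (sS n))
    (U : EuclideanSpace ℝ (Fin n) ≃ₗᵢ[ℝ] EuclideanSpace ℝ (Fin n))
    (ξ : EuclideanSpace ℝ (Fin n)) :
    fS (fun x => g (sphMap U x)) ξ = fS g (U ξ) := by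
  unfold fS
  have h1 := (mp_sphMap U).map_eq
  conv_rhs => rw [← h1]
  rw [integral_map (continuous_sphMap U).measurable.aemeasurable]
  · refine integral_congr_ae (Filter.Eventually.of_forall fun x => ?_)
    simp only [sphMap]
    rw [U.inner_map_map]
  · rw [h1]
    have h4 : Continuous fun x : sphere (0 : EuclideanSpace ℝ (Fin n)) 1 =>
        Complex.exp (-(2 * Real.pi * ⟪(x : EuclideanSpace ℝ (Fin n)), U ξ⟫ : ℝ) * I) := by
      fun_prop
    exact h4.aestronglyMeasurable.mul hg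

/-- superposition of modulated and rotated densities -/
theorem superpose {n : ℕ} {q : ℝ} (hq1 : 1 ≤ q) {C : ℝ} (hC : 0 < C) {M : ℕ → ℝ}
    (hM0 : ∀ j, 0 ≤ M j) (hM : Summable M) (h : ℕ → sphere (0 : EuclideanSpace ℝ (Fin n)) 1 → ℂ)
    (η : ℕ → EuclideanSpace ℝ (Fin n))
    (U : ℕ → EuclideanSpace ℝ (Fin n) ≃ₗᵢ[ℝ] EuclideanSpace ℝ (Fin n))
    (hone : ∀ j, Measurable (h j) ∧ (∀ x, ‖h j x‖ ≤ M j) ∧ Measurable (fS (h j)) ∧
      ∫⁻ ξ, ‖fS (h j) ξ‖ₑ ^ q ≤ ENNReal.ofReal (C * M j ^ q))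
    (g : sphere (0 : EuclideanSpace ℝ (Fin n)) 1 → ℂ)
    (hg : ∀ᵐ x ∂(sS n), g x = ∑' j, Complex.exp ((⟪η j, (x : EuclideanSpace ℝ (Fin n))⟫ : ℝ) * I) *
      h j (sphMap (U j) x)) :
    MemLp (fS g) (ENNReal.ofReal q) ∧
      eLpNorm (fS g) (ENNReal.ofReal q) ≤ ENNReal.ofReal (C ^ (1 / q) * ∑' j, M j) := by
  have hq0 : 0 < q := by linarith
  have hsub : ∀ j, Measurable fun ξ : EuclideanSpace ℝ (Fin n) => ξ - (2 * Real.pi)⁻¹ • η j :=
    fun j => measurable_id.sub_const _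
  set gj : ℕ → sphere (0 : EuclideanSpace ℝ (Fin n)) 1 → ℂ := fun j x =>
    Complex.exp ((⟪η j, (x : EuclideanSpace ℝ (Fin n))⟫ : ℝ) * I) * h j (sphMap (U j) x) with hgj
  have hftj : ∀ j, fS (gj j) = fun ξ => fS (h j) (U j (ξ - (2 * Real.pi)⁻¹ • η j)) := by
    intro j
    funext ξ
    rw [hgj]
    simp only
    rw [fS_mod (fun x => h j (sphMap (U j) x)) (η j) ξ,
      fS_rot (h j) (hone j).1.aestronglyMeasurable]
  have hUm : ∀ j, Measurable (U j) := fun j => (U j).continuous.measurable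
  have hmj : ∀ j, Measurable (fS (gj j)) := by
    intro j
    rw [hftj]
    exact ((hone j).2.2.1.comp (hUm j)).comp (hsub j)
  have hLj : ∀ j, (∫⁻ ξ, ‖fS (gj j) ξ‖ₑ ^ q) ^ (1 / q) ≤ ENNReal.ofReal (C ^ (1 / q) * M j) := by
    intro j
    have h1 : ∫⁻ ξ, ‖fS (gj j) ξ‖ₑ ^ q ≤ ENNReal.ofReal (C * M j ^ q) := by
      rw [hftj]
      refine le_trans (le_of_eq ?_) (hone j).2.2.2
      rw [lintegral_sub_right_eq_self (fun ξ => ‖fS (h j) (U j ξ)‖ₑ ^ q)
        ((2 * Real.pi)⁻¹ • η j)]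
      exact (U j).measurePreserving.lintegral_comp ((hone j).2.2.1.enorm.pow_const q)
    refine (ENNReal.rpow_le_rpow h1 (by positivity)).trans (le_of_eq ?_)
    have hMq : 0 ≤ M j ^ q := Real.rpow_nonneg (hM0 j) q
    rw [ENNReal.ofReal_rpow_of_nonneg (by positivity) (by positivity),
      Real.mul_rpow hC.le hMq, ← Real.rpow_mul (hM0 j), mul_one_div_cancel hq0.ne',
      Real.rpow_one]
  have hexm : ∀ η : EuclideanSpace ℝ (Fin n),
      Measurable fun x : sphere (0 : EuclideanSpace ℝ (Fin n)) 1 =>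
        Complex.exp ((⟪η, (x : EuclideanSpace ℝ (Fin n))⟫ : ℝ) * I) := by
    intro η
    have h4 : Continuous fun x : sphere (0 : EuclideanSpace ℝ (Fin n)) 1 =>
      Complex.exp ((⟪η, (x : EuclideanSpace ℝ (Fin n))⟫ : ℝ) * I) := by fun_prop
    exact h4.measurable
  have hsum : ∀ ξ, fS g ξ = ∑' j, fS (gj j) ξ := by
    intro ξ
    unfold fS
    have hexm2 : Measurable fun x : sphere (0 : EuclideanSpace ℝ (Fin n)) 1 =>
        Complex.exp (-(2 * Real.pi * ⟪(x : EuclideanSpace ℝ (Fin n)), ξ⟫ : ℝ) * I) := by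
      have h4 : Continuous fun x : sphere (0 : EuclideanSpace ℝ (Fin n)) 1 =>
        Complex.exp (-(2 * Real.pi * ⟪(x : EuclideanSpace ℝ (Fin n)), ξ⟫ : ℝ) * I) := by fun_prop
      exact h4.measurable
    have hen : ∀ (j : ℕ) (x : sphere (0 : EuclideanSpace ℝ (Fin n)) 1),
        ‖Complex.exp (-(2 * Real.pi * ⟪(x : EuclideanSpace ℝ (Fin n)), ξ⟫ : ℝ) * I) * gj j x‖ₑ ≤
          ENNReal.ofReal (M j) := by
      intro j x
      rw [← ofReal_norm]
      apply ENNReal.ofReal_le_ofReal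
      have h3 : -(((2 * Real.pi * ⟪(x : EuclideanSpace ℝ (Fin n)), ξ⟫ : ℝ)) : ℂ) * I =
          ((-(2 * Real.pi * ⟪(x : EuclideanSpace ℝ (Fin n)), ξ⟫) : ℝ) : ℂ) * I := by
        push_cast; ring
      rw [norm_mul, h3, Complex.norm_exp_ofReal_mul_I, one_mul, hgj]
      simp only [norm_mul, Complex.norm_exp_ofReal_mul_I, one_mul]
      exact (hone j).2.1 _
    rw [← integral_tsum]
    · refine integral_congr_ae ?_
      filter_upwards [hg] with x hx
      rw [hx, ← tsum_mul_left]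
    · exact fun j => (hexm2.mul ((hexm (η j)).mul
        ((hone j).1.comp (continuous_sphMap (U j)).measurable))).aestronglyMeasurable
    · have h5 : ∑' j, ∫⁻ x, ‖Complex.exp (-(2 * Real.pi *
          ⟪(x : EuclideanSpace ℝ (Fin n)), ξ⟫ : ℝ) * I) * gj j x‖ₑ ∂(sS n) ≤
          ∑' j, ENNReal.ofReal (M j) * (sS n) univ := by
        apply ENNReal.tsum_le_tsum
        intro j
        refine (lintegral_mono fun x => hen j x).trans ?_
        rw [lintegral_const]
      refine (h5.trans_lt ?_).ne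
      rw [ENNReal.tsum_mul_right, ← ENNReal.ofReal_tsum_of_nonneg hM0 hM]
      exact ENNReal.mul_lt_top ENNReal.ofReal_lt_top (measure_lt_top _ _)
  have hfun : fS g = fun ξ => ∑' j, fS (gj j) ξ := funext hsum
  have hmeas : Measurable (fS g) := by
    rw [hfun]
    exact Measurable.tsum fun j => hmj j
  have hle : ∫⁻ ξ, ‖fS g ξ‖ₑ ^ q ≤ (ENNReal.ofReal (C ^ (1 / q) * ∑' j, M j)) ^ q := by
    calc ∫⁻ ξ, ‖fS g ξ‖ₑ ^ q ≤ ∫⁻ ξ, (∑' j, ‖fS (gj j) ξ‖ₑ) ^ q := by
          apply lintegral_mono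
          intro ξ
          simp only
          rw [hsum]
          exact ENNReal.rpow_le_rpow enorm_tsum_le_tsum_enorm hq0.le
      _ ≤ (∑' j, (∫⁻ ξ, ‖fS (gj j) ξ‖ₑ ^ q) ^ (1 / q)) ^ q :=
          mink volume q hq1 (fun j ξ => ‖fS (gj j) ξ‖ₑ) fun j => (hmj j).enorm
      _ ≤ (∑' j, ENNReal.ofReal (C ^ (1 / q) * M j)) ^ q :=
          ENNReal.rpow_le_rpow (ENNReal.tsum_le_tsum hLj) hq0.le
      _ = _ := by
          rw [← ENNReal.ofReal_tsum_of_nonneg (fun j => mul_nonneg (by positivity) (hM0 j))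
            (hM.mul_left _), tsum_mul_left]
  have hnorm : eLpNorm (fS g) (ENNReal.ofReal q) ≤
      ENNReal.ofReal (C ^ (1 / q) * ∑' j, M j) := by
    rw [eLpNorm_eq_lintegral_rpow_enorm_toReal (by simpa using hq0) ENNReal.ofReal_ne_top,
      ENNReal.toReal_ofReal hq0.le]
    refine (ENNReal.rpow_le_rpow hle (by positivity)).trans (le_of_eq ?_)
    rw [← ENNReal.rpow_mul, mul_one_div_cancel hq0.ne', ENNReal.rpow_one]
  exact ⟨⟨hmeas.aestronglyMeasurable, hnorm.trans_lt ENNReal.ofReal_lt_top⟩, hnorm⟩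

end Pool.Agent.R245.OD
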